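import Pool.Agent.Q261.RotCore
import Pool.Agent.H916R2.ExpZetaOne
import Pool.Agent.H268R2.RZ_HT

/-!
# Sums of Jacobi symbols over half the period are nonnegative
-/

set_option autoImplicit false

namespace Q261.Rot

open Finset Filter Topology HurwitzZeta
open Pool.Agent.H306R2.RZ (js cas Gk)
open Pool.Agent.H987R2.RZ (Sn Cs)

theorem Sn_eq (d : ℕ) (h4 : d % 4 = 3) (hs : Squarefree d) (k : ℤ) :
    Sn k d = js k d * Real.sqrt d := by
  have h1 := Pool.Agent.H268R2.RZHT.Gk_all k d (by rw [Nat.odd_iff]; omega) hs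
  rw [Pool.Agent.H987R2.RZ.Gk_eq, Pool.Agent.H987R2.RZ.Cs_zero k d h4, zero_add] at h1
  exact h1

/-- the completely multiplicative function `(n / d) n ^ (-s)` -/
noncomputable def fm (d : ℕ) (hd : 1 < d) (s : ℝ) : ℕ →*₀ ℝ where
  toFun n := js (n : ℤ) d * (n : ℝ) ^ (-s)
  map_zero' := by
    have : NeZero d := ⟨by omega⟩
    have h0 : js ((0 : ℕ) : ℤ) d = 0 := by
      unfold Pool.Agent.H306R2.RZ.js
      have : jacobiSym ((0 : ℕ) : ℤ) d = 0 := by
        rw [jacobiSym.eq_zero_iff_not_coprime, Int.gcd_natCast_natCast, Nat.gcd_zero_left]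
        omega
      rw [this]; simp
    rw [h0, zero_mul]
  map_one' := by
    unfold Pool.Agent.H306R2.RZ.js
    simp
  map_mul' m n := by
    unfold Pool.Agent.H306R2.RZ.js
    push_cast
    rw [jacobiSym.mul_left, Real.mul_rpow (Nat.cast_nonneg _) (Nat.cast_nonneg _)]
    push_cast
    ring

theorem fm_apply (d : ℕ) (hd : 1 < d) (s : ℝ) (n : ℕ) :
    fm d hd s n = js (n : ℤ) d * (n : ℝ) ^ (-s) := rfl

theorem js_abs (k : ℤ) (d : ℕ) : |js k d| ≤ 1 := by
  unfold Pool.Agent.H306R2.RZ.js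
  rcases jacobiSym.trichotomy k d with h | h | h <;> rw [h] <;> norm_num

theorem fm_summable (d : ℕ) (hd : 1 < d) {s : ℝ} (hs : 1 < s) : Summable (fun n => ‖fm d hd s n‖) := by
  apply Summable.of_nonneg_of_le (fun _ => norm_nonneg _) _ (Real.summable_nat_rpow.2 (show -s < -1 by linarith))
  intro n
  rw [fm_apply, norm_mul, Real.norm_eq_abs, Real.norm_of_nonneg (by positivity)]
  calc |js (n : ℤ) d| * (n : ℝ) ^ (-s) ≤ 1 * (n : ℝ) ^ (-s) :=
        mul_le_mul_of_nonneg_right (js_abs _ _) (by positivity)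
    _ = _ := one_mul _

theorem tsum_fm_nonneg (d : ℕ) (hd : 1 < d) {s : ℝ} (hs : 1 < s) : 0 ≤ ∑' n, fm d hd s n := by
  have h := EulerProduct.eulerProduct_completely_multiplicative_hasProd (fm_summable d hd hs)
  refine ge_of_tendsto' h ?_
  intro F
  apply prod_nonneg
  intro p _
  apply inv_nonneg.2
  rw [fm_apply]
  have h1 : ((p : ℕ) : ℝ) ^ (-s) ≤ 1 := by
    apply Real.rpow_le_one_of_one_le_of_nonpos
    · exact_mod_cast p.2.one_le
    · linarith
  have h2 : js ((p : ℕ) : ℤ) d * ((p : ℕ) : ℝ) ^ (-s) ≤ 1 := by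
    refine (le_abs_self _).trans ?_
    rw [abs_mul, abs_of_nonneg (Real.rpow_nonneg (Nat.cast_nonneg _) _)]
    calc |js ((p : ℕ) : ℤ) d| * ((p : ℕ) : ℝ) ^ (-s) ≤ 1 * 1 :=
          mul_le_mul (js_abs _ _) h1 (by positivity) (by norm_num)
      _ = 1 := one_mul _
  linarith

theorem sin_sum (d : ℕ) (h4 : d % 4 = 3) (hs : Squarefree d) (hd : 1 < d) {s : ℝ} (h1 : 1 < s) :
    ∑ r ∈ range d, (js (r : ℤ) d : ℂ) * sinZeta (((r : ℝ) / d : ℝ) : UnitAddCircle) s =
      ((Real.sqrt d * ∑' n, fm d hd s n : ℝ) : ℂ) := by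
  have hs' : 1 < (s : ℂ).re := by simpa using h1
  have hA : HasSum (fun n : ℕ => ∑ r ∈ range d, (js (r : ℤ) d : ℂ) *
      (Real.sin (2 * Real.pi * ((r : ℝ) / d : ℝ) * n) / (n : ℂ) ^ (s : ℂ)))
      (∑ r ∈ range d, (js (r : ℤ) d : ℂ) * sinZeta (((r : ℝ) / d : ℝ) : UnitAddCircle) s) :=
    hasSum_sum fun r _ => (hasSum_nat_sinZeta _ hs').mul_left _
  rw [← hA.tsum_eq, Complex.ofReal_mul, Complex.ofReal_tsum, ← tsum_mul_left]
  apply tsum_congr
  intro n
  have h2 : ∑ r ∈ range d, (js (r : ℤ) d : ℂ) *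
      (Real.sin (2 * Real.pi * ((r : ℝ) / d : ℝ) * n) / (n : ℂ) ^ (s : ℂ)) =
      ((Sn (n : ℤ) d : ℝ) : ℂ) / (n : ℂ) ^ (s : ℂ) := by
    unfold Pool.Agent.H987R2.RZ.Sn
    rw [Complex.ofReal_sum, sum_div]
    apply sum_congr rfl
    intro r _
    rw [Complex.ofReal_mul, mul_div_assoc]
    congr 4
    push_cast
    ring
  rw [h2, Sn_eq d h4 hs, fm_apply]
  rcases Nat.eq_zero_or_pos n with rfl | hn
  · have : (s : ℂ) ≠ 0 := by
      intro h
      rw [h] at hs'
      simp at hs'
      linarith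
    have hs0 : s ≠ 0 := by linarith
    simp [this, hs0]
  · have hn0 : (0 : ℝ) ≤ n := Nat.cast_nonneg _
    rw [Complex.ofReal_mul, Complex.ofReal_mul, Complex.ofReal_cpow hn0, Complex.ofReal_neg,
      Complex.cpow_neg]
    push_cast
    rw [div_eq_mul_inv]
    ring

/-- `Q = ∑ (r / d) (1 / 2 - r / d) ≥ 0` -/
theorem Q_nonneg (d : ℕ) (h4 : d % 4 = 3) (hs : Squarefree d) :
    0 ≤ ∑ r ∈ Icc 1 (d - 1), js (r : ℤ) d * (1 / 2 - (r : ℝ) / d) := by
  have hd : 1 < d := by omega
  have hd0 : (0 : ℝ) < d := by exact_mod_cast (by omega : 0 < d)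
  -- the function of `s`
  set F : ℝ → ℝ := fun s =>
    (∑ r ∈ range d, (js (r : ℤ) d : ℂ) * sinZeta (((r : ℝ) / d : ℝ) : UnitAddCircle) s).re with hF
  have hcont : Continuous F := by
    apply Complex.continuous_re.comp
    apply continuous_finsetSum
    intro r _
    apply Continuous.mul continuous_const
    exact (differentiableAt_sinZeta _).continuous.comp Complex.continuous_ofReal
  have hpos : ∀ s : ℝ, 1 < s → 0 ≤ F s := by
    intro s h1
    simp only [hF]
    rw [sin_sum d h4 hs hd h1, Complex.ofReal_re]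
    exact mul_nonneg (Real.sqrt_nonneg _) (tsum_fm_nonneg d hd h1)
  have h1 : 0 ≤ F 1 := by
    have ht : Tendsto F (𝓝[>] 1) (𝓝 (F 1)) := (hcont.tendsto 1).mono_left nhdsWithin_le_nhds
    refine ge_of_tendsto ht ?_
    filter_upwards [self_mem_nhdsWithin] with s hs'
    exact hpos s hs'
  have h2 : F 1 = Real.pi * ∑ r ∈ Icc 1 (d - 1), js (r : ℤ) d * (1 / 2 - (r : ℝ) / d) := by
    simp only [hF]
    have h3 : range d = insert 0 (Icc 1 (d - 1)) := by
      ext r
      simp only [mem_range, mem_insert, mem_Icc]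
      omega
    have h00 : js ((0 : ℕ) : ℤ) d = 0 := by
      have : NeZero d := ⟨by omega⟩
      unfold Pool.Agent.H306R2.RZ.js
      have : jacobiSym ((0 : ℕ) : ℤ) d = 0 := by
        rw [jacobiSym.eq_zero_iff_not_coprime, Int.gcd_natCast_natCast, Nat.gcd_zero_left]
        omega
      rw [this]; simp
    rw [h3, sum_insert (by simp), h00, Complex.ofReal_zero, zero_mul, zero_add, Complex.re_sum,
      mul_sum]
    apply sum_congr rfl
    intro r hr
    rw [mem_Icc] at hr
    have hr0 : (0 : ℝ) < (r : ℝ) / d := by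
      have : (0 : ℝ) < r := by exact_mod_cast hr.1
      positivity
    have hr1 : (r : ℝ) / d < 1 := by
      rw [div_lt_one hd0]
      exact_mod_cast (by omega : r < d)
    rw [Complex.ofReal_one, Pool.Agent.H916R2.sinZeta_one hr0 hr1]
    rw [← Complex.ofReal_one, Complex.re_ofReal_mul]
    have : ((Real.pi : ℂ) * (((1 : ℝ) : ℂ) / 2 - (((r : ℝ) / d : ℝ) : ℂ))) =
        ((Real.pi * (1 / 2 - (r : ℝ) / d) : ℝ) : ℂ) := by push_cast; ring
    rw [this, Complex.ofReal_re]
    ring
  rw [h2] at h1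
  exact nonneg_of_mul_nonneg_right h1 Real.pi_pos

theorem js_two_sq (d : ℕ) (h4 : d % 4 = 3) : js 2 d * js 2 d = 1 := by
  unfold Pool.Agent.H306R2.RZ.js
  have h1 : jacobiSym (2 : ℤ) d = 1 ∨ jacobiSym (2 : ℤ) d = -1 := by
    apply jacobiSym.eq_one_or_neg_one
    have : Nat.Coprime 2 d := by
      rw [Nat.coprime_two_left, Nat.odd_iff]; omega
    have h2 : Int.gcd 2 (d : ℤ) = Nat.gcd 2 d := by
      rw [← Int.gcd_natCast_natCast]; rfl
    rw [h2]; exact this
  rcases h1 with h | h <;> rw [h] <;> norm_num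

theorem js_mul (a b : ℤ) (d : ℕ) : js (a * b) d = js a d * js b d := by
  unfold Pool.Agent.H306R2.RZ.js
  rw [jacobiSym.mul_left]; push_cast; rfl

theorem js_neg_one (d : ℕ) (h4 : d % 4 = 3) : js (-1) d = -1 := by
  unfold Pool.Agent.H306R2.RZ.js
  rw [js_neg_one_of_three h4]; norm_num

/-- the half sum is nonnegative for squarefree `d ≡ 3 mod 4` -/
theorem S_nonneg_sqf (d : ℕ) (h4 : d % 4 = 3) (hs : Squarefree d) : 0 ≤ S d := by
  have hQ := Q_nonneg d h4 hs
  obtain ⟨k, hk⟩ : ∃ k, d = 2 * k + 1 := ⟨d / 2, by omega⟩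
  have hodd : Odd d := ⟨k, hk⟩
  have hd0 : (d : ℝ) ≠ 0 := by
    have : 0 < d := by omega
    exact_mod_cast this.ne'
  have hSr : (S d : ℝ) = ∑ b ∈ Icc 1 k, js (b : ℤ) d := by
    rw [S]
    have : (d - 1) / 2 = k := by omega
    rw [this]; push_cast; rfl
  have hneg : ∀ r : ℕ, r ≤ d → js ((d - r : ℕ) : ℤ) d = -js (r : ℤ) d := by
    intro r hr
    rw [Pool.Agent.H987R2.RZ.js_neg d hodd r hr, js_neg_one d h4]; ring
  set Q := ∑ r ∈ Icc 1 (d - 1), js (r : ℤ) d * (1 / 2 - (r : ℝ) / d) with hQdef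
  set B := ∑ b ∈ Icc 1 k, js (b : ℤ) d * (b : ℝ) with hB
  -- first expression
  have e1 : Q = (S d : ℝ) - 2 * B / d := by
    have h1 : Icc 1 (d - 1) = Icc 1 k ∪ (Icc 1 k).image (fun b => d - b) := by
      ext r
      simp only [mem_union, mem_Icc, mem_image]
      constructor
      · intro h
        by_cases hrk : r ≤ k
        · left; omega
        · right; exact ⟨d - r, by omega, by omega⟩
      · rintro (h | ⟨b, h, rfl⟩) <;> omega
    rw [hQdef, h1, sum_union, sum_image]
    · have h2 : ∀ b ∈ Icc 1 k, js ((d - b : ℕ) : ℤ) d * (1 / 2 - ((d - b : ℕ) : ℝ) / d) =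
          js (b : ℤ) d * (1 / 2 - (b : ℝ) / d) := by
        intro b hb
        rw [mem_Icc] at hb
        rw [hneg b (by omega), Nat.cast_sub (by omega)]
        field_simp
        ring
      rw [sum_congr rfl h2, hSr, hB, ← sum_add_distrib, mul_sum, sum_div, ← sum_sub_distrib]
      apply sum_congr rfl
      intro b _
      field_simp
      ring
    · intro a ha b hb hab
      simp only [coe_Icc, Set.mem_Icc] at ha hb
      simp only at hab
      omega
    · rw [disjoint_left]
      intro r hr hr'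
      rw [mem_Icc] at hr
      rw [mem_image] at hr'
      obtain ⟨b, hb, rfl⟩ := hr'
      rw [mem_Icc] at hb
      omega
  -- second expression
  have e2 : Q = js 2 d * ((S d : ℝ) - 4 * B / d) := by
    have h1 : Icc 1 (d - 1) = (Icc 1 k).image (fun b => 2 * b) ∪ (Icc 1 k).image (fun b => d - 2 * b) := by
      ext r
      simp only [mem_union, mem_Icc, mem_image]
      constructor
      · intro h
        rcases Nat.even_or_odd r with ⟨b, hb⟩ | ⟨b, hb⟩
        · left; exact ⟨b, by omega, by omega⟩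
        · right; exact ⟨k - b, by omega, by omega⟩
      · rintro (⟨b, h, rfl⟩ | ⟨b, h, rfl⟩) <;> omega
    rw [hQdef, h1, sum_union, sum_image, sum_image]
    · have h2 : ∀ b ∈ Icc 1 k, js ((d - 2 * b : ℕ) : ℤ) d * (1 / 2 - ((d - 2 * b : ℕ) : ℝ) / d) =
          js 2 d * js (b : ℤ) d * (1 / 2 - 2 * (b : ℝ) / d) := by
        intro b hb
        rw [mem_Icc] at hb
        rw [hneg (2 * b) (by omega), Nat.cast_sub (by omega)]
        push_cast
        rw [js_mul]
        field_simp
        ring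
      have h3 : ∀ b ∈ Icc 1 k, js ((2 * b : ℕ) : ℤ) d * (1 / 2 - ((2 * b : ℕ) : ℝ) / d) =
          js 2 d * js (b : ℤ) d * (1 / 2 - 2 * (b : ℝ) / d) := by
        intro b hb
        push_cast
        rw [js_mul]
      rw [sum_congr rfl h2, sum_congr rfl h3, hSr, hB, ← sum_add_distrib, mul_sum, sum_div,
        ← sum_sub_distrib, mul_sum]
      apply sum_congr rfl
      intro b _
      field_simp
      ring
    · intro a ha b hb hab
      simp only [coe_Icc, Set.mem_Icc] at ha hb
      simp only at hab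
      omega
    · intro a ha b hb hab
      simp only at hab
      omega
    · rw [disjoint_left]
      intro r hr hr'
      rw [mem_image] at hr hr'
      obtain ⟨a, ha, rfl⟩ := hr
      obtain ⟨b, hb, hab⟩ := hr'
      rw [mem_Icc] at ha hb
      omega
  have h2sq := js_two_sq d h4
  have e3 : (S d : ℝ) = (2 - js 2 d) * Q := by
    have e4 : js 2 d * Q = (S d : ℝ) - 4 * B / d := by
      rw [e2, ← mul_assoc, h2sq, one_mul]
    have e5 : 2 * Q = 2 * (S d : ℝ) - 4 * B / d := by rw [e1]; ring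
    linarith
  have h5 : (0 : ℝ) ≤ S d := by
    rw [e3]
    apply mul_nonneg _ hQ
    have := (abs_le.1 (js_abs 2 d)).2
    linarith
  exact_mod_cast h5

/-! ### The general case -/

/-- the sum over `0 < a < N / 2`, `a` prime to all the elements of `P` -/
def TT (d : ℕ) (P : Finset ℕ) (n : ℕ) : ℤ :=
  ∑ a ∈ (Icc 1 ((n - 1) / 2)).filter (fun a => ∀ q ∈ P, ¬ q ∣ a), jacobiSym (a : ℤ) d

theorem sum_period_zero (d : ℕ) (h4 : d % 4 = 3) (x : ℕ) :
    ∑ a ∈ Ico x (x + d), jacobiSym (a : ℤ) d = 0 := by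
  have hd0 : 0 < d := by omega
  have hper : ∀ y, ∑ a ∈ Ico y (y + d), jacobiSym (a : ℤ) d = ∑ a ∈ range d, jacobiSym (a : ℤ) d := by
    intro y
    induction y with
    | zero => rw [zero_add, range_eq_Ico]
    | succ y ih =>
      rw [← ih]
      have h1 : ∑ a ∈ Ico y (y + d + 1), jacobiSym (a : ℤ) d =
          jacobiSym (y : ℤ) d + ∑ a ∈ Ico (y + 1) (y + d + 1), jacobiSym (a : ℤ) d := by
        rw [sum_eq_sum_Ico_succ_bot (by omega)]
      have h2 : ∑ a ∈ Ico y (y + d + 1), jacobiSym (a : ℤ) d =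
          ∑ a ∈ Ico y (y + d), jacobiSym (a : ℤ) d + jacobiSym ((y + d : ℕ) : ℤ) d := by
        rw [sum_Ico_succ_top (by omega)]
      have h3 : jacobiSym ((y + d : ℕ) : ℤ) d = jacobiSym (y : ℤ) d := by
        rw [jacobiSym.mod_left, jacobiSym.mod_left (y : ℤ)]
        congr 1
        push_cast
        rw [Int.add_emod_right]
      have h4 : y + 1 + d = y + d + 1 := by ring
      rw [h4]
      linarith
  rw [hper]
  have h1 : ∑ a ∈ range d, jacobiSym (a : ℤ) d = ∑ a ∈ Icc 1 (d - 1), jacobiSym (a : ℤ) d := by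
    have h3 : range d = insert 0 (Icc 1 (d - 1)) := by
      ext r
      simp only [mem_range, mem_insert, mem_Icc]
      omega
    have : NeZero d := ⟨by omega⟩
    have h00 : jacobiSym ((0 : ℕ) : ℤ) d = 0 := by
      rw [jacobiSym.eq_zero_iff_not_coprime, Int.gcd_natCast_natCast, Nat.gcd_zero_left]
      omega
    rw [h3, sum_insert (by simp), h00, zero_add]
  rw [h1]
  have h2 : ∑ a ∈ Icc 1 (d - 1), jacobiSym (a : ℤ) d = -∑ a ∈ Icc 1 (d - 1), jacobiSym (a : ℤ) d := by
    rw [← sum_neg_distrib]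
    refine sum_bij' (fun a _ => d - a) (fun a _ => d - a) ?_ ?_ ?_ ?_ ?_
    · intro a ha; rw [mem_Icc] at ha ⊢; omega
    · intro a ha; rw [mem_Icc] at ha ⊢; omega
    · intro a ha; rw [mem_Icc] at ha; omega
    · intro a ha; rw [mem_Icc] at ha; omega
    · intro a ha
      rw [mem_Icc] at ha
      have h5 := js_neg (p := d) (b := a) (by omega) (by rw [Nat.odd_iff]; omega)
      rw [h5, js_neg_one_of_three h4]
      ring
  linarith

theorem sum_half (d : ℕ) (h4 : d % 4 = 3) (j : ℕ) :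
    ∑ a ∈ Icc 1 ((d * (2 * j + 1) - 1) / 2), jacobiSym (a : ℤ) d = S d := by
  obtain ⟨k, hk⟩ : ∃ k, d = 2 * k + 1 := ⟨d / 2, by omega⟩
  have h0 : ∀ j : ℕ, (d * (2 * j + 1) - 1) / 2 = d * j + k := by
    intro j
    have : d * (2 * j + 1) = 2 * (d * j) + d := by ring
    omega
  have h1 : ∀ m : ℕ, Icc 1 m = Ico 1 (m + 1) := fun m => by ext x; simp only [mem_Icc, mem_Ico]; omega
  rw [h0, h1]
  induction j with
  | zero =>
    rw [mul_zero, zero_add, S, ← h1]
    congr 2
    omega
  | succ j ih =>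
    rw [← ih, ← sum_Ico_consecutive _ (show 1 ≤ d * j + k + 1 by omega)
      (show d * j + k + 1 ≤ d * (j + 1) + k + 1 by
        have : d * (j + 1) = d * j + d := by ring
        omega)]
    have h2 : d * (j + 1) + k + 1 = (d * j + k + 1) + d := by ring
    rw [h2, sum_period_zero d h4, add_zero]

theorem TT_eq (d : ℕ) (h4 : d % 4 = 3) (P : Finset ℕ) (hP : ∀ q ∈ P, q.Prime ∧ q ≠ 2) :
    ∃ c : ℤ, 0 ≤ c ∧ ∀ n : ℕ, Odd n → (d * ∏ q ∈ P, q) ∣ n → TT d P n = c * S d := by
  induction P using Finset.induction_on with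
  | empty =>
    refine ⟨1, by norm_num, ?_⟩
    intro n hn hd
    rw [prod_empty, mul_one] at hd
    obtain ⟨m, rfl⟩ := hd
    have hm : Odd m := (Nat.odd_mul.1 hn).2
    obtain ⟨j, rfl⟩ := hm
    rw [TT, one_mul, ← sum_half d h4 j]
    apply sum_congr _ (fun _ _ => rfl)
    apply filter_true_of_mem
    intro a _ q hq
    simp at hq
  | insert q P hq ih =>
    obtain ⟨c, hc, ih⟩ := ih (fun x hx => hP x (mem_insert_of_mem hx))
    obtain ⟨hqp, hq2⟩ := hP q (mem_insert_self _ _)
    have hjq : jacobiSym (q : ℤ) d ≤ 1 := by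
      rcases jacobiSym.trichotomy (q : ℤ) d with h | h | h <;> rw [h] <;> norm_num
    refine ⟨(1 - jacobiSym (q : ℤ) d) * c, mul_nonneg (by linarith) hc, ?_⟩
    intro n hn hdvd
    rw [prod_insert hq] at hdvd
    obtain ⟨m, rfl⟩ := hdvd
    -- `n = q n'`
    set n' := d * (∏ x ∈ P, x) * m with hn'
    have hnn : d * (q * ∏ x ∈ P, x) * m = q * n' := by rw [hn']; ring
    rw [hnn] at hn ⊢
    have hn'odd : Odd n' := (Nat.odd_mul.1 hn).2
    have hqodd : Odd q := (Nat.odd_mul.1 hn).1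
    have h1 := ih (q * n') hn ⟨q * m, by rw [hn']; ring⟩
    have h2 := ih n' hn'odd ⟨m, rfl⟩
    -- splitting
    have h3 : TT d P (q * n') = TT d (insert q P) (q * n') +
        ∑ a ∈ ((Icc 1 ((q * n' - 1) / 2)).filter (fun a => ∀ x ∈ P, ¬ x ∣ a)).filter (fun a => q ∣ a),
          jacobiSym (a : ℤ) d := by
      rw [TT, TT, ← sum_filter_not_add_sum_filter ((Icc 1 ((q * n' - 1) / 2)).filter
        (fun a => ∀ x ∈ P, ¬ x ∣ a)) (fun a => q ∣ a)]
      congr 1
      apply sum_congr _ (fun _ _ => rfl)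
      ext a
      simp only [mem_filter, mem_insert]
      constructor
      · rintro ⟨⟨h5, h6⟩, h7⟩
        refine ⟨h5, ?_⟩
        rintro x (rfl | hx)
        · exact h7
        · exact h6 x hx
      · rintro ⟨h5, h6⟩
        exact ⟨⟨h5, fun x hx => h6 x (Or.inr hx)⟩, h6 q (Or.inl rfl)⟩
    have h4' : ∑ a ∈ ((Icc 1 ((q * n' - 1) / 2)).filter (fun a => ∀ x ∈ P, ¬ x ∣ a)).filter
        (fun a => q ∣ a), jacobiSym (a : ℤ) d = jacobiSym (q : ℤ) d * TT d P n' := by
      rw [TT, mul_sum]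
      symm
      refine sum_bij' (fun b _ => q * b) (fun a _ => a / q) ?_ ?_ ?_ ?_ ?_
      · intro b hb
        rw [mem_filter, mem_Icc] at hb
        rw [mem_filter, mem_filter, mem_Icc]
        obtain ⟨i, hi⟩ := hn'odd
        obtain ⟨t, ht⟩ := hqodd
        refine ⟨⟨⟨Nat.mul_pos hqp.pos hb.1.1, ?_⟩, ?_⟩, dvd_mul_right _ _⟩
        · have h5 : b ≤ i := by omega
          have h6 : 2 * (q * b) ≤ q * (2 * i) := by nlinarith
          have h7 : q * n' = q * (2 * i) + q := by rw [hi]; ring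
          have hq0 := hqp.pos
          omega
        · intro x hx hxb
          have hxp := (hP x (mem_insert_of_mem hx)).1
          rcases (hxp.dvd_mul).1 hxb with h | h
          · have : x = q := (Nat.prime_dvd_prime_iff_eq hxp hqp).1 h
            subst this
            exact hq hx
          · exact hb.2 x hx h
      · intro a ha
        rw [mem_filter, mem_filter, mem_Icc] at ha
        obtain ⟨⟨⟨ha1, ha2⟩, ha3⟩, b, rfl⟩ := ha
        rw [Nat.mul_div_cancel_left b hqp.pos, mem_filter, mem_Icc]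
        obtain ⟨i, hi⟩ := hn'odd
        have h7 : q * n' = q * (2 * i) + q := by rw [hi]; ring
        have hq0 := hqp.pos
        refine ⟨⟨?_, ?_⟩, ?_⟩
        · rcases Nat.eq_zero_or_pos b with rfl | h
          · simp at ha1
          · exact h
        · have h5 : 2 * (q * b) < q * (2 * i + 1) := by
            have : q * (2 * i + 1) = q * (2 * i) + q := by ring
            omega
          have h6 : 2 * b < 2 * i + 1 := by
            have : q * (2 * b) < q * (2 * i + 1) := by
              calc q * (2 * b) = 2 * (q * b) := by ring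
                _ < _ := h5
            exact lt_of_mul_lt_mul_left this (Nat.zero_le _)
          omega
        · intro x hx hxb
          exact ha3 x hx (Dvd.dvd.mul_left hxb q)
      · intro b _
        exact Nat.mul_div_cancel_left b hqp.pos
      · intro a ha
        rw [mem_filter] at ha
        exact Nat.mul_div_cancel' ha.2
      · intro b _
        push_cast
        rw [jacobiSym.mul_left]
    rw [h1] at h3
    rw [h4', h2] at h3
    linarith

/-- **the half sum is nonnegative** for every `p ≡ 3 mod 4` -/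
theorem S_nonneg (p : ℕ) (h4 : p % 4 = 3) : 0 ≤ S p := by
  obtain ⟨d, m, hdm, hsf⟩ := Nat.sq_mul_squarefree p
  -- p = m ^ 2 * d
  have hp0 : 0 < p := by omega
  have hodd : Odd p := by rw [Nat.odd_iff]; omega
  have hm0 : m ≠ 0 := by
    rintro rfl
    simp at hdm
    omega
  have hmodd : Odd m := by
    rw [← hdm] at hodd
    have := (Nat.odd_mul.1 hodd).1
    exact (Nat.odd_pow_iff (by norm_num)).1 this
  have hd4 : d % 4 = 3 := by
    obtain ⟨t, rfl⟩ := hmodd
    have h1 : (2 * t + 1) ^ 2 = 4 * (t * (t + 1)) + 1 := by ring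
    rw [h1] at hdm
    have h2 : p = 4 * (t * (t + 1) * d) + d := by rw [← hdm]; ring
    omega
  have hNZ : NeZero m := ⟨hm0⟩
  have hNZd : NeZero d := ⟨by omega⟩
  obtain ⟨c, hc, hTT⟩ := TT_eq d hd4 m.primeFactors (fun q hq => by
    have hq' := Nat.prime_of_mem_primeFactors hq
    refine ⟨hq', ?_⟩
    rintro rfl
    have := Nat.dvd_of_mem_primeFactors hq
    rw [Nat.odd_iff] at hmodd
    omega)
  have h1 := hTT p hodd (by
    rw [← hdm, mul_comm]
    apply mul_dvd_mul_right
    refine (Nat.prod_primeFactors_dvd m).trans ?_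
    exact dvd_pow_self m (by norm_num))
  have h2 : S p = TT d m.primeFactors p := by
    rw [S, TT, sum_filter]
    apply sum_congr rfl
    intro a _
    have hj : jacobiSym (a : ℤ) p = jacobiSym (a : ℤ) m ^ 2 * jacobiSym (a : ℤ) d := by
      rw [← hdm, jacobiSym.mul_right, jacobiSym.pow_right]
    rw [hj]
    split_ifs with h
    · have hco : Nat.Coprime a m := by
        rw [Nat.coprime_iff_gcd_eq_one]
        by_contra hg
        obtain ⟨q, hq, hqd⟩ := Nat.exists_prime_and_dvd hg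
        exact h q (Nat.mem_primeFactors.2 ⟨hq, hqd.trans (Nat.gcd_dvd_right _ _), hm0⟩)
          (hqd.trans (Nat.gcd_dvd_left _ _))
      rcases js_sq hco with h3 | h3 <;> rw [h3] <;> ring
    · push Not at h
      obtain ⟨q, hq, hqa⟩ := h
      have h3 : jacobiSym (a : ℤ) m = 0 := by
        rw [jacobiSym.eq_zero_iff_not_coprime, Int.gcd_natCast_natCast]
        intro hg
        have hq' := Nat.prime_of_mem_primeFactors hq
        have : q ∣ 1 := by
          rw [← hg]
          exact Nat.dvd_gcd hqa (Nat.dvd_of_mem_primeFactors hq)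
        exact hq'.one_lt.ne' (Nat.dvd_one.1 this)
      rw [h3]; ring
  rw [h2, h1]
  exact mul_nonneg hc (S_nonneg_sqf d hd4 hsf)

/-! ### The lower bound `N(p) ≥ 2` -/

theorem N_ge_two (p : ℕ) (hp : 3 < p) (h4 : p % 4 = 3) : 2 ≤ N p := by
  have hodd : Odd p := by rw [Nat.odd_iff]; omega
  have hp1 : 1 < p := by omega
  -- an element `a` with `2 a < p` and symbol `-1`
  obtain ⟨a, ha0, ha, hja⟩ : ∃ a : ℕ, 0 < a ∧ 2 * a < p ∧ jacobiSym (a : ℤ) p = -1 := by
    have h2 : Nat.Coprime 2 p := by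
      rw [Nat.coprime_two_left]; exact hodd
    rcases js_sq h2 with h | h
    · refine ⟨(p - 1) / 2, by omega, by omega, ?_⟩
      have h5 := js_neg (p := p) (b := 1) (by omega) hodd
      rw [js_neg_one_of_three h4] at h5
      have h6 : ((p - 1 : ℕ) : ℤ) = ((2 : ℕ) : ℤ) * (((p - 1) / 2 : ℕ) : ℤ) := by
        have : p - 1 = 2 * ((p - 1) / 2) := by omega
        exact_mod_cast this
      rw [h6, jacobiSym.mul_left, h] at h5
      simpa using h5
    · exact ⟨2, by norm_num, by omega, h⟩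
  have hco : Nat.Coprime a p := by
    by_contra hc
    have : NeZero p := ⟨by omega⟩
    have : jacobiSym (a : ℤ) p = 0 := by
      rw [jacobiSym.eq_zero_iff_not_coprime, Int.gcd_natCast_natCast]; exact hc
    rw [this] at hja; norm_num at hja
  have haU : a ∈ U p := mem_U.2 ⟨by omega, hco⟩
  have hbU : p - a ∈ U p := by
    refine mem_U.2 ⟨by omega, ?_⟩
    exact (Nat.coprime_self_sub_left (by omega)).2 hco
  -- the inverses
  have hmem : ∀ b ∈ U p, jacobiSym (b : ℤ) p * sg p b = -1 → inv p b ∈ M p := by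
    intro b hb hj
    rw [M_eq hp1 hodd]
    simp only [coe_filter, Set.mem_ofPred_eq]
    refine ⟨inv_mem hp1 hb, ?_⟩
    rw [inv_inv hp1 hb, js_inv hp1 hb, hj]
  have h1 : inv p a ∈ M p := by
    apply hmem a haU
    rw [hja, sg, if_pos ha]; norm_num
  have h2 : inv p (p - a) ∈ M p := by
    apply hmem _ hbU
    rw [js_neg (by omega) hodd, js_neg_one_of_three h4, hja, sg, if_neg (by omega)]; norm_num
  have hne : inv p a ≠ inv p (p - a) := by
    intro h
    have := congrArg (inv p) h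
    rw [inv_inv hp1 haU, inv_inv hp1 hbU] at this
    omega
  have hfin : (M p).Finite := by
    rw [M_eq hp1 hodd]; exact Finset.finite_toSet _
  rw [N]
  have h3 : ({inv p a, inv p (p - a)} : Set ℕ).ncard = 2 := Set.ncard_pair hne
  rw [← h3]
  apply Set.ncard_le_ncard _ hfin
  rintro x (rfl | hx)
  · exact h1
  · rw [Set.mem_singleton_iff] at hx
    rw [hx]; exact h2

theorem cao (p : ℕ) (hp : 3 < p) (h4 : p % 4 = 3) : N p ≤ Nbar p ∧ 2 ≤ N p := by
  refine ⟨?_, N_ge_two p hp h4⟩
  have h1 := diff_three (by omega : 1 < p) h4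
  have h2 := S_nonneg p h4
  have h3 : (N p : ℤ) ≤ Nbar p := by linarith
  exact_mod_cast h3

end Q261.Rot
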