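import Pool.Agent.Q261.FermatDefs

/-!
# Algebraic power series: coefficientwise multipliers
-/

set_option autoImplicit false

namespace Q261.Fermat

open PowerSeries Finset

/-! ### Algebraic relations -/

lemma algMap_eq {K : Type*} [CommRing K] (P : Polynomial K) :
    algebraMap (Polynomial K) K⟦X⟧ P = (P : K⟦X⟧) := rfl

theorem alg_iff {K : Type*} [CommRing K] (f : K⟦X⟧) : IsAlgebraic (Polynomial K) f ↔
    ∃ (n : ℕ) (c : ℕ → Polynomial K), (∃ i < n, c i ≠ 0) ∧ ∑ i ∈ range n, (c i : K⟦X⟧) * f ^ i = 0 := by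
  constructor
  · rintro ⟨P, hP, h⟩
    refine ⟨P.natDegree + 1, P.coeff, ⟨P.natDegree, Nat.lt_succ_self _, ?_⟩, ?_⟩
    · rw [Polynomial.coeff_natDegree]
      exact Polynomial.leadingCoeff_ne_zero.2 hP
    · rw [Polynomial.aeval_eq_sum_range] at h
      rw [← h]
      apply sum_congr rfl
      intro i _
      rw [Algebra.smul_def, algMap_eq]
  · rintro ⟨n, c, ⟨i0, hi0, hc⟩, h⟩
    refine ⟨∑ i ∈ range n, Polynomial.monomial i (c i), ?_, ?_⟩
    · intro h0
      apply hc
      have h1 := congrArg (fun P => Polynomial.coeff P i0) h0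
      simp only [Polynomial.finsetSum_coeff, Polynomial.coeff_monomial, Polynomial.coeff_zero] at h1
      rw [sum_eq_single i0, if_pos rfl] at h1
      · exact h1
      · intro b _ hb; rw [if_neg hb]
      · intro h2; exact absurd (mem_range.2 hi0) h2
    · rw [map_sum, ← h]
      apply sum_congr rfl
      intro i _
      rw [Polynomial.aeval_monomial, algMap_eq]

/-- rational power series -/
def RatK {K : Type*} [CommRing K] (f : K⟦X⟧) : Prop :=
  ∃ p q : Polynomial K, q ≠ 0 ∧ (q : K⟦X⟧) * f = (p : K⟦X⟧)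

/-! ### Ascent and descent between `ℚ` and `ℂ` -/

noncomputable def up (g : ℚ⟦X⟧) : ℂ⟦X⟧ := PowerSeries.map (algebraMap ℚ ℂ) g

theorem up_pow (g : ℚ⟦X⟧) (i : ℕ) : up (g ^ i) = up g ^ i := map_pow _ _ _

theorem up_mul (g h : ℚ⟦X⟧) : up (g * h) = up g * up h := map_mul _ _ _

theorem up_coe (p : Polynomial ℚ) : up (p : ℚ⟦X⟧) = ((p.map (algebraMap ℚ ℂ) : Polynomial ℂ) : ℂ⟦X⟧) := by
  ext n
  rw [up, PowerSeries.coeff_map, Polynomial.coeff_coe, Polynomial.coeff_coe, Polynomial.coeff_map]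

theorem up_inj {g h : ℚ⟦X⟧} (e : up g = up h) : g = h :=
  PowerSeries.map_injective _ (algebraMap ℚ ℂ).injective e

theorem alg_up {g : ℚ⟦X⟧} (h : IsAlgebraic (Polynomial ℚ) g) : IsAlgebraic (Polynomial ℂ) (up g) := by
  rw [alg_iff] at h ⊢
  obtain ⟨n, c, ⟨i0, hi0, hc⟩, h⟩ := h
  refine ⟨n, fun i => (c i).map (algebraMap ℚ ℂ), ⟨i0, hi0, ?_⟩, ?_⟩
  · intro h0
    exact hc ((Polynomial.map_eq_zero_iff (algebraMap ℚ ℂ).injective).1 h0)
  · have h1 := congrArg up h
    have h2 : up (∑ i ∈ range n, (c i : ℚ⟦X⟧) * g ^ i) = ∑ i ∈ range n, up ((c i : ℚ⟦X⟧) * g ^ i) :=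
      map_sum _ _ _
    have h3 : up 0 = 0 := map_zero _
    rw [h2, h3] at h1
    rw [← h1]
    apply sum_congr rfl
    intro i _
    rw [up_mul, up_pow, up_coe]

/-- apply a linear functional to the coefficients of a polynomial -/
noncomputable def lamP (l : ℂ →ₗ[ℚ] ℚ) (c : Polynomial ℂ) : Polynomial ℚ :=
  ∑ k ∈ range (c.natDegree + 1), Polynomial.monomial k (l (c.coeff k))

theorem coeff_lamP (l : ℂ →ₗ[ℚ] ℚ) (c : Polynomial ℂ) (k : ℕ) : (lamP l c).coeff k = l (c.coeff k) := by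
  rw [lamP, Polynomial.finsetSum_coeff]
  simp only [Polynomial.coeff_monomial]
  by_cases hk : k < c.natDegree + 1
  · rw [sum_eq_single k, if_pos rfl]
    · intro b _ hb; rw [if_neg hb]
    · intro h; exact absurd (mem_range.2 hk) h
  · rw [Polynomial.coeff_eq_zero_of_natDegree_lt (by omega), map_zero]
    apply sum_eq_zero
    intro b hb
    rw [mem_range] at hb
    rw [if_neg (by omega)]

theorem coeff_lam_mul (l : ℂ →ₗ[ℚ] ℚ) (c : Polynomial ℂ) (g : ℚ⟦X⟧) (n : ℕ) :
    coeff n ((lamP l c : ℚ⟦X⟧) * g) = l (coeff n ((c : ℂ⟦X⟧) * up g)) := by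
  rw [PowerSeries.coeff_mul, PowerSeries.coeff_mul, map_sum]
  apply sum_congr rfl
  intro x _
  rw [Polynomial.coeff_coe, Polynomial.coeff_coe, coeff_lamP, up, PowerSeries.coeff_map]
  have : c.coeff x.1 * (algebraMap ℚ ℂ) (coeff x.2 g) = (coeff x.2 g) • c.coeff x.1 := by
    rw [Algebra.smul_def, mul_comm]
  rw [this, map_smul, smul_eq_mul, mul_comm]

theorem exists_functional {z : ℂ} (hz : z ≠ 0) : ∃ l : ℂ →ₗ[ℚ] ℚ, l z ≠ 0 := by
  by_contra h
  push Not at h
  exact hz ((Module.forall_dual_apply_eq_zero_iff ℚ z).1 h)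

theorem alg_down {g : ℚ⟦X⟧} (h : IsAlgebraic (Polynomial ℂ) (up g)) : IsAlgebraic (Polynomial ℚ) g := by
  rw [alg_iff] at h ⊢
  obtain ⟨n, c, ⟨i0, hi0, hc⟩, h⟩ := h
  obtain ⟨k, hk⟩ : ∃ k, (c i0).coeff k ≠ 0 := by
    by_contra hcon
    push Not at hcon
    exact hc (Polynomial.ext fun k => by rw [hcon k, Polynomial.coeff_zero])
  obtain ⟨l, hl⟩ := exists_functional hk
  refine ⟨n, fun i => lamP l (c i), ⟨i0, hi0, ?_⟩, ?_⟩
  · intro h0
    apply hl
    have h0' : lamP l (c i0) = 0 := h0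
    rw [← coeff_lamP, h0', Polynomial.coeff_zero]
  · ext m
    rw [map_sum, map_zero]
    simp only [coeff_lam_mul]
    rw [← map_sum, ← map_sum]
    simp only [up_pow]
    rw [h, map_zero, map_zero]

theorem rat_up {g : ℚ⟦X⟧} (h : RatK g) : RatK (up g) := by
  obtain ⟨p, q, hq, h⟩ := h
  refine ⟨p.map (algebraMap ℚ ℂ), q.map (algebraMap ℚ ℂ), ?_, ?_⟩
  · intro h0
    exact hq ((Polynomial.map_eq_zero_iff (algebraMap ℚ ℂ).injective).1 h0)
  · rw [← up_coe, ← up_coe, ← up_mul, h]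

theorem rat_down {g : ℚ⟦X⟧} (h : RatK (up g)) : RatK g := by
  obtain ⟨p, q, hq, h⟩ := h
  obtain ⟨k, hk⟩ : ∃ k, q.coeff k ≠ 0 := by
    by_contra hcon
    push Not at hcon
    exact hq (Polynomial.ext fun k => by rw [hcon k, Polynomial.coeff_zero])
  obtain ⟨l, hl⟩ := exists_functional hk
  refine ⟨lamP l p, lamP l q, ?_, ?_⟩
  · intro h0
    apply hl
    rw [← coeff_lamP, h0, Polynomial.coeff_zero]
  · ext m
    rw [coeff_lam_mul, h, Polynomial.coeff_coe, Polynomial.coeff_coe, coeff_lamP]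

/-! ### Closure properties over `ℂ` -/

theorem rescale_coe (ζ : ℂ) (p : Polynomial ℂ) :
    rescale ζ (p : ℂ⟦X⟧) = ((p.comp (Polynomial.C ζ * Polynomial.X) : Polynomial ℂ) : ℂ⟦X⟧) := by
  ext n
  rw [coeff_rescale, Polynomial.coeff_coe, Polynomial.coeff_coe, Polynomial.comp_C_mul_X_coeff, mul_comm]

theorem comp_ne_zero {ζ : ℂ} (hζ : ζ ≠ 0) {p : Polynomial ℂ} (hp : p ≠ 0) :
    p.comp (Polynomial.C ζ * Polynomial.X) ≠ 0 := by
  intro h
  apply hp
  ext n
  have h1 := congrArg (fun P => Polynomial.coeff P n) h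
  simp only [Polynomial.comp_C_mul_X_coeff, Polynomial.coeff_zero] at h1
  rcases mul_eq_zero.1 h1 with h2 | h2
  · rw [h2, Polynomial.coeff_zero]
  · exact absurd h2 (pow_ne_zero _ hζ)

theorem alg_rescale {ζ : ℂ} (hζ : ζ ≠ 0) {f : ℂ⟦X⟧} (h : IsAlgebraic (Polynomial ℂ) f) :
    IsAlgebraic (Polynomial ℂ) (rescale ζ f) := by
  rw [alg_iff] at h ⊢
  obtain ⟨n, c, ⟨i0, hi0, hc⟩, h⟩ := h
  refine ⟨n, fun i => (c i).comp (Polynomial.C ζ * Polynomial.X), ⟨i0, hi0, comp_ne_zero hζ hc⟩, ?_⟩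
  have h1 := congrArg (rescale ζ) h
  rw [map_sum, map_zero] at h1
  rw [← h1]
  apply sum_congr rfl
  intro i _
  rw [map_mul, map_pow, rescale_coe]

theorem rat_rescale {ζ : ℂ} (hζ : ζ ≠ 0) {f : ℂ⟦X⟧} (h : RatK f) : RatK (rescale ζ f) := by
  obtain ⟨p, q, hq, h⟩ := h
  refine ⟨p.comp (Polynomial.C ζ * Polynomial.X), q.comp (Polynomial.C ζ * Polynomial.X),
    comp_ne_zero hζ hq, ?_⟩
  rw [← rescale_coe, ← rescale_coe, ← map_mul, h]

theorem rat_add {K : Type*} [CommRing K] [IsDomain K] {f g : K⟦X⟧} (hf : RatK f) (hg : RatK g) :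
    RatK (f + g) := by
  obtain ⟨p, q, hq, h⟩ := hf
  obtain ⟨p', q', hq', h'⟩ := hg
  refine ⟨p * q' + p' * q, q * q', mul_ne_zero hq hq', ?_⟩
  push_cast
  rw [← h, ← h']
  ring

theorem rat_C_mul {K : Type*} [CommRing K] {f : K⟦X⟧} (a : K) (hf : RatK f) : RatK (C a * f) := by
  obtain ⟨p, q, hq, h⟩ := hf
  refine ⟨Polynomial.C a * p, q, hq, ?_⟩
  rw [Polynomial.coe_mul, Polynomial.coe_C, ← h]
  ring

theorem rat_zero {K : Type*} [CommRing K] [Nontrivial K] : RatK (0 : K⟦X⟧) :=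
  ⟨0, 1, one_ne_zero, by simp⟩

theorem rat_sum {K : Type*} [CommRing K] [IsDomain K] {ι : Type*} (s : Finset ι) (f : ι → K⟦X⟧)
    (h : ∀ i ∈ s, RatK (f i)) : RatK (∑ i ∈ s, f i) := by
  classical
  induction s using Finset.induction_on with
  | empty => simpa using rat_zero
  | insert a s ha ih =>
    rw [sum_insert ha]
    exact rat_add (h a (mem_insert_self _ _)) (ih fun i hi => h i (mem_insert_of_mem hi))

theorem alg_sum {ι : Type*} (s : Finset ι) (g : ι → ℂ⟦X⟧)
    (h : ∀ i ∈ s, IsAlgebraic (Polynomial ℂ) (g i)) : IsAlgebraic (Polynomial ℂ) (∑ i ∈ s, g i) :=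
  (Subalgebra.algebraicClosure (Polynomial ℂ) ℂ⟦X⟧).sum_mem h

theorem alg_coe (p : Polynomial ℂ) : IsAlgebraic (Polynomial ℂ) (p : ℂ⟦X⟧) := by
  have := isAlgebraic_algebraMap (R := Polynomial ℂ) (A := ℂ⟦X⟧) p
  rwa [algMap_eq] at this

theorem alg_C (a : ℂ) : IsAlgebraic (Polynomial ℂ) (C a : ℂ⟦X⟧) := by
  rw [← Polynomial.coe_C]; exact alg_coe _

theorem alg_X : IsAlgebraic (Polynomial ℂ) (X : ℂ⟦X⟧) := by
  rw [← Polynomial.coe_X]; exact alg_coe _

theorem chain_rule (f : ℂ⟦X⟧) (P : Polynomial (Polynomial ℂ)) :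
    ∃ Q : Polynomial (Polynomial ℂ), d⁄dX ℂ (Polynomial.aeval f P) =
      Polynomial.aeval f Q + Polynomial.aeval f (Polynomial.derivative P) * d⁄dX ℂ f := by
  induction P using Polynomial.induction_on' with
  | add P1 P2 h1 h2 =>
    obtain ⟨Q1, hQ1⟩ := h1
    obtain ⟨Q2, hQ2⟩ := h2
    refine ⟨Q1 + Q2, ?_⟩
    rw [map_add, map_add, hQ1, hQ2, map_add, Polynomial.derivative_add, map_add]
    ring
  | monomial n a =>
    refine ⟨Polynomial.monomial n (Polynomial.derivative a), ?_⟩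
    rw [Polynomial.aeval_monomial, Polynomial.aeval_monomial, Polynomial.derivative_monomial,
      Polynomial.aeval_monomial, Derivation.leibniz, Derivation.leibniz_pow]
    simp only [algMap_eq, PowerSeries.derivative_coe, smul_eq_mul, nsmul_eq_mul]
    rw [Polynomial.coe_mul]
    have : (((n : Polynomial ℂ)) : ℂ⟦X⟧) = (n : ℂ⟦X⟧) := by
      exact map_natCast (Polynomial.coeToPowerSeries.ringHom (R := ℂ)) n
    rw [this]
    ring

theorem alg_aeval (f : ℂ⟦X⟧) (halg : IsAlgebraic (Polynomial ℂ) f) (P : Polynomial (Polynomial ℂ)) :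
    IsAlgebraic (Polynomial ℂ) (Polynomial.aeval f P) := by
  rw [Polynomial.aeval_eq_sum_range]
  apply alg_sum
  intro i _
  rw [Algebra.smul_def, algMap_eq]
  exact (alg_coe _).mul (halg.pow i)

theorem alg_derivative {f : ℂ⟦X⟧} (halg : IsAlgebraic (Polynomial ℂ) f) :
    IsAlgebraic (Polynomial ℂ) (d⁄dX ℂ f) := by
  classical
  -- an annihilating polynomial of minimal degree
  have hex : ∃ n : ℕ, ∃ P : Polynomial (Polynomial ℂ), P ≠ 0 ∧ Polynomial.aeval f P = 0 ∧
      P.natDegree = n := by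
    obtain ⟨P, hP, h⟩ := halg
    exact ⟨_, P, hP, h, rfl⟩
  obtain ⟨P, hP, h, hn⟩ := Nat.find_spec hex
  have hmin := fun m (hm : m < Nat.find hex) => Nat.find_min hex hm
  have hdeg : 0 < P.natDegree := by
    by_contra h0
    have h1 : P.natDegree = 0 := by omega
    rw [Polynomial.eq_C_of_natDegree_eq_zero h1] at h hP
    rw [Polynomial.aeval_C, algMap_eq] at h
    apply hP
    have : P.coeff 0 = 0 := by
      apply Polynomial.coe_injective
      rw [h]; simp
    rw [this, map_zero]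
  have hd : Polynomial.aeval f (Polynomial.derivative P) ≠ 0 := by
    intro h0
    have hlt : (Polynomial.derivative P).natDegree < P.natDegree :=
      Polynomial.natDegree_derivative_lt (by omega)
    apply hmin _ (hn ▸ hlt)
    refine ⟨Polynomial.derivative P, ?_, h0, rfl⟩
    intro h1
    have := Polynomial.derivative_eq_zero.1 h1
    omega
  obtain ⟨Q, hQ⟩ := chain_rule f P
  rw [h, map_zero] at hQ
  have h3 : Polynomial.aeval f (Polynomial.derivative P) * d⁄dX ℂ f = - Polynomial.aeval f Q := by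
    linear_combination -hQ
  apply IsAlgebraic.of_mul (mem_nonZeroDivisors_of_ne_zero hd) (alg_aeval f halg _)
  rw [h3]
  exact (alg_aeval f halg Q).neg

theorem rat_derivative {f : ℂ⟦X⟧} (h : RatK f) : RatK (d⁄dX ℂ f) := by
  obtain ⟨p, q, hq, h⟩ := h
  refine ⟨Polynomial.derivative p * q - p * Polynomial.derivative q, q * q, mul_ne_zero hq hq, ?_⟩
  have h1 := congrArg (d⁄dX ℂ) h
  rw [Derivation.leibniz, derivative_coe, derivative_coe, smul_eq_mul, smul_eq_mul] at h1
  rw [Polynomial.coe_sub, Polynomial.coe_mul, Polynomial.coe_mul, Polynomial.coe_mul, ← h1, ← h]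
  ring

/-! ### Contraction -/

/-- the coefficients with index `M k + r` -/
noncomputable def sec (M r : ℕ) (f : ℂ⟦X⟧) : ℂ⟦X⟧ := PowerSeries.mk fun k => coeff (M * k + r) f

theorem sec_mul_expand (M r : ℕ) (hM : M ≠ 0) (hr : r < M) (c h : ℂ⟦X⟧) :
    sec M r (c * expand M hM h) = sec M r c * h := by
  ext k
  rw [sec, coeff_mk, PowerSeries.coeff_mul, PowerSeries.coeff_mul]
  -- the terms with second index not divisible by `M` vanish
  have h1 : ∑ x ∈ antidiagonal (M * k + r), coeff x.1 c * coeff x.2 (expand M hM h) =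
      ∑ x ∈ (antidiagonal (M * k + r)).filter (fun x => M ∣ x.2),
        coeff x.1 c * coeff x.2 (expand M hM h) := by
    rw [sum_filter]
    apply sum_congr rfl
    intro x _
    split_ifs with hx
    · rfl
    · rw [coeff_expand_of_not_dvd _ _ _ hx, mul_zero]
  rw [h1]
  symm
  refine sum_bij' (fun y _ => (M * y.1 + r, M * y.2)) (fun x _ => ((x.1 - r) / M, x.2 / M)) ?_ ?_ ?_ ?_ ?_
  · rintro ⟨a, b⟩ hab
    rw [HasAntidiagonal.mem_antidiagonal] at hab
    rw [mem_filter, HasAntidiagonal.mem_antidiagonal]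
    simp only at hab ⊢
    refine ⟨by rw [← hab]; ring, dvd_mul_right _ _⟩
  · rintro ⟨a, b⟩ hab
    rw [mem_filter, HasAntidiagonal.mem_antidiagonal] at hab
    simp only at hab ⊢
    obtain ⟨h2, b', rfl⟩ := hab
    rw [HasAntidiagonal.mem_antidiagonal]
    simp only
    have hMpos : 0 < M := Nat.pos_of_ne_zero hM
    have hb : b' ≤ k := by
      by_contra hcon
      have : M * (k + 1) ≤ M * b' := Nat.mul_le_mul_left M (by omega)
      rw [Nat.mul_add, mul_one] at this
      omega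
    have h3 : M * k = M * (k - b') + M * b' := by
      rw [← Nat.mul_add]; congr 1; omega
    have ha : a = M * (k - b') + r := by omega
    rw [ha, Nat.add_sub_cancel, Nat.mul_div_cancel_left _ hMpos, Nat.mul_div_cancel_left _ hMpos]
    omega
  · rintro ⟨a, b⟩ _
    simp only
    have hMpos : 0 < M := Nat.pos_of_ne_zero hM
    rw [Nat.add_sub_cancel, Nat.mul_div_cancel_left _ hMpos, Nat.mul_div_cancel_left _ hMpos]
  · rintro ⟨a, b⟩ hab
    rw [mem_filter, HasAntidiagonal.mem_antidiagonal] at hab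
    simp only at hab ⊢
    obtain ⟨h2, b', rfl⟩ := hab
    have hMpos : 0 < M := Nat.pos_of_ne_zero hM
    have hb : b' ≤ k := by
      by_contra hcon
      have : M * (k + 1) ≤ M * b' := Nat.mul_le_mul_left M (by omega)
      rw [Nat.mul_add, mul_one] at this
      omega
    have h3 : M * k = M * (k - b') + M * b' := by
      rw [← Nat.mul_add]; congr 1; omega
    have ha : a = M * (k - b') + r := by omega
    rw [ha, Nat.add_sub_cancel, Nat.mul_div_cancel_left _ hMpos, Nat.mul_div_cancel_left _ hMpos]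
  · rintro ⟨a, b⟩ _
    rw [coeff_expand_mul, sec, coeff_mk]

theorem alg_of_expand {M : ℕ} (hM : M ≠ 0) {f : ℂ⟦X⟧}
    (h : IsAlgebraic (Polynomial ℂ) (expand M hM f)) : IsAlgebraic (Polynomial ℂ) f := by
  rw [alg_iff] at h ⊢
  obtain ⟨n, c, ⟨i0, hi0, hc⟩, h⟩ := h
  obtain ⟨k, hk⟩ : ∃ k, (c i0).coeff k ≠ 0 := by
    by_contra hcon
    push Not at hcon
    exact hc (Polynomial.ext fun k => by rw [hcon k, Polynomial.coeff_zero])
  have hMpos : 0 < M := Nat.pos_of_ne_zero hM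
  set r := k % M with hr
  have hrM : r < M := Nat.mod_lt _ hMpos
  -- the contracted polynomials
  set c' : ℕ → Polynomial ℂ := fun i => ∑ j ∈ range ((c i).natDegree + 1),
    Polynomial.monomial j ((c i).coeff (M * j + r)) with hc'
  have hcoe : ∀ i, ((c' i : Polynomial ℂ) : ℂ⟦X⟧) = sec M r (c i : ℂ⟦X⟧) := by
    intro i
    ext j
    rw [Polynomial.coeff_coe, sec, coeff_mk, Polynomial.coeff_coe]
    simp only [hc', Polynomial.finsetSum_coeff, Polynomial.coeff_monomial]
    by_cases hj : j < (c i).natDegree + 1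
    · rw [sum_eq_single j, if_pos rfl]
      · intro b _ hb; rw [if_neg hb]
      · intro h; exact absurd (mem_range.2 hj) h
    · have hj' : j ≤ M * j := Nat.le_mul_of_pos_left j hMpos
      rw [Polynomial.coeff_eq_zero_of_natDegree_lt (by omega)]
      apply sum_eq_zero
      intro b hb
      rw [mem_range] at hb
      rw [if_neg (by omega)]
  refine ⟨n, c', ⟨i0, hi0, ?_⟩, ?_⟩
  · intro h0
    apply hk
    have h1 := congrArg (fun g : ℂ⟦X⟧ => coeff (k / M) g) (hcoe i0)
    rw [h0, sec, coeff_mk, Polynomial.coeff_coe] at h1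
    have h2 : M * (k / M) + r = k := Nat.div_add_mod k M
    rw [h2] at h1
    simpa using h1.symm
  · have h1 := congrArg (sec M r) h
    have h2 : sec M r 0 = 0 := by ext j; rw [sec, coeff_mk]; simp
    rw [h2] at h1
    have h3 : sec M r (∑ i ∈ range n, (c i : ℂ⟦X⟧) * expand M hM f ^ i) =
        ∑ i ∈ range n, sec M r ((c i : ℂ⟦X⟧) * expand M hM f ^ i) := by
      ext j
      rw [sec, coeff_mk, map_sum, map_sum]
      apply sum_congr rfl
      intro i _
      rw [sec, coeff_mk]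
    rw [h3] at h1
    rw [← h1]
    apply sum_congr rfl
    intro i _
    rw [← map_pow, sec_mul_expand M r hM hrM, hcoe]

/-! ### Multipliers -/

/-- multiply the `n`-th coefficient by `w n` -/
noncomputable def Tm {K : Type*} [CommRing K] (w : ℕ → K) (f : K⟦X⟧) : K⟦X⟧ :=
  PowerSeries.mk fun n => w n * coeff n f

@[simp] theorem coeff_Tm {K : Type*} [CommRing K] (w : ℕ → K) (f : K⟦X⟧) (n : ℕ) :
    coeff n (Tm w f) = w n * coeff n f := by rw [Tm, coeff_mk]

/-- multipliers which preserve algebraic and rational series -/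
def Good (w : ℕ → ℂ) : Prop :=
  ∀ f : ℂ⟦X⟧, (IsAlgebraic (Polynomial ℂ) f → IsAlgebraic (Polynomial ℂ) (Tm w f)) ∧
    (RatK f → RatK (Tm w f))

theorem good_const (a : ℂ) : Good (fun _ => a) := by
  intro f
  have h : Tm (fun _ => a) f = C a * f := by
    ext n; rw [coeff_Tm, coeff_C_mul]
  rw [h]
  exact ⟨fun hf => (alg_C a).mul hf, fun hf => rat_C_mul a hf⟩

theorem good_add {w v : ℕ → ℂ} (hw : Good w) (hv : Good v) : Good (fun n => w n + v n) := by
  intro f
  have h : Tm (fun n => w n + v n) f = Tm w f + Tm v f := by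
    ext n; rw [coeff_Tm, map_add, coeff_Tm, coeff_Tm]; ring
  rw [h]
  exact ⟨fun hf => ((hw f).1 hf).add ((hv f).1 hf), fun hf => rat_add ((hw f).2 hf) ((hv f).2 hf)⟩

theorem good_mul {w v : ℕ → ℂ} (hw : Good w) (hv : Good v) : Good (fun n => w n * v n) := by
  intro f
  have h : Tm (fun n => w n * v n) f = Tm w (Tm v f) := by
    ext n; rw [coeff_Tm, coeff_Tm, coeff_Tm]; ring
  rw [h]
  exact ⟨fun hf => (hw _).1 ((hv f).1 hf), fun hf => (hw _).2 ((hv f).2 hf)⟩

theorem good_pow {w : ℕ → ℂ} (hw : Good w) (k : ℕ) : Good (fun n => w n ^ k) := by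
  induction k with
  | zero => simpa using good_const 1
  | succ k ih =>
    have := good_mul ih hw
    simpa [pow_succ] using this

theorem good_id : Good (fun n => (n : ℂ)) := by
  intro f
  have h : Tm (fun n => (n : ℂ)) f = X * d⁄dX ℂ f := by
    ext n
    rw [coeff_Tm]
    rcases Nat.eq_zero_or_pos n with rfl | hn
    · simp
    · obtain ⟨m, rfl⟩ : ∃ m, n = m + 1 := ⟨n - 1, by omega⟩
      rw [coeff_succ_X_mul, coeff_derivative]
      push_cast
      ring
  rw [h]
  refine ⟨fun hf => alg_X.mul (alg_derivative hf), fun hf => ?_⟩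
  obtain ⟨p, q, hq, h1⟩ := rat_derivative hf
  refine ⟨Polynomial.X * p, q, hq, ?_⟩
  rw [Polynomial.coe_mul, Polynomial.coe_X, ← h1]
  ring

theorem good_sum {ι : Type*} (s : Finset ι) (w : ι → ℕ → ℂ) (h : ∀ i ∈ s, Good (w i)) :
    Good (fun n => ∑ i ∈ s, w i n) := by
  classical
  induction s using Finset.induction_on with
  | empty => simpa using good_const 0
  | insert a s ha ih =>
    have h1 : (fun n => ∑ i ∈ insert a s, w i n) = fun n => w a n + ∑ i ∈ s, w i n := by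
      funext n; rw [sum_insert ha]
    rw [h1]
    exact good_add (h a (mem_insert_self _ _)) (ih fun i hi => h i (mem_insert_of_mem hi))

theorem good_geom {ζ : ℂ} (hζ : ζ ≠ 0) : Good (fun n => ζ ^ n) := by
  intro f
  have h : Tm (fun n => ζ ^ n) f = rescale ζ f := by
    ext n; rw [coeff_Tm, coeff_rescale]
  rw [h]
  exact ⟨alg_rescale hζ, rat_rescale hζ⟩

theorem good_residue {m : ℕ} (hm : 0 < m) (r : ℕ) (hr : r < m) :
    Good (fun n => if n % m = r then (1 : ℂ) else 0) := by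
  set ζ : ℂ := Complex.exp (2 * Real.pi * Complex.I / m) with hζ
  have hprim : IsPrimitiveRoot ζ m := Complex.isPrimitiveRoot_exp m (by omega)
  have hζ0 : ζ ≠ 0 := Complex.exp_ne_zero _
  have hζm : ζ ^ m = 1 := hprim.pow_eq_one
  have hmC : (m : ℂ) ≠ 0 := by exact_mod_cast hm.ne'
  have h1 : (fun n : ℕ => if n % m = r then (1 : ℂ) else 0) =
      fun n => (1 / m : ℂ) * ∑ j ∈ range m, ((ζ ^ (m - r)) ^ j) * (ζ ^ j) ^ n := by
    funext n
    have h2 : ∑ j ∈ range m, ((ζ ^ (m - r)) ^ j) * (ζ ^ j) ^ n = ∑ j ∈ range m, (ζ ^ (m - r + n)) ^ j := by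
      apply sum_congr rfl
      intro j _
      rw [pow_add, mul_pow]
      ring_nf
    rw [h2]
    have hiff : ζ ^ (m - r + n) = 1 ↔ n % m = r := by
      rw [hprim.pow_eq_one_iff_dvd]
      constructor
      · intro hd
        have h5 : r + (m - r + n) ≡ r + 0 [MOD m] :=
          Nat.ModEq.add_left r ((Nat.modEq_zero_iff_dvd).2 hd)
        have h6 : r + (m - r + n) = n + m := by omega
        rw [h6, add_zero] at h5
        have h7 : n + m ≡ n [MOD m] := by simp [Nat.ModEq]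
        have h8 : n % m = r % m := h7.symm.trans h5
        rwa [Nat.mod_eq_of_lt hr] at h8
      · intro h
        have h9 := Nat.div_add_mod n m
        refine ⟨n / m + 1, ?_⟩
        have : m * (n / m + 1) = m * (n / m) + m := by ring
        rw [this]
        omega
    split_ifs with h
    · rw [hiff.2 h]
      simp only [one_pow, sum_const, card_range, nsmul_eq_mul, mul_one]
      field_simp
    · have hne : ζ ^ (m - r + n) ≠ 1 := fun h' => h (hiff.1 h')
      rw [geom_sum_eq hne, ← pow_mul, mul_comm (m - r + n) m, pow_mul, hζm, one_pow, sub_self,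
        zero_div, mul_zero]
  rw [h1]
  apply good_mul (good_const _)
  apply good_sum
  intro j _
  exact good_mul (good_const _) (good_geom (pow_ne_zero _ hζ0))

theorem good_periodic {m : ℕ} (hm : 0 < m) {w : ℕ → ℂ} (hw : ∀ n, w n = w (n % m)) : Good w := by
  have h1 : w = fun n => ∑ r ∈ range m, w r * (if n % m = r then (1 : ℂ) else 0) := by
    funext n
    rw [sum_eq_single (n % m)]
    · rw [if_pos rfl, mul_one]; exact hw n
    · intro b _ hb; rw [if_neg (Ne.symm hb), mul_zero]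
    · intro h; exact absurd (mem_range.2 (Nat.mod_lt _ hm)) h
  rw [h1]
  apply good_sum
  intro r hr
  exact good_mul (good_const _) (good_residue hm r (mem_range.1 hr))

/-! ### Back to integer series -/

theorem isRat_iff (f : ℤ⟦X⟧) : IsRat f ↔ RatK (PowerSeries.map (Int.castRingHom ℚ) f) := Iff.rfl

theorem up_Tm (w : ℕ → ℤ) (f : ℤ⟦X⟧) :
    up (PowerSeries.map (Int.castRingHom ℚ) (Tm w f)) =
      Tm (fun n => (w n : ℂ)) (up (PowerSeries.map (Int.castRingHom ℚ) f)) := by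
  ext n
  rw [up, up, PowerSeries.coeff_map, PowerSeries.coeff_map, coeff_Tm, coeff_Tm,
    PowerSeries.coeff_map, PowerSeries.coeff_map]
  simp

theorem isAlg_Tm {w : ℕ → ℤ} (hw : Good (fun n => (w n : ℂ))) {f : ℤ⟦X⟧} (h : IsAlg f) :
    IsAlg (Tm w f) := by
  apply alg_down
  rw [up_Tm]
  exact (hw _).1 (alg_up h)

theorem isRat_Tm {w : ℕ → ℤ} (hw : Good (fun n => (w n : ℂ))) {f : ℤ⟦X⟧} (h : IsRat f) :
    IsRat (Tm w f) := by
  apply rat_down
  rw [up_Tm]
  exact (hw _).2 (rat_up h)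

theorem isAlg_of_expand {M : ℕ} (hM : M ≠ 0) {f : ℤ⟦X⟧} (h : IsAlg (expand M hM f)) : IsAlg f := by
  apply alg_down
  apply alg_of_expand hM
  have h1 := alg_up h
  have h2 : up (PowerSeries.map (Int.castRingHom ℚ) (expand M hM f)) =
      expand M hM (up (PowerSeries.map (Int.castRingHom ℚ) f)) := by
    rw [up, up, map_expand, map_expand]
  rwa [h2] at h1

theorem isAlg_expand {M : ℕ} (hM : M ≠ 0) {f : ℤ⟦X⟧} (h : IsAlg f) : IsAlg (expand M hM f) := by
  unfold IsAlg at h ⊢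
  rw [map_expand]
  rw [alg_iff] at h ⊢
  obtain ⟨n, c, ⟨i0, hi0, hc⟩, h⟩ := h
  refine ⟨n, fun i => Polynomial.expand ℚ M (c i), ⟨i0, hi0, ?_⟩, ?_⟩
  · rw [Ne, Polynomial.expand_eq_zero (Nat.pos_of_ne_zero hM)]
    exact hc
  · have h1 := congrArg (expand M hM) h
    rw [map_sum, map_zero] at h1
    rw [← h1]
    apply sum_congr rfl
    intro i _
    rw [map_mul, map_pow]
    congr 1
    ext j
    rw [Polynomial.coeff_coe, Polynomial.coeff_expand (Nat.pos_of_ne_zero hM), coeff_expand]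
    split_ifs with hj
    · rw [Polynomial.coeff_coe]
    · rfl

theorem isAlg_add {f g : ℤ⟦X⟧} (hf : IsAlg f) (hg : IsAlg g) : IsAlg (f + g) := by
  unfold IsAlg at *
  rw [map_add]
  exact hf.add hg

theorem isAlg_neg {f : ℤ⟦X⟧} (hf : IsAlg f) : IsAlg (-f) := by
  unfold IsAlg at *
  rw [map_neg]
  exact hf.neg

theorem isAlg_zero : IsAlg 0 := by
  unfold IsAlg
  rw [map_zero]
  exact isAlgebraic_zero

theorem isRat_add {f g : ℤ⟦X⟧} (hf : IsRat f) (hg : IsRat g) : IsRat (f + g) := by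
  rw [isRat_iff] at *
  rw [map_add]
  exact rat_add hf hg

theorem isRat_neg {f : ℤ⟦X⟧} (hf : IsRat f) : IsRat (-f) := by
  rw [isRat_iff] at *
  obtain ⟨p, q, hq, h⟩ := hf
  refine ⟨-p, q, hq, ?_⟩
  rw [map_neg, mul_neg, h, Polynomial.coe_neg]

theorem isRat_zero : IsRat 0 := by
  rw [isRat_iff, map_zero]
  exact rat_zero

theorem isAlg_of_isRat {f : ℤ⟦X⟧} (hf : IsRat f) : IsAlg f := by
  obtain ⟨p, q, hq, h⟩ := hf
  unfold IsAlg
  rw [alg_iff]
  refine ⟨2, fun i => if i = 0 then -p else q, ⟨1, by norm_num, by simpa using hq⟩, ?_⟩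
  rw [sum_range_succ, sum_range_one]
  simp only [if_true, one_ne_zero, if_false, pow_zero, mul_one, pow_one]
  rw [h, Polynomial.coe_neg]
  ring

theorem isRat_coe (p : Polynomial ℤ) : IsRat (p : ℤ⟦X⟧) := by
  refine ⟨p.map (Int.castRingHom ℚ), 1, one_ne_zero, ?_⟩
  rw [Polynomial.coe_one, one_mul]
  ext n
  rw [PowerSeries.coeff_map, Polynomial.coeff_coe, Polynomial.coeff_coe, Polynomial.coeff_map]

end Q261.Fermat
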