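import Mathlib

/-!
# The combinatorial part of the parity of a double Lambert series

`Om N` is the set of all `(a, l, b, m)` with positive entries and `2 a l + b m = N`.
We show that for `N ≡ 3 (mod 4)` the sum of `(-1) ^ a χ(b)` over all elements of `Om N` with `b < a`
is zero, where `χ` is the nontrivial character modulo `4`.
-/

set_option autoImplicit false

namespace Q261.DL

open Finset

/-- the nontrivial character modulo `4` -/
def c (n : ℕ) : ℤ := if n % 4 = 1 then 1 else if n % 4 = 3 then -1 else 0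

/-- solutions of `2 a l + b m = N` in positive integers -/
def Om (N : ℕ) : Finset (ℕ × ℕ × ℕ × ℕ) :=
  ((range (N + 1)) ×ˢ (range (N + 1)) ×ˢ (range (N + 1)) ×ˢ (range (N + 1))).filter
    fun x => 0 < x.1 ∧ 0 < x.2.1 ∧ 0 < x.2.2.1 ∧ 0 < x.2.2.2 ∧
      2 * x.1 * x.2.1 + x.2.2.1 * x.2.2.2 = N

theorem mem_Om {N a l b m : ℕ} : (a, l, b, m) ∈ Om N ↔
    0 < a ∧ 0 < l ∧ 0 < b ∧ 0 < m ∧ 2 * a * l + b * m = N := by
  unfold Om
  simp only [mem_filter, mem_product, mem_range]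
  constructor
  · rintro ⟨-, h⟩; exact h
  · rintro ⟨h1, h2, h3, h4, h5⟩
    refine ⟨⟨?_, ?_, ?_, ?_⟩, h1, h2, h3, h4, h5⟩ <;> nlinarith [Nat.mul_pos h1 h2, Nat.mul_pos h3 h4]

theorem odd_bm {N a l b m : ℕ} (hN : N % 2 = 1) (h : (a, l, b, m) ∈ Om N) :
    b % 2 = 1 ∧ m % 2 = 1 := by
  obtain ⟨-, -, -, -, h5⟩ := mem_Om.1 h
  have h1 : (b * m) % 2 = 1 := by
    have : (2 * a * l) % 2 = 0 := by
      rw [mul_assoc]; exact Nat.mul_mod_right 2 _
    omega
  rw [Nat.mul_mod] at h1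
  rcases Nat.mod_two_eq_zero_or_one b with hb | hb <;>
  rcases Nat.mod_two_eq_zero_or_one m with hm | hm <;> simp_all

theorem neg_one_pow_mod (n : ℕ) : (-1 : ℤ) ^ n = if n % 2 = 0 then 1 else -1 := by
  rcases Nat.mod_two_eq_zero_or_one n with h | h
  · rw [if_pos h, Even.neg_one_pow (Nat.even_iff.2 h)]
  · rw [if_neg (by omega), Odd.neg_one_pow (Nat.odd_iff.2 h)]

/-- the relation between `χ(b)` and `χ(m)` on `Om N` -/
theorem c_rel {N a l b m : ℕ} (hN : N % 4 = 3) (h : (a, l, b, m) ∈ Om N) :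
    c b = - (-1) ^ (a * l) * c m := by
  obtain ⟨hb, hm⟩ := odd_bm (by omega) h
  obtain ⟨-, -, -, -, h5⟩ := mem_Om.1 h
  have h6 : (2 * ((a * l) % 2) + (b % 4) * (m % 4)) % 4 = 3 := by
    have h7 : (2 * (a * l) + b * m) % 4 = 3 := by rw [← mul_assoc, h5, hN]
    rw [Nat.add_mod, Nat.mul_mod b m] at h7
    omega
  rw [neg_one_pow_mod]
  have hb4 : b % 4 = 1 ∨ b % 4 = 3 := by omega
  have hm4 : m % 4 = 1 ∨ m % 4 = 3 := by omega
  rcases Nat.mod_two_eq_zero_or_one (a * l) with hal | hal <;> rcases hb4 with hb | hb <;>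
    rcases hm4 with hm | hm <;> simp [c, hal, hb, hm] at h6 ⊢

section sums

variable (N : ℕ) (F : ℕ → ℕ → ℕ → ℕ → ℤ)

/-- the sum of `F` over the elements of `Om N` with the property `p` -/
def W (p : ℕ → ℕ → ℕ → ℕ → Prop) [∀ a l b m, Decidable (p a l b m)] : ℤ :=
  ∑ x ∈ (Om N).filter (fun x => p x.1 x.2.1 x.2.2.1 x.2.2.2), F x.1 x.2.1 x.2.2.1 x.2.2.2

end sums

theorem W_congr {N : ℕ} {F G : ℕ → ℕ → ℕ → ℕ → ℤ} {p : ℕ → ℕ → ℕ → ℕ → Prop}
    [∀ a l b m, Decidable (p a l b m)]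
    (h : ∀ a l b m, (a, l, b, m) ∈ Om N → p a l b m → F a l b m = G a l b m) :
    W N F p = W N G p := by
  unfold W
  apply sum_congr rfl
  rintro ⟨a, l, b, m⟩ hx
  rw [mem_filter] at hx
  exact h a l b m hx.1 hx.2

theorem W_bij {N : ℕ} {F G : ℕ → ℕ → ℕ → ℕ → ℤ} {p p' : ℕ → ℕ → ℕ → ℕ → Prop}
    [∀ a l b m, Decidable (p a l b m)] [∀ a l b m, Decidable (p' a l b m)]
    (i j : ℕ × ℕ × ℕ × ℕ → ℕ × ℕ × ℕ × ℕ)
    (hi : ∀ a l b m, (a, l, b, m) ∈ Om N → p a l b m →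
      i (a, l, b, m) ∈ Om N ∧ p' (i (a, l, b, m)).1 (i (a, l, b, m)).2.1 (i (a, l, b, m)).2.2.1
        (i (a, l, b, m)).2.2.2 ∧ j (i (a, l, b, m)) = (a, l, b, m) ∧
        F a l b m = G (i (a, l, b, m)).1 (i (a, l, b, m)).2.1 (i (a, l, b, m)).2.2.1
        (i (a, l, b, m)).2.2.2)
    (hj : ∀ a l b m, (a, l, b, m) ∈ Om N → p' a l b m →
      j (a, l, b, m) ∈ Om N ∧ p (j (a, l, b, m)).1 (j (a, l, b, m)).2.1 (j (a, l, b, m)).2.2.1
        (j (a, l, b, m)).2.2.2 ∧ i (j (a, l, b, m)) = (a, l, b, m)) :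
    W N F p = W N G p' := by
  unfold W
  apply sum_nbij' i j
  · rintro ⟨a, l, b, m⟩ hx
    rw [mem_filter] at hx ⊢
    obtain ⟨h1, h2, -, -⟩ := hi a l b m hx.1 hx.2
    exact ⟨h1, h2⟩
  · rintro ⟨a, l, b, m⟩ hx
    rw [mem_filter] at hx ⊢
    obtain ⟨h1, h2, -⟩ := hj a l b m hx.1 hx.2
    exact ⟨h1, h2⟩
  · rintro ⟨a, l, b, m⟩ hx
    rw [mem_filter] at hx
    exact (hi a l b m hx.1 hx.2).2.2.1
  · rintro ⟨a, l, b, m⟩ hx
    rw [mem_filter] at hx
    exact (hj a l b m hx.1 hx.2).2.2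
  · rintro ⟨a, l, b, m⟩ hx
    rw [mem_filter] at hx
    exact (hi a l b m hx.1 hx.2).2.2.2

theorem W_split {N : ℕ} {F : ℕ → ℕ → ℕ → ℕ → ℤ} {p p1 p2 : ℕ → ℕ → ℕ → ℕ → Prop}
    [∀ a l b m, Decidable (p a l b m)] [∀ a l b m, Decidable (p1 a l b m)]
    [∀ a l b m, Decidable (p2 a l b m)]
    (h : ∀ a l b m, (a, l, b, m) ∈ Om N → (p a l b m ↔ (p1 a l b m ∨ p2 a l b m)))
    (h' : ∀ a l b m, ¬ (p1 a l b m ∧ p2 a l b m)) :
    W N F p = W N F p1 + W N F p2 := by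
  unfold W
  rw [← sum_union]
  · apply sum_congr _ (fun _ _ => rfl)
    ext ⟨a, l, b, m⟩
    simp only [mem_filter, mem_union]
    constructor
    · rintro ⟨h1, h2⟩
      rcases (h a l b m h1).1 h2 with h3 | h3
      · exact Or.inl ⟨h1, h3⟩
      · exact Or.inr ⟨h1, h3⟩
    · rintro (⟨h1, h2⟩ | ⟨h1, h2⟩)
      · exact ⟨h1, (h a l b m h1).2 (Or.inl h2)⟩
      · exact ⟨h1, (h a l b m h1).2 (Or.inr h2)⟩
  · rw [Finset.disjoint_left]
    rintro ⟨a, l, b, m⟩ h1 h2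
    rw [mem_filter] at h1 h2
    exact h' a l b m ⟨h1.2, h2.2⟩

theorem W_neg {N : ℕ} {F : ℕ → ℕ → ℕ → ℕ → ℤ} {p : ℕ → ℕ → ℕ → ℕ → Prop}
    [∀ a l b m, Decidable (p a l b m)] :
    W N (fun a l b m => - F a l b m) p = - W N F p := by
  unfold W
  rw [sum_neg_distrib]

theorem c_odd {b : ℕ} (hb : b % 2 = 1) : c b = 1 ∧ b % 4 = 1 ∨ c b = -1 ∧ b % 4 = 3 := by
  have : b % 4 = 1 ∨ b % 4 = 3 := by omega
  rcases this with h | h <;> simp [c, h]

/-- swap -/
theorem step1 (N : ℕ) (hN : N % 4 = 3) :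
    W N (fun a _ b _ => (-1) ^ a * c b) (fun a _ b _ => b < a) =
      - W N (fun a l b _ => (-1) ^ (l * (a + 1)) * c b) (fun _ l _ m => m < l) := by
  rw [← W_neg]
  apply W_bij (fun x => (x.2.1, x.1, x.2.2.2, x.2.2.1)) (fun x => (x.2.1, x.1, x.2.2.2, x.2.2.1))
  · intro a l b m hx hp
    have hx' : (l, a, m, b) ∈ Om N := by
      rw [mem_Om] at hx ⊢
      obtain ⟨h1, h2, h3, h4, h5⟩ := hx
      exact ⟨h2, h1, h4, h3, by rw [← h5]; ring⟩
    refine ⟨hx', hp, rfl, ?_⟩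
    simp only
    rw [c_rel hN hx, mul_add, mul_one, pow_add]
    ring
  · intro a l b m hx hp
    refine ⟨?_, hp, rfl⟩
    rw [mem_Om] at hx ⊢
    obtain ⟨h1, h2, h3, h4, h5⟩ := hx
    exact ⟨h2, h1, h4, h3, by simp only; rw [← h5]; ring⟩

/-- the substitution `b = b' + 2 a` -/
theorem step2 (N : ℕ) (hN : N % 4 = 3) :
    - W N (fun a l b _ => (-1) ^ (l * (a + 1)) * c b) (fun _ l _ m => m < l) =
      W N (fun a l b _ => (-1) ^ (l * (a + 1)) * c b) (fun a _ b _ => 2 * a < b) := by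
  rw [← W_neg]
  apply W_bij (fun x => (x.1, x.2.1 - x.2.2.2, x.2.2.1 + 2 * x.1, x.2.2.2))
    (fun x => (x.1, x.2.1 + x.2.2.2, x.2.2.1 - 2 * x.1, x.2.2.2))
  · intro a l b m hx hp
    obtain ⟨hb, hm⟩ := odd_bm (by omega) hx
    rw [mem_Om] at hx
    obtain ⟨h1, h2, h3, h4, h5⟩ := hx
    obtain ⟨k, rfl⟩ := Nat.exists_eq_add_of_lt hp
    have e1 : m + k + 1 - m = k + 1 := by omega
    simp only [e1]
    refine ⟨?_, by omega, ?_, ?_⟩
    · rw [mem_Om]
      refine ⟨h1, by omega, by omega, h4, ?_⟩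
      rw [← h5]; ring
    · ext <;> simp <;> omega
    · have e2 : (m + k + 1) * (a + 1) = (k + 1) * (a + 1) + m * (a + 1) := by ring
      rw [e2, pow_add]
      have e3 : (-1 : ℤ) ^ (m * (a + 1)) = (-1) ^ (a + 1) := by
        rw [pow_mul, Odd.neg_one_pow (Nat.odd_iff.2 hm)]
      rw [e3]
      have e4 : c (b + 2 * a) = (-1) ^ a * c b := by
        rw [neg_one_pow_mod]
        have hb4 : b % 4 = 1 ∨ b % 4 = 3 := by omega
        rcases Nat.mod_two_eq_zero_or_one a with ha | ha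
        · have : (b + 2 * a) % 4 = b % 4 := by omega
          simp [c, this, ha]
        · rcases hb4 with hb | hb
          · have : (b + 2 * a) % 4 = 3 := by omega
            simp [c, this, ha, hb]
          · have : (b + 2 * a) % 4 = 1 := by omega
            simp [c, this, ha, hb]
      rw [e4]
      rw [pow_succ (-1 : ℤ) a]
      ring
  · intro a l b m hx hp
    rw [mem_Om] at hx
    obtain ⟨h1, h2, h3, h4, h5⟩ := hx
    obtain ⟨k, rfl⟩ := Nat.exists_eq_add_of_lt hp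
    have e1 : 2 * a + k + 1 - 2 * a = k + 1 := by omega
    simp only [e1]
    refine ⟨?_, by omega, ?_⟩
    · rw [mem_Om]
      refine ⟨h1, by omega, by omega, h4, ?_⟩
      rw [← h5]; ring
    · ext <;> simp <;> omega

/-- complement, the elements with `l` odd -/
theorem step3a (N : ℕ) (hN : N % 4 = 3) :
    W N (fun a l b _ => (-1) ^ (l * (a + 1)) * c b) (fun a l b _ => b < 2 * a ∧ l % 2 = 1) =
      W N (fun _ _ _ m => c m) (fun a l b _ => b < 2 * a ∧ l % 2 = 1) := by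
  apply W_bij (fun x => ((x.2.1 + x.2.2.2) / 2, x.2.2.1, x.2.1, 2 * x.1 - x.2.2.1))
    (fun x => ((x.2.1 + x.2.2.2) / 2, x.2.2.1, x.2.1, 2 * x.1 - x.2.2.1))
  · rintro a l b m hx ⟨hp, hl⟩
    obtain ⟨hb, hm⟩ := odd_bm (by omega) hx
    rw [mem_Om] at hx
    obtain ⟨h1, h2, h3, h4, h5⟩ := hx
    obtain ⟨k, hk⟩ := Nat.exists_eq_add_of_lt hp
    obtain ⟨s, hs⟩ : ∃ s, l + m = 2 * s := ⟨(l + m) / 2, by omega⟩
    have e1 : (l + m) / 2 = s := by omega
    have e2 : 2 * a - b = k + 1 := by omega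
    simp only [e1, e2]
    refine ⟨?_, ⟨by omega, hb⟩, ?_, ?_⟩
    · rw [mem_Om]
      refine ⟨by omega, by omega, by omega, by omega, ?_⟩
      rw [← h5, ← hs, hk]; ring
    · ext <;> simp <;> omega
    · -- weight
      have e3 : k + 1 = 2 * a - b := by omega
      rw [pow_mul, Odd.neg_one_pow (Nat.odd_iff.2 hl), neg_one_pow_mod]
      have hb4 : b % 4 = 1 ∨ b % 4 = 3 := by omega
      rcases Nat.mod_two_eq_zero_or_one (a + 1) with ha | ha
      · rcases hb4 with hb | hb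
        · have : (k + 1) % 4 = 1 := by omega
          simp [c, this, ha, hb]
        · have : (k + 1) % 4 = 3 := by omega
          simp [c, this, ha, hb]
      · rcases hb4 with hb | hb
        · have : (k + 1) % 4 = 3 := by omega
          simp [c, this, ha, hb]
        · have : (k + 1) % 4 = 1 := by omega
          simp [c, this, ha, hb]
  · rintro a l b m hx ⟨hp, hl⟩
    obtain ⟨hb, hm⟩ := odd_bm (by omega) hx
    rw [mem_Om] at hx
    obtain ⟨h1, h2, h3, h4, h5⟩ := hx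
    obtain ⟨k, hk⟩ := Nat.exists_eq_add_of_lt hp
    obtain ⟨s, hs⟩ : ∃ s, l + m = 2 * s := ⟨(l + m) / 2, by omega⟩
    have e1 : (l + m) / 2 = s := by omega
    have e2 : 2 * a - b = k + 1 := by omega
    simp only [e1, e2]
    refine ⟨?_, ⟨by omega, hb⟩, ?_⟩
    · rw [mem_Om]
      refine ⟨by omega, by omega, by omega, by omega, ?_⟩
      rw [← h5, ← hs, hk]; ring
    · ext <;> simp <;> omega

/-- complement, the elements with `l` even -/
theorem step3b (N : ℕ) (hN : N % 4 = 3) :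
    W N (fun a l b _ => (-1) ^ (l * (a + 1)) * c b) (fun a l b _ => b < 2 * a ∧ l % 2 = 0) =
      W N (fun _ _ _ m => c m) (fun a l b _ => 2 * a < b ∧ l % 2 = 1) := by
  apply W_bij (fun x => (x.2.1 / 2, 2 * x.1 - x.2.2.1, x.2.1 + x.2.2.2, x.2.2.1))
    (fun x => ((x.2.1 + x.2.2.2) / 2, 2 * x.1, x.2.2.2, x.2.2.1 - 2 * x.1))
  · rintro a l b m hx ⟨hp, hl⟩
    obtain ⟨hb, hm⟩ := odd_bm (by omega) hx
    rw [mem_Om] at hx
    obtain ⟨h1, h2, h3, h4, h5⟩ := hx
    obtain ⟨k, hk⟩ := Nat.exists_eq_add_of_lt hp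
    obtain ⟨s, hs⟩ : ∃ s, l = 2 * s := ⟨l / 2, by omega⟩
    subst hs
    have e1 : 2 * s / 2 = s := by omega
    have e2 : 2 * a - b = k + 1 := by omega
    simp only [e1, e2]
    refine ⟨?_, ⟨by omega, by omega⟩, ?_, ?_⟩
    · rw [mem_Om]
      refine ⟨by omega, by omega, by omega, by omega, ?_⟩
      rw [← h5, mul_assoc 2 a (2 * s), ← mul_assoc a 2 s, mul_comm a 2, hk]; ring
    · ext <;> simp <;> omega
    · rw [mul_assoc, pow_mul]; simp
  · rintro a l b m hx ⟨hp, hl⟩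
    obtain ⟨hb, hm⟩ := odd_bm (by omega) hx
    rw [mem_Om] at hx
    obtain ⟨h1, h2, h3, h4, h5⟩ := hx
    obtain ⟨k, hk⟩ := Nat.exists_eq_add_of_lt hp
    obtain ⟨s, hs⟩ : ∃ s, l + m = 2 * s := ⟨(l + m) / 2, by omega⟩
    have e1 : (l + m) / 2 = s := by omega
    have e2 : b - 2 * a = k + 1 := by omega
    simp only [e1, e2]
    refine ⟨?_, ⟨by omega, by omega⟩, ?_⟩
    · rw [mem_Om]
      refine ⟨by omega, by omega, by omega, by omega, ?_⟩
      rw [← h5, ← hs, hk]; ring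
    · ext <;> simp <;> omega

/-- antisymmetry -/
theorem step4 (N : ℕ) (hN : N % 4 = 3) :
    W N (fun _ _ _ m => c m) (fun _ l _ _ => l % 2 = 0) = 0 := by
  have h : W N (fun _ _ _ m => c m) (fun _ l _ _ => l % 2 = 0) =
      W N (fun _ _ _ m => - c m) (fun _ l _ _ => l % 2 = 0) := by
    apply W_bij (fun x => (x.1, x.2.1, x.2.2.2, x.2.2.1)) (fun x => (x.1, x.2.1, x.2.2.2, x.2.2.1))
    · intro a l b m hx hp
      have hx' : (a, l, m, b) ∈ Om N := by
        rw [mem_Om] at hx ⊢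
        obtain ⟨h1, h2, h3, h4, h5⟩ := hx
        exact ⟨h1, h2, h4, h3, by rw [← h5]; ring⟩
      refine ⟨hx', hp, rfl, ?_⟩
      simp only
      rw [c_rel hN hx', mul_comm a l, pow_mul, Even.neg_one_pow (Nat.even_iff.2 hp)]
      simp
    · intro a l b m hx hp
      refine ⟨?_, hp, rfl⟩
      rw [mem_Om] at hx ⊢
      obtain ⟨h1, h2, h3, h4, h5⟩ := hx
      exact ⟨h1, h2, h4, h3, by simp only; rw [← h5]; ring⟩
  have h2 := W_neg (N := N) (F := fun _ _ _ m => c m) (p := fun _ l _ _ => l % 2 = 0)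
  linarith

theorem comb (N : ℕ) (hN : N % 4 = 3) :
    W N (fun a _ b _ => (-1) ^ a * c b) (fun a _ b _ => b < a) = 0 := by
  rw [step1 N hN, step2 N hN]
  have h1 : W N (fun a l b _ => (-1) ^ (l * (a + 1)) * c b) (fun _ _ _ _ => True) =
      W N (fun a l b _ => (-1) ^ (l * (a + 1)) * c b) (fun a _ b _ => 2 * a < b) +
      W N (fun a l b _ => (-1) ^ (l * (a + 1)) * c b) (fun a _ b _ => b < 2 * a) := by
    apply W_split
    · intro a l b m hx
      obtain ⟨hb, hm⟩ := odd_bm (by omega) hx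
      constructor
      · intro _; omega
      · intro _; trivial
    · intro a l b m; omega
  have h2 : W N (fun a l b _ => (-1) ^ (l * (a + 1)) * c b) (fun a _ b _ => b < 2 * a) =
      W N (fun a l b _ => (-1) ^ (l * (a + 1)) * c b) (fun a l b _ => b < 2 * a ∧ l % 2 = 1) +
      W N (fun a l b _ => (-1) ^ (l * (a + 1)) * c b) (fun a l b _ => b < 2 * a ∧ l % 2 = 0) := by
    apply W_split
    · intro a l b m hx
      omega
    · intro a l b m; omega
  have h3 : W N (fun _ _ _ m => c m) (fun _ l _ _ => l % 2 = 1) =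
      W N (fun _ _ _ m => c m) (fun a l b _ => b < 2 * a ∧ l % 2 = 1) +
      W N (fun _ _ _ m => c m) (fun a l b _ => 2 * a < b ∧ l % 2 = 1) := by
    apply W_split
    · intro a l b m hx
      obtain ⟨hb, hm⟩ := odd_bm (by omega) hx
      omega
    · intro a l b m; omega
  have h4 : W N (fun a l b _ => (-1) ^ (l * (a + 1)) * c b) (fun _ _ _ _ => True) =
      W N (fun _ l _ m => - ((-1) ^ l * c m)) (fun _ _ _ _ => True) := by
    apply W_congr
    intro a l b m hx _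
    rw [c_rel hN hx, mul_add, mul_one, pow_add, mul_comm l a]
    have : ((-1 : ℤ) ^ (a * l)) * ((-1 : ℤ) ^ (a * l)) = 1 := by
      rw [← mul_pow]; simp
    linear_combination (-(-1) ^ l * c m) * this
  have h5 : W N (fun _ l _ m => - ((-1) ^ l * c m)) (fun _ _ _ _ => True) =
      W N (fun _ l _ m => - ((-1) ^ l * c m)) (fun _ l _ _ => l % 2 = 1) +
      W N (fun _ l _ m => - ((-1) ^ l * c m)) (fun _ l _ _ => l % 2 = 0) := by
    apply W_split
    · intro a l b m hx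
      constructor
      · intro _; omega
      · intro _; trivial
    · intro a l b m; omega
  have h6 : W N (fun _ l _ m => - ((-1) ^ l * c m)) (fun _ l _ _ => l % 2 = 1) =
      W N (fun _ _ _ m => c m) (fun _ l _ _ => l % 2 = 1) := by
    apply W_congr
    intro a l b m hx hl
    rw [Odd.neg_one_pow (Nat.odd_iff.2 hl)]; ring
  have h7 : W N (fun _ l _ m => - ((-1) ^ l * c m)) (fun _ l _ _ => l % 2 = 0) =
      W N (fun _ _ _ m => - c m) (fun _ l _ _ => l % 2 = 0) := by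
    apply W_congr
    intro a l b m hx hl
    rw [Even.neg_one_pow (Nat.even_iff.2 hl)]; ring
  have h8 := W_neg (N := N) (F := fun _ _ _ m => c m) (p := fun _ l _ _ => l % 2 = 0)
  have h9 := step4 N hN
  rw [step3a N hN, step3b N hN, ← h3] at h2
  linarith

end Q261.DL
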