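import Mathlib
import Pool.Agent.Q261.DLComb

/-!
# The double Lambert series is odd: the analytic part
-/

set_option autoImplicit false

namespace Q261.DL

open Finset

/-- exponent; `m = x.1.1 + 1`, `n = x.1.2 + 1`, `i = x.2.1`, `j = x.2.2` -/
def ex (x : (ℕ × ℕ) × (ℕ × ℕ)) : ℕ :=
  2 * (x.1.1 + 1) * (x.1.2 + 1) + (x.1.1 + 1) + (x.1.2 + 1) * x.2.1 + (2 * x.1.1 + 1) * x.2.2

/-- sign -/
def sg (x : (ℕ × ℕ) × (ℕ × ℕ)) : ℤ := (-1) ^ (x.1.1 + 1 + x.2.1)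

/-- the map to `Om` -/
def mp (x : (ℕ × ℕ) × (ℕ × ℕ)) : ℕ × ℕ × ℕ × ℕ :=
  (2 * (x.1.1 + 1) + x.2.1, x.1.2 + 1, 2 * x.1.1 + 1, 2 * x.2.2 + 1)

theorem mp_spec (x : (ℕ × ℕ) × (ℕ × ℕ)) :
    2 * (mp x).1 * (mp x).2.1 + (mp x).2.2.1 * (mp x).2.2.2 + 1 = 2 * ex x := by
  unfold mp ex; ring

theorem mp_inj : Function.Injective mp := by
  rintro ⟨⟨m, n⟩, ⟨i, j⟩⟩ ⟨⟨m', n'⟩, ⟨i', j'⟩⟩ h
  simp only [mp, Prod.mk.injEq] at h ⊢
  omega

theorem fiber_finite (k : ℕ) : {x | ex x = k}.Finite := by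
  apply Set.Finite.of_finite_image (f := mp) _ mp_inj.injOn
  apply (Om (2 * k - 1)).finite_toSet.subset
  rintro _ ⟨x, hx, rfl⟩
  have h1 := mp_spec x
  rw [Set.mem_ofPred_eq] at hx
  rw [hx] at h1
  rw [Finset.mem_coe]
  change ((mp x).1, (mp x).2.1, (mp x).2.2.1, (mp x).2.2.2) ∈ _
  rw [mem_Om]
  refine ⟨?_, ?_, ?_, ?_, by omega⟩ <;> simp [mp]

/-- the sum of the signs over a fibre -/
theorem fiber_sum (k : ℕ) (hk : Even k) (hk0 : 0 < k) :
    ∑ x ∈ (fiber_finite k).toFinset, sg x = 0 := by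
  have hN : (2 * k - 1) % 4 = 3 := by
    obtain ⟨r, rfl⟩ := hk
    omega
  have h := comb (2 * k - 1) hN
  have h2 : ∑ x ∈ (fiber_finite k).toFinset, - sg x =
      W (2 * k - 1) (fun a _ b _ => (-1) ^ a * c b) (fun a _ b _ => b < a) := by
    unfold W
    apply sum_bij (fun x _ => mp x)
    · intro x hx
      rw [Set.Finite.mem_toFinset, Set.mem_ofPred_eq] at hx
      have h1 := mp_spec x
      rw [hx] at h1
      rw [mem_filter]
      refine ⟨?_, ?_⟩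
      · change ((mp x).1, (mp x).2.1, (mp x).2.2.1, (mp x).2.2.2) ∈ _
        rw [mem_Om]
        refine ⟨?_, ?_, ?_, ?_, by omega⟩ <;> simp [mp]
      · simp only [mp]; omega
    · intro x _ y _ hxy
      exact mp_inj hxy
    · rintro ⟨a, l, b, m⟩ hx
      rw [mem_filter] at hx
      obtain ⟨hx, hp⟩ := hx
      obtain ⟨hb, hm⟩ := odd_bm (by omega) hx
      rw [mem_Om] at hx
      obtain ⟨h1, h2, h3, h4, h5⟩ := hx
      simp only at hp
      obtain ⟨b', rfl⟩ : ∃ b', b = 2 * b' + 1 := ⟨b / 2, by omega⟩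
      obtain ⟨m', rfl⟩ : ∃ m', m = 2 * m' + 1 := ⟨m / 2, by omega⟩
      obtain ⟨l', rfl⟩ : ∃ l', l = l' + 1 := ⟨l - 1, by omega⟩
      obtain ⟨a', rfl⟩ : ∃ a', a = 2 * (b' + 1) + a' := ⟨a - 2 * (b' + 1), by omega⟩
      refine ⟨((b', l'), (a', m')), ?_, ?_⟩
      · rw [Set.Finite.mem_toFinset, Set.mem_ofPred_eq]
        have h6 := mp_spec ((b', l'), (a', m'))
        simp only [mp] at h6
        rw [h5] at h6
        omega
      · simp [mp]
    · rintro ⟨⟨m, n⟩, ⟨i, j⟩⟩ hx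
      simp only [sg, mp]
      have e1 : (-1 : ℤ) ^ (2 * (m + 1) + i) = (-1) ^ i := by
        rw [pow_add, pow_mul]; simp
      rw [e1, pow_add (-1 : ℤ) (m + 1) i]
      have e2 : c (2 * m + 1) = - (-1) ^ (m + 1) := by
        rw [neg_one_pow_mod]
        rcases Nat.mod_two_eq_zero_or_one m with hm | hm
        · have h7 : (2 * m + 1) % 4 = 1 := by omega
          have h8 : ¬ ((m + 1) % 2 = 0) := by omega
          simp [c, h7, h8]
        · have h7 : (2 * m + 1) % 4 = 3 := by omega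
          have h8 : ((m + 1) % 2 = 0) := by omega
          simp [c, h7, h8]
      rw [e2]; ring
  rw [h, sum_neg_distrib] at h2
  linarith

/-- term of the quadruple series -/
noncomputable def tm (q : ℂ) (x : (ℕ × ℕ) × (ℕ × ℕ)) : ℂ := (sg x : ℂ) * q ^ ex x

theorem norm_sg (x : (ℕ × ℕ) × (ℕ × ℕ)) : ‖(sg x : ℂ)‖ = 1 := by
  unfold sg; simp

theorem summable_tm {q : ℂ} (hq : ‖q‖ < 1) : Summable (tm q) := by
  -- bound by a product of geometric series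
  have hg : Summable (fun n : ℕ => ‖q‖ ^ n) := summable_geometric_of_lt_one (norm_nonneg _) hq
  have h2 : Summable (fun x : ℕ × ℕ => ‖q‖ ^ x.1 * ‖q‖ ^ x.2) :=
    hg.mul_of_nonneg hg (fun _ => by positivity) (fun _ => by positivity)
  have h4 : Summable (fun x : (ℕ × ℕ) × (ℕ × ℕ) =>
      (‖q‖ ^ x.1.1 * ‖q‖ ^ x.1.2) * (‖q‖ ^ x.2.1 * ‖q‖ ^ x.2.2)) :=
    h2.mul_of_nonneg h2 (fun _ => by positivity) (fun _ => by positivity)
  apply Summable.of_norm_bounded h4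
  rintro ⟨⟨m, n⟩, ⟨i, j⟩⟩
  unfold tm
  rw [norm_mul, norm_sg, one_mul, norm_pow]
  simp only
  rw [← pow_add, ← pow_add, ← pow_add]
  apply pow_le_pow_of_le_one (norm_nonneg _) hq.le
  simp only [ex]
  nlinarith [Nat.zero_le (m * n), Nat.zero_le (n * i), Nat.zero_le (m * j)]

theorem inner_sum {q : ℂ} (hq : ‖q‖ < 1) (p : ℕ × ℕ) :
    HasSum (fun y : ℕ × ℕ => tm q (p, y))
      ((-q) ^ (2 * (p.1 + 1) * (p.2 + 1) + (p.1 + 1)) /
          ((1 + q ^ (p.2 + 1)) * (1 - q ^ (2 * p.1 + 1)))) := by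
  have h1 : ‖- q ^ (p.2 + 1)‖ < 1 := by
    rw [norm_neg, norm_pow]
    exact pow_lt_one₀ (norm_nonneg _) hq (by omega)
  have h2 : ‖q ^ (2 * p.1 + 1)‖ < 1 := by
    rw [norm_pow]
    exact pow_lt_one₀ (norm_nonneg _) hq (by omega)
  have g1 := hasSum_geometric_of_norm_lt_one h1
  have g2 := hasSum_geometric_of_norm_lt_one h2
  have g3 : Summable (fun y : ℕ × ℕ => (- q ^ (p.2 + 1)) ^ y.1 * (q ^ (2 * p.1 + 1)) ^ y.2) := by
    apply Summable.of_norm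
    have s1 : Summable (fun n : ℕ => ‖(- q ^ (p.2 + 1)) ^ n‖) := by
      simp_rw [norm_pow (- q ^ (p.2 + 1))]
      exact summable_geometric_of_lt_one (norm_nonneg _) h1
    have s2 : Summable (fun n : ℕ => ‖(q ^ (2 * p.1 + 1)) ^ n‖) := by
      simp_rw [norm_pow (q ^ (2 * p.1 + 1))]
      exact summable_geometric_of_lt_one (norm_nonneg _) h2
    have s3 := s1.mul_of_nonneg s2 (fun _ => norm_nonneg _) (fun _ => norm_nonneg _)
    refine s3.congr ?_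
    intro y
    rw [norm_mul]
  have g4 := g1.mul g2 g3
  have g5 := g4.mul_left ((-q) ^ (2 * (p.1 + 1) * (p.2 + 1) + (p.1 + 1)))
  have e1 : (-q) ^ (2 * (p.1 + 1) * (p.2 + 1) + (p.1 + 1)) *
      ((1 - -q ^ (p.2 + 1))⁻¹ * (1 - q ^ (2 * p.1 + 1))⁻¹) =
      (-q) ^ (2 * (p.1 + 1) * (p.2 + 1) + (p.1 + 1)) /
          ((1 + q ^ (p.2 + 1)) * (1 - q ^ (2 * p.1 + 1))) := by
    rw [div_eq_mul_inv, mul_inv, sub_neg_eq_add]
  rw [e1] at g5
  have e2 : (fun y : ℕ × ℕ => tm q (p, y)) = fun y : ℕ × ℕ =>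
      (-q) ^ (2 * (p.1 + 1) * (p.2 + 1) + (p.1 + 1)) *
        ((- q ^ (p.2 + 1)) ^ y.1 * (q ^ (2 * p.1 + 1)) ^ y.2) := by
    funext y
    obtain ⟨i, j⟩ := y
    obtain ⟨m, n⟩ := p
    simp only [tm, sg, ex]
    rw [neg_pow q, neg_pow (q ^ (n + 1)) i]
    push_cast
    have e3 : (-1 : ℂ) ^ (2 * (m + 1) * (n + 1) + (m + 1)) = (-1) ^ (m + 1) := by
      rw [pow_add, mul_assoc, pow_mul]; simp
    rw [e3]
    ring
  rw [e2]
  exact g5

theorem total {q : ℂ} (hq : ‖q‖ < 1) :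
    (∑' p : ℕ × ℕ, (-q) ^ (2 * (p.1 + 1) * (p.2 + 1) + (p.1 + 1)) /
          ((1 + q ^ (p.2 + 1)) * (1 - q ^ (2 * p.1 + 1)))) = ∑' x, tm q x := by
  rw [(summable_tm hq).tsum_prod]
  congr 1
  funext p
  exact ((inner_sum hq p).tsum_eq).symm

theorem sum_even_zero {q : ℂ} (hq : ‖q‖ < 1) :
    ∑' x, (tm (-q) x + tm q x) = 0 := by
  have hq' : ‖-q‖ < 1 := by rwa [norm_neg]
  have hs : Summable (fun x => tm (-q) x + tm q x) := (summable_tm hq').add (summable_tm hq)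
  have e := (Equiv.sigmaFiberEquiv ex)
  have h1 : ∑' x, (tm (-q) x + tm q x) =
      ∑' y : (Σ k : ℕ, {x // ex x = k}), (tm (-q) (y.2 : (ℕ × ℕ) × (ℕ × ℕ)) + tm q y.2) := by
    rw [← (Equiv.sigmaFiberEquiv ex).tsum_eq]
    rfl
  have hs' : Summable (fun y : (Σ k : ℕ, {x // ex x = k}) =>
      (tm (-q) (y.2 : (ℕ × ℕ) × (ℕ × ℕ)) + tm q y.2)) :=
    ((Equiv.sigmaFiberEquiv ex).summable_iff (f := fun x => tm (-q) x + tm q x)).2 hs
  rw [h1, hs'.tsum_sigma]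
  have h2 : ∀ k : ℕ, ∑' x : {x // ex x = k}, (tm (-q) (x : (ℕ × ℕ) × (ℕ × ℕ)) + tm q x) = 0 := by
    intro k
    have h3 : ∀ x : {x // ex x = k}, (tm (-q) (x : (ℕ × ℕ) × (ℕ × ℕ)) + tm q x) =
        (sg x : ℂ) * ((-q) ^ k + q ^ k) := by
      rintro ⟨x, hx⟩
      simp only [tm, hx]
      ring
    rw [tsum_congr h3, tsum_mul_right]
    rcases Nat.even_or_odd k with hk | hk
    · rcases Nat.eq_zero_or_pos k with h0 | h0
      · have : IsEmpty {x // ex x = k} := by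
          constructor
          rintro ⟨x, hx⟩
          rw [h0] at hx
          unfold ex at hx
          omega
        rw [tsum_empty, zero_mul]
      · have h4 : ∑' x : {x // ex x = k}, ((sg x : ℤ) : ℂ) =
            ∑ x ∈ (fiber_finite k).toFinset, ((sg x : ℤ) : ℂ) := by
          have h5 := Finset.tsum_subtype' (fiber_finite k).toFinset (fun x => ((sg x : ℤ) : ℂ))
          rw [← h5]
          have h6 : ((fiber_finite k).toFinset : Set ((ℕ × ℕ) × (ℕ × ℕ))) = {x | ex x = k} :=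
            Set.Finite.coe_toFinset _
          rw [h6]
          rfl
        rw [h4]
        have h7 := fiber_sum k hk h0
        have h8 : ∑ x ∈ (fiber_finite k).toFinset, ((sg x : ℤ) : ℂ) = 0 := by
          exact_mod_cast h7
        rw [h8, zero_mul]
    · rw [hk.neg_pow, neg_add_cancel, mul_zero]
  rw [tsum_congr h2, tsum_zero]

theorem main (q : ℂ) (hq : ‖q‖ < 1) :
      (∑' p : ℕ × ℕ, (-(-q)) ^ (2 * (p.1 + 1) * (p.2 + 1) + (p.1 + 1)) /
          ((1 + (-q) ^ (p.2 + 1)) * (1 - (-q) ^ (2 * p.1 + 1))))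
        = -(∑' p : ℕ × ℕ, (-q) ^ (2 * (p.1 + 1) * (p.2 + 1) + (p.1 + 1)) /
          ((1 + q ^ (p.2 + 1)) * (1 - q ^ (2 * p.1 + 1)))) := by
  have hq' : ‖-q‖ < 1 := by rwa [norm_neg]
  rw [total hq', total hq]
  have h := sum_even_zero hq
  rw [(summable_tm hq').tsum_add (summable_tm hq)] at h
  exact eq_neg_of_add_eq_zero_left h

end Q261.DL
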