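import Mathlib

/-!
# Countable torsion-free divisible groups of infinite rank
-/

set_option autoImplicit false

namespace Q261.DivGrp

open Cardinal

theorem equiv_of {G : Type} [AddCommGroup G] [Countable G]
    (tf : ∀ m : ℕ, 0 < m → ∀ g : G, m • g = 0 → g = 0)
    (dv : ∀ m : ℕ, 0 < m → ∀ g : G, ∃ h : G, m • h = g)
    (v : ℕ → G) (hv : LinearIndependent ℤ v) : Nonempty (G ≃+ (ℕ →₀ ℚ)) := by
  -- the map to the divisible hull is bijective
  set φ : G →+ DivisibleHull G := DivisibleHull.coeAddMonoidHom G with hφ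
  have hinj : Function.Injective φ := by
    rw [injective_iff_map_eq_zero]
    intro g hg
    have h1 : DivisibleHull.mk g 1 = DivisibleHull.mk (0 : G) 1 := by
      rw [DivisibleHull.mk_zero]; exact hg
    rw [DivisibleHull.mk_eq_mk] at h1
    obtain ⟨u, hu⟩ := h1
    simp only [PNat.one_coe, one_smul, smul_zero] at hu
    exact tf u u.pos g hu
  have hsurj : Function.Surjective φ := by
    intro x
    induction x with | mk m s
    obtain ⟨h, hh⟩ := dv s s.pos m
    refine ⟨h, ?_⟩
    change DivisibleHull.mk h 1 = DivisibleHull.mk m s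
    rw [DivisibleHull.mk_eq_mk]
    refine ⟨1, ?_⟩
    simp only [PNat.one_coe, one_smul]
    exact hh
  have e : G ≃+ DivisibleHull G := AddEquiv.ofBijective φ ⟨hinj, hsurj⟩
  have hcount : Countable (DivisibleHull G) := hsurj.countable
  have hli : LinearIndependent ℤ (fun n => φ (v n)) :=
    hv.map' φ.toIntLinearMap (LinearMap.ker_eq_bot.2 hinj)
  have hliQ : LinearIndependent ℚ (fun n => φ (v n)) :=
    (LinearIndependent.iff_fractionRing ℤ ℚ).1 hli
  have hrank : Module.rank ℚ (DivisibleHull G) = ℵ₀ := by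
    apply le_antisymm
    · exact (rank_le_card ℚ (DivisibleHull G)).trans (Cardinal.mk_le_aleph0)
    · have := hliQ.cardinal_le_rank
      simpa using this
  have hrank2 : Module.rank ℚ (ℕ →₀ ℚ) = ℵ₀ := by
    rw [rank_finsupp_self]; simp
  obtain ⟨f⟩ := nonempty_linearEquiv_of_rank_eq (R := ℚ) (M := DivisibleHull G) (M₁ := ℕ →₀ ℚ)
    (hrank.trans hrank2.symm)
  exact ⟨e.trans f.toAddEquiv⟩

end Q261.DivGrp
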