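import Mathlib

/-!
# Algebraic power series with the Fermat property: definitions
-/

set_option autoImplicit false

namespace Q261.Fermat

open PowerSeries

/-- an integer power series is algebraic over `ℚ(x)` -/
def IsAlg (f : ℤ⟦X⟧) : Prop :=
  IsAlgebraic (Polynomial ℚ) (PowerSeries.map (Int.castRingHom ℚ) f)

/-- an integer power series is (the expansion at `0` of) an element of `ℚ(x)` -/
def IsRat (f : ℤ⟦X⟧) : Prop :=
  ∃ p q : Polynomial ℚ, q ≠ 0 ∧ (q : ℚ⟦X⟧) * PowerSeries.map (Int.castRingHom ℚ) f = (p : ℚ⟦X⟧)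

/-- the Fermat property: `s(p) ≡ 0 mod p` for all sufficiently large primes `p` -/
def HasFermat (R : ℤ⟦X⟧) : Prop :=
  ∃ N : ℕ, ∀ p : ℕ, p.Prime → N ≤ p → (p : ℤ) ∣ coeff p R

end Q261.Fermat
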