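import Pool.Agent.Q261.AlgSer
import Pool.Agent.Q261.DivGrp

/-!
# The groups of power series with the Fermat property
-/

set_option autoImplicit false

namespace Q261.Fermat

open PowerSeries Finset

/-! ### The subgroups -/

/-- the group of the algebraic `R ∈ ℤ[[x]]` with the Fermat property -/
def F : AddSubgroup ℤ⟦X⟧ where
  carrier := {R | IsAlg R ∧ HasFermat R}
  add_mem' := by
    rintro a b ⟨ha, N, hN⟩ ⟨hb, N', hN'⟩
    refine ⟨isAlg_add ha hb, max N N', fun p hp hpN => ?_⟩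
    rw [map_add]
    exact dvd_add (hN p hp ((le_max_left _ _).trans hpN)) (hN' p hp ((le_max_right _ _).trans hpN))
  zero_mem' := ⟨isAlg_zero, 0, fun p _ _ => by rw [map_zero]; exact dvd_zero _⟩
  neg_mem' := by
    rintro a ⟨ha, N, hN⟩
    refine ⟨isAlg_neg ha, N, fun p hp hpN => ?_⟩
    rw [map_neg]
    exact (hN p hp hpN).neg_right

/-- `D`: the set of all `x U'(x)` with `U ∈ ℤ[[x]]` algebraic -/
def D : AddSubgroup ℤ⟦X⟧ where
  carrier := {R | ∃ U : ℤ⟦X⟧, IsAlg U ∧ R = X * d⁄dX ℤ U}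
  add_mem' := by
    rintro a b ⟨U, hU, rfl⟩ ⟨V, hV, rfl⟩
    exact ⟨U + V, isAlg_add hU hV, by rw [map_add]; ring⟩
  zero_mem' := ⟨0, isAlg_zero, by rw [map_zero, mul_zero]⟩
  neg_mem' := by
    rintro a ⟨U, hU, rfl⟩
    exact ⟨-U, isAlg_neg hU, by rw [map_neg]; ring⟩

/-- `P`: the set of all finite sums of series `U(x^M)` with `M ≥ 2` and `U ∈ ℤ[[x]]` algebraic -/
def P : AddSubgroup ℤ⟦X⟧ :=
  AddSubgroup.closure {R | ∃ (M : ℕ) (hM : M ≠ 0) (U : ℤ⟦X⟧), 2 ≤ M ∧ IsAlg U ∧ R = expand M hM U}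

/-- `ℤ[x]` -/
noncomputable def Zx : AddSubgroup ℤ⟦X⟧ := (Polynomial.coeToPowerSeries.ringHom (R := ℤ)).toAddMonoidHom.range

/-- the integer power series which are rational functions -/
def Rt : AddSubgroup ℤ⟦X⟧ where
  carrier := {R | IsRat R}
  add_mem' := fun ha hb => isRat_add ha hb
  zero_mem' := isRat_zero
  neg_mem' := fun ha => isRat_neg ha

theorem mem_F {R : ℤ⟦X⟧} : R ∈ F ↔ IsAlg R ∧ HasFermat R := Iff.rfl

theorem mem_D {R : ℤ⟦X⟧} : R ∈ D ↔ ∃ U : ℤ⟦X⟧, IsAlg U ∧ R = X * d⁄dX ℤ U := Iff.rfl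

theorem mem_Rt {R : ℤ⟦X⟧} : R ∈ Rt ↔ IsRat R := Iff.rfl

theorem mem_Zx {R : ℤ⟦X⟧} : R ∈ Zx ↔ ∃ p : Polynomial ℤ, (p : ℤ⟦X⟧) = R := Iff.rfl

theorem coeff_theta (U : ℤ⟦X⟧) (n : ℕ) : coeff n (X * d⁄dX ℤ U) = n * coeff n U := by
  rcases Nat.eq_zero_or_pos n with rfl | hn
  · simp
  · obtain ⟨m, rfl⟩ : ∃ m, n = m + 1 := ⟨n - 1, by omega⟩
    rw [coeff_succ_X_mul, coeff_derivative]
    push_cast
    ring

theorem theta_eq (U : ℤ⟦X⟧) : X * d⁄dX ℤ U = Tm (fun n => (n : ℤ)) U := by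
  ext n
  rw [coeff_theta, coeff_Tm]

/-! ### The three subgroups lie in `F` -/

theorem isAlg_P {R : ℤ⟦X⟧} (h : R ∈ P) : IsAlg R := by
  refine AddSubgroup.closure_induction ?_ isAlg_zero (fun _ _ _ _ h1 h2 => isAlg_add h1 h2)
    (fun _ _ h1 => isAlg_neg h1) h
  rintro x ⟨M, hM, U, _, hU, rfl⟩
  exact isAlg_expand hM hU

theorem isAlg_D {R : ℤ⟦X⟧} (h : R ∈ D) : IsAlg R := by
  obtain ⟨U, hU, rfl⟩ := h
  rw [theta_eq]
  apply isAlg_Tm _ hU
  simpa using good_id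

/-- the property of the elements of `D + ℤ[x] + P`: for all large `n` prime to some `M`, the
coefficient of `x ^ n` is divisible by `n` -/
def H : AddSubgroup ℤ⟦X⟧ where
  carrier := {R | ∃ M N : ℕ, 0 < M ∧ ∀ n : ℕ, N ≤ n → Nat.Coprime n M → (n : ℤ) ∣ coeff n R}
  add_mem' := by
    rintro a b ⟨M, N, hM, h⟩ ⟨M', N', hM', h'⟩
    refine ⟨M * M', max N N', Nat.mul_pos hM hM', fun n hn hco => ?_⟩
    rw [map_add]
    rw [Nat.coprime_mul_iff_right] at hco
    exact dvd_add (h n ((le_max_left _ _).trans hn) hco.1) (h' n ((le_max_right _ _).trans hn) hco.2)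
  zero_mem' := ⟨1, 0, one_pos, fun n _ _ => by rw [map_zero]; exact dvd_zero _⟩
  neg_mem' := by
    rintro a ⟨M, N, hM, h⟩
    refine ⟨M, N, hM, fun n hn hco => ?_⟩
    rw [map_neg]
    exact (h n hn hco).neg_right

theorem D_le_H : D ≤ H := by
  rintro R ⟨U, _, rfl⟩
  refine ⟨1, 0, one_pos, fun n _ _ => ?_⟩
  rw [coeff_theta]
  exact dvd_mul_right _ _

theorem Zx_le_H : Zx ≤ H := by
  rintro R ⟨p, rfl⟩
  refine ⟨1, p.natDegree + 1, one_pos, fun n hn _ => ?_⟩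
  have : coeff n ((p : Polynomial ℤ) : ℤ⟦X⟧) = 0 := by
    rw [Polynomial.coeff_coe, Polynomial.coeff_eq_zero_of_natDegree_lt (by omega)]
  change (n : ℤ) ∣ coeff n ((p : Polynomial ℤ) : ℤ⟦X⟧)
  rw [this]
  exact dvd_zero _

theorem P_le_H : P ≤ H := by
  rw [P, AddSubgroup.closure_le]
  rintro R ⟨M, hM, U, hM2, _, rfl⟩
  refine ⟨M, 0, by omega, fun n _ hco => ?_⟩
  have h : ¬ M ∣ n := by
    intro hd
    have := Nat.Coprime.eq_one_of_dvd hco.symm hd
    omega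
  rw [coeff_expand_of_not_dvd _ _ _ h]
  exact dvd_zero _

theorem sum_le_H : D ⊔ Zx ⊔ P ≤ H := sup_le (sup_le D_le_H Zx_le_H) P_le_H

theorem sum_le_F : D ⊔ Zx ⊔ P ≤ F := by
  intro R hR
  refine ⟨?_, ?_⟩
  · rw [AddSubgroup.mem_sup] at hR
    obtain ⟨y, hy, z, hz, rfl⟩ := hR
    rw [AddSubgroup.mem_sup] at hy
    obtain ⟨u, hu, v, hv, rfl⟩ := hy
    obtain ⟨p, hp⟩ := mem_Zx.1 hv
    refine isAlg_add (isAlg_add (isAlg_D hu) ?_) (isAlg_P hz)
    rw [← hp]
    exact isAlg_of_isRat (isRat_coe p)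
  · obtain ⟨M, N, hM, h⟩ := sum_le_H hR
    refine ⟨max N (M + 1), fun p hp hpN => h p ((le_max_left _ _).trans hpN) ?_⟩
    rw [hp.coprime_iff_not_dvd]
    intro hd
    have h1 := Nat.le_of_dvd hM hd
    have h2 := (le_max_right N (M + 1)).trans hpN
    omega

/-! ### Multipliers on `ℤ⟦X⟧` -/

theorem Tm_add (w : ℕ → ℤ) (f g : ℤ⟦X⟧) : Tm w (f + g) = Tm w f + Tm w g := by
  ext n; rw [coeff_Tm, map_add, map_add, coeff_Tm, coeff_Tm]; ring

theorem Tm_neg (w : ℕ → ℤ) (f : ℤ⟦X⟧) : Tm w (-f) = -Tm w f := by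
  ext n; rw [coeff_Tm, map_neg, map_neg, coeff_Tm]; ring

theorem Tm_zero (w : ℕ → ℤ) : Tm w (0 : ℤ⟦X⟧) = 0 := by
  ext n; rw [coeff_Tm, map_zero, mul_zero]

theorem Tm_Tm (w v : ℕ → ℤ) (f : ℤ⟦X⟧) : Tm w (Tm v f) = Tm (fun n => w n * v n) f := by
  ext n; rw [coeff_Tm, coeff_Tm, coeff_Tm]; ring

abbrev GoodZ (w : ℕ → ℤ) : Prop := Good (fun n => (w n : ℂ))

theorem Tm_D {w : ℕ → ℤ} (hw : GoodZ w) {R : ℤ⟦X⟧} (h : R ∈ D) : Tm w R ∈ D := by
  obtain ⟨U, hU, rfl⟩ := h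
  refine ⟨Tm w U, isAlg_Tm hw hU, ?_⟩
  rw [theta_eq, theta_eq, Tm_Tm, Tm_Tm]
  congr 1
  funext n
  ring

theorem Tm_Zx (w : ℕ → ℤ) {R : ℤ⟦X⟧} (h : R ∈ Zx) : Tm w R ∈ Zx := by
  obtain ⟨p, rfl⟩ := mem_Zx.1 h
  rw [mem_Zx]
  refine ⟨∑ k ∈ range (p.natDegree + 1), Polynomial.monomial k (w k * p.coeff k), ?_⟩
  ext n
  rw [coeff_Tm, Polynomial.coeff_coe, Polynomial.coeff_coe, Polynomial.finsetSum_coeff]
  simp only [Polynomial.coeff_monomial]
  by_cases hn : n < p.natDegree + 1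
  · rw [sum_eq_single n, if_pos rfl]
    · intro b _ hb; rw [if_neg hb]
    · intro h; exact absurd (mem_range.2 hn) h
  · rw [Polynomial.coeff_eq_zero_of_natDegree_lt (show p.natDegree < n by omega), mul_zero]
    apply sum_eq_zero
    intro b hb
    rw [mem_range] at hb
    rw [if_neg (by omega)]

theorem Tm_P {w : ℕ → ℤ} (hw : GoodZ w) {R : ℤ⟦X⟧} (h : R ∈ P) : Tm w R ∈ P := by
  refine AddSubgroup.closure_induction (p := fun x _ => Tm w x ∈ P) ?_ ?_ ?_ ?_ h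
  · rintro x ⟨M, hM, U, hM2, hU, rfl⟩
    have h1 : Tm w (expand M hM U) = expand M hM (Tm (fun k => w (M * k)) U) := by
      ext n
      rw [coeff_Tm, coeff_expand, coeff_expand]
      split_ifs with hd
      · obtain ⟨k, rfl⟩ := hd
        rw [Nat.mul_div_cancel_left _ (Nat.pos_of_ne_zero hM), coeff_Tm]
      · rw [mul_zero]
    rw [h1]
    apply AddSubgroup.subset_closure
    refine ⟨M, hM, _, hM2, ?_, rfl⟩
    apply isAlg_of_expand hM
    rw [← h1]
    exact isAlg_Tm hw (isAlg_expand hM hU)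
  · rw [Tm_zero]; exact P.zero_mem
  · intro x y _ _ hx hy; rw [Tm_add]; exact P.add_mem hx hy
  · intro x _ hx; rw [Tm_neg]; exact P.neg_mem hx

/-! ### The multipliers attached to `m` -/

/-- indicator of the integers prime to `m` -/
def ch (m n : ℕ) : ℤ := if Nat.Coprime n m then 1 else 0

/-- `(1 - n ^ φ(m)) / m` on the integers prime to `m` -/
def wt (m n : ℕ) : ℤ := if Nat.Coprime n m then (1 - (n : ℤ) ^ Nat.totient m) / m else 0

/-- indicator of the integers whose least common prime factor with `m` is `q` -/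
def ind (m q n : ℕ) : ℤ := if ¬ Nat.Coprime n m ∧ (Nat.gcd n m).minFac = q then 1 else 0

theorem m_mul_wt (m n : ℕ) : (m : ℤ) * wt m n = ch m n - ch m n * (n : ℤ) ^ Nat.totient m := by
  unfold wt ch
  split_ifs with h
  · rw [one_mul]
    apply Int.mul_ediv_cancel'
    have h1 := Nat.ModEq.pow_totient h
    have h2 := (Nat.modEq_iff_dvd).1 h1
    push_cast at h2
    exact h2
  · ring

theorem good_ch (m : ℕ) (hm : 0 < m) : GoodZ (ch m) := by
  apply good_periodic hm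
  intro n
  have h : ch m n = ch m (n % m) := by
    unfold ch
    have : Nat.Coprime n m ↔ Nat.Coprime (n % m) m := by
      rw [Nat.coprime_iff_gcd_eq_one, Nat.coprime_iff_gcd_eq_one, ← Nat.gcd_rec, Nat.gcd_comm]
    simp only [this]
  exact_mod_cast h

theorem good_ind (m q : ℕ) (hm : 0 < m) : GoodZ (ind m q) := by
  apply good_periodic hm
  intro n
  have h : ind m q n = ind m q (n % m) := by
    unfold ind
    have h0 : Nat.gcd (n % m) m = Nat.gcd n m := by rw [← Nat.gcd_rec, Nat.gcd_comm]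
    have : Nat.Coprime n m ↔ Nat.Coprime (n % m) m := by
      rw [Nat.coprime_iff_gcd_eq_one, Nat.coprime_iff_gcd_eq_one, h0]
    rw [h0]
    simp only [this]
  exact_mod_cast h

theorem good_wt (m : ℕ) (hm : 0 < m) : GoodZ (wt m) := by
  have h : (fun n : ℕ => ((wt m n : ℤ) : ℂ)) =
      fun n => (1 / m : ℂ) * (((ch m n : ℤ) : ℂ) + (-1) * (((ch m n : ℤ) : ℂ) * (n : ℂ) ^ Nat.totient m)) := by
    funext n
    have h1 := m_mul_wt m n
    have h2 : (m : ℂ) * ((wt m n : ℤ) : ℂ) = ((ch m n : ℤ) : ℂ) - ((ch m n : ℤ) : ℂ) * (n : ℂ) ^ Nat.totient m := by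
      exact_mod_cast h1
    have hmC : (m : ℂ) ≠ 0 := by exact_mod_cast hm.ne'
    rw [one_div, inv_mul_eq_div, eq_div_iff hmC]
    linear_combination h2
  unfold GoodZ
  rw [h]
  exact good_mul (good_const _) (good_add (good_ch m hm)
    (good_mul (good_const _) (good_mul (good_ch m hm) (good_pow good_id _))))

/-- multiplier `ch m n * n ^ (φ(m) - 1)` -/
theorem good_ch_pow (m k : ℕ) (hm : 0 < m) : GoodZ (fun n => ch m n * (n : ℤ) ^ k) := by
  have h : (fun n : ℕ => ((ch m n * (n : ℤ) ^ k : ℤ) : ℂ)) = fun n => ((ch m n : ℤ) : ℂ) * (n : ℂ) ^ k := by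
    funext n; push_cast; rfl
  unfold GoodZ
  rw [h]
  exact good_mul (good_ch m hm) (good_pow good_id _)

theorem decomp (m : ℕ) (hm : 0 < m) (R : ℤ⟦X⟧) :
    R = Tm (ch m) R + ∑ q ∈ m.primeFactors, Tm (ind m q) R := by
  ext n
  rw [map_add, map_sum]
  simp only [coeff_Tm]
  rw [← sum_mul, ← add_mul]
  have h : ch m n + ∑ q ∈ m.primeFactors, ind m q n = 1 := by
    by_cases hco : Nat.Coprime n m
    · rw [ch, if_pos hco, sum_eq_zero, add_zero]
      intro q _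
      rw [ind, if_neg]
      exact fun h => h.1 hco
    · rw [ch, if_neg hco, zero_add, sum_eq_single (Nat.gcd n m).minFac]
      · rw [ind, if_pos ⟨hco, rfl⟩]
      · intro q _ hq
        rw [ind, if_neg]
        exact fun h => hq h.2.symm
      · intro h
        exfalso
        apply h
        rw [Nat.mem_primeFactors]
        refine ⟨Nat.minFac_prime hco, (Nat.minFac_dvd _).trans (Nat.gcd_dvd_right _ _), hm.ne'⟩
  rw [h, one_mul]

theorem Tm_ind_mem_P (m q : ℕ) (hm : 0 < m) (hq : q ∈ m.primeFactors) {R : ℤ⟦X⟧} (hR : IsAlg R) :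
    Tm (ind m q) R ∈ P := by
  have hqp := Nat.prime_of_mem_primeFactors hq
  have hq0 : q ≠ 0 := hqp.ne_zero
  have h1 : Tm (ind m q) R = expand q hq0 (PowerSeries.mk fun k => ind m q (q * k) * coeff (q * k) R) := by
    ext n
    rw [coeff_Tm, coeff_expand]
    split_ifs with hd
    · obtain ⟨k, rfl⟩ := hd
      rw [Nat.mul_div_cancel_left _ hqp.pos, coeff_mk]
    · have : ind m q n = 0 := by
        rw [ind, if_neg]
        rintro ⟨_, h⟩
        apply hd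
        rw [← h]
        exact (Nat.minFac_dvd _).trans (Nat.gcd_dvd_left _ _)
      rw [this, zero_mul]
  rw [h1]
  apply AddSubgroup.subset_closure
  refine ⟨q, hq0, _, hqp.two_le, ?_, rfl⟩
  apply isAlg_of_expand hq0
  rw [← h1]
  exact isAlg_Tm (good_ind m q hm) hR

/-- `ch m n * n ^ φ(m)` times `R` lies in `D` -/
theorem Tm_pow_mem_D (m : ℕ) (hm : 0 < m) {R : ℤ⟦X⟧} (hR : IsAlg R) :
    Tm (fun n => ch m n * (n : ℤ) ^ Nat.totient m) R ∈ D := by
  refine ⟨Tm (fun n => ch m n * (n : ℤ) ^ (Nat.totient m - 1)) R,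
    isAlg_Tm (good_ch_pow m _ hm) hR, ?_⟩
  rw [theta_eq, Tm_Tm]
  congr 1
  funext n
  have : Nat.totient m = (Nat.totient m - 1) + 1 := by
    have := Nat.totient_pos.2 hm
    omega
  conv_lhs => rw [this, pow_succ]
  ring

/-! ### The main group statements, relative to a subgroup `C` stable under good multipliers -/

variable (C : AddSubgroup ℤ⟦X⟧)

/-- the subgroup by which we divide -/
noncomputable def Sub : AddSubgroup ℤ⟦X⟧ := (D ⊓ C) ⊔ Zx ⊔ (P ⊓ C)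

variable {C}

theorem mem_Sub {R : ℤ⟦X⟧} : R ∈ Sub C ↔
    ∃ d z π : ℤ⟦X⟧, (d ∈ D ∧ d ∈ C) ∧ z ∈ Zx ∧ (π ∈ P ∧ π ∈ C) ∧ R = d + z + π := by
  unfold Sub
  rw [AddSubgroup.mem_sup]
  constructor
  · rintro ⟨y, hy, π, hπ, rfl⟩
    rw [AddSubgroup.mem_sup] at hy
    obtain ⟨d, hd, z, hz, rfl⟩ := hy
    exact ⟨d, z, π, hd, hz, hπ, rfl⟩
  · rintro ⟨d, z, π, hd, hz, hπ, rfl⟩
    refine ⟨d + z, ?_, π, hπ, rfl⟩
    rw [AddSubgroup.mem_sup]
    exact ⟨d, hd, z, hz, rfl⟩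

theorem sum_ind_mem (hC : ∀ w : ℕ → ℤ, GoodZ w → ∀ f ∈ C, Tm w f ∈ C) (m : ℕ) (hm : 0 < m)
    {R : ℤ⟦X⟧} (hR : IsAlg R) (hRC : R ∈ C) : ∑ q ∈ m.primeFactors, Tm (ind m q) R ∈ P ⊓ C :=
  AddSubgroup.sum_mem _ fun q hq => ⟨Tm_ind_mem_P m q hm hq hR, hC _ (good_ind m q hm) R hRC⟩

theorem divisible (hC : ∀ w : ℕ → ℤ, GoodZ w → ∀ f ∈ C, Tm w f ∈ C) (m : ℕ) (hm : 0 < m)
    {R : ℤ⟦X⟧} (hR : R ∈ F ⊓ C) : ∃ S ∈ F ⊓ C, R - m • S ∈ Sub C := by
  obtain ⟨⟨hRa, N, hN⟩, hRC⟩ := hR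
  refine ⟨Tm (wt m) R, ⟨⟨isAlg_Tm (good_wt m hm) hRa, N, ?_⟩, hC _ (good_wt m hm) R hRC⟩, ?_⟩
  · intro p hp hpN
    rw [coeff_Tm]
    exact (hN p hp hpN).mul_left _
  · rw [mem_Sub]
    refine ⟨Tm (fun n => ch m n * (n : ℤ) ^ Nat.totient m) R, 0,
      ∑ q ∈ m.primeFactors, Tm (ind m q) R, ⟨Tm_pow_mem_D m hm hRa, hC _ (good_ch_pow m _ hm) R hRC⟩,
      Zx.zero_mem, sum_ind_mem hC m hm hRa hRC, ?_⟩
    have h1 : m • Tm (wt m) R = Tm (ch m) R - Tm (fun n => ch m n * (n : ℤ) ^ Nat.totient m) R := by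
      ext n
      rw [map_sub, coeff_Tm, coeff_Tm, map_nsmul, coeff_Tm, nsmul_eq_mul, ← mul_assoc,
        ← sub_mul]
      congr 1
      exact m_mul_wt m n
    have h3 := decomp m hm R
    rw [h1]
    linear_combination h3

theorem torsionFree (hC : ∀ w : ℕ → ℤ, GoodZ w → ∀ f ∈ C, Tm w f ∈ C) (m : ℕ) (hm : 0 < m)
    {R : ℤ⟦X⟧} (hR : R ∈ F ⊓ C) (h : m • R ∈ Sub C) : R ∈ Sub C := by
  obtain ⟨⟨hRa, -⟩, hRC⟩ := hR
  rw [mem_Sub] at h
  obtain ⟨d, z, π, ⟨hd, hdC⟩, hz, ⟨hπ, hπC⟩, h⟩ := h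
  have hw := good_wt m hm
  have h1 := congrArg (Tm (wt m)) h
  rw [Tm_add, Tm_add] at h1
  have h2 : Tm (wt m) (m • R) = Tm (ch m) R - Tm (fun n => ch m n * (n : ℤ) ^ Nat.totient m) R := by
    ext n
    rw [map_sub, coeff_Tm, coeff_Tm, coeff_Tm, map_nsmul, nsmul_eq_mul, ← mul_assoc,
      mul_comm (wt m n), ← sub_mul]
    congr 1
    exact m_mul_wt m n
  rw [h2] at h1
  rw [mem_Sub]
  refine ⟨Tm (fun n => ch m n * (n : ℤ) ^ Nat.totient m) R + Tm (wt m) d, Tm (wt m) z,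
    Tm (wt m) π + ∑ q ∈ m.primeFactors, Tm (ind m q) R,
    ⟨D.add_mem (Tm_pow_mem_D m hm hRa) (Tm_D hw hd),
      C.add_mem (hC _ (good_ch_pow m _ hm) R hRC) (hC _ hw d hdC)⟩,
    Tm_Zx _ hz,
    ⟨P.add_mem (Tm_P hw hπ) (sum_ind_mem hC m hm hRa hRC).1,
      C.add_mem (hC _ hw π hπC) (sum_ind_mem hC m hm hRa hRC).2⟩, ?_⟩
  have h3 := decomp m hm R
  calc R = Tm (ch m) R + ∑ q ∈ m.primeFactors, Tm (ind m q) R := h3
    _ = (Tm (ch m) R - Tm (fun n => ch m n * (n : ℤ) ^ Nat.totient m) R) +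
        Tm (fun n => ch m n * (n : ℤ) ^ Nat.totient m) R +
        ∑ q ∈ m.primeFactors, Tm (ind m q) R := by ring
    _ = _ := by rw [h1]; ring

/-! ### The independent family -/

/-- `∑ (b ^ n - b) x ^ n` with `b = 2 ^ (j + 1)` -/
noncomputable def ee (j : ℕ) : ℤ⟦X⟧ := PowerSeries.mk fun n => ((2 : ℤ) ^ (j + 1)) ^ n - (2 : ℤ) ^ (j + 1)

theorem isRat_ee (j : ℕ) : IsRat (ee j) := by
  set b : ℚ := 2 ^ (j + 1) with hb
  refine ⟨(1 - Polynomial.X) - Polynomial.C b * (1 - Polynomial.C b * Polynomial.X),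
    (1 - Polynomial.C b * Polynomial.X) * (1 - Polynomial.X), ?_, ?_⟩
  · apply mul_ne_zero
    · intro h
      have := congrArg (fun P => Polynomial.coeff P 0) h
      simp at this
    · intro h
      have := congrArg (fun P => Polynomial.coeff P 0) h
      simp at this
  · have h1 : PowerSeries.map (Int.castRingHom ℚ) (ee j) =
        PowerSeries.mk (fun n => b ^ n) - C b * PowerSeries.mk (fun _ => (1 : ℚ)) := by
      ext n
      rw [PowerSeries.coeff_map, ee, coeff_mk, map_sub (coeff n), coeff_mk, coeff_C_mul, coeff_mk]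
      simp [hb]
    have h2 : (1 - C b * X) * PowerSeries.mk (fun n => b ^ n) = (1 : ℚ⟦X⟧) := by
      ext n
      rcases Nat.eq_zero_or_pos n with rfl | hn
      · rw [sub_mul, one_mul, map_sub, mul_assoc, coeff_C_mul]
        simp
      · obtain ⟨k, rfl⟩ : ∃ k, n = k + 1 := ⟨n - 1, by omega⟩
        rw [sub_mul, one_mul, map_sub, mul_assoc, coeff_C_mul, coeff_succ_X_mul, coeff_mk, coeff_mk,
          coeff_one, if_neg (by omega)]
        ring
    have h3 : (1 - X) * PowerSeries.mk (fun _ => (1 : ℚ)) = (1 : ℚ⟦X⟧) := by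
      ext n
      rcases Nat.eq_zero_or_pos n with rfl | hn
      · rw [sub_mul, one_mul, map_sub]
        simp
      · obtain ⟨k, rfl⟩ : ∃ k, n = k + 1 := ⟨n - 1, by omega⟩
        rw [sub_mul, one_mul, map_sub, coeff_succ_X_mul, coeff_mk, coeff_mk,
          coeff_one, if_neg (by omega)]
        ring
    rw [h1]
    push_cast
    linear_combination (1 - X) * h2 - C b * (1 - C b * X) * h3

theorem ee_mem_F (j : ℕ) : ee j ∈ F := by
  refine ⟨isAlg_of_isRat (isRat_ee j), 0, fun p hp _ => ?_⟩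
  have : Fact p.Prime := ⟨hp⟩
  rw [ee, coeff_mk, ← ZMod.intCast_zmod_eq_zero_iff_dvd] 
  push_cast
  rw [ZMod.pow_card, sub_self]

/-- an integer combination of the `ee j` with the divisibility property of `H` is trivial -/
theorem indep (c : ℕ →₀ ℤ) (h : (c.sum fun j a => a • ee j) ∈ H) : c = 0 := by
  classical
  obtain ⟨M, N, hM, h⟩ := h
  -- the polynomial
  set Q : Polynomial ℤ := (c.sum fun j a => Polynomial.monomial (j + 1) a) -
    Polynomial.C (c.sum fun j a => a * 2 ^ (j + 1)) with hQ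
  have hcoef : ∀ n, coeff n (c.sum fun j a => a • ee j) =
      c.sum fun j a => a * (((2 : ℤ) ^ (j + 1)) ^ n - 2 ^ (j + 1)) := by
    intro n
    rw [Finsupp.sum, map_sum, Finsupp.sum]
    apply sum_congr rfl
    intro j _
    rw [map_zsmul, ee, coeff_mk, smul_eq_mul]
  have heval : ∀ n : ℕ, Q.eval ((2 : ℤ) ^ n) = c.sum fun j a => a * (((2 : ℤ) ^ (j + 1)) ^ n - 2 ^ (j + 1)) := by
    intro n
    rw [hQ, Polynomial.eval_sub, Polynomial.eval_C, Finsupp.sum, Polynomial.eval_finsetSum,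
      Finsupp.sum, Finsupp.sum, ← sum_sub_distrib]
    apply sum_congr rfl
    intro j _
    rw [Polynomial.eval_monomial, ← pow_mul, ← pow_mul, mul_comm n (j + 1)]
    ring
  have hzero : ∀ q : ℕ, q.Prime → max N (M + 1) ≤ q → Q.eval ((2 : ℤ) ^ q) = 0 := by
    intro q hq hqN
    apply Int.eq_zero_of_abs_lt_dvd (m := (Nat.find (Nat.exists_infinite_primes
      (max (max N (M + 1)) ((Q.eval ((2 : ℤ) ^ q)).natAbs + 1))) : ℤ))
    · -- divisibility
      have hspec := Nat.find_spec (Nat.exists_infinite_primes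
        (max (max N (M + 1)) ((Q.eval ((2 : ℤ) ^ q)).natAbs + 1)))
      set p := Nat.find (Nat.exists_infinite_primes
        (max (max N (M + 1)) ((Q.eval ((2 : ℤ) ^ q)).natAbs + 1))) with hp
      have hpp : p.Prime := hspec.2
      have hpN : max N (M + 1) ≤ p := (le_max_left _ _).trans hspec.1
      have : Fact p.Prime := ⟨hpp⟩
      have hcopr : ∀ x : ℕ, x.Prime → max N (M + 1) ≤ x → Nat.Coprime x M := by
        intro x hx hxN
        rw [hx.coprime_iff_not_dvd]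
        intro hd
        have h1 := Nat.le_of_dvd hM hd
        have h2 := (le_max_right N (M + 1)).trans hxN
        omega
      have h1 := h (p * q) (by
        have : N ≤ q := (le_max_left _ _).trans hqN
        calc N ≤ q := this
          _ ≤ p * q := Nat.le_mul_of_pos_left q hpp.pos) (by
        rw [Nat.coprime_mul_iff_left]
        exact ⟨hcopr p hpp hpN, hcopr q hq hqN⟩)
      have h2 : (p : ℤ) ∣ coeff (p * q) (c.sum fun j a => a • ee j) :=
        dvd_trans ⟨(q : ℤ), by push_cast; ring⟩ h1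
      rw [hcoef] at h2
      rw [heval]
      have h3 : (((c.sum fun j a => a * (((2 : ℤ) ^ (j + 1)) ^ q - 2 ^ (j + 1)) : ℤ)) : ZMod p) =
          (((c.sum fun j a => a * (((2 : ℤ) ^ (j + 1)) ^ (p * q) - 2 ^ (j + 1)) : ℤ)) : ZMod p) := by
        rw [Finsupp.sum, Finsupp.sum, Int.cast_sum, Int.cast_sum]
        apply sum_congr rfl
        intro j _
        push_cast
        rw [mul_comm p q, pow_mul _ q p, ZMod.pow_card]
      rw [← ZMod.intCast_zmod_eq_zero_iff_dvd] at h2 ⊢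
      rw [h3, h2]
    · -- size
      have hspec := Nat.find_spec (Nat.exists_infinite_primes
        (max (max N (M + 1)) ((Q.eval ((2 : ℤ) ^ q)).natAbs + 1)))
      have h1 := (le_max_right (max N (M + 1)) ((Q.eval ((2 : ℤ) ^ q)).natAbs + 1)).trans hspec.1
      rw [Int.abs_eq_natAbs]
      exact_mod_cast h1
  have hQ0 : Q = 0 := by
    apply Polynomial.eq_zero_of_infinite_isRoot
    have hinf : {q : ℕ | q.Prime ∧ max N (M + 1) ≤ q}.Infinite := by
      have h1 := Nat.infinite_setOfPred_prime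
      have h2 : {q : ℕ | q.Prime ∧ max N (M + 1) ≤ q} = {q : ℕ | q.Prime} \ {q | q < max N (M + 1)} := by
        ext q
        simp only [Set.mem_ofPred_eq, Set.mem_sdiff, not_lt]
      rw [h2]
      exact h1.sdiff (Set.finite_lt_nat _)
    have hinj : Function.Injective (fun q : ℕ => (2 : ℤ) ^ q) := by
      intro a b hab
      exact Int.pow_right_injective (by norm_num) hab
    apply (hinf.image hinj.injOn).mono
    rintro _ ⟨q, ⟨hq, hqN⟩, rfl⟩
    exact hzero q hq hqN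
  ext j
  have h1 := congrArg (fun P => Polynomial.coeff P (j + 1)) hQ0
  simp only [hQ, Polynomial.coeff_sub, Polynomial.coeff_zero, Polynomial.coeff_C, Nat.succ_ne_zero,
    if_false, sub_zero] at h1
  rw [Finsupp.sum, Polynomial.finsetSum_coeff] at h1
  simp only [Polynomial.coeff_monomial, add_left_inj] at h1
  rw [sum_ite_eq'] at h1
  rw [Finsupp.coe_zero, Pi.zero_apply]
  by_cases hj : j ∈ c.support
  · rwa [if_pos hj] at h1
  · exact Finsupp.notMem_support_iff.1 hj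

/-! ### The structure theorem -/

theorem countable_F : (F : Set ℤ⟦X⟧).Countable := by
  have hinj : Function.Injective (algebraMap (Polynomial ℚ) ℚ⟦X⟧) := by
    intro p q h
    exact Polynomial.coe_injective ℚ h
  have htf : Module.IsTorsionFree (Polynomial ℚ) ℚ⟦X⟧ :=
    Module.isTorsionFree_iff_algebraMap_injective.2 hinj
  have hcp : Countable (Polynomial ℚ) := by
    rw [← Cardinal.mk_le_aleph0_iff]
    refine (Polynomial.cardinalMk_le_max).trans ?_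
    simp
  have h1 : {x : ℚ⟦X⟧ | IsAlgebraic (Polynomial ℚ) x}.Countable := Algebraic.countable _ _
  have h2 : Function.Injective (PowerSeries.map (Int.castRingHom ℚ)) :=
    PowerSeries.map_injective _ Int.cast_injective
  apply (h1.preimage h2).mono
  intro R hR
  exact hR.1

theorem structure_thm (hC : ∀ w : ℕ → ℤ, GoodZ w → ∀ f ∈ C, Tm w f ∈ C) (hRt : Rt ≤ C) :
    Nonempty (((F ⊓ C : AddSubgroup ℤ⟦X⟧) ⧸ (Sub C).addSubgroupOf (F ⊓ C)) ≃+ (ℕ →₀ ℚ)) := by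
  set G := ((F ⊓ C : AddSubgroup ℤ⟦X⟧) ⧸ (Sub C).addSubgroupOf (F ⊓ C)) with hG
  have hSH : Sub C ≤ H :=
    sup_le (sup_le (inf_le_left.trans D_le_H) Zx_le_H) (inf_le_left.trans P_le_H)
  have hc : Countable (F ⊓ C : AddSubgroup ℤ⟦X⟧) := by
    have : ((F ⊓ C : AddSubgroup ℤ⟦X⟧) : Set ℤ⟦X⟧).Countable := countable_F.mono inf_le_left
    exact this.to_subtype
  have hcount : Countable G := (QuotientAddGroup.mk_surjective (s := (Sub C).addSubgroupOf (F ⊓ C))).countable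
  refine Q261.DivGrp.equiv_of (G := G) ?_ ?_
    (fun j => QuotientAddGroup.mk ⟨ee j, ee_mem_F j, hRt (isRat_ee j)⟩) ?_
  · intro m hm g hg
    induction g using QuotientAddGroup.induction_on with
    | H R =>
      rw [← QuotientAddGroup.mk_nsmul, QuotientAddGroup.eq_zero_iff, AddSubgroup.mem_addSubgroupOf] at hg
      rw [QuotientAddGroup.eq_zero_iff, AddSubgroup.mem_addSubgroupOf]
      exact torsionFree hC m hm R.2 hg
  · intro m hm g
    induction g using QuotientAddGroup.induction_on with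
    | H R =>
      obtain ⟨S, hS, h⟩ := divisible hC m hm R.2
      refine ⟨QuotientAddGroup.mk ⟨S, hS⟩, ?_⟩
      rw [← QuotientAddGroup.mk_nsmul, QuotientAddGroup.eq, AddSubgroup.mem_addSubgroupOf]
      have : (((-(m • (⟨S, hS⟩ : (F ⊓ C : AddSubgroup ℤ⟦X⟧))) + R) :
          (F ⊓ C : AddSubgroup ℤ⟦X⟧)) : ℤ⟦X⟧) = (R : ℤ⟦X⟧) - m • S := by
        push_cast
        ring
      rw [this]
      exact h
  · rw [linearIndependent_iff]
    intro c hc0
    apply indep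
    apply hSH
    rw [Finsupp.linearCombination_apply] at hc0
    have h1 : (c.sum fun j a => a • (QuotientAddGroup.mk (s := (Sub C).addSubgroupOf (F ⊓ C))
        (⟨ee j, ee_mem_F j, hRt (isRat_ee j)⟩ : (F ⊓ C : AddSubgroup ℤ⟦X⟧)))) =
        QuotientAddGroup.mk (s := (Sub C).addSubgroupOf (F ⊓ C))
          (c.sum fun j a => a • (⟨ee j, ee_mem_F j, hRt (isRat_ee j)⟩ : (F ⊓ C : AddSubgroup ℤ⟦X⟧))) := by
      have := map_finsuppSum (QuotientAddGroup.mk' ((Sub C).addSubgroupOf (F ⊓ C))) c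
        (fun j a => a • (⟨ee j, ee_mem_F j, hRt (isRat_ee j)⟩ : (F ⊓ C : AddSubgroup ℤ⟦X⟧)))
      rw [QuotientAddGroup.mk'_apply] at this
      rw [this]
      rfl
    rw [h1, QuotientAddGroup.eq_zero_iff, AddSubgroup.mem_addSubgroupOf] at hc0
    have h2 : ((c.sum fun j a => a • (⟨ee j, ee_mem_F j, hRt (isRat_ee j)⟩ :
        (F ⊓ C : AddSubgroup ℤ⟦X⟧)) : (F ⊓ C : AddSubgroup ℤ⟦X⟧)) : ℤ⟦X⟧) = c.sum fun j a => a • ee j := by
      rw [Finsupp.sum, Finsupp.sum]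
      exact map_sum (F ⊓ C : AddSubgroup ℤ⟦X⟧).subtype _ _
    rw [h2] at hc0
    exact hc0

theorem stable_top : ∀ w : ℕ → ℤ, GoodZ w → ∀ f ∈ (⊤ : AddSubgroup ℤ⟦X⟧), Tm w f ∈ (⊤ : AddSubgroup ℤ⟦X⟧) :=
  fun _ _ _ _ => AddSubgroup.mem_top _

theorem stable_Rt : ∀ w : ℕ → ℤ, GoodZ w → ∀ f ∈ Rt, Tm w f ∈ Rt :=
  fun _ hw _ hf => isRat_Tm hw hf

end Q261.Fermat
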