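import Pool.Agent.Q261.HypSer

/-!
The quotient `F(3,3,3)/F(1,1,1)` has 2-integral coefficients.
-/

namespace Pool.Agent.Q261.HypBase

open PowerSeries Pool.Agent.Q261.TwoInt Pool.Agent.Q261.HypSer

/-! ### the series `(1-4t)^{-1/2}` and the Catalan series -/

/-- central binomial series -/
noncomputable def c : ℚ⟦X⟧ := PowerSeries.mk fun n => (n.centralBinom : ℚ)

lemma const_c : constantCoeff c = 1 := by
  rw [← coeff_zero_eq_constantCoeff_apply, c, coeff_mk]; simp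

lemma c_mem : c ∈ I2 := by
  intro n; rw [c, coeff_mk]; exact nat_mem _

lemma C4 : (C (4 : ℚ) : ℚ⟦X⟧) = 4 := rfl

lemma deriv_num (n : ℕ) [n.AtLeastTwo] : d⁄dX ℚ (ofNat(n) : ℚ⟦X⟧) = 0 := by
  have : (ofNat(n) : ℚ⟦X⟧) = C (ofNat(n) : ℚ) := by
    rw [map_ofNat]
  rw [this, derivative_C]

lemma two_ne : (2 : ℚ⟦X⟧) ≠ 0 := by
  intro h
  have := congrArg constantCoeff h
  rw [map_ofNat, map_zero] at this
  norm_num at this

lemma hc1 : (1 - 4 * X) * d⁄dX ℚ c = 2 * c := by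
  have e : (1 - 4 * X) * d⁄dX ℚ c - 2 * c = d⁄dX ℚ c - C 4 * (X * d⁄dX ℚ c) - C 2 * c := by
    have h2 : (C (2 : ℚ) : ℚ⟦X⟧) = 2 := rfl
    rw [C4, h2]; ring
  rw [← sub_eq_zero, e]
  ext n
  have h := Nat.succ_mul_centralBinom_succ n
  have h' : ((n : ℚ) + 1) * ((n + 1).centralBinom : ℚ) = 2 * (2 * n + 1) * (n.centralBinom : ℚ) := by
    exact_mod_cast h
  rw [map_sub, map_sub, coeff_C_mul, coeff_C_mul, coeff_derivative, map_zero]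
  have hX : coeff n (X * d⁄dX ℚ c) = n * coeff n c := by
    rcases n with _ | n
    · simp
    · rw [coeff_succ_X_mul, coeff_derivative]; push_cast; ring
  rw [hX, c, coeff_mk, coeff_mk]
  linear_combination h'

lemma dX4 : d⁄dX ℚ (1 - 4 * X : ℚ⟦X⟧) = -4 := by
  rw [map_sub, derivative_one, Derivation.leibniz, derivative_X, deriv_num]
  simp

lemma hc2 : c ^ 2 * (1 - 4 * X) = 1 := by
  apply derivative.ext
  · rw [Derivation.leibniz, dX4, derivative_pow, derivative_one]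
    simp only [smul_eq_mul, Nat.add_one_sub_one, pow_one, Nat.cast_ofNat]
    linear_combination 2 * c * hc1
  · simp [const_c]

lemma hc3 : d⁄dX ℚ c = 2 * c ^ 3 := by
  linear_combination c ^ 2 * hc1 - d⁄dX ℚ c * hc2

/-- Catalan series -/
noncomputable def K : ℚ⟦X⟧ := (catalanSeries).map (Nat.castRingHom ℚ)

lemma K_mem : K ∈ I2 := by
  intro n
  rw [K, coeff_map]
  exact nat_mem _

lemma const_K : constantCoeff K = 1 := by
  rw [K, ← coeff_zero_eq_constantCoeff_apply, coeff_map, coeff_zero_eq_constantCoeff_apply,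
    catalanSeries_constantCoeff]
  simp

lemma hK1 : K ^ 2 * X + 1 = K := by
  have h := congrArg (PowerSeries.map (Nat.castRingHom ℚ)) catalanSeries_sq_mul_X_add_one
  rw [map_add, map_mul, map_pow, map_one, map_X] at h
  exact h

lemma hcK : c * (1 - 2 * X * K) = 1 := by
  have h2 : (c * (1 - 2 * X * K) - 1) * (c * (1 - 2 * X * K) + 1) = 0 := by
    linear_combination hc2 + 4 * X * c ^ 2 * hK1
  rcases mul_eq_zero.mp h2 with h | h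
  · linear_combination h
  · exfalso
    have := congrArg constantCoeff h
    simp [const_c] at this

lemma hK2 : X * (2 * d⁄dX ℚ K) = K * (c - 1) := by
  have h := congrArg (d⁄dX ℚ) hK1
  rw [map_add, Derivation.leibniz, derivative_pow, derivative_one, derivative_X] at h
  simp only [smul_eq_mul, Nat.add_one_sub_one, pow_one, Nat.cast_ofNat] at h
  -- `K' (1 - 2XK) = K^2`
  have h2 : d⁄dX ℚ K = K ^ 2 * c := by
    linear_combination (-c) * h - d⁄dX ℚ K * hcK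
  rw [h2]
  linear_combination (-K) * hcK

/-! ### the series kappa -/

/-- `κ = X²K²c` -/
noncomputable def kap : ℚ⟦X⟧ := X ^ 2 * K ^ 2 * c

lemma kap_mem : kap ∈ I2 :=
  I2.mul_mem (I2.mul_mem (I2.pow_mem X_mem 2) (I2.pow_mem K_mem 2)) c_mem

lemma const_kap : constantCoeff kap = 0 := by simp [kap]

lemma hkap : 1 + 2 * kap = (1 - 2 * X) * c := by
  unfold kap
  linear_combination (-1 : ℚ⟦X⟧) * hcK + (2 * X * c) * hK1

lemma hkap' : d⁄dX ℚ kap = 2 * X * c ^ 3 := by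
  have h := congrArg (d⁄dX ℚ) hkap
  rw [map_add, derivative_one, Derivation.leibniz, Derivation.leibniz, deriv_num, map_sub,
    derivative_one, Derivation.leibniz, derivative_X, deriv_num, hc3] at h
  simp only [smul_eq_mul] at h
  have h2 : (2 : ℚ⟦X⟧) ≠ 0 := two_ne
  apply mul_left_cancel₀ h2
  linear_combination h + 2 * c * hc2

/-! ### the auxiliary hypergeometric series -/

/-- coefficients of `₃F₂(1/2,1/2,1/2;3/4,5/4;-σ)` -/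
noncomputable def vc (n : ℕ) : ℚ :=
  ∏ j ∈ Finset.range n, (-2 * (2 * j + 1) ^ 3 / ((4 * j + 3) * (4 * j + 5) * (j + 1)))

/-- the series -/
noncomputable def V : ℚ⟦X⟧ := PowerSeries.mk vc

lemma vc_succ (n : ℕ) :
    ((n : ℚ) + 1) * (4 * n + 3) * (4 * n + 5) * vc (n + 1) + 2 * (2 * n + 1) ^ 3 * vc n = 0 := by
  rw [vc, Finset.prod_range_succ, ← vc]
  have h1 : ((n : ℚ) + 1) ≠ 0 := by positivity
  have h2 : (4 * (n : ℚ) + 3) ≠ 0 := by positivity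
  have h3 : (4 * (n : ℚ) + 5) ≠ 0 := by positivity
  field_simp
  ring

lemma vc_eq (n : ℕ) : vc n = (2 : ℚ) ^ n / (n.factorial : ℚ) *
    ∏ j ∈ Finset.range n, (-(2 * (j : ℚ) + 1) ^ 3 / ((4 * j + 3) * (4 * j + 5))) := by
  induction n with
  | zero => simp [vc]
  | succ n ih =>
    rw [vc, Finset.prod_range_succ, ← vc, ih, Finset.prod_range_succ, pow_succ, Nat.factorial_succ]
    have h1 : ((n : ℚ) + 1) ≠ 0 := by positivity
    have h2 : (4 * (n : ℚ) + 3) ≠ 0 := by positivity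
    have h3 : (4 * (n : ℚ) + 5) ≠ 0 := by positivity
    have h4 : (n.factorial : ℚ) ≠ 0 := by exact_mod_cast Nat.factorial_ne_zero n
    generalize ∏ j ∈ Finset.range n, (-(2 * (j : ℚ) + 1) ^ 3 / ((4 * j + 3) * (4 * j + 5))) = P
    push_cast
    field_simp
    ring

lemma vc_mem (n : ℕ) (hn : n ≠ 0) : ∃ z ∈ Z2, vc n = 2 * z := by
  obtain ⟨z, hz, h⟩ := two_pow_div_factorial' n hn
  refine ⟨z * ∏ j ∈ Finset.range n, (-(2 * (j : ℚ) + 1) ^ 3 / ((4 * j + 3) * (4 * j + 5))),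
    Z2.mul_mem hz (Z2.prod_mem ?_), ?_⟩
  · intro j _
    have h := int_div_odd (-(2 * j + 1) ^ 3) (m := ((4 * j + 3) * (4 * j + 5) : ℤ)) (by
      apply Odd.mul
      · exact ⟨2 * j + 1, by ring⟩
      · exact ⟨2 * j + 2, by ring⟩)
    push_cast at h
    exact h
  · rw [vc_eq, h]; ring

lemma V_split : ∃ U ∈ I2, V = 1 + 2 * X * U := by
  have h : ∀ n : ℕ, ∃ z ∈ Z2, vc (n + 1) = 2 * z := fun n => vc_mem (n + 1) (by omega)
  choose z hz hz' using h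
  refine ⟨PowerSeries.mk z, ?_, ?_⟩
  · intro n; rw [coeff_mk]; exact hz n
  · ext n
    have e : (1 + 2 * X * PowerSeries.mk z : ℚ⟦X⟧) = 1 + C 2 * (X * PowerSeries.mk z) := by
      have h2 : (C (2 : ℚ) : ℚ⟦X⟧) = 2 := rfl
      rw [h2]; ring
    rw [e, map_add, coeff_C_mul, V, coeff_mk]
    rcases n with _ | n
    · simp [vc]
    · rw [coeff_succ_X_mul, coeff_mk, coeff_one, hz' n]; simp

lemma ode_V : (16 * X ^ 2 + 16 * X ^ 3) * d⁄dX ℚ (d⁄dX ℚ (d⁄dX ℚ V)) + (48 * X + 72 * X ^ 2) *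
    d⁄dX ℚ (d⁄dX ℚ V) + (15 + 52 * X) * d⁄dX ℚ V + 2 * V = 0 := by
  have e : (16 * X ^ 2 + 16 * X ^ 3) * d⁄dX ℚ (d⁄dX ℚ (d⁄dX ℚ V)) + (48 * X + 72 * X ^ 2) *
    d⁄dX ℚ (d⁄dX ℚ V) + (15 + 52 * X) * d⁄dX ℚ V + 2 * V =
    C 16 * (X * (X * d⁄dX ℚ (d⁄dX ℚ (d⁄dX ℚ V)))) + C 16 * (X * (X * (X * d⁄dX ℚ (d⁄dX ℚ (d⁄dX ℚ V)))))
     + C 48 * (X * d⁄dX ℚ (d⁄dX ℚ V)) + C 72 * (X * (X * d⁄dX ℚ (d⁄dX ℚ V))) + C 15 * d⁄dX ℚ V
     + C 52 * (X * d⁄dX ℚ V) + C 2 * V := by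
    have h (n : ℕ) [n.AtLeastTwo] : (C (OfNat.ofNat n : ℚ) : ℚ⟦X⟧) = OfNat.ofNat n := by
      rw [map_ofNat]
    rw [h, h, h, h, h, h]; ring
  rw [e]
  ext n
  simp only [map_add, coeff_C_mul, map_zero]
  have hv := vc_succ n
  rcases n with _ | _ | _ | n
  · simp only [coeff_zero_X_mul, coeff_derivative, V, coeff_mk]
    push_cast at hv ⊢
    linear_combination hv
  · simp only [coeff_succ_X_mul, coeff_zero_X_mul, coeff_derivative, V, coeff_mk]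
    push_cast at hv ⊢
    linear_combination hv
  · simp only [coeff_succ_X_mul, coeff_zero_X_mul, coeff_derivative, V, coeff_mk]
    push_cast at hv ⊢
    linear_combination hv
  · simp only [coeff_succ_X_mul, coeff_derivative, V, coeff_mk]
    push_cast at hv ⊢
    linear_combination hv

/-- `σ = 4X²c²` -/
noncomputable def sig : ℚ⟦X⟧ := 4 * X ^ 2 * c ^ 2

lemma const_sig : constantCoeff sig = 0 := by simp [sig]

lemma hs_sig : HasSubst sig := HasSubst.of_constantCoeff_zero' const_sig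

lemma sig_kap : sig = 4 * kap + 4 * kap ^ 2 := by
  have h := hkap
  unfold sig
  linear_combination (-(1 + 2 * kap) - (1 - 2 * X) * c) * h - hc2

lemma hsig' : d⁄dX ℚ sig = 8 * X * c ^ 2 + 16 * X ^ 2 * c ^ 4 := by
  unfold sig
  rw [Derivation.leibniz, Derivation.leibniz, derivative_pow, derivative_pow, deriv_num, hc3,
    derivative_X]
  simp only [smul_eq_mul, Nat.add_one_sub_one, pow_one, Nat.cast_ofNat]
  ring

/-- the composed series and its formal derivatives -/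
noncomputable def W0 : ℚ⟦X⟧ := V.subst sig
noncomputable def W1 : ℚ⟦X⟧ := (d⁄dX ℚ V).subst sig
noncomputable def W2 : ℚ⟦X⟧ := (d⁄dX ℚ (d⁄dX ℚ V)).subst sig
noncomputable def W3 : ℚ⟦X⟧ := (d⁄dX ℚ (d⁄dX ℚ (d⁄dX ℚ V))).subst sig

lemma dW0 : d⁄dX ℚ W0 = W1 * (8 * X * c ^ 2 + 16 * X ^ 2 * c ^ 4) := by
  rw [W0, derivative_subst hs_sig, hsig']; rfl
lemma dW1 : d⁄dX ℚ W1 = W2 * (8 * X * c ^ 2 + 16 * X ^ 2 * c ^ 4) := by
  rw [W1, derivative_subst hs_sig, hsig']; rfl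
lemma dW2 : d⁄dX ℚ W2 = W3 * (8 * X * c ^ 2 + 16 * X ^ 2 * c ^ 4) := by
  rw [W2, derivative_subst hs_sig, hsig']; rfl

lemma odeW : (16 * sig ^ 2 + 16 * sig ^ 3) * W3 + (48 * sig + 72 * sig ^ 2) * W2
    + (15 + 52 * sig) * W1 + 2 * W0 = 0 := by
  have h := congrArg (substAlgHom hs_sig) ode_V
  simp only [map_add, map_mul, map_pow, map_ofNat, map_zero] at h
  simp only [coe_substAlgHom hs_sig, subst_X hs_sig] at h
  exact h


/-- the third order operator -/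
noncomputable def L (f : ℚ⟦X⟧) : ℚ⟦X⟧ :=
  4 * X ^ 2 * (1 - 4 * X) ^ 2 * d⁄dX ℚ (d⁄dX ℚ (d⁄dX ℚ f)) +
  12 * X * (1 - 4 * X) * (1 - 8 * X) * d⁄dX ℚ (d⁄dX ℚ f) +
  (3 - 108 * X + 448 * X ^ 2) * d⁄dX ℚ f + (-6 + 64 * X) * f

lemma L_expand (f : ℚ⟦X⟧) : L f = C 4 * (X * (X * d⁄dX ℚ (d⁄dX ℚ (d⁄dX ℚ f))))
      - C 32 * (X * (X * (X * d⁄dX ℚ (d⁄dX ℚ (d⁄dX ℚ f)))))
      + C 64 * (X * (X * (X * (X * d⁄dX ℚ (d⁄dX ℚ (d⁄dX ℚ f))))))
      + C 12 * (X * d⁄dX ℚ (d⁄dX ℚ f)) - C 144 * (X * (X * d⁄dX ℚ (d⁄dX ℚ f)))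
      + C 384 * (X * (X * (X * d⁄dX ℚ (d⁄dX ℚ f))))
      + C 3 * d⁄dX ℚ f - C 108 * (X * d⁄dX ℚ f) + C 448 * (X * (X * d⁄dX ℚ f))
      - C 6 * f + C 64 * (X * f) := by
  have h (n : ℕ) [n.AtLeastTwo] : (C (OfNat.ofNat n : ℚ) : ℚ⟦X⟧) = OfNat.ofNat n := by
    rw [map_ofNat]
  unfold L
  rw [h, h, h, h, h, h, h, h, h, h]; ring

lemma coeff_L_zero (f : ℚ⟦X⟧) : coeff 0 (L f) = 3 * coeff 1 f - 6 * coeff 0 f := by
  rw [L_expand]
  simp only [map_add, map_sub, coeff_C_mul, coeff_zero_X_mul, coeff_derivative]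
  push_cast
  ring

lemma coeff_L_succ (f : ℚ⟦X⟧) (n : ℕ) : coeff (n + 1) (L f) =
    (n + 2) * (2 * n + 3) * (2 * n + 5) * coeff (n + 2) f
     - 2 * (2 * n + 3) * (8 * (n + 1) ^ 2 + 8 * (n + 1) + 3) * coeff (n + 1) f
     + 64 * (n + 1) ^ 3 * coeff n f := by
  rw [L_expand]
  simp only [map_add, map_sub, coeff_C_mul]
  rcases n with _ | _ | _ | n
  · simp only [coeff_succ_X_mul, coeff_zero_X_mul, coeff_derivative]
    push_cast
    ring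
  · simp only [coeff_succ_X_mul, coeff_zero_X_mul, coeff_derivative]
    push_cast
    ring
  · simp only [coeff_succ_X_mul, coeff_zero_X_mul, coeff_derivative]
    push_cast
    ring
  · simp only [coeff_succ_X_mul, coeff_derivative]
    push_cast
    ring

lemma L_unique {f : ℚ⟦X⟧} (h : L f = 0) (h0 : constantCoeff f = 0) : f = 0 := by
  have h0' : coeff 0 f = 0 := by rw [coeff_zero_eq_constantCoeff_apply, h0]
  have h1 : coeff 1 f = 0 := by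
    have := congrArg (coeff 0) h
    rw [coeff_L_zero, h0', map_zero] at this
    linarith
  have key : ∀ n : ℕ, coeff n f = 0 ∧ coeff (n + 1) f = 0 := by
    intro n
    induction n with
    | zero => exact ⟨h0', h1⟩
    | succ n ih =>
      refine ⟨ih.2, ?_⟩
      have := congrArg (coeff (n + 1)) h
      rw [coeff_L_succ, ih.1, ih.2, map_zero] at this
      have hp : ((n : ℚ) + 2) * (2 * n + 3) * (2 * n + 5) ≠ 0 := by positivity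
      have h2 : ((n : ℚ) + 2) * (2 * n + 3) * (2 * n + 5) * coeff (n + 2) f = 0 := by linarith
      exact (mul_eq_zero.mp h2).resolve_left hp
  ext n
  rw [(key n).1, map_zero]

lemma L_sub (f g : ℚ⟦X⟧) : L (f - g) = L f - L g := by
  unfold L
  simp only [map_sub]
  ring

/-- `D` and `N` -/
noncomputable def D : ℚ⟦X⟧ := F 1 1 1
noncomputable def N : ℚ⟦X⟧ := F 3 3 3

lemma good1 : Good 1 := by intro n; positivity
lemma good3 : Good 3 := by intro n; positivity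

lemma odeD : 4 * X * (1 - 4 * X) * d⁄dX ℚ (d⁄dX ℚ D) + (2 - 24 * X) * d⁄dX ℚ D - D = 0 := by
  have h := ode_F 1 1 1 good1
  have h2 : (C (2 * 1 : ℚ) : ℚ⟦X⟧) = 2 := by norm_num; rfl
  have h24 : (C (4 * (1 + 1 + 4) : ℚ) : ℚ⟦X⟧) = 24 := by norm_num; rfl
  have h1 : (C (1 * 1 : ℚ) : ℚ⟦X⟧) = 1 := by norm_num
  rw [h2, h24, h1, one_mul] at h
  exact h

lemma odeN : 4 * X * (1 - 4 * X) * d⁄dX ℚ (d⁄dX ℚ N) + (6 - 40 * X) * d⁄dX ℚ N - 9 * N = 0 := by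
  have h := ode_F 3 3 3 good3
  have h2 : (C (2 * 3 : ℚ) : ℚ⟦X⟧) = 6 := by norm_num; rfl
  have h24 : (C (4 * (3 + 3 + 4) : ℚ) : ℚ⟦X⟧) = 40 := by norm_num; rfl
  have h1 : (C (3 * 3 : ℚ) : ℚ⟦X⟧) = 9 := by norm_num; rfl
  rw [h2, h24, h1] at h
  exact h

lemma const_D : constantCoeff D = 1 := const_F _ _ _
lemma const_N : constantCoeff N = 1 := const_F _ _ _

lemma dX_mul (f g : ℚ⟦X⟧) : d⁄dX ℚ (f * g) = f * d⁄dX ℚ g + g * d⁄dX ℚ f := by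
  rw [Derivation.leibniz, smul_eq_mul, smul_eq_mul]

lemma dX_num_mul (n : ℕ) [n.AtLeastTwo] (f : ℚ⟦X⟧) :
    d⁄dX ℚ ((ofNat(n) : ℚ⟦X⟧) * f) = ofNat(n) * d⁄dX ℚ f := by
  rw [dX_mul, deriv_num, mul_zero, add_zero]

lemma dX_cpow (n : ℕ) : d⁄dX ℚ (c ^ (n + 1)) = 2 * (n + 1) * c ^ (n + 3) := by
  rw [derivative_pow, hc3]
  push_cast
  ring

lemma LD : L (D * N) = 0 := by
  have hD := odeD
  have hN := odeN
  have hD' := congrArg (d⁄dX ℚ) hD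
  have hN' := congrArg (d⁄dX ℚ) hN
  simp only [map_add, map_sub, dX_mul, deriv_num, derivative_one, derivative_X, map_zero] at hD' hN'
  have e1 : d⁄dX ℚ (D * N) = D * d⁄dX ℚ N + N * d⁄dX ℚ D := dX_mul _ _
  have e2 : d⁄dX ℚ (d⁄dX ℚ (D * N)) = D * d⁄dX ℚ (d⁄dX ℚ N) + 2 * d⁄dX ℚ D * d⁄dX ℚ N
      + N * d⁄dX ℚ (d⁄dX ℚ D) := by
    rw [e1, map_add, dX_mul, dX_mul]; ring
  have e3 : d⁄dX ℚ (d⁄dX ℚ (d⁄dX ℚ (D * N))) = D * d⁄dX ℚ (d⁄dX ℚ (d⁄dX ℚ N))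
      + 3 * d⁄dX ℚ D * d⁄dX ℚ (d⁄dX ℚ N) + 3 * d⁄dX ℚ N * d⁄dX ℚ (d⁄dX ℚ D)
      + N * d⁄dX ℚ (d⁄dX ℚ (d⁄dX ℚ D)) := by
    rw [e2, map_add, map_add, dX_mul, dX_mul, dX_mul, dX_mul, deriv_num]; ring
  have h2 : (2 : ℚ⟦X⟧) ≠ 0 := two_ne
  unfold L
  rw [e3, e2, e1]
  apply mul_left_cancel₀ h2
  linear_combination 2 * X * (1 - 4 * X) * (N * hD' + D * hN' + 3 * d⁄dX ℚ N * hD +
    3 * d⁄dX ℚ D * hN) + (3 - 20 * X) * N * hD + (1 - 12 * X) * D * hN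

lemma LW : L (c * W0) = 0 := by
  have e1 : d⁄dX ℚ (c * W0) = 2 * c ^ 3 * W0 + c * (8 * X * c ^ 2 + 16 * X ^ 2 * c ^ 4) * W1 := by
    rw [dX_mul, dW0, hc3]; ring
  have hcp3 : d⁄dX ℚ (c ^ 3) = 6 * c ^ 5 := by
    have := dX_cpow 2
    norm_num at this ⊢
    rw [this]
  have hcp5 : d⁄dX ℚ (c ^ 5) = 10 * c ^ 7 := by
    have := dX_cpow 4
    norm_num at this ⊢
    rw [this]
  have hcp7 : d⁄dX ℚ (c ^ 7) = 14 * c ^ 9 := by
    have := dX_cpow 6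
    norm_num at this ⊢
    rw [this]
  have hcp9 : d⁄dX ℚ (c ^ 9) = 18 * c ^ 11 := by
    have := dX_cpow 8
    norm_num at this ⊢
    rw [this]
  have hX2 : d⁄dX ℚ (X ^ 2 : ℚ⟦X⟧) = 2 * X := by
    rw [derivative_pow, derivative_X]; simp
  have hX4 : d⁄dX ℚ (X ^ 4 : ℚ⟦X⟧) = 4 * X ^ 3 := by
    rw [derivative_pow, derivative_X]; simp
  have hX3 : d⁄dX ℚ (X ^ 3 : ℚ⟦X⟧) = 3 * X ^ 2 := by
    rw [derivative_pow, derivative_X]; simp
  have e2 : d⁄dX ℚ (d⁄dX ℚ (c * W0)) = 12 * c ^ 5 * W0 +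
      (4 * c ^ 3 * (8 * X * c ^ 2 + 16 * X ^ 2 * c ^ 4) +
        c * (8 * c ^ 2 + 64 * X * c ^ 4 + 128 * X ^ 2 * c ^ 6)) * W1 +
      c * (8 * X * c ^ 2 + 16 * X ^ 2 * c ^ 4) ^ 2 * W2 := by
    have e : d⁄dX ℚ (c * W0) = 2 * (c ^ 3 * W0) + 8 * (X * (c ^ 3 * W1)) + 16 * (X ^ 2 * (c ^ 5 * W1)) := by
      rw [e1]; ring
    rw [e]
    simp only [map_add, dX_num_mul, dX_mul, hcp3, hcp5, hX2, derivative_X, dW0, dW1]
    ring
  have e3 : d⁄dX ℚ (d⁄dX ℚ (d⁄dX ℚ (c * W0))) = 120 * c ^ 7 * W0 +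
      (12 * c ^ 5 * (8 * X * c ^ 2 + 16 * X ^ 2 * c ^ 4) +
       24 * c ^ 5 * (8 * X * c ^ 2 + 16 * X ^ 2 * c ^ 4) +
       4 * c ^ 3 * (8 * c ^ 2 + 64 * X * c ^ 4 + 128 * X ^ 2 * c ^ 6) +
       2 * c ^ 3 * (8 * c ^ 2 + 64 * X * c ^ 4 + 128 * X ^ 2 * c ^ 6) +
       c * (96 * c ^ 4 + 768 * X * c ^ 6 + 1536 * X ^ 2 * c ^ 8)) * W1 +
      ((4 * c ^ 3 * (8 * X * c ^ 2 + 16 * X ^ 2 * c ^ 4) +
        c * (8 * c ^ 2 + 64 * X * c ^ 4 + 128 * X ^ 2 * c ^ 6)) * (8 * X * c ^ 2 + 16 * X ^ 2 * c ^ 4)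
        + 2 * c ^ 3 * (8 * X * c ^ 2 + 16 * X ^ 2 * c ^ 4) ^ 2
        + 2 * c * (8 * X * c ^ 2 + 16 * X ^ 2 * c ^ 4) *
          (8 * c ^ 2 + 64 * X * c ^ 4 + 128 * X ^ 2 * c ^ 6)) * W2 +
      c * (8 * X * c ^ 2 + 16 * X ^ 2 * c ^ 4) ^ 3 * W3 := by
    have e : d⁄dX ℚ (d⁄dX ℚ (c * W0)) = 12 * (c ^ 5 * W0) + 8 * (c ^ 3 * W1) + 96 * (X * (c ^ 5 * W1))
       + 192 * (X ^ 2 * (c ^ 7 * W1)) + 64 * (X ^ 2 * (c ^ 5 * W2)) + 256 * (X ^ 3 * (c ^ 7 * W2))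
       + 256 * (X ^ 4 * (c ^ 9 * W2)) := by
      rw [e2]; ring
    rw [e]
    simp only [map_add, dX_num_mul, dX_mul, hcp3, hcp5, hcp7, hcp9, hX2, hX3, hX4, derivative_X,
      dW0, dW1, dW2]
    ring
  have ho := odeW
  unfold sig at ho
  have h := hc2
  unfold L
  rw [e3, e2, e1]
  linear_combination (8 * X * (1 - 2 * X) * c ^ 3) * ho +
    ((6*c - 64*X*c + 144*X*c^3 - 672*X^2*c^3 + 480*X^2*c^5 - 1920*X^3*c^5) * W0 +
    (1776*X^2*c^3 - 6656*X^3*c^3 + 8064*X^3*c^5 - 29952*X^4*c^5 + 11520*X^4*c^7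
      - 46080*X^5*c^7) * W1 +
    (12288*X^4*c^5 - 36864*X^5*c^5 + 33792*X^5*c^7 - 116736*X^6*c^7 + 30720*X^6*c^9
      - 122880*X^7*c^9) * W2 +
    (12288*X^6*c^7 - 32768*X^7*c^7 + 24576*X^7*c^9 - 81920*X^8*c^9 + 16384*X^8*c^11
      - 65536*X^9*c^11) * W3) * h

end Pool.Agent.Q261.HypBase
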