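import Pool.Agent.Q261.HypBase

/-!
The quotient `F(3,3,3)/F(1,1,1)` has 2-integral coefficients: conclusion.
-/

namespace Pool.Agent.Q261.HypMain

open PowerSeries Pool.Agent.Q261.TwoInt Pool.Agent.Q261.HypSer Pool.Agent.Q261.HypBase

lemma const_W0 : constantCoeff W0 = 1 := by
  obtain ⟨U, hU, hV⟩ := V_split
  have : W0 = 1 + 2 * sig * U.subst sig := by
    have h := congrArg (substAlgHom hs_sig) hV
    simp only [map_add, map_mul, map_ofNat, map_one] at h
    simp only [coe_substAlgHom hs_sig, subst_X hs_sig] at h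
    exact h
  rw [this]
  simp [const_sig]

lemma DN_eq : D * N = c * W0 := by
  have h : L (D * N - c * W0) = 0 := by rw [L_sub, LD, LW, sub_zero]
  have h2 := L_unique h (by simp [const_D, const_N, const_c, const_W0])
  linear_combination h2

lemma wronskian : (1 - 4 * X) * (N * D + 2 * X * (d⁄dX ℚ N * D - N * d⁄dX ℚ D)) = 1 := by
  apply derivative.ext
  · have hD := odeD
    have hN := odeN
    have h2 : (2 : ℚ⟦X⟧) ≠ 0 := two_ne
    simp only [map_add, map_sub, dX_mul, deriv_num, derivative_one, derivative_X]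
    apply mul_left_cancel₀ h2
    linear_combination D * hN - N * hD
  · simp [const_D, const_N]

/-- the base quotient -/
theorem base_mem : N * D⁻¹ ∈ I2 := by
  have hDi : D * D⁻¹ = 1 := PowerSeries.mul_inv_cancel _ (by rw [const_D]; exact one_ne_zero)
  have hKi : K * K⁻¹ = 1 := PowerSeries.mul_inv_cancel _ (by rw [const_K]; exact one_ne_zero)
  obtain ⟨U, hU, hV⟩ := V_split
  -- the inverse of `V`
  have hVI : V ∈ I2 := by
    rw [hV]
    exact I2.add_mem I2.one_mem (I2.mul_mem (I2.mul_mem (by simpa using C_mem (nat_mem 2)) X_mem) hU)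
  have hV0 : constantCoeff V = 1 := by
    rw [hV]; simp
  have hVinv : V * V⁻¹ = 1 := PowerSeries.mul_inv_cancel _ (by rw [hV0]; exact one_ne_zero)
  set T : ℚ⟦X⟧ := -(U * V⁻¹) with hT
  have hTI : T ∈ I2 := I2.neg_mem (I2.mul_mem hU (inv_mem hVI hV0))
  have hVT : V * (1 + 2 * X * T) = 1 := by
    rw [hT]
    linear_combination hV + (-2 * X * U) * hVinv
  -- substitute
  have hWT : W0 * (1 + 2 * sig * T.subst sig) = 1 := by
    have h := congrArg (substAlgHom hs_sig) hVT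
    simp only [map_add, map_mul, map_ofNat, map_one] at h
    simp only [coe_substAlgHom hs_sig, subst_X hs_sig] at h
    exact h
  -- `T(σ) = Z(2κ)`
  set g : ℚ⟦X⟧ := 2 * X + X ^ 2 with hg
  have hg0 : constantCoeff g = 0 := by simp [hg]
  have hgs : HasSubst g := HasSubst.of_constantCoeff_zero' hg0
  have hgI : g ∈ I2 := I2.add_mem (I2.mul_mem (by simpa using C_mem (nat_mem 2)) X_mem)
    (I2.pow_mem X_mem 2)
  set Z : ℚ⟦X⟧ := T.subst g with hZ
  have hZI : Z ∈ I2 := subst_mem hTI hgI hg0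
  have h2k0 : constantCoeff (2 * kap) = 0 := by simp [const_kap]
  have h2ks : HasSubst (2 * kap) := HasSubst.of_constantCoeff_zero' h2k0
  have hks : HasSubst kap := HasSubst.of_constantCoeff_zero' const_kap
  have hZk : Z.subst (2 * kap) = T.subst sig := by
    rw [hZ, subst_comp_subst_apply hgs h2ks]
    congr 1
    have : g.subst (2 * kap) = 2 * (2 * kap) + (2 * kap) ^ 2 := by
      rw [hg, ← coe_substAlgHom h2ks]
      simp only [map_add, map_mul, map_ofNat, map_pow]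
      simp only [coe_substAlgHom h2ks, subst_X h2ks]
    rw [this, sig_kap]; ring
  obtain ⟨G0, hG0I, hG00, hG0d⟩ := antideriv_mem hZI
  set G : ℚ⟦X⟧ := G0.subst kap with hG
  have hGI : G ∈ I2 := subst_mem hG0I kap_mem const_kap
  have hG0c : constantCoeff G = 0 := by
    rw [hG]
    have h := PowerSeries.constantCoeff_subst_eq_zero (a := kap) const_kap G0 hG00
    exact h
  have hGd : d⁄dX ℚ G = T.subst sig * (2 * X * c ^ 3) := by
    rw [hG, derivative_subst hks, hG0d, hkap', ← hZk]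
    congr 1
    rw [rescale_eq_subst, subst_comp_subst_apply (HasSubst.smul_X' (2 : ℚ)) hks]
    congr 1
    rw [← coe_substAlgHom hks]
    rw [map_smul, coe_substAlgHom hks, subst_X hks]
    rw [PowerSeries.smul_eq_C_mul]; rfl
  -- the differential equation of the quotient
  set R : ℚ⟦X⟧ := N * D⁻¹ with hR
  have hRd : d⁄dX ℚ R = (d⁄dX ℚ N * D - N * d⁄dX ℚ D) * D⁻¹ ^ 2 := by
    rw [hR, dX_mul, derivative_inv']
    linear_combination (-(d⁄dX ℚ N) * D⁻¹) * hDi
  have hw := wronskian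
  have hp := DN_eq
  have hc := hc2
  have h1 : 2 * X * d⁄dX ℚ R * (c * W0) = R * (c ^ 2 - c * W0) := by
    rw [hRd]
    have hw' : N * D + 2 * X * (d⁄dX ℚ N * D - N * d⁄dX ℚ D) = c ^ 2 := by
      linear_combination c ^ 2 * hw - (N * D + 2 * X * (d⁄dX ℚ N * D - N * d⁄dX ℚ D)) * hc
    rw [← hp]
    linear_combination (D⁻¹ ^ 2 * D * N) * hw' + ((c ^ 2 - N * D) * N * D⁻¹) * hDi
  set S : ℚ⟦X⟧ := T.subst sig with hS
  have h2 : 2 * X * d⁄dX ℚ R = R * (c * (1 + 2 * sig * S) - 1) := by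
    linear_combination (c * (1 - 4 * X) * (1 + 2 * sig * S)) * h1
      + (R * (c - W0) * (1 + 2 * sig * S) - 2 * X * d⁄dX ℚ R * W0 * (1 + 2 * sig * S)) * hc
      - (2 * X * d⁄dX ℚ R + R) * hWT
  have hK := hK2
  have h3 : 2 * X * d⁄dX ℚ (R * K⁻¹) = 2 * X * (2 * d⁄dX ℚ G * (R * K⁻¹)) := by
    rw [dX_mul, derivative_inv', hGd]
    have hsig : sig = 4 * X ^ 2 * c ^ 2 := rfl
    rw [hsig] at h2
    linear_combination K⁻¹ * h2 - R * K⁻¹ ^ 2 * hK - R * (c - 1) * K⁻¹ * hKi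
  have h2X : (2 * X : ℚ⟦X⟧) ≠ 0 := mul_ne_zero two_ne X_ne_zero
  have h4 := mul_left_cancel₀ h2X h3
  have hY : R * K⁻¹ ∈ I2 := by
    refine ode_mem hGI hG0c h4 ?_
    rw [map_mul, constantCoeff_inv, const_K, hR, map_mul, constantCoeff_inv, const_D, const_N]
    norm_num
  have h5 : R = R * K⁻¹ * K := by linear_combination (-R) * hKi
  rw [h5]
  exact I2.mul_mem hY K_mem

/-- the general statement for the normalised series -/
theorem main (a b c' d e f : ℕ) :
    F ((3 + 4 * a : ℕ) : ℚ) ((3 + 4 * b : ℕ) : ℚ) ((3 + 2 * c' : ℕ) : ℚ) *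
      (F ((1 + 4 * d : ℕ) : ℚ) ((1 + 4 * e : ℕ) : ℚ) ((1 + 2 * f : ℕ) : ℚ))⁻¹ ∈ I2 := by
  obtain ⟨U, hU, hN⟩ := shifts 3 3 3 (by decide) (by decide) (by decide) a b c'
  obtain ⟨W, hW, hD⟩ := shifts 1 1 1 (by decide) (by decide) (by decide) d e f
  rw [hN, hD]
  have e1 : F ((3 : ℕ) : ℚ) ((3 : ℕ) : ℚ) ((3 : ℕ) : ℚ) = N := by
    unfold N; norm_num
  have e2 : F ((1 : ℕ) : ℚ) ((1 : ℕ) : ℚ) ((1 : ℕ) : ℚ) = D := by
    unfold D; norm_num
  rw [e1, e2, PowerSeries.mul_inv_rev]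
  have : N * U * (W⁻¹ * D⁻¹) = (N * D⁻¹) * (U * W⁻¹) := by ring
  rw [this]
  exact I2.mul_mem base_mem (hU.mul hW.inv).1

end Pool.Agent.Q261.HypMain
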