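import Pool.Agent.Q261.TwoInt

/-!
The series `F(A,B,g) = ∑ ∏_{j<n} (A+4j)(B+4j)/(2(g+2j)(j+1)) t^n`
(`= ₂F₁(A/4,B/4;g/2;4t)`), its logarithmic derivative and contiguity.
-/

namespace Pool.Agent.Q261.HypSer

open PowerSeries Pool.Agent.Q261.TwoInt

/-- the coefficients -/
noncomputable def hc (A B g : ℚ) (n : ℕ) : ℚ :=
  ∏ j ∈ Finset.range n, ((A + 4 * j) * (B + 4 * j) / (2 * (g + 2 * j) * (j + 1)))

/-- the series -/
noncomputable def F (A B g : ℚ) : ℚ⟦X⟧ := PowerSeries.mk (hc A B g)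

lemma hc_zero (A B g : ℚ) : hc A B g 0 = 1 := by simp [hc]

lemma hc_succ (A B g : ℚ) (n : ℕ) (hg : g + 2 * n ≠ 0) :
    2 * (g + 2 * n) * (n + 1) * hc A B g (n + 1) = (A + 4 * n) * (B + 4 * n) * hc A B g n := by
  rw [hc, Finset.prod_range_succ, ← hc]
  have : ((n : ℚ) + 1) ≠ 0 := by positivity
  field_simp

lemma coeff_F (A B g : ℚ) (n : ℕ) : coeff n (F A B g) = hc A B g n := coeff_mk _ _

lemma const_F (A B g : ℚ) : constantCoeff (F A B g) = 1 := by
  rw [← coeff_zero_eq_constantCoeff_apply, coeff_F, hc_zero]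

lemma hc_symm (A B g : ℚ) (n : ℕ) : hc A B g n = hc B A g n := by
  unfold hc
  refine Finset.prod_congr rfl fun j _ => ?_
  ring

lemma F_symm (A B g : ℚ) : F A B g = F B A g := by
  ext n; rw [coeff_F, coeff_F, hc_symm]

/-- `g + 2n ≠ 0` for all `n`. -/
def Good (g : ℚ) : Prop := ∀ n : ℕ, g + 2 * n ≠ 0

/-- the coefficient of the hypergeometric operator. -/
lemma coeff_op (A B g : ℚ) (f : ℚ⟦X⟧) (n : ℕ) :
    coeff n (4 * X * (1 - 4 * X) * d⁄dX ℚ (d⁄dX ℚ f) + (C (2 * g) - C (4 * (A + B + 4)) * X) *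
      d⁄dX ℚ f - C (A * B) * f) =
    2 * (g + 2 * n) * (n + 1) * coeff (n + 1) f - (A + 4 * n) * (B + 4 * n) * coeff n f := by
  have e : 4 * X * (1 - 4 * X) * d⁄dX ℚ (d⁄dX ℚ f) + (C (2 * g) - C (4 * (A + B + 4)) * X) *
      d⁄dX ℚ f - C (A * B) * f = C 4 * (X * d⁄dX ℚ (d⁄dX ℚ f))
        - C 16 * (X * (X * d⁄dX ℚ (d⁄dX ℚ f))) +
        C (2 * g) * d⁄dX ℚ f - C (4 * (A + B + 4)) * (X * d⁄dX ℚ f) - C (A * B) * f := by
    have h4 : (C (4 : ℚ) : ℚ⟦X⟧) = 4 := rfl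
    have h16 : (C (16 : ℚ) : ℚ⟦X⟧) = 16 := rfl
    rw [h4, h16]; ring
  rw [e]
  simp only [map_sub, map_add, coeff_C_mul]
  rcases n with _ | _ | n
  · simp only [coeff_zero_X_mul, coeff_derivative]
    push_cast
    ring
  · rw [show 0 + 1 = 0 + 1 from rfl]
    simp only [coeff_succ_X_mul, coeff_zero_X_mul, coeff_derivative]
    push_cast
    ring
  · simp only [coeff_succ_X_mul, coeff_derivative]
    push_cast
    ring

lemma ode_F (A B g : ℚ) (hg : Good g) :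
    4 * X * (1 - 4 * X) * d⁄dX ℚ (d⁄dX ℚ (F A B g)) + (C (2 * g) - C (4 * (A + B + 4)) * X) *
      d⁄dX ℚ (F A B g) - C (A * B) * F A B g = 0 := by
  ext n
  rw [coeff_op, coeff_F, coeff_F, hc_succ _ _ _ _ (hg n), map_zero]
  ring

/-- the logarithmic derivative (doubled) -/
noncomputable def u (A B g : ℚ) : ℚ⟦X⟧ := 2 * d⁄dX ℚ (F A B g) * (F A B g)⁻¹

lemma F_inv (A B g : ℚ) : F A B g * (F A B g)⁻¹ = 1 :=
  PowerSeries.mul_inv_cancel _ (by rw [const_F]; exact one_ne_zero)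

lemma F_mul_u (A B g : ℚ) : F A B g * u A B g = 2 * d⁄dX ℚ (F A B g) := by
  unfold u
  linear_combination 2 * d⁄dX ℚ (F A B g) * F_inv A B g

lemma riccati (A B g : ℚ) (hg : Good g) :
    C g * u A B g = C (A * B) + C (2 * (A + B + 4)) * (X * u A B g)
      - X * ((1 - 4 * X) * u A B g ^ 2) - C 2 * (X * d⁄dX ℚ (u A B g))
      + C 8 * (X * (X * d⁄dX ℚ (u A B g))) := by
  have h := ode_F A B g hg
  have h1 := F_mul_u A B g
  have h2 : d⁄dX ℚ (F A B g * u A B g) = d⁄dX ℚ (2 * d⁄dX ℚ (F A B g)) := by rw [h1]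
  have h2' : F A B g * d⁄dX ℚ (u A B g) + u A B g * d⁄dX ℚ (F A B g)
      = 2 * d⁄dX ℚ (d⁄dX ℚ (F A B g)) := by
    have e1 := Derivation.leibniz (d⁄dX ℚ) (F A B g) (u A B g)
    have e2 := Derivation.leibniz (d⁄dX ℚ) (2 : ℚ⟦X⟧) (d⁄dX ℚ (F A B g))
    have e3 : d⁄dX ℚ (2 : ℚ⟦X⟧) = 0 := by
      have : (2 : ℚ⟦X⟧) = C 2 := rfl
      rw [this, derivative_C]
    rw [e1, e2, e3] at h2
    simpa [smul_eq_mul] using h2
  have hF := F_inv A B g
  have c2 : (C (2 : ℚ) : ℚ⟦X⟧) = 2 := rfl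
  have c8 : (C (8 : ℚ) : ℚ⟦X⟧) = 8 := rfl
  have cg : (C (2 * g) : ℚ⟦X⟧) = 2 * C g := by rw [map_mul, c2]
  have cs : (C (2 * (A + B + 4)) : ℚ⟦X⟧) = 2 * C (A + B + 4) := by rw [map_mul, c2]
  have cs' : (C (4 * (A + B + 4)) : ℚ⟦X⟧) = 4 * C (A + B + 4) := by rw [map_mul]; rfl
  rw [cg, cs'] at h
  rw [cs, c2, c8]
  -- multiply by `F` and cancel
  have key : F A B g * (C g * u A B g) = F A B g * (C (A * B) + 2 * C (A + B + 4) * (X * u A B g)
      - X * ((1 - 4 * X) * u A B g ^ 2) - 2 * (X * d⁄dX ℚ (u A B g))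
      + 8 * (X * (X * d⁄dX ℚ (u A B g)))) := by
    linear_combination h + (C g - 2 * C (A + B + 4) * X + X * (1 - 4 * X) * u A B g) * h1
      + 2 * X * (1 - 4 * X) * h2'
  have := congrArg (fun z => (F A B g)⁻¹ * z) key
  beta_reduce at this
  linear_combination this - (C g * u A B g - (C (A * B) + 2 * C (A + B + 4) * (X * u A B g)
      - X * ((1 - 4 * X) * u A B g ^ 2) - 2 * (X * d⁄dX ℚ (u A B g))
      + 8 * (X * (X * d⁄dX ℚ (u A B g))))) * hF

lemma u_mem (A B g : ℕ) (hg : Odd g) : u A B g ∈ I2 := by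
  have hgood : Good (g : ℚ) := by
    intro n
    have h1 : 0 < g := hg.pos
    have : (0 : ℚ) < (g : ℚ) := by exact_mod_cast h1
    positivity
  have hr := riccati (A : ℚ) B g hgood
  intro n
  induction n using Nat.strong_induction_on with
  | _ n ih =>
    have h := congrArg (coeff n) hr
    simp only [map_sub, map_add, coeff_C_mul] at h
    rcases n with _ | n
    · simp only [coeff_zero_X_mul, coeff_C] at h
      simp only [if_true] at h
      have h2 : coeff 0 (u (A : ℚ) B g) = ((A * B : ℕ) : ℚ) / g := by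
        have : (g : ℚ) ≠ 0 := by exact_mod_cast hg.pos.ne'
        rw [eq_div_iff this]
        push_cast
        linarith
      rw [h2]
      exact nat_div_odd _ hg
    · -- the recursion
      have hu2 : coeff n ((1 - 4 * X) * u (A : ℚ) B g ^ 2) ∈ Z2 := by
        rw [coeff_mul]
        refine Z2.sum_mem fun p hp => Z2.mul_mem ?_ ?_
        · have : (1 - 4 * X : ℚ⟦X⟧) ∈ I2 := by
            have h4 : (4 : ℚ⟦X⟧) ∈ I2 := by
              have := C_mem (nat_mem 4)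
              simpa using this
            exact I2.sub_mem I2.one_mem (I2.mul_mem h4 X_mem)
          exact this _
        · rw [pow_two, coeff_mul]
          refine Z2.sum_mem fun q hq => Z2.mul_mem ?_ ?_
          · apply ih
            have := Finset.HasAntidiagonal.mem_antidiagonal.mp hp
            have := Finset.HasAntidiagonal.mem_antidiagonal.mp hq
            omega
          · apply ih
            have := Finset.HasAntidiagonal.mem_antidiagonal.mp hp
            have := Finset.HasAntidiagonal.mem_antidiagonal.mp hq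
            omega
      have hX2 : coeff n (X * d⁄dX ℚ (u (A : ℚ) B g)) = n * coeff n (u (A : ℚ) B g) := by
        rcases n with _ | n
        · simp
        · rw [coeff_succ_X_mul, coeff_derivative]; push_cast; ring
      simp only [coeff_succ_X_mul, coeff_derivative, coeff_C] at h
      rw [hX2] at h
      simp only [Nat.succ_ne_zero, if_false] at h
      have hgo : Odd (g + 2 * (n + 1)) := by
        rw [Nat.odd_add]; simp [hg]
      have hne : ((g : ℚ) + 2 * (n + 1)) ≠ 0 := by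
        have h1 : 0 < g := hg.pos
        have : (0 : ℚ) < (g : ℚ) := by exact_mod_cast h1
        positivity
      have h3 : coeff (n + 1) (u (A : ℚ) B g) = (((g + 2 * (n + 1) : ℕ) : ℚ))⁻¹ *
          (((2 * (A + B + 4) : ℕ) : ℚ) * coeff n (u (A : ℚ) B g) -
            coeff n ((1 - 4 * X) * u (A : ℚ) B g ^ 2) + ((8 * n : ℕ) : ℚ) * coeff n (u (A : ℚ) B g)) := by
        push_cast
        rw [eq_inv_mul_iff_mul_eq₀ hne]
        linear_combination h
      rw [h3]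
      refine Z2.mul_mem (inv_odd hgo) ?_
      refine Z2.add_mem (Z2.sub_mem (Z2.mul_mem (nat_mem _) (ih n (by omega))) hu2)
        (Z2.mul_mem (nat_mem _) (ih n (by omega)))

/-- the units: integral with constant term one -/
def Un (f : ℚ⟦X⟧) : Prop := f ∈ I2 ∧ constantCoeff f = 1

lemma Un.mul {f g : ℚ⟦X⟧} (hf : Un f) (hg : Un g) : Un (f * g) :=
  ⟨I2.mul_mem hf.1 hg.1, by rw [map_mul, hf.2, hg.2, one_mul]⟩

lemma Un.inv {f : ℚ⟦X⟧} (hf : Un f) : Un f⁻¹ :=
  ⟨inv_mem hf.1 hf.2, by rw [constantCoeff_inv, hf.2, inv_one]⟩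

lemma Un.one : Un 1 := ⟨I2.one_mem, by simp⟩

lemma Un.mul_inv {f : ℚ⟦X⟧} (hf : Un f) : f * f⁻¹ = 1 :=
  PowerSeries.mul_inv_cancel _ (by rw [hf.2]; exact one_ne_zero)

lemma hc_shiftA (A B g : ℚ) (hA : A ≠ 0) (n : ℕ) :
    A * hc (A + 4) B g n = (A + 4 * n) * hc A B g n := by
  induction n with
  | zero => simp [hc_zero]
  | succ n ih =>
    unfold hc at ih ⊢
    rw [Finset.prod_range_succ, Finset.prod_range_succ]
    rw [← mul_assoc, ih]
    push_cast
    ring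

lemma hc_shiftg (A B g : ℚ) (hg : Good (g - 2)) (n : ℕ) :
    (g - 2) * hc A B (g - 2) n = (g - 2 + 2 * n) * hc A B g n := by
  induction n with
  | zero => simp [hc_zero]
  | succ n ih =>
    unfold hc at ih ⊢
    rw [Finset.prod_range_succ, Finset.prod_range_succ]
    rw [← mul_assoc, ih]
    have h1 := hg n
    have h2 := hg (n + 1)
    have h3 : g + 2 * n ≠ 0 := by
      intro h; apply h2; push_cast; linarith
    have h4 : ((n : ℚ) + 1) ≠ 0 := by positivity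
    have h5 : g - 2 + 2 * (n : ℚ) ≠ 0 := h1
    push_cast
    field_simp
    ring

lemma F_shiftA (A B g : ℚ) (hA : A ≠ 0) :
    F (A + 4) B g = F A B g * (1 + C (2 * A⁻¹) * (X * u A B g)) := by
  have e : F A B g * (1 + C (2 * A⁻¹) * (X * u A B g))
      = F A B g + C (4 * A⁻¹) * (X * d⁄dX ℚ (F A B g)) := by
    have c4 : (C (4 * A⁻¹) : ℚ⟦X⟧) = 2 * C (2 * A⁻¹) := by
      have : (4 * A⁻¹ : ℚ) = 2 * (2 * A⁻¹) := by ring
      rw [this, map_mul]; rfl
    rw [c4]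
    linear_combination C (2 * A⁻¹) * X * F_mul_u A B g
  rw [e]
  ext n
  rw [map_add, coeff_C_mul]
  have hX : coeff n (X * d⁄dX ℚ (F A B g)) = n * coeff n (F A B g) := by
    rcases n with _ | n
    · simp
    · rw [coeff_succ_X_mul, coeff_derivative]; push_cast; ring
  rw [hX, coeff_F, coeff_F]
  have := hc_shiftA A B g hA n
  field_simp
  linarith

lemma F_shiftg (A B g : ℚ) (hg : Good (g - 2)) :
    F A B (g - 2) = F A B g * (1 + C ((g - 2)⁻¹) * (X * u A B g)) := by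
  have e : F A B g * (1 + C ((g - 2)⁻¹) * (X * u A B g))
      = F A B g + C (2 * (g - 2)⁻¹) * (X * d⁄dX ℚ (F A B g)) := by
    have c4 : (C (2 * (g - 2)⁻¹) : ℚ⟦X⟧) = 2 * C ((g - 2)⁻¹) := by
      rw [map_mul]; rfl
    rw [c4]
    linear_combination C ((g - 2)⁻¹) * X * F_mul_u A B g
  rw [e]
  ext n
  rw [map_add, coeff_C_mul]
  have hX : coeff n (X * d⁄dX ℚ (F A B g)) = n * coeff n (F A B g) := by
    rcases n with _ | n
    · simp
    · rw [coeff_succ_X_mul, coeff_derivative]; push_cast; ring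
  rw [hX, coeff_F, coeff_F]
  have h0 : g - 2 ≠ 0 := by simpa using hg 0
  have := hc_shiftg A B g hg n
  field_simp
  linarith

lemma shift_unit_A (A B g : ℕ) (hA : Odd A) (hg : Odd g) :
    ∃ U, Un U ∧ F ((A + 4 : ℕ) : ℚ) B g = F A B g * U := by
  have hA0 : (A : ℚ) ≠ 0 := by exact_mod_cast hA.pos.ne'
  refine ⟨1 + C (2 * (A : ℚ)⁻¹) * (X * u A B g), ⟨?_, ?_⟩, ?_⟩
  · refine I2.add_mem I2.one_mem (I2.mul_mem (C_mem ?_) (I2.mul_mem X_mem (u_mem A B g hg)))
    exact Z2.mul_mem (by simpa using nat_mem 2) (inv_odd hA)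
  · simp
  · push_cast
    exact F_shiftA _ _ _ hA0

lemma shift_unit_g (A B g : ℕ) (hg : Odd g) :
    ∃ U, Un U ∧ F (A : ℚ) B ((g + 2 : ℕ) : ℚ) = F A B g * U := by
  have hg2 : Odd (g + 2) := by
    rw [Nat.odd_add]; simp [hg]
  have hgood : Good (((g + 2 : ℕ) : ℚ) - 2) := by
    intro n
    have h1 : 0 < g := hg.pos
    have : (0 : ℚ) < (g : ℚ) := by exact_mod_cast h1
    push_cast
    have : (0 : ℚ) < (g : ℚ) + 2 - 2 + 2 * n := by
      have : (0 : ℚ) ≤ n := by positivity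
      linarith
    exact this.ne'
  have hU : Un (1 + C ((((g + 2 : ℕ) : ℚ) - 2)⁻¹) * (X * u (A : ℚ) B ((g + 2 : ℕ) : ℚ))) := by
    refine ⟨I2.add_mem I2.one_mem (I2.mul_mem (C_mem ?_) (I2.mul_mem X_mem (u_mem A B (g + 2) hg2))), ?_⟩
    · have : (((g + 2 : ℕ) : ℚ) - 2)⁻¹ = ((g : ℚ))⁻¹ := by push_cast; congr 1; ring
      rw [this]; exact inv_odd hg
    · simp
  refine ⟨_, hU.inv, ?_⟩
  have h := F_shiftg (A : ℚ) B ((g + 2 : ℕ) : ℚ) hgood
  have e : (((g + 2 : ℕ) : ℚ) - 2) = g := by push_cast; ring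
  rw [e] at h
  rw [h, mul_assoc]
  rw [e] at hU
  rw [show (((g + 2 : ℕ) : ℚ) - 2)⁻¹ = ((g : ℚ))⁻¹ by rw [e]]
  rw [hU.mul_inv, mul_one]

lemma shifts (A B g : ℕ) (hA : Odd A) (hB : Odd B) (hg : Odd g) (a b c : ℕ) :
    ∃ U, Un U ∧ F ((A + 4 * a : ℕ) : ℚ) ((B + 4 * b : ℕ) : ℚ) ((g + 2 * c : ℕ) : ℚ) = F A B g * U := by
  have odd4 : ∀ (x k : ℕ), Odd x → Odd (x + 4 * k) := by
    intro x k hx
    obtain ⟨m, rfl⟩ := hx
    exact ⟨m + 2 * k, by ring⟩
  induction c with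
  | zero =>
    induction b with
    | zero =>
      induction a with
      | zero => exact ⟨1, Un.one, by simp⟩
      | succ a ih =>
        obtain ⟨U, hU, h⟩ := ih
        obtain ⟨V, hV, h'⟩ := shift_unit_A (A + 4 * a) B g (odd4 A a hA) hg
        refine ⟨U * V, hU.mul hV, ?_⟩
        have e : A + 4 * (a + 1) = A + 4 * a + 4 := by ring
        simp only [Nat.mul_zero, Nat.add_zero] at h ⊢
        rw [e, h', h, mul_assoc]
    | succ b ih =>
      obtain ⟨U, hU, h⟩ := ih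
      obtain ⟨V, hV, h'⟩ := shift_unit_A (B + 4 * b) (A + 4 * a) g (odd4 B b hB) hg
      refine ⟨U * V, hU.mul hV, ?_⟩
      have e : B + 4 * (b + 1) = B + 4 * b + 4 := by ring
      simp only [Nat.mul_zero, Nat.add_zero] at h ⊢
      rw [e, F_symm, h', F_symm, h, mul_assoc]
  | succ c ih =>
    obtain ⟨U, hU, h⟩ := ih
    have hgc : Odd (g + 2 * c) := by
      rw [Nat.odd_add]; simp [hg]
    obtain ⟨V, hV, h'⟩ := shift_unit_g (A + 4 * a) (B + 4 * b) (g + 2 * c) hgc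
    refine ⟨U * V, hU.mul hV, ?_⟩
    have e : g + 2 * (c + 1) = g + 2 * c + 2 := by ring
    rw [e, h', h, mul_assoc]

end Pool.Agent.Q261.HypSer
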