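import Mathlib

/-!
# Truncated arithmetic of power series over `ℚ`

`Agree f a`: the coefficients of `f` of index at most `8` are the entries of the list `a`.
-/

set_option autoImplicit false

namespace Q261.P01

open Finset PowerSeries

/-- truncated product of coefficient lists -/
def mulL (a b : List ℚ) : List ℚ :=
  (List.range 9).map fun n => ((List.range (n + 1)).map fun i => a.getD i 0 * b.getD (n - i) 0).sum

/-- truncated power -/
def powL (a : List ℚ) : ℕ → List ℚ
  | 0 => [1, 0, 0, 0, 0, 0, 0, 0, 0]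
  | (k + 1) => mulL (powL a k) a

/-- The coefficients of `f` of index at most `8` are the entries of `a`. -/
def Agree (f : ℚ⟦X⟧) (a : List ℚ) : Prop := ∀ n : ℕ, n < 9 → coeff n f = a.getD n 0

theorem list_sum_range (g : ℕ → ℚ) (n : ℕ) :
    ((List.range n).map g).sum = ∑ i ∈ range n, g i := by
  induction n with
  | zero => simp
  | succ n ih => rw [List.range_succ, List.map_append, List.sum_append, ih, sum_range_succ]; simp

theorem Agree.mul {f g : ℚ⟦X⟧} {a b : List ℚ} (hf : Agree f a) (hg : Agree g b) :
    Agree (f * g) (mulL a b) := by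
  intro n hn
  rw [coeff_mul, Finset.Nat.sum_antidiagonal_eq_sum_range_succ
    (fun i j => coeff i f * coeff j g) n]
  unfold mulL
  rw [List.getD_eq_getElem?_getD, List.getElem?_map, List.getElem?_range hn]
  simp only [Option.map_some, Option.getD_some]
  rw [list_sum_range]
  apply sum_congr rfl
  intro i hi
  rw [mem_range] at hi
  rw [hf i (by omega), hg (n - i) (by omega)]

theorem Agree.pow {f : ℚ⟦X⟧} {a : List ℚ} (hf : Agree f a) (k : ℕ) :
    Agree (f ^ k) (powL a k) := by
  induction k with
  | zero =>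
    intro n hn
    rw [pow_zero, coeff_one]
    interval_cases n <;> simp [powL]
  | succ k ih =>
    rw [pow_succ]
    exact ih.mul hf

/-- first values of the Bernoulli numbers -/
theorem bernoulli_vals : bernoulli 0 = 1 ∧ bernoulli 1 = -1/2 ∧ bernoulli 2 = 1/6 ∧
    bernoulli 3 = 0 ∧ bernoulli 4 = -1/30 ∧ bernoulli 5 = 0 ∧ bernoulli 6 = 1/42 ∧
    bernoulli 7 = 0 ∧ bernoulli 8 = -1/30 := by
  have h0 : bernoulli 0 = 1 := bernoulli_zero
  have h1 : bernoulli 1 = -1/2 := bernoulli_one
  have h3 : bernoulli 3 = 0 := bernoulli_eq_zero_of_odd (by decide) (by norm_num)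
  have h5 : bernoulli 5 = 0 := bernoulli_eq_zero_of_odd (by decide) (by norm_num)
  have h7 : bernoulli 7 = 0 := bernoulli_eq_zero_of_odd (by decide) (by norm_num)
  have s5 := sum_bernoulli 5
  have s7 := sum_bernoulli 7
  have s9 := sum_bernoulli 9
  simp only [sum_range_succ, sum_range_zero, zero_add] at s5 s7 s9
  norm_num [Nat.choose, h0, h1, h3, h5, h7] at s5 s7 s9
  have h2 : bernoulli 2 = 1/6 := by rw [bernoulli_two]; norm_num
  have h4 : bernoulli 4 = -1/30 := by linarith
  rw [h4] at s7 s9
  have h6 : bernoulli 6 = 1/42 := by linarith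
  rw [h6] at s9
  have h8 : bernoulli 8 = -1/30 := by linarith
  exact ⟨h0, h1, h2, h3, h4, h5, h6, h7, h8⟩

end Q261.P01
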