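import Pool.Agent.Q88.PS.Stm

set_option autoImplicit false

open MeasureTheory Set Filter Topology
open scoped ENNReal NNReal

namespace Pool.Agent.Q261.PSK

open Pool.Agent.Q88.PS

lemma ee_norm (x : ℝ) : ‖ee x‖ = 1 := by
  have h : (2 * Real.pi * x * Complex.I : ℂ) = ((2 * Real.pi * x : ℝ) : ℂ) * Complex.I := by
    push_cast
    ring
  rw [ee, h, Complex.norm_exp_ofReal_mul_I]

lemma ee_zero : ee 0 = 1 := by
  rw [ee]
  simp

lemma ee_add (x y : ℝ) : ee (x + y) = ee x * ee y := by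
  rw [ee, ee, ee, ← Complex.exp_add]
  congr 1
  push_cast
  ring

/-- `1 + e(x) = 0` only for half-integers. -/
lemma ee_neg_one (x : ℝ) (h : 1 + ee x = 0) : ∃ n : ℤ, 2 * x = 2 * n + 1 := by
  have h1 : ee (x + 1 / 2) = 1 := by
    rw [ee_add]
    have h2 : ee (1 / 2) = -1 := by
      rw [ee]
      have : (2 * (Real.pi : ℂ) * ((1 / 2 : ℝ) : ℂ) * Complex.I) = Real.pi * Complex.I := by
        push_cast
        ring
      rw [this, Complex.exp_pi_mul_I]
    rw [h2]
    linear_combination -h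
  rw [ee, Complex.exp_eq_one_iff] at h1
  obtain ⟨n, hn⟩ := h1
  refine ⟨n - 1, ?_⟩
  have h2 : (2 * (Real.pi : ℂ) * Complex.I) ≠ 0 := Complex.two_pi_I_ne_zero
  have h4 : (2 * (Real.pi : ℂ) * Complex.I) * ((x + 1 / 2 : ℝ) : ℂ) =
      (2 * (Real.pi : ℂ) * Complex.I) * (n : ℂ) := by
    calc (2 * (Real.pi : ℂ) * Complex.I) * ((x + 1 / 2 : ℝ) : ℂ)
        = 2 * Real.pi * ((x + 1 / 2 : ℝ) : ℂ) * Complex.I := by ring
      _ = n * (2 * Real.pi * Complex.I) := hn
      _ = _ := by ring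
  have h5 := mul_left_cancel₀ h2 h4
  have h6 : x + 1 / 2 = (n : ℝ) := by
    have : ((x + 1 / 2 : ℝ) : ℂ) = ((n : ℝ) : ℂ) := by
      rw [h5]
      push_cast
      rfl
    exact_mod_cast this
  push_cast
  linarith

lemma ee_sub_one (x : ℝ) : ‖ee x - 1‖ ≤ 2 * Real.pi * |x| := by
  have h : (2 * Real.pi * x * Complex.I : ℂ) = Complex.I * ((2 * Real.pi * x : ℝ) : ℂ) := by
    push_cast
    ring
  rw [ee, h]
  have := Real.norm_exp_I_mul_ofReal_sub_one_le (x := 2 * Real.pi * x)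
  refine this.trans ?_
  rw [Real.norm_eq_abs, abs_mul, abs_of_pos (by positivity : (0 : ℝ) < 2 * Real.pi)]

/-- The digit sum. -/
noncomputable def SD (p q : ℕ) (θ : ℝ) : ℂ := ∑ d : D, ee (θ * zd p q d)

lemma sum_word (p q n : ℕ) (θ : ℝ) :
    ∑ w ∈ wds n, ee (θ * zw p q w) = ∏ j ∈ Finset.range n, SD p q (8 ^ j * θ) := by
  induction n with
  | zero => simp [wds, zw, ee_zero]
  | succ n ih =>
    rw [sum_wds_succ, Finset.prod_range_succ, ← ih, mul_comm, SD, Finset.sum_mul_sum]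
    refine Finset.sum_congr rfl fun d _ => Finset.sum_congr rfl fun w hw => ?_
    rw [← ee_add]
    congr 1
    rw [zw, mem_wds.mp hw]
    push_cast
    ring

lemma SD_eq (p q : ℕ) (θ : ℝ) : SD p q θ =
    (1 + ee (q * θ)) * (1 + ee (2 * q * θ)) * ((1 + ee (2 * p * θ)) * (1 + ee (8 * p * θ))) := by
  rw [SD, Fintype.sum_prod_type]
  simp only [Fin.sum_univ_four, zd, da, db]
  have h1 : ∀ a b : ℕ, ee (θ * ((q * a + 2 * p * b : ℕ) : ℝ)) = ee (q * θ * a) * ee (2 * p * θ * b) := by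
    intro a b
    rw [← ee_add]
    congr 1
    push_cast
    ring
  simp only [h1]
  have e0 : ∀ x : ℝ, ee (x * 0) = 1 := fun x => by rw [mul_zero, ee_zero]
  have e1 : ∀ x : ℝ, ee (x * 1) = ee x := fun x => by rw [mul_one]
  have e2 : ∀ x : ℝ, ee (x * 2) = ee (2 * x) := fun x => by
    congr 1
    ring
  have e3 : ∀ x : ℝ, ee (x * 3) = ee x * ee (2 * x) := fun x => by
    rw [← ee_add]
    congr 1
    ring
  have e4 : ∀ x : ℝ, ee (x * 4) = ee (4 * x) := fun x => by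
    congr 1
    ring
  have e5 : ∀ x : ℝ, ee (x * 5) = ee x * ee (4 * x) := fun x => by
    rw [← ee_add]
    congr 1
    ring
  have v0 : ((0 : Fin 4) : ℕ) = 0 := rfl
  have v1 : ((1 : Fin 4) : ℕ) = 1 := rfl
  have v2 : ((2 : Fin 4) : ℕ) = 2 := rfl
  have v3 : ((3 : Fin 4) : ℕ) = 3 := rfl
  simp only [v0, v1, v2, v3]
  norm_num only [Nat.reduceMod, Nat.reduceDiv, Nat.reduceMul, Nat.reduceAdd]
  have h8 : ee (8 * p * θ) = ee (4 * (2 * p * θ)) := by
    congr 1
    ring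
  have h2 : ee (2 * q * θ) = ee (2 * (q * θ)) := by
    congr 1
    ring
  rw [h8, h2]
  simp only [e0, e1, e2, e3, e4, e5]
  ring

lemma zd_le (p q : ℕ) (d : D) : (zd p q d : ℝ) ≤ 3 * q + 10 * p := by
  have h1 : da d ≤ 3 := by
    have := d.1.isLt
    rw [da]
    omega
  have h2 : db d ≤ 5 := by
    have := d.2.isLt
    rw [db]
    omega
  have h3 : zd p q d ≤ q * 3 + 2 * p * 5 := by
    rw [zd]
    gcongr
  have h4 : (zd p q d : ℝ) ≤ ((q * 3 + 2 * p * 5 : ℕ) : ℝ) := by exact_mod_cast h3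
  push_cast at h4
  linarith

lemma card_D : (Finset.univ : Finset D).card = 16 := by
  rw [Finset.card_univ, Fintype.card_prod]
  simp

lemma SD_norm_le (p q : ℕ) (θ : ℝ) : ‖SD p q θ / 16‖ ≤ 1 := by
  have h : ‖SD p q θ‖ ≤ 16 := by
    rw [SD]
    refine (norm_sum_le _ _).trans ?_
    simp only [ee_norm]
    rw [Finset.sum_const, card_D]
    norm_num
  rw [norm_div]
  norm_num
  linarith

lemma SD_near (p q : ℕ) (θ : ℝ) (hθ : 0 ≤ θ) :
    1 - 2 * Real.pi * (3 * q + 10 * p) * θ ≤ ‖SD p q θ / 16‖ := by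
  have h1 : ‖SD p q θ / 16 - 1‖ ≤ 2 * Real.pi * (3 * q + 10 * p) * θ := by
    have h2 : SD p q θ / 16 - 1 = (∑ d : D, (ee (θ * zd p q d) - 1)) / 16 := by
      rw [Finset.sum_sub_distrib, ← SD, Finset.sum_const, card_D]
      simp only [nsmul_eq_mul, mul_one, Nat.cast_ofNat]
      ring
    rw [h2, norm_div]
    have h3 : ‖∑ d : D, (ee (θ * zd p q d) - 1)‖ ≤ 16 * (2 * Real.pi * (3 * q + 10 * p) * θ) := by
      refine (norm_sum_le _ _).trans ?_
      have h4 : ∀ d ∈ (Finset.univ : Finset D), ‖ee (θ * zd p q d) - 1‖ ≤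
          2 * Real.pi * (3 * q + 10 * p) * θ := by
        intro d _
        refine (ee_sub_one _).trans ?_
        rw [abs_of_nonneg (by positivity)]
        have := zd_le p q d
        calc 2 * Real.pi * (θ * zd p q d) ≤ 2 * Real.pi * (θ * (3 * q + 10 * p)) := by gcongr
          _ = _ := by ring
      refine (Finset.sum_le_sum h4).trans ?_
      rw [Finset.sum_const, card_D]
      simp
    have h5 : ‖(16 : ℂ)‖ = 16 := by norm_num
    rw [h5, div_le_iff₀ (by norm_num)]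
    linarith
  have h6 : ‖(1 : ℂ)‖ - ‖SD p q θ / 16‖ ≤ ‖1 - SD p q θ / 16‖ := norm_sub_norm_le _ _
  rw [norm_one, norm_sub_rev] at h6
  linarith

lemma SD_ne (p q : ℕ) (hp : Odd p) (hq : Odd q) (i : ℕ) : SD p q (1 / 8 ^ (i + 1)) ≠ 0 := by
  rw [SD_eq]
  have key : ∀ (m : ℕ) (x : ℝ), x = m / 8 ^ (i + 1) → (∀ n : ℤ, (2 : ℤ) * m ≠ (2 * n + 1) * 8 ^ (i + 1)) →
      1 + ee x ≠ 0 := by
    intro m x hx hn h0
    obtain ⟨n, h1⟩ := ee_neg_one x h0
    apply hn n
    rw [hx] at h1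
    have h2 : (2 : ℝ) * m = (2 * n + 1) * 8 ^ (i + 1) := by
      field_simp at h1
      linarith
    exact_mod_cast h2
  obtain ⟨a, ha⟩ := hp
  obtain ⟨b, hb⟩ := hq
  have c1 : 1 + ee (q * (1 / 8 ^ (i + 1))) ≠ 0 := by
    apply key q _ (by ring)
    intro n h
    have h1 : (2 : ℤ) * q = 8 * ((2 * n + 1) * 8 ^ i) := by
      rw [h]
      ring
    omega
  have c2 : 1 + ee (2 * q * (1 / 8 ^ (i + 1))) ≠ 0 := by
    apply key (2 * q) _ (by push_cast; ring)
    intro n h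
    have h1 : (2 : ℤ) * (2 * q : ℕ) = 8 * ((2 * n + 1) * 8 ^ i) := by
      rw [h]
      ring
    omega
  have c3 : 1 + ee (2 * p * (1 / 8 ^ (i + 1))) ≠ 0 := by
    apply key (2 * p) _ (by push_cast; ring)
    intro n h
    have h1 : (2 : ℤ) * (2 * p : ℕ) = 8 * ((2 * n + 1) * 8 ^ i) := by
      rw [h]
      ring
    omega
  have c4 : 1 + ee (8 * p * (1 / 8 ^ (i + 1))) ≠ 0 := by
    apply key (8 * p) _ (by push_cast; ring)
    intro n h
    rcases i with _ | i
    · have h1 : (2 : ℤ) * (8 * p : ℕ) = 8 * (2 * n + 1) := by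
        rw [h]
        ring
      omega
    · have h1 : (2 : ℤ) * (8 * p : ℕ) = 64 * ((2 * n + 1) * 8 ^ i) := by
        rw [h]
        ring
      omega
  exact mul_ne_zero (mul_ne_zero c1 c2) (mul_ne_zero c3 c4)

lemma kap_eq (p q g : ℕ) :
    kap p q g = ∏ i ∈ Finset.range g, (SD p q (1 / 8 ^ (i + 1)) / 16) := by
  have h1 : ∑ w ∈ wds g, ee ((zw p q w : ℝ) / 8 ^ g) =
      ∑ w ∈ wds g, ee ((1 / 8 ^ g : ℝ) * zw p q w) := by
    refine Finset.sum_congr rfl fun w _ => ?_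
    congr 1
    ring
  rw [kap, h1, sum_word, Finset.prod_div_distrib, Finset.prod_const, Finset.card_range]
  congr 1
  rw [← Finset.prod_range_reflect]
  refine Finset.prod_congr rfl fun j hj => ?_
  have hj' := Finset.mem_range.mp hj
  congr 1
  have h2 : g = (g - 1 - j) + (j + 1) := by omega
  have h3 : (8 : ℝ) ^ g = 8 ^ (g - 1 - j) * 8 ^ (j + 1) := by
    rw [← pow_add, ← h2]
  rw [h3]
  field_simp

theorem kapl : S_kap := by
  intro p q hp hq
  set h : ℕ → ℝ := fun i => ‖SD p q (1 / 8 ^ (i + 1)) / 16‖ with hh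
  set P : ℕ → ℝ := fun g => ∏ i ∈ Finset.range g, h i with hP
  have hn : ∀ g, ‖kap p q g‖ = P g := by
    intro g
    rw [kap_eq, norm_prod]
  have hpos : ∀ i, 0 < h i := by
    intro i
    rw [hh]
    simp only [norm_pos_iff]
    exact div_ne_zero (SD_ne p q hp hq i) (by norm_num)
  have hle : ∀ i, h i ≤ 1 := fun i => SD_norm_le p q _
  have hPpos : ∀ g, 0 < P g := fun g => Finset.prod_pos fun i _ => hpos i
  have hPanti : ∀ g n, P (g + n) ≤ P g := by
    intro g n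
    induction n with
    | zero => simp
    | succ n ih =>
      have : P (g + (n + 1)) = P (g + n) * h (g + n) := by
        rw [hP]
        simp only
        rw [← add_assoc, Finset.prod_range_succ]
      rw [this]
      calc P (g + n) * h (g + n) ≤ P (g + n) * 1 := by
            exact mul_le_mul_of_nonneg_left (hle _) (hPpos _).le
        _ ≤ P g := by rw [mul_one]; exact ih
  set M : ℝ := 2 * Real.pi * (3 * q + 10 * p) with hM
  have hM0 : 0 ≤ M := by rw [hM]; positivity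
  have hnear : ∀ i, 1 - M * (1 / 8 ^ (i + 1)) ≤ h i := fun i => SD_near p q _ (by positivity)
  obtain ⟨i0, hi0⟩ : ∃ i0 : ℕ, M * (1 / 8 ^ (i0 + 1)) ≤ 7 / 16 := by
    obtain ⟨n, hn⟩ := pow_unbounded_of_one_lt (M * 16 / 7) (by norm_num : (1 : ℝ) < 8)
    refine ⟨n, ?_⟩
    have h8 : (8 : ℝ) ^ (n + 1) ≥ 8 ^ n := pow_le_pow_right₀ (by norm_num) (by omega)
    rw [mul_one_div, div_le_iff₀ (by positivity)]
    linarith
  have hlow : ∀ n : ℕ, P i0 * (1 / 2 + 1 / 2 * (1 / 8) ^ n) ≤ P (i0 + n) := by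
    intro n
    induction n with
    | zero =>
      simp only [pow_zero, add_zero]
      linarith
    | succ n ih =>
      have h1 : P (i0 + (n + 1)) = P (i0 + n) * h (i0 + n) := by
        rw [hP]
        simp only
        rw [← add_assoc, Finset.prod_range_succ]
      have hx0 : (0 : ℝ) ≤ (1 / 8) ^ n := by positivity
      have hx1 : ((1 : ℝ) / 8) ^ n ≤ 1 := pow_le_one₀ (by norm_num) (by norm_num)
      have h2 : 1 - 7 / 16 * (1 / 8) ^ n ≤ h (i0 + n) := by
        refine le_trans ?_ (hnear _)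
        have h3 : M * (1 / 8 ^ (i0 + n + 1)) = (M * (1 / 8 ^ (i0 + 1))) * (1 / 8) ^ n := by
          rw [show i0 + n + 1 = (i0 + 1) + n by ring, pow_add, one_div_pow]
          field_simp
        rw [h3]
        have h4 := mul_le_mul_of_nonneg_right hi0 hx0
        linarith
      have h5 : (0 : ℝ) ≤ 1 - 7 / 16 * (1 / 8) ^ n := by linarith
      rw [h1]
      calc P i0 * (1 / 2 + 1 / 2 * (1 / 8) ^ (n + 1))
          ≤ P i0 * ((1 / 2 + 1 / 2 * (1 / 8) ^ n) * (1 - 7 / 16 * (1 / 8) ^ n)) := by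
            refine mul_le_mul_of_nonneg_left ?_ (hPpos i0).le
            rw [pow_succ]
            nlinarith [mul_nonneg hx0 (sub_nonneg.mpr hx1)]
        _ = (P i0 * (1 / 2 + 1 / 2 * (1 / 8) ^ n)) * (1 - 7 / 16 * (1 / 8) ^ n) := by ring
        _ ≤ P (i0 + n) * h (i0 + n) := by
            refine mul_le_mul ih h2 h5 (hPpos _).le
  refine ⟨P i0 / 2, by have := hPpos i0; positivity, fun g => ?_⟩
  rw [hn]
  rcases le_total i0 g with hg | hg
  · obtain ⟨n, rfl⟩ := Nat.exists_eq_add_of_le hg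
    refine le_trans ?_ (hlow n)
    have hx0 : (0 : ℝ) ≤ (1 / 8) ^ n := by positivity
    have := mul_nonneg (hPpos i0).le hx0
    linarith
  · obtain ⟨n, rfl⟩ := Nat.exists_eq_add_of_le hg
    have := hPanti g n
    have h2 := hPpos (g + n)
    linarith

end Pool.Agent.Q261.PSK
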