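import Pool.Agent.Q88.PS.Stm

set_option autoImplicit false

open MeasureTheory Set Filter Topology
open scoped ENNReal NNReal

namespace Pool.Agent.Q261.PSU

open Pool.Agent.Q88.PS

lemma ee_norm (x : ℝ) : ‖ee x‖ = 1 := by
  have h : (2 * Real.pi * x * Complex.I : ℂ) = ((2 * Real.pi * x : ℝ) : ℂ) * Complex.I := by
    push_cast
    ring
  rw [ee, h, Complex.norm_exp_ofReal_mul_I]

lemma ee_ne (x : ℝ) : ee x ≠ 0 := by
  rw [ee]
  exact Complex.exp_ne_zero _

lemma ee_pow (z : ℕ) (x : ℝ) : ee (z * x) = ee x ^ z := by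
  rw [ee, ee, ← Complex.exp_nat_mul]
  congr 1
  push_cast
  ring

lemma ee_eq_one (x : ℝ) (h : ee x = 1) : ∃ n : ℤ, x = n := by
  rw [ee, Complex.exp_eq_one_iff] at h
  obtain ⟨n, hn⟩ := h
  refine ⟨n, ?_⟩
  have h2 : (2 * (Real.pi : ℂ) * Complex.I) ≠ 0 := Complex.two_pi_I_ne_zero
  have h3 : ((x : ℝ) : ℂ) = ((n : ℝ) : ℂ) := by
    have h4 : (2 * (Real.pi : ℂ) * Complex.I) * (x : ℂ) = (2 * (Real.pi : ℂ) * Complex.I) * (n : ℂ) := by
      calc (2 * (Real.pi : ℂ) * Complex.I) * (x : ℂ) = 2 * Real.pi * x * Complex.I := by ring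
        _ = n * (2 * Real.pi * Complex.I) := hn
        _ = _ := by ring
    have h5 := mul_left_cancel₀ h2 h4
    rw [h5]
    push_cast
    rfl
  exact_mod_cast h3

lemma ee_int (n : ℤ) : ee (n : ℝ) = 1 := by
  rw [ee, Complex.exp_eq_one_iff]
  exact ⟨n, by push_cast; ring⟩

lemma ee_inv_mul (x y : ℝ) : ee x * (ee y)⁻¹ = ee (x - y) := by
  rw [ee, ee, ee, ← Complex.exp_neg, ← Complex.exp_add]
  congr 1
  push_cast
  ring

lemma conj_ee (x : ℝ) : (starRingEnd ℂ) (ee x) = (ee x)⁻¹ := by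
  rw [Complex.inv_def, Complex.normSq_eq_norm_sq, ee_norm]
  simp

theorem uni : S_uni := by
  intro g k M hg
  set al : ℕ → ℝ := fun l => 1 / 8 ^ ((l + 1) * g) with hal
  have hT : ∀ z : ℕ, Tk g k z = ∑ l ∈ Finset.range k, ee (al l) ^ z := by
    intro z
    rw [Tk]
    refine Finset.sum_congr rfl fun l _ => ?_
    rw [← ee_pow, hal]
    congr 1
    ring
  have hsq : ∀ z : ℕ, ((‖Tk g k z‖ ^ 2 : ℝ) : ℂ) =
      ∑ l ∈ Finset.range k, ∑ l' ∈ Finset.range k, (ee (al l - al l')) ^ z := by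
    intro z
    have h1 : ((‖Tk g k z‖ ^ 2 : ℝ) : ℂ) = Tk g k z * (starRingEnd ℂ) (Tk g k z) := by
      rw [Complex.mul_conj, Complex.normSq_eq_norm_sq]
    rw [h1, hT, map_sum, Finset.sum_mul_sum]
    refine Finset.sum_congr rfl fun l _ => Finset.sum_congr rfl fun l' _ => ?_
    rw [map_pow, conj_ee, ← mul_pow, ee_inv_mul]
  have hper : ∀ l ∈ Finset.range k, ∀ l' ∈ Finset.range k,
      (ee (al l - al l')) ^ (M * 8 ^ (k * g)) = 1 := by
    intro l hl l' hl'
    rw [← ee_pow]
    have h1 : ∀ j ∈ Finset.range k, ((M * 8 ^ (k * g) : ℕ) : ℝ) * al j =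
        ((M * 8 ^ ((k - (j + 1)) * g) : ℕ) : ℤ) := by
      intro j hj
      have hj' := Finset.mem_range.mp hj
      have h2 : k * g = (k - (j + 1)) * g + (j + 1) * g := by
        rw [← add_mul]
        congr 1
        omega
      rw [hal]
      push_cast
      rw [h2, pow_add]
      field_simp
    have h3 : ((M * 8 ^ (k * g) : ℕ) : ℝ) * (al l - al l') =
        (((M * 8 ^ ((k - (l + 1)) * g) : ℕ) : ℤ) - ((M * 8 ^ ((k - (l' + 1)) * g) : ℕ) : ℤ) : ℤ) := by
      rw [mul_sub, h1 l hl, h1 l' hl']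
      push_cast
      rfl
    rw [h3, ee_int]
  have hne : ∀ l l' : ℕ, l ≠ l' → ee (al l - al l') ≠ 1 := by
    intro l l' hll h
    obtain ⟨n, hn⟩ := ee_eq_one _ h
    have hpos : ∀ j, 0 < al j := fun j => by rw [hal]; positivity
    have hlt : ∀ j, al j < 1 := fun j => by
      rw [hal]
      have : (1 : ℝ) < 8 ^ ((j + 1) * g) := one_lt_pow₀ (by norm_num) (by positivity)
      rw [div_lt_one (by positivity)]
      exact this
    have h0 : n = 0 := by
      have h1 : (n : ℝ) < 1 := by rw [← hn]; linarith [hpos l', hlt l]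
      have h2 : (-1 : ℝ) < n := by rw [← hn]; linarith [hpos l, hlt l']
      have h3 : n < 1 := by exact_mod_cast h1
      have h4 : -1 < n := by exact_mod_cast h2
      omega
    rw [h0] at hn
    have h5 : al l = al l' := by
      push_cast at hn
      linarith
    rw [hal] at h5
    simp only [one_div, inv_inj] at h5
    have h6 := pow_right_injective₀ (by norm_num : (0 : ℝ) < 8) (by norm_num) h5
    have h7 := Nat.eq_of_mul_eq_mul_right (by omega : 0 < g) h6
    omega
  have hin : ∀ l ∈ Finset.range k, ∀ l' ∈ Finset.range k,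
      ∑ z ∈ Finset.range (M * 8 ^ (k * g)), (ee (al l - al l')) ^ z =
        if l = l' then ((M * 8 ^ (k * g) : ℕ) : ℂ) else 0 := by
    intro l hl l' hl'
    split_ifs with hll
    · subst hll
      have : ee (al l - al l) = 1 := by
        rw [sub_self]
        exact_mod_cast ee_int 0
      rw [Finset.sum_congr rfl fun z _ => by rw [this, one_pow]]
      simp
    · have h1 := hne l l' hll
      have h2 := hper l hl l' hl'
      have h3 := geom_sum_eq h1 (M * 8 ^ (k * g))
      rw [h3, h2]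
      simp
  have hC : ((∑ z ∈ Finset.range (M * 8 ^ (k * g)), ‖Tk g k z‖ ^ 2 : ℝ) : ℂ) =
      ((M * k * 8 ^ (k * g) : ℝ) : ℂ) := by
    rw [Complex.ofReal_sum]
    rw [Finset.sum_congr rfl fun z _ => hsq z, Finset.sum_comm]
    rw [Finset.sum_congr rfl fun l _ => Finset.sum_comm]
    rw [Finset.sum_congr rfl fun l hl => Finset.sum_congr rfl fun l' hl' => hin l hl l' hl']
    rw [Finset.sum_congr rfl fun l hl => by rw [Finset.sum_ite_eq, if_pos hl]]
    rw [Finset.sum_const, Finset.card_range]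
    push_cast
    ring
  exact_mod_cast hC

end Pool.Agent.Q261.PSU
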