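import Pool.Agent.Q88.PS.Stm

set_option autoImplicit false

open MeasureTheory Set Filter Topology
open scoped ENNReal NNReal

namespace Pool.Agent.Q261.PSV

open Pool.Agent.Q88.PS

lemma ee_norm (x : ℝ) : ‖ee x‖ = 1 := by
  have h : (2 * Real.pi * x * Complex.I : ℂ) = ((2 * Real.pi * x : ℝ) : ℂ) * Complex.I := by
    push_cast
    ring
  rw [ee, h, Complex.norm_exp_ofReal_mul_I]

lemma ee_add (x y : ℝ) : ee (x + y) = ee x * ee y := by
  rw [ee, ee, ee, ← Complex.exp_add]
  congr 1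
  push_cast
  ring

lemma ee_int (n : ℕ) : ee (n : ℝ) = 1 := by
  rw [ee, Complex.exp_eq_one_iff]
  exact ⟨n, by push_cast; ring⟩

lemma ee_sub_one (x : ℝ) : ‖ee x - 1‖ ≤ 2 * Real.pi * |x| := by
  have h : (2 * Real.pi * x * Complex.I : ℂ) = Complex.I * ((2 * Real.pi * x : ℝ) : ℂ) := by
    push_cast
    ring
  rw [ee, h]
  have := Real.norm_exp_I_mul_ofReal_sub_one_le (x := 2 * Real.pi * x)
  refine this.trans ?_
  rw [Real.norm_eq_abs, abs_mul, abs_of_pos (by positivity : (0 : ℝ) < 2 * Real.pi)]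

/-- The centred value of the first block. -/
noncomputable def ff (p q g : ℕ) (u : List D) : ℂ := ee ((zw p q u : ℝ) / 8 ^ g) - kap p q g

/-- The centred statistic. -/
noncomputable def BB (p q g : ℕ) : ℕ → List D → ℂ
  | 0, _ => 0
  | k + 1, w => BB p q g k (w.drop g) + ff p q g (w.take g)

lemma sum_ff (p q g : ℕ) : ∑ u ∈ wds g, ff p q g u = 0 := by
  simp only [ff]
  rw [Finset.sum_sub_distrib, Finset.sum_const, card_wds, kap, nsmul_eq_mul]
  push_cast
  field_simp
  ring

lemma sum_ff_sq (p q g : ℕ) : ∑ u ∈ wds g, ‖ff p q g u‖ ^ 2 ≤ 16 ^ g := by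
  have h1 : ∀ u : List D, ‖ff p q g u‖ ^ 2 = 1 - ‖kap p q g‖ ^ 2 -
      2 * ((starRingEnd ℂ) (kap p q g) * ff p q g u).re := by
    intro u
    have h2 : ee ((zw p q u : ℝ) / 8 ^ g) = ff p q g u + kap p q g := by
      rw [ff]
      ring
    have h3 : ‖ff p q g u + kap p q g‖ ^ 2 = 1 := by
      rw [← h2, ee_norm]
      norm_num
    rw [← Complex.normSq_eq_norm_sq, Complex.normSq_apply] at h3 ⊢
    rw [← Complex.normSq_eq_norm_sq, Complex.normSq_apply]
    simp only [Complex.add_re, Complex.add_im, Complex.mul_re, Complex.conj_re, Complex.conj_im] at h3 ⊢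
    linarith
  rw [Finset.sum_congr rfl fun u _ => h1 u, Finset.sum_sub_distrib, Finset.sum_const, card_wds,
    ← Finset.mul_sum, ← Complex.re_sum, ← Finset.mul_sum, sum_ff, mul_zero, Complex.zero_re, mul_zero,
    sub_zero, nsmul_eq_mul]
  push_cast
  have : (0 : ℝ) ≤ ‖kap p q g‖ ^ 2 := by positivity
  nlinarith [pow_pos (by norm_num : (0 : ℝ) < 16) g]

lemma sum_BB_sq (p q g k : ℕ) : ∑ w ∈ wds (k * g), ‖BB p q g k w‖ ^ 2 ≤ k * 16 ^ (k * g) := by
  induction k with
  | zero => simp [BB]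
  | succ k ih =>
    rw [show (k + 1) * g = g + k * g by ring, sum_wds_add]
    have h1 : ∀ u ∈ wds g, ∀ w ∈ wds (k * g), ‖BB p q g (k + 1) (u ++ w)‖ ^ 2 =
        ‖BB p q g k w‖ ^ 2 + ‖ff p q g u‖ ^ 2 +
          2 * ((starRingEnd ℂ) (BB p q g k w) * ff p q g u).re := by
      intro u hu w _
      have hu' := mem_wds.mp hu
      have h2 : BB p q g (k + 1) (u ++ w) = BB p q g k w + ff p q g u := by
        rw [BB, List.drop_left' hu', List.take_left' hu']
      rw [h2, ← Complex.normSq_eq_norm_sq, ← Complex.normSq_eq_norm_sq, ← Complex.normSq_eq_norm_sq,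
        Complex.normSq_apply, Complex.normSq_apply, Complex.normSq_apply]
      simp only [Complex.add_re, Complex.add_im, Complex.mul_re, Complex.conj_re, Complex.conj_im]
      ring
    rw [Finset.sum_congr rfl fun u hu => Finset.sum_congr rfl fun w hw => h1 u hu w hw]
    simp only [Finset.sum_add_distrib]
    have h3 : ∑ u ∈ wds g, ∑ w ∈ wds (k * g), 2 * ((starRingEnd ℂ) (BB p q g k w) * ff p q g u).re = 0 := by
      rw [Finset.sum_comm]
      refine Finset.sum_eq_zero fun w _ => ?_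
      rw [← Finset.mul_sum, ← Complex.re_sum, ← Finset.mul_sum, sum_ff]
      simp
    have h4 := sum_ff_sq p q g
    rw [h3, Finset.sum_const, card_wds, Finset.sum_congr rfl fun u _ => Finset.sum_const _, card_wds,
      ← Finset.sum_nsmul]
    simp only [nsmul_eq_mul]
    push_cast
    simp only [← Finset.mul_sum]
    have h5 : (0 : ℝ) < 16 ^ g := by positivity
    have h6 : (0 : ℝ) < 16 ^ (k * g) := by positivity
    calc (16 : ℝ) ^ g * ∑ w ∈ wds (k * g), ‖BB p q g k w‖ ^ 2 +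
          16 ^ (k * g) * ∑ u ∈ wds g, ‖ff p q g u‖ ^ 2 + 0
        ≤ 16 ^ g * (k * 16 ^ (k * g)) + 16 ^ (k * g) * 16 ^ g + 0 := by gcongr
      _ = (k + 1) * 16 ^ (g + k * g) := by
        rw [pow_add]
        ring

lemma zd_le (p q : ℕ) (d : D) : zd p q d ≤ 3 * q + 10 * p := by
  have h1 : da d ≤ 3 := by
    have := d.1.isLt
    rw [da]
    omega
  have h2 : db d ≤ 5 := by
    have := d.2.isLt
    rw [db]
    omega
  have h3 : zd p q d ≤ q * 3 + 2 * p * 5 := by
    rw [zd]
    gcongr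
  linarith

lemma zw_le (p q : ℕ) (w : List D) : zw p q w ≤ (3 * q + 10 * p) * 8 ^ w.length := by
  induction w with
  | nil => simp [zw]
  | cons d w ih =>
    rw [zw, List.length_cons, pow_succ]
    have h1 := Nat.mul_le_mul_left (8 ^ w.length) (zd_le p q d)
    have h2 : 0 ≤ (3 * q + 10 * p) * 8 ^ w.length := Nat.zero_le _
    nlinarith

lemma zw_append (p q : ℕ) (u w : List D) : zw p q (u ++ w) = 8 ^ w.length * zw p q u + zw p q w := by
  induction u with
  | nil => simp [zw]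
  | cons d u ih =>
    rw [List.cons_append, zw, ih, zw, List.length_append, pow_add]
    ring

lemma Tk_near (p q g k : ℕ) : ∀ w ∈ wds (k * g),
    ‖Tk g k (zw p q w) - k * kap p q g - BB p q g k w‖ ≤
      k * (2 * Real.pi * (3 * q + 10 * p) / 8 ^ g) := by
  induction k with
  | zero =>
    intro w _
    simp [Tk, BB]
  | succ k ih =>
    intro w hw
    have hw' := mem_wds.mp hw
    set u := w.take g with hu
    set v := w.drop g with hv
    have huv : w = u ++ v := (List.take_append_drop g w).symm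
    have hul : u.length = g := by
      rw [hu, List.length_take, hw']
      have : g ≤ (k + 1) * g := Nat.le_mul_of_pos_left g (by omega)
      omega
    have hvl : v.length = k * g := by
      rw [hv, List.length_drop, hw', Nat.succ_mul]
      omega
    have h1 := ih v (mem_wds.mpr hvl)
    have hz : zw p q w = 8 ^ (k * g) * zw p q u + zw p q v := by
      rw [huv, zw_append, hvl]
    have hper : Tk g k (zw p q w) = Tk g k (zw p q v) := by
      rw [Tk, Tk]
      refine Finset.sum_congr rfl fun l hl => ?_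
      have hl' := Finset.mem_range.mp hl
      have e1 : k * g = (k - (l + 1)) * g + (l + 1) * g := by
        rw [← add_mul]
        congr 1
        omega
      have e2 : ((zw p q w : ℕ) : ℝ) / 8 ^ ((l + 1) * g) =
          ((8 ^ ((k - (l + 1)) * g) * zw p q u : ℕ) : ℝ) + (zw p q v : ℝ) / 8 ^ ((l + 1) * g) := by
        rw [hz]
        push_cast
        rw [show (8 : ℝ) ^ (k * g) = 8 ^ ((k - (l + 1)) * g) * 8 ^ ((l + 1) * g) by
          rw [← pow_add, ← e1]]
        field_simp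
      rw [e2, ee_add, ee_int, one_mul]
    have hlast : Tk g (k + 1) (zw p q w) = Tk g k (zw p q v) + ee ((zw p q w : ℝ) / 8 ^ ((k + 1) * g)) := by
      rw [← hper, Tk, Finset.sum_range_succ, ← Tk]
    have hterm : ‖ee ((zw p q w : ℝ) / 8 ^ ((k + 1) * g)) - ee ((zw p q u : ℝ) / 8 ^ g)‖ ≤
        2 * Real.pi * (3 * q + 10 * p) / 8 ^ g := by
      have e3 : (zw p q w : ℝ) / 8 ^ ((k + 1) * g) =
          (zw p q u : ℝ) / 8 ^ g + (zw p q v : ℝ) / 8 ^ ((k + 1) * g) := by
        rw [hz, Nat.succ_mul, pow_add]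
        push_cast
        field_simp
      have e4 : ee ((zw p q w : ℝ) / 8 ^ ((k + 1) * g)) - ee ((zw p q u : ℝ) / 8 ^ g) =
          ee ((zw p q u : ℝ) / 8 ^ g) * (ee ((zw p q v : ℝ) / 8 ^ ((k + 1) * g)) - 1) := by
        rw [e3, ee_add]
        ring
      rw [e4, norm_mul, ee_norm, one_mul]
      refine (ee_sub_one _).trans ?_
      rw [abs_of_nonneg (by positivity)]
      have e5 : ((zw p q v : ℕ) : ℝ) ≤ (3 * q + 10 * p) * 8 ^ (k * g) := by
        have := zw_le p q v
        rw [hvl] at this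
        exact_mod_cast this
      calc 2 * Real.pi * ((zw p q v : ℝ) / 8 ^ ((k + 1) * g))
          ≤ 2 * Real.pi * (((3 * q + 10 * p) * 8 ^ (k * g)) / 8 ^ ((k + 1) * g)) := by gcongr
        _ = 2 * Real.pi * (3 * q + 10 * p) / 8 ^ g := by
          rw [Nat.succ_mul, pow_add]
          field_simp
    have hB : BB p q g (k + 1) w = BB p q g k v + (ee ((zw p q u : ℝ) / 8 ^ g) - kap p q g) := by
      rw [BB, ff]
    rw [hlast, hB]
    push_cast
    have e6 : Tk g k (zw p q v) + ee ((zw p q w : ℝ) / 8 ^ ((k + 1) * g)) - (k + 1) * kap p q g -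
        (BB p q g k v + (ee ((zw p q u : ℝ) / 8 ^ g) - kap p q g)) =
        (Tk g k (zw p q v) - k * kap p q g - BB p q g k v) +
        (ee ((zw p q w : ℝ) / 8 ^ ((k + 1) * g)) - ee ((zw p q u : ℝ) / 8 ^ g)) := by ring
    rw [e6]
    calc _ ≤ ‖Tk g k (zw p q v) - k * kap p q g - BB p q g k v‖ +
        ‖ee ((zw p q w : ℝ) / 8 ^ ((k + 1) * g)) - ee ((zw p q u : ℝ) / 8 ^ g)‖ := norm_add_le _ _
      _ ≤ k * (2 * Real.pi * (3 * q + 10 * p) / 8 ^ g) + 2 * Real.pi * (3 * q + 10 * p) / 8 ^ g :=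
          add_le_add h1 hterm
      _ = _ := by ring

theorem var : S_var := by
  intro p q g k a ha hga
  set S := (wds (k * g)).filter fun w => k * a ≤ ‖Tk g k (zw p q w) - k * kap p q g‖ with hS
  have h1 : ∀ w ∈ S, (k * a) ^ 2 ≤ 4 * ‖BB p q g k w‖ ^ 2 := by
    intro w hw
    rw [hS, Finset.mem_filter] at hw
    have h2 := Tk_near p q g k w hw.1
    have h3 := norm_sub_norm_le (Tk g k (zw p q w) - k * kap p q g) (BB p q g k w)
    have h4 : (k : ℝ) * (2 * Real.pi * (3 * q + 10 * p) / 8 ^ g) ≤ k * (a / 2) := by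
      refine mul_le_mul_of_nonneg_left ?_ (Nat.cast_nonneg k)
      have : 2 * Real.pi * (3 * q + 10 * p) / 8 ^ g = (4 * Real.pi * (3 * q + 10 * p) / 8 ^ g) / 2 := by ring
      rw [this]
      linarith
    have h5 : (k : ℝ) * a / 2 ≤ ‖BB p q g k w‖ := by
      have := hw.2
      linarith
    have h6 : (0 : ℝ) ≤ k * a / 2 := by positivity
    nlinarith
  have h7 : (S.card : ℝ) * (k * a) ^ 2 ≤ ∑ w ∈ S, 4 * ‖BB p q g k w‖ ^ 2 := by
    rw [← nsmul_eq_mul]
    exact Finset.card_nsmul_le_sum _ _ _ h1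
  have h8 : ∑ w ∈ S, 4 * ‖BB p q g k w‖ ^ 2 ≤ ∑ w ∈ wds (k * g), 4 * ‖BB p q g k w‖ ^ 2 :=
    Finset.sum_le_sum_of_subset_of_nonneg (Finset.filter_subset _ _) fun w _ _ => by positivity
  have h9 := sum_BB_sq p q g k
  rw [← Finset.mul_sum (s := wds (k * g))] at h8
  calc (S.card : ℝ) * (k * a) ^ 2 ≤ 4 * ∑ w ∈ wds (k * g), ‖BB p q g k w‖ ^ 2 := h7.trans h8
    _ ≤ 4 * (k * 16 ^ (k * g)) := by gcongr
    _ = _ := by ring

end Pool.Agent.Q261.PSV
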