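import Mathlib

/-!
# Generating functions of weighted restricted partition counts, analytically
-/

set_option autoImplicit false

namespace Q261.PartGen

open Finset

section Rec

variable {R : Type*} [CommRing R]

/-- all parts lie in `S` -/
def Ok (S : Set ℕ) {n : ℕ} (p : n.Partition) : Prop := ∀ i ∈ p.parts, i ∈ S

open Classical in
/-- the sum of `t ^ (number of parts)` over the partitions of `n` with all parts in `S` -/
noncomputable def W (S : Set ℕ) (t : R) (n : ℕ) : R :=
  ∑ p ∈ univ.filter (fun p : n.Partition => Ok S p), t ^ (Multiset.card p.parts)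

theorem W_congr {S S' : Set ℕ} (t : R) (n : ℕ) (h : ∀ i, 1 ≤ i → i ≤ n → (i ∈ S ↔ i ∈ S')) :
    W S t n = W S' t n := by
  classical
  unfold W
  apply sum_congr _ (fun _ _ => rfl)
  apply filter_congr
  intro p _
  have hp : ∀ i ∈ p.parts, 1 ≤ i ∧ i ≤ n := by
    intro i hi
    refine ⟨p.parts_pos hi, ?_⟩
    have := Multiset.single_le_sum (fun _ _ => Nat.zero_le _) _ hi
    rwa [p.parts_sum] at this
  constructor
  · intro h1 i hi
    exact (h i (hp i hi).1 (hp i hi).2).1 (h1 i hi)
  · intro h1 i hi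
    exact (h i (hp i hi).1 (hp i hi).2).2 (h1 i hi)

theorem W_empty (t : R) (n : ℕ) : W ∅ t n = if n = 0 then 1 else 0 := by
  classical
  unfold W
  by_cases hn : n = 0
  · subst hn
    rw [if_pos rfl]
    rw [filter_true_of_mem, sum_eq_single (default : Nat.Partition 0)]
    · simp [Subsingleton.elim (default : Nat.Partition 0) (Nat.Partition.indiscrete 0)]
    · intro p _ hp
      exact absurd (Subsingleton.elim _ _) hp
    · intro h; exact absurd (mem_univ _) h
    · intro p _ i hi
      have h1 := p.parts_pos hi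
      have h2 := Multiset.single_le_sum (fun _ _ => Nat.zero_le _) _ hi
      rw [p.parts_sum] at h2
      omega
  · rw [if_neg hn]
    apply sum_eq_zero
    intro p hp
    rw [mem_filter] at hp
    exfalso
    have h0 : p.parts = 0 := Multiset.eq_zero_of_forall_notMem (fun i hi => hp.2 i hi)
    have := p.parts_sum
    rw [h0, Multiset.sum_zero] at this
    exact hn this.symm

/-- remove one part `s` -/
def er {n s : ℕ} (hs : s ≤ n) (p : n.Partition) (h : s ∈ p.parts) : (n - s).Partition where
  parts := p.parts.erase s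
  parts_pos := fun hi => p.parts_pos (Multiset.mem_of_mem_erase hi)
  parts_sum := by
    have h1 := p.parts_sum
    rw [← Multiset.cons_erase h, Multiset.sum_cons] at h1
    omega

/-- add one part `s` -/
def co {n s : ℕ} (hs : s ≤ n) (h0 : 0 < s) (q : (n - s).Partition) : n.Partition where
  parts := s ::ₘ q.parts
  parts_pos := by
    intro i hi
    rw [Multiset.mem_cons] at hi
    rcases hi with rfl | hi
    · exact h0
    · exact q.parts_pos hi
  parts_sum := by
    rw [Multiset.sum_cons, q.parts_sum]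
    omega

theorem W_insert {S : Set ℕ} {s : ℕ} (h0 : 0 < s) (hs : s ∉ S) (t : R) (n : ℕ) :
    W (insert s S) t n = W S t n + if s ≤ n then t * W (insert s S) t (n - s) else 0 := by
  classical
  have key : W (insert s S) t n =
      (∑ p ∈ (univ.filter (fun p : n.Partition => Ok (insert s S) p)).filter
        (fun p => ¬ s ∈ p.parts), t ^ (Multiset.card p.parts)) +
      ∑ p ∈ (univ.filter (fun p : n.Partition => Ok (insert s S) p)).filter
        (fun p => s ∈ p.parts), t ^ (Multiset.card p.parts) := by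
    rw [add_comm, sum_filter_add_sum_filter_not]; rfl
  rw [key]
  congr 1
  · rw [W]
    apply sum_congr _ (fun _ _ => rfl)
    ext p
    simp only [mem_filter, mem_univ, true_and]
    constructor
    · rintro ⟨h1, h2⟩ i hi
      rcases h1 i hi with h | h
      · subst h; exact absurd hi h2
      · exact h
    · intro h1
      exact ⟨fun i hi => Or.inr (h1 i hi), fun h2 => hs (h1 s h2)⟩
  · split_ifs with hn
    · rw [W, mul_sum]
      refine sum_bij' (fun p hp => er hn p (mem_filter.1 hp).2) (fun q _ => co hn h0 q)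
        ?_ ?_ ?_ ?_ ?_
      · intro p hp
        rw [mem_filter, mem_filter] at hp
        rw [mem_filter]
        refine ⟨mem_univ _, fun i hi => hp.1.2 i (Multiset.mem_of_mem_erase hi)⟩
      · intro q hq
        rw [mem_filter] at hq
        rw [mem_filter, mem_filter]
        refine ⟨⟨mem_univ _, ?_⟩, ?_⟩
        · intro i hi
          rcases Multiset.mem_cons.1 hi with rfl | hi
          · exact Or.inl rfl
          · exact hq.2 i hi
        · exact Multiset.mem_cons_self _ _
      · intro p hp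
        apply Nat.Partition.ext
        exact Multiset.cons_erase (mem_filter.1 hp).2
      · intro q hq
        apply Nat.Partition.ext
        exact Multiset.erase_cons_head _ _
      · intro p hp
        have h1 := Multiset.cons_erase (mem_filter.1 hp).2
        change t ^ (Multiset.card p.parts) = t * t ^ (Multiset.card (p.parts.erase s))
        conv_lhs => rw [← h1, Multiset.card_cons, pow_succ']
    · apply sum_eq_zero
      intro p hp
      exfalso
      have h1 := (mem_filter.1 hp).2
      have h2 := Multiset.single_le_sum (fun _ _ => Nat.zero_le _) _ h1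
      rw [p.parts_sum] at h2
      exact hn h2

end Rec

theorem norm_W_le (S : Set ℕ) (t : ℂ) (ht : ‖t‖ ≤ 1) (n : ℕ) : ‖W S t n‖ ≤ W S (1 : ℝ) n := by
  classical
  unfold W
  refine (norm_sum_le _ _).trans (sum_le_sum ?_)
  intro p _
  rw [norm_pow, one_pow]
  exact pow_le_one₀ (norm_nonneg _) ht

theorem W_nonneg (S : Set ℕ) (n : ℕ) : 0 ≤ W S (1 : ℝ) n := by
  classical
  unfold W
  apply sum_nonneg
  intro p _
  positivity

theorem summable_finset (S : Finset ℕ) (hS : ∀ s ∈ S, 0 < s) {r : ℝ} (h0 : 0 ≤ r) (h1 : r < 1) :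
    Summable (fun n => W (S : Set ℕ) (1 : ℝ) n * r ^ n) ∧
      ∑' n, W (S : Set ℕ) (1 : ℝ) n * r ^ n = ∏ s ∈ S, (1 - r ^ s)⁻¹ := by
  classical
  induction S using Finset.induction_on with
  | empty =>
    have : (fun n => W ((∅ : Finset ℕ) : Set ℕ) (1 : ℝ) n * r ^ n) =
        fun n => if n = 0 then 1 else 0 := by
      funext n
      rw [Finset.coe_empty, W_empty]
      split_ifs with h
      · subst h; simp
      · simp
    rw [this]
    refine ⟨(hasSum_ite_eq 0 (1 : ℝ)).summable, ?_⟩
    rw [tsum_ite_eq]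
    simp
  | insert s S hs ih =>
    have hs0 : 0 < s := hS s (mem_insert_self _ _)
    obtain ⟨ih1, ih2⟩ := ih (fun u hu => hS u (mem_insert_of_mem hu))
    rw [Finset.coe_insert]
    set w := fun n => W (insert s (S : Set ℕ)) (1 : ℝ) n * r ^ n with hw
    have hrs : r ^ s < 1 := pow_lt_one₀ h0 h1 hs0.ne'
    have hw0 : ∀ n, 0 ≤ w n := fun n => mul_nonneg (W_nonneg _ _) (pow_nonneg h0 _)
    have hrec : ∀ n, w n = W (S : Set ℕ) (1 : ℝ) n * r ^ n +
        if s ≤ n then r ^ s * w (n - s) else 0 := by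
      intro n
      simp only [hw]
      rw [W_insert hs0 (by simpa using hs)]
      split_ifs with h
      · have e : r ^ n = r ^ s * r ^ (n - s) := by rw [← pow_add]; congr 1; omega
        rw [add_mul, one_mul]
        congr 1
        rw [e]; ring
      · ring
    have hshift : ∀ K, ∑ n ∈ range K, (if s ≤ n then r ^ s * w (n - s) else 0) ≤
        r ^ s * ∑ n ∈ range K, w n := by
      intro K
      rw [mul_sum, ← sum_filter]
      have : ∑ n ∈ (range K).filter (s ≤ ·), r ^ s * w (n - s) =
          ∑ m ∈ ((range K).filter (s ≤ ·)).image (fun n => n - s), r ^ s * w m := by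
        rw [sum_image]
        intro a ha b hb hab
        simp only [coe_filter, mem_range, Set.mem_ofPred_eq] at ha hb
        have ha' := ha.2
        have hb' := hb.2
        simp only at hab
        omega
      rw [this]
      apply sum_le_sum_of_subset_of_nonneg
      · intro m hm
        rw [mem_image] at hm
        obtain ⟨n, hn, rfl⟩ := hm
        rw [mem_filter, mem_range] at hn
        rw [mem_range]
        omega
      · intro m _ _
        exact mul_nonneg (pow_nonneg h0 _) (hw0 m)
    have hsum : Summable w := by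
      apply summable_of_sum_range_le (c := (∑' n, W (S : Set ℕ) (1 : ℝ) n * r ^ n) / (1 - r ^ s)) hw0
      intro K
      rw [le_div_iff₀ (by linarith)]
      have h2 : ∑ n ∈ range K, w n = ∑ n ∈ range K, W (S : Set ℕ) (1 : ℝ) n * r ^ n +
          ∑ n ∈ range K, (if s ≤ n then r ^ s * w (n - s) else 0) := by
        rw [← sum_add_distrib]
        exact sum_congr rfl fun n _ => hrec n
      have h3 : ∑ n ∈ range K, W (S : Set ℕ) (1 : ℝ) n * r ^ n ≤
          ∑' n, W (S : Set ℕ) (1 : ℝ) n * r ^ n :=
        ih1.sum_le_tsum _ (fun n _ => mul_nonneg (W_nonneg _ _) (pow_nonneg h0 _))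
      have h4 := hshift K
      nlinarith
    refine ⟨hsum, ?_⟩
    have hT : ∑' n, (if s ≤ n then r ^ s * w (n - s) else 0) = r ^ s * ∑' n, w n := by
      rw [← tsum_mul_left]
      have hinj : Function.Injective (fun n : ℕ => n + s) := add_left_injective s
      rw [← hinj.tsum_eq]
      · apply tsum_congr
        intro n
        simp
      · intro n hn
        rw [Function.mem_support] at hn
        have : s ≤ n := by
          by_contra h
          exact hn (if_neg h)
        exact ⟨n - s, Nat.sub_add_cancel this⟩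
    have hS2 : Summable (fun n => if s ≤ n then r ^ s * w (n - s) else 0) := by
      have : (fun n => if s ≤ n then r ^ s * w (n - s) else 0) =
          fun n => w n - W (S : Set ℕ) (1 : ℝ) n * r ^ n := by
        funext n; rw [hrec n]; ring
      rw [this]
      exact hsum.sub ih1
    have h5 : ∑' n, w n = ∑' n, W (S : Set ℕ) (1 : ℝ) n * r ^ n + r ^ s * ∑' n, w n := by
      rw [← hT, ← ih1.tsum_add hS2]
      exact tsum_congr hrec
    rw [prod_insert hs, ← ih2]
    rw [inv_mul_eq_div, eq_div_iff (by linarith)]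
    linarith

theorem tsum_finset (S : Finset ℕ) (hS : ∀ s ∈ S, 0 < s) {t z : ℂ} (ht : ‖t‖ ≤ 1)
    (h1 : ‖z‖ < 1) :
    Summable (fun n => W (S : Set ℕ) t n * z ^ n) ∧
      ∑' n, W (S : Set ℕ) t n * z ^ n = ∏ s ∈ S, (1 - t * z ^ s)⁻¹ := by
  classical
  have hsummable : ∀ S : Finset ℕ, (∀ s ∈ S, 0 < s) →
      Summable (fun n => W (S : Set ℕ) t n * z ^ n) := by
    intro S hS
    refine Summable.of_norm_bounded (summable_finset S hS (norm_nonneg z) h1).1 ?_
    intro n
    rw [norm_mul, norm_pow]
    exact mul_le_mul_of_nonneg_right (norm_W_le _ t ht n) (pow_nonneg (norm_nonneg _) _)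
  refine ⟨hsummable S hS, ?_⟩
  induction S using Finset.induction_on with
  | empty =>
    have : (fun n => W ((∅ : Finset ℕ) : Set ℕ) t n * z ^ n) =
        fun n => if n = 0 then 1 else 0 := by
      funext n
      rw [Finset.coe_empty, W_empty]
      split_ifs with h
      · subst h; simp
      · simp
    rw [this, tsum_ite_eq]
    simp
  | insert s S hs ih =>
    have hs0 : 0 < s := hS s (mem_insert_self _ _)
    have hS' := fun u hu => hS u (mem_insert_of_mem hu)
    have ih2 := ih hS'
    have ih1 := hsummable S hS'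
    have hsum := hsummable _ hS
    rw [Finset.coe_insert] at hsum ⊢
    set w := fun n => W (insert s (S : Set ℕ)) t n * z ^ n with hw
    have hrec : ∀ n, w n = W (S : Set ℕ) t n * z ^ n +
        if s ≤ n then t * z ^ s * w (n - s) else 0 := by
      intro n
      simp only [hw]
      rw [W_insert hs0 (by simpa using hs)]
      split_ifs with h
      · have e : z ^ n = z ^ s * z ^ (n - s) := by rw [← pow_add]; congr 1; omega
        rw [add_mul]
        congr 1
        rw [e]; ring
      · ring
    have hT : ∑' n, (if s ≤ n then t * z ^ s * w (n - s) else 0) = t * z ^ s * ∑' n, w n := by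
      rw [← tsum_mul_left]
      have hinj : Function.Injective (fun n : ℕ => n + s) := add_left_injective s
      rw [← hinj.tsum_eq]
      · apply tsum_congr
        intro n
        simp
      · intro n hn
        rw [Function.mem_support] at hn
        have : s ≤ n := by
          by_contra h
          exact hn (if_neg h)
        exact ⟨n - s, Nat.sub_add_cancel this⟩
    have hS2 : Summable (fun n => if s ≤ n then t * z ^ s * w (n - s) else 0) := by
      have : (fun n => if s ≤ n then t * z ^ s * w (n - s) else 0) =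
          fun n => w n - W (S : Set ℕ) t n * z ^ n := by
        funext n; rw [hrec n]; ring
      rw [this]
      exact hsum.sub ih1
    have h5 : ∑' n, w n = ∑' n, W (S : Set ℕ) t n * z ^ n + t * z ^ s * ∑' n, w n := by
      rw [← hT, ← ih1.tsum_add hS2]
      exact tsum_congr hrec
    have hne : 1 - t * z ^ s ≠ 0 := by
      intro h
      have h6 : ‖t * z ^ s‖ < 1 := by
        rw [norm_mul, norm_pow]
        have := pow_lt_one₀ (norm_nonneg z) h1 hs0.ne'
        calc ‖t‖ * ‖z‖ ^ s ≤ 1 * ‖z‖ ^ s :=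
              mul_le_mul_of_nonneg_right ht (pow_nonneg (norm_nonneg _) _)
          _ < 1 := by rw [one_mul]; exact this
      have h7 : t * z ^ s = 1 := by linear_combination -h
      rw [h7, norm_one] at h6
      exact lt_irrefl _ h6
    rw [prod_insert hs, ← ih2]
    rw [inv_mul_eq_div, eq_div_iff hne]
    linear_combination h5

/-- the arithmetic progression `{3m + 1}` -/
def A : Set ℕ := {a | ∃ m : ℕ, a = 3 * m + 1}

/-- the first `M` elements of the progression -/
def AM (M : ℕ) : Finset ℕ := (range M).image (fun m => 3 * m + 1)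

theorem AM_pos (M : ℕ) : ∀ s ∈ AM M, 0 < s := by
  intro s hs
  rw [AM, mem_image] at hs
  obtain ⟨m, _, rfl⟩ := hs
  omega

theorem W_A_eq {R : Type*} [CommRing R] (t : R) (n M : ℕ) (h : n ≤ M) :
    W A t n = W (AM M : Set ℕ) t n := by
  apply W_congr
  intro i hi hin
  rw [AM]
  simp only [A, Set.mem_ofPred_eq, coe_image, coe_range, Set.mem_image, Set.mem_Iio]
  constructor
  · rintro ⟨m, rfl⟩
    exact ⟨m, by omega, rfl⟩
  · rintro ⟨m, _, rfl⟩
    exact ⟨m, rfl⟩

theorem W_mono {S S' : Set ℕ} (h : S ⊆ S') (n : ℕ) : W S (1 : ℝ) n ≤ W S' (1 : ℝ) n := by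
  classical
  unfold W
  apply sum_le_sum_of_subset_of_nonneg
  · intro p hp
    rw [mem_filter] at hp ⊢
    exact ⟨hp.1, fun i hi => h (hp.2 i hi)⟩
  · intro p _ _
    positivity

theorem prod_AM {K : Type*} [CommMonoid K] (f : ℕ → K) (M : ℕ) :
    ∏ s ∈ AM M, f s = ∏ m ∈ range M, f (3 * m + 1) := by
  rw [AM, prod_image]
  intro a _ b _ h
  simp only at h
  omega

theorem summable_A {r : ℝ} (h0 : 0 ≤ r) (h1 : r < 1) : Summable (fun n => W A (1 : ℝ) n * r ^ n) := by
  apply summable_of_sum_range_le (c := Real.exp ((1 - r)⁻¹ * (1 - r)⁻¹))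
    (fun n => mul_nonneg (W_nonneg _ _) (pow_nonneg h0 _))
  intro K
  have h2 : ∑ n ∈ range K, W A (1 : ℝ) n * r ^ n =
      ∑ n ∈ range K, W (AM K : Set ℕ) (1 : ℝ) n * r ^ n := by
    apply sum_congr rfl
    intro n hn
    rw [mem_range] at hn
    rw [W_A_eq 1 n K hn.le]
  obtain ⟨h3, h4⟩ := summable_finset (AM K) (AM_pos K) h0 h1
  rw [h2]
  refine (h3.sum_le_tsum _ (fun n _ => mul_nonneg (W_nonneg _ _) (pow_nonneg h0 _))).trans ?_
  rw [h4, prod_AM]
  have h5 : ∀ m : ℕ, (1 - r ^ (3 * m + 1))⁻¹ ≤ Real.exp (r ^ m * (1 - r)⁻¹) := by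
    intro m
    have hx1 : r ^ (3 * m + 1) ≤ r := by
      calc r ^ (3 * m + 1) ≤ r ^ 1 := pow_le_pow_of_le_one h0 h1.le (by omega)
        _ = r := pow_one r
    have hx2 : r ^ (3 * m + 1) ≤ r ^ m := pow_le_pow_of_le_one h0 h1.le (by omega)
    have hx0 : 0 ≤ r ^ (3 * m + 1) := pow_nonneg h0 _
    set x := r ^ (3 * m + 1)
    have h6 : (1 - x)⁻¹ = 1 + x * (1 - x)⁻¹ := by
      have : (1 - x) ≠ 0 := by linarith
      field_simp
      ring
    have h7 : x * (1 - x)⁻¹ ≤ r ^ m * (1 - r)⁻¹ := by
      apply mul_le_mul hx2 _ (inv_nonneg.2 (by linarith)) (pow_nonneg h0 _)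
      exact inv_anti₀ (by linarith) (by linarith)
    rw [h6]
    have := Real.add_one_le_exp (r ^ m * (1 - r)⁻¹)
    linarith
  have h6 : ∏ m ∈ range K, (1 - r ^ (3 * m + 1))⁻¹ ≤ ∏ m ∈ range K, Real.exp (r ^ m * (1 - r)⁻¹) := by
    apply prod_le_prod
    · intro m _
      apply inv_nonneg.2
      have : r ^ (3 * m + 1) ≤ 1 := pow_le_one₀ h0 h1.le
      linarith
    · intro m _
      exact h5 m
  refine h6.trans ?_
  rw [← Real.exp_sum]
  apply Real.exp_le_exp.2
  rw [← sum_mul]
  apply mul_le_mul_of_nonneg_right _ (inv_nonneg.2 (by linarith))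
  have h7 := (summable_geometric_of_lt_one h0 h1).sum_le_tsum (range K) (fun n _ => pow_nonneg h0 n)
  rwa [tsum_geometric_of_lt_one h0 h1] at h7

/-- the logarithm of the generating function -/
noncomputable def T (z : ℂ) : ℂ := ∑' k : ℕ, (-z) ^ k / (k * (1 - z ^ (3 * k)))

open Filter Topology

theorem tendsto_prod {z : ℂ} (hz : ‖z‖ < 1) :
    Tendsto (fun M => ∏ m ∈ range M, (1 - (-1) * z ^ (3 * m + 1))⁻¹) atTop (𝓝 (Complex.exp (T z))) := by
  have hexp : ∀ M, ∏ m ∈ range M, (1 - (-1) * z ^ (3 * m + 1))⁻¹ =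
      Complex.exp (∑' k : ℕ, (-z) ^ k * (∑ m ∈ range M, (z ^ (3 * k)) ^ m) / k) := by
    intro M
    have h1 : ∀ m : ℕ, HasSum (fun k : ℕ => (-z) ^ k * (z ^ (3 * k)) ^ m / k)
        (-Complex.log (1 - (-1) * z ^ (3 * m + 1))) := by
      intro m
      have hw : ‖-z ^ (3 * m + 1)‖ < 1 := by
        rw [norm_neg, norm_pow]
        exact pow_lt_one₀ (norm_nonneg z) hz (by omega)
      have h2 := Complex.hasSum_taylorSeries_neg_log hw
      have e : (fun k : ℕ => (-z) ^ k * (z ^ (3 * k)) ^ m / k) =
          fun n : ℕ => (-z ^ (3 * m + 1)) ^ n / n := by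
        funext k
        congr 1
        rw [neg_pow z, neg_pow (z ^ (3 * m + 1)), ← pow_mul, ← pow_mul, mul_assoc, ← pow_add]
        congr 2
        ring
      rw [e]
      convert h2 using 3
      ring
    have h3 := hasSum_sum (s := range M) (fun m _ => h1 m)
    have h4 : ∑' k : ℕ, (-z) ^ k * (∑ m ∈ range M, (z ^ (3 * k)) ^ m) / k =
        ∑ m ∈ range M, -Complex.log (1 - (-1) * z ^ (3 * m + 1)) := by
      rw [← h3.tsum_eq]
      apply tsum_congr
      intro k
      rw [mul_sum, sum_div]
    rw [h4, Complex.exp_sum]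
    apply prod_congr rfl
    intro m _
    rw [Complex.exp_neg, Complex.exp_log]
    intro h
    have h5 : ‖z ^ (3 * m + 1)‖ < 1 := by
      rw [norm_pow]
      exact pow_lt_one₀ (norm_nonneg z) hz (by omega)
    have h6 : z ^ (3 * m + 1) = -1 := by linear_combination h
    rw [h6] at h5
    simp at h5
  simp_rw [hexp]
  refine (Complex.continuous_exp.tendsto _).comp ?_
  unfold T
  apply tendsto_tsum_of_dominated_convergence (bound := fun k : ℕ => ‖z‖ ^ k * (2 / (1 - ‖z‖)))
  · exact (summable_geometric_of_lt_one (norm_nonneg z) hz).mul_right _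
  · intro k
    rcases Nat.eq_zero_or_pos k with rfl | hk
    · simp
    have hzk : ‖z ^ (3 * k)‖ < 1 := by
      rw [norm_pow]
      exact pow_lt_one₀ (norm_nonneg z) hz (by omega)
    have h1 := (hasSum_geometric_of_norm_lt_one hzk).tendsto_sum_nat
    have h2 := (h1.const_mul ((-z) ^ k)).div_const (k : ℂ)
    convert h2 using 2
    rw [div_mul_eq_div_div, div_right_comm, div_eq_mul_inv ((-z) ^ k)]
  · filter_upwards with M
    intro k
    rcases Nat.eq_zero_or_pos k with rfl | hk
    · simp only [Nat.cast_zero, div_zero, norm_zero]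
      have : 0 < 1 - ‖z‖ := by linarith
      positivity
    have hzk : ‖z ^ (3 * k)‖ ≤ ‖z‖ := by
      rw [norm_pow]
      calc ‖z‖ ^ (3 * k) ≤ ‖z‖ ^ 1 := pow_le_pow_of_le_one (norm_nonneg z) hz.le (by omega)
        _ = ‖z‖ := pow_one _
    have hne : z ^ (3 * k) ≠ 1 := by
      intro h
      rw [h, norm_one] at hzk
      linarith
    rw [geom_sum_eq hne, norm_div, norm_mul, norm_div, norm_pow, norm_neg, Complex.norm_natCast]
    have h1 : ‖(z ^ (3 * k)) ^ M - 1‖ ≤ 2 := by
      refine (norm_sub_le _ _).trans ?_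
      rw [norm_one, norm_pow]
      have : ‖z ^ (3 * k)‖ ^ M ≤ 1 := pow_le_one₀ (norm_nonneg _) (hzk.trans hz.le)
      linarith
    have h2 : 1 - ‖z‖ ≤ ‖z ^ (3 * k) - 1‖ := by
      have := norm_sub_norm_le (1 : ℂ) (z ^ (3 * k))
      rw [norm_one, norm_sub_rev] at this
      linarith
    have h3 : ‖(z ^ (3 * k)) ^ M - 1‖ / ‖z ^ (3 * k) - 1‖ ≤ 2 / (1 - ‖z‖) :=
      div_le_div₀ (by norm_num) h1 (by linarith) h2
    have hk' : (1 : ℝ) ≤ k := by exact_mod_cast hk
    calc ‖z‖ ^ k * (‖(z ^ (3 * k)) ^ M - 1‖ / ‖z ^ (3 * k) - 1‖) / k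
        ≤ ‖z‖ ^ k * (‖(z ^ (3 * k)) ^ M - 1‖ / ‖z ^ (3 * k) - 1‖) :=
          div_le_self (by positivity) hk'
      _ ≤ ‖z‖ ^ k * (2 / (1 - ‖z‖)) := mul_le_mul_of_nonneg_left h3 (by positivity)

/-- **the generating function** -/
theorem gen {z : ℂ} (hz : ‖z‖ < 1) :
    Summable (fun n => ‖W A (-1 : ℂ) n * z ^ n‖) ∧ ∑' n, W A (-1 : ℂ) n * z ^ n = Complex.exp (T z) := by
  have hb : ∀ (S : Set ℕ) (n : ℕ), ‖W S (-1 : ℂ) n * z ^ n‖ ≤ W S (1 : ℝ) n * ‖z‖ ^ n := by
    intro S n
    rw [norm_mul, norm_pow]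
    exact mul_le_mul_of_nonneg_right (norm_W_le _ _ (by simp) n) (pow_nonneg (norm_nonneg _) _)
  have hs := summable_A (norm_nonneg z) hz
  refine ⟨Summable.of_nonneg_of_le (fun _ => norm_nonneg _) (hb A) hs, ?_⟩
  have h1 : Tendsto (fun M => ∑' n, W (AM M : Set ℕ) (-1 : ℂ) n * z ^ n) atTop
      (𝓝 (∑' n, W A (-1 : ℂ) n * z ^ n)) := by
    apply tendsto_tsum_of_dominated_convergence hs
    · intro n
      apply tendsto_const_nhds.congr'
      filter_upwards [eventually_ge_atTop n] with M hM
      rw [W_A_eq _ n M hM]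
    · filter_upwards with M
      intro n
      refine (hb _ n).trans (mul_le_mul_of_nonneg_right (W_mono ?_ n) (pow_nonneg (norm_nonneg _) _))
      intro s hs
      rw [AM, mem_coe, mem_image] at hs
      obtain ⟨m, _, rfl⟩ := hs
      exact ⟨m, rfl⟩
  refine tendsto_nhds_unique h1 ?_
  have h2 : ∀ M, ∑' n, W (AM M : Set ℕ) (-1 : ℂ) n * z ^ n =
      ∏ m ∈ range M, (1 - (-1) * z ^ (3 * m + 1))⁻¹ := by
    intro M
    rw [(tsum_finset (AM M) (AM_pos M) (by simp) hz).2, prod_AM]
  simp_rw [h2]
  exact tendsto_prod hz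

end Q261.PartGen
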