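import Pool.Agent.Q261.RotDefs

/-!
# Lengths of continued fractions and Jacobi symbols: the reversal argument
-/

set_option autoImplicit false

namespace Q261.Rot

open Finset

/-! ### Existence and uniqueness of the expansion -/

/-- positive partial quotients, the last one `> 1` -/
def Valid (l : List ℕ) : Prop := (∀ c ∈ l, 1 ≤ c) ∧ ∃ h : l ≠ [], 1 < l.getLast h

theorem valid_tail {c d : ℕ} {l : List ℕ} (h : Valid (c :: d :: l)) : Valid (d :: l) := by
  refine ⟨fun x hx => h.1 x (List.mem_cons_of_mem _ hx), by simp, ?_⟩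
  obtain ⟨_, h2⟩ := h.2
  rwa [List.getLast_cons (by simp)] at h2

theorem one_lt_cfVal (l : List ℕ) (h : Valid l) : 1 < cfVal l := by
  induction l with
  | nil => exact absurd rfl h.2.1
  | cons c l ih =>
    cases l with
    | nil =>
      obtain ⟨_, h2⟩ := h.2
      simp only [List.getLast_singleton] at h2
      simp only [cfVal]
      exact_mod_cast h2
    | cons d l =>
      have h1 := ih (valid_tail h)
      have h2 : (1 : ℚ) ≤ c := by exact_mod_cast h.1 c List.mem_cons_self
      simp only [cfVal]
      have : (0 : ℚ) < 1 / cfVal (d :: l) := by positivity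
      linarith

theorem cfVal_inj (l : List ℕ) : ∀ l' : List ℕ, Valid l → Valid l' → cfVal l = cfVal l' → l = l' := by
  have key : ∀ (c c' : ℕ) (x y : ℚ), 0 ≤ x → x < 1 → 0 ≤ y → y < 1 → (c : ℚ) + x = c' + y →
      c = c' := by
    intro c c' x y hx hx1 hy hy1 h
    have h1 : (c : ℚ) < c' + 1 := by linarith
    have h2 : (c' : ℚ) < c + 1 := by linarith
    have h1' : c < c' + 1 := by exact_mod_cast h1
    have h2' : c' < c + 1 := by exact_mod_cast h2
    omega
  induction l with
  | nil => intro l' h _ _; exact absurd rfl h.2.1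
  | cons c l ih =>
    intro l' h h' e
    cases l with
    | nil =>
      cases l' with
      | nil => exact absurd rfl h'.2.1
      | cons c' l' =>
        cases l' with
        | nil =>
          simp only [cfVal] at e
          have : c = c' := by exact_mod_cast e
          rw [this]
        | cons d' t' =>
          exfalso
          have h1 := one_lt_cfVal _ (valid_tail h')
          have h2 : (0 : ℚ) < 1 / cfVal (d' :: t') := by positivity
          have h3 : 1 / cfVal (d' :: t') < 1 := by
            rw [div_lt_one (by linarith)]; exact h1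
          simp only [cfVal] at e
          have h4 := key c c' 0 (1 / cfVal (d' :: t')) le_rfl (by norm_num) h2.le h3 (by rw [← e]; ring)
          rw [h4] at e
          linarith
    | cons d t =>
      have h1 := one_lt_cfVal _ (valid_tail h)
      have h2 : (0 : ℚ) < 1 / cfVal (d :: t) := by positivity
      have h3 : 1 / cfVal (d :: t) < 1 := by
        rw [div_lt_one (by linarith)]; exact h1
      cases l' with
      | nil => exact absurd rfl h'.2.1
      | cons c' l' =>
        cases l' with
        | nil =>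
          exfalso
          simp only [cfVal] at e
          have h4 := key c c' (1 / cfVal (d :: t)) 0 h2.le h3 le_rfl (by norm_num) (by rw [e]; ring)
          rw [h4] at e
          linarith
        | cons d' t' =>
          have h1' := one_lt_cfVal _ (valid_tail h')
          have h2' : (0 : ℚ) < 1 / cfVal (d' :: t') := by positivity
          have h3' : 1 / cfVal (d' :: t') < 1 := by
            rw [div_lt_one (by linarith)]; exact h1'
          simp only [cfVal] at e
          have h4 := key c c' _ _ h2.le h3 h2'.le h3' e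
          subst h4
          have h5 : 1 / cfVal (d :: t) = 1 / cfVal (d' :: t') := by linarith
          have h6 : cfVal (d :: t) = cfVal (d' :: t') := by
            have := congrArg (fun x => 1 / x) h5
            simpa using this
          rw [ih _ (valid_tail h) (valid_tail h') h6]

theorem exists_expansion : ∀ n p : ℕ, 0 < n → n < p → ∃ l, IsExpansion p n l := by
  intro n
  induction n using Nat.strong_induction_on with
  | _ n ih =>
    intro p hn hp
    have hn' : (n : ℚ) ≠ 0 := by exact_mod_cast hn.ne'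
    have hdm := Nat.div_add_mod p n
    have hq1 : 1 ≤ p / n := (Nat.one_le_div_iff hn).2 hp.le
    rcases Nat.eq_zero_or_pos (p % n) with h0 | h0
    · refine ⟨[p / n], ?_, ⟨by simp, ?_⟩, ?_⟩
      · intro c hc
        rw [List.mem_singleton] at hc
        rw [hc]; exact hq1
      · simp only [List.getLast_singleton]
        by_contra h
        have h1 : p / n = 1 := by omega
        rw [h1, h0] at hdm
        omega
      · simp only [cfVal]
        rw [eq_div_iff hn']
        have : n * (p / n) = p := by omega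
        exact_mod_cast (by rw [mul_comm]; exact this : p / n * n = p)
    · have hlt : p % n < n := Nat.mod_lt _ hn
      obtain ⟨l, h1, ⟨h2, h3⟩, h4⟩ := ih (p % n) hlt n h0 hlt
      obtain ⟨d, t, rfl⟩ := List.exists_cons_of_ne_nil h2
      refine ⟨(p / n) :: d :: t, ?_, ⟨by simp, ?_⟩, ?_⟩
      · intro c hc
        rw [List.mem_cons] at hc
        rcases hc with rfl | hc
        · exact hq1
        · exact h1 c hc
      · rwa [List.getLast_cons (by simp)]
      · simp only [cfVal]
        rw [h4]
        have h5 : ((p % n : ℕ) : ℚ) ≠ 0 := by exact_mod_cast h0.ne'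
        have h6 : (p : ℚ) = n * ((p / n : ℕ) : ℚ) + ((p % n : ℕ) : ℚ) := by exact_mod_cast hdm.symm
        rw [one_div_div, eq_div_iff hn', h6]
        field_simp
        
theorem existsUnique_expansion (n p : ℕ) (hn : 0 < n) (hp : n < p) : ∃! l, IsExpansion p n l := by
  obtain ⟨l, hl⟩ := exists_expansion n p hn hp
  refine ⟨l, hl, ?_⟩
  intro l' hl'
  exact cfVal_inj l' l ⟨hl'.1, hl'.2.1⟩ ⟨hl.1, hl.2.1⟩ (hl'.2.2.trans hl.2.2.symm)

/-! ### The reversal -/

theorem reversal (l : List ℕ) : ∀ p n : ℕ, 0 < n → Nat.Coprime n p → IsExpansion p n l →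
    ∃ n' m : ℕ, 1 ≤ n' ∧ 2 * n' ≤ p ∧ 2 * m ≤ n ∧
      (n : ℤ) * n' = p * m + (-1) ^ (l.length + 1) := by
  induction l with
  | nil => intro p n _ _ h; exact absurd rfl h.2.1.1
  | cons c l ih =>
    intro p n hn hco hexp
    have hn' : (n : ℚ) ≠ 0 := by exact_mod_cast hn.ne'
    have hval := one_lt_cfVal _ ⟨hexp.1, hexp.2.1⟩
    have hnp : n < p := by
      rw [hexp.2.2, one_lt_div (by positivity)] at hval
      exact_mod_cast hval
    cases l with
    | nil =>
      obtain ⟨_, h2⟩ := hexp.2.1
      simp only [List.getLast_singleton] at h2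
      have h3 := hexp.2.2
      simp only [cfVal] at h3
      rw [eq_div_iff hn'] at h3
      have h4 : c * n = p := by exact_mod_cast h3
      have h5 : n = 1 := by
        have : n ∣ p := ⟨c, by rw [← h4, mul_comm]⟩
        exact Nat.Coprime.eq_one_of_dvd hco this
      subst h5
      refine ⟨1, 0, le_rfl, by omega, by omega, ?_⟩
      simp
    | cons d t =>
      have hv' := one_lt_cfVal _ (valid_tail ⟨hexp.1, hexp.2.1⟩)
      have h3 := hexp.2.2
      simp only [cfVal] at h3
      set v := cfVal (d :: t) with hv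
      -- the remainder
      have h4 : (p : ℚ) = c * n + n / v := by
        rw [eq_div_iff hn'] at h3
        rw [← h3]; ring
      have hvpos : 0 < v := by linarith
      have hcn : c * n < p := by
        have h5 : (0 : ℚ) < n / v := by positivity
        have h6 : (c : ℚ) * n < p := by linarith
        exact_mod_cast h6
      obtain ⟨r, hr⟩ : ∃ r : ℕ, p = c * n + r := ⟨p - c * n, by omega⟩
      have hr0 : 0 < r := by omega
      have hrv : (r : ℚ) = n / v := by
        have : (p : ℚ) = c * n + r := by exact_mod_cast hr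
        linarith
      have hrn : r < n := by
        have h5 : (r : ℚ) < n := by
          rw [hrv, div_lt_iff₀ hvpos]
          have : (0 : ℚ) < n := by positivity
          nlinarith
        exact_mod_cast h5
      have hr' : (r : ℚ) ≠ 0 := by exact_mod_cast hr0.ne'
      have hexp' : IsExpansion n r (d :: t) := by
        have h5 := valid_tail ⟨hexp.1, hexp.2.1⟩
        refine ⟨h5.1, h5.2, ?_⟩
        rw [← hv, hrv]
        field_simp
      have hco' : Nat.Coprime r n := by
        rw [hr] at hco
        have : Nat.Coprime n r := by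
          have h5 : n.gcd (c * n + r) = n.gcd r := by simp
          rw [Nat.coprime_iff_gcd_eq_one, ← h5]
          exact hco
        exact this.symm
      obtain ⟨r', m', h1, h2, h2m, h5⟩ := ih n r hr0 hco' hexp'
      -- r r' = n m' + ε'
      have hlen : (-1 : ℤ) ^ ((c :: d :: t).length + 1) = -(-1) ^ ((d :: t).length + 1) := by
        rw [List.length_cons, pow_succ (-1 : ℤ) ((d :: t).length + 1)]
        ring
      set ε' : ℤ := (-1) ^ ((d :: t).length + 1) with hε'
      have hε1 : ε' = 1 ∨ ε' = -1 := neg_one_pow_eq_or ℤ _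
      refine ⟨c * r' + m', r', ?_, ?_, h2, ?_⟩
      · have hc1 : 1 ≤ c := hexp.1 c List.mem_cons_self
        nlinarith
      · -- 2 n' ≤ p
        have h6 : (n : ℤ) * (c * r' + m') = p * r' - ε' := by
          have : (p : ℤ) = c * n + r := by exact_mod_cast hr
          rw [this]
          linear_combination -h5
        rcases Nat.lt_or_ge (2 * r') n with h7 | h7
        · have h8 : (2 * r' + 1 : ℤ) ≤ n := by exact_mod_cast h7
          have hp2 : (2 : ℤ) ≤ p := by
            have : 2 ≤ p := by omega
            exact_mod_cast this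
          have h9 : (n : ℤ) * (2 * (c * r' + m')) ≤ n * p := by
            rcases hε1 with h | h <;> rw [h] at h6 <;> nlinarith
          have h10 : (2 * (c * r' + m') : ℤ) ≤ p := by
            have hn0 : (0 : ℤ) < n := by exact_mod_cast hn
            exact le_of_mul_le_mul_left h9 hn0
          exact_mod_cast h10
        · have h8 : 2 * r' = n := by omega
          -- r' divides n and ε', so r' = 1
          have h9 : (r' : ℤ) ∣ ε' := by
            have : ε' = r' * (r - 2 * m') := by
              have h10 : (n : ℤ) = 2 * r' := by exact_mod_cast h8.symm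
              rw [h10] at h5
              linear_combination -h5
            exact ⟨_, this⟩
          have h10 : r' = 1 := by
            have h11 : (r' : ℤ) ∣ 1 := by
              rcases hε1 with h | h
              · rwa [h] at h9
              · rw [h] at h9; exact (Int.dvd_neg).1 h9
            have := Int.natAbs_dvd_natAbs.2 h11
            simpa using this
          subst h10
          have h12 : n = 2 := by omega
          subst h12
          have h13 : r = 1 := by omega
          subst h13
          have h14 : m' = 0 := by omega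
          subst h14
          have h15 : ε' = 1 := by
            push_cast at h5
            linarith
          rw [h15] at h6
          push_cast at h6
          have h16 : (2 : ℤ) * (c * 1 + 0) ≤ p := by linarith
          omega
      · rw [hlen]
        push_cast
        have : (p : ℤ) = c * n + r := by exact_mod_cast hr
        rw [this]
        linear_combination -h5

/-! ### The parity of the length in terms of the inverse -/

/-- the inverse of `n` modulo `p` in `[0, p)` -/
def inv (p n : ℕ) : ℕ := ((n : ZMod p)⁻¹).val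

/-- `1` if `b < p / 2` and `-1` otherwise -/
def sg (p b : ℕ) : ℤ := if 2 * b < p then 1 else -1

theorem inv_eq {p n b : ℕ} (hp : 1 < p) (hb : b < p) (h : (n : ZMod p) * b = 1) : inv p n = b := by
  have : NeZero p := ⟨by omega⟩
  unfold inv
  have h1 : (n : ZMod p)⁻¹ = b := by
    have hu : IsUnit (n : ZMod p) := IsUnit.of_mul_eq_one _ h
    have h2 : (n : ZMod p)⁻¹ * (n : ZMod p) = 1 := by
      rw [mul_comm]; exact ZMod.mul_inv_of_unit _ hu
    calc (n : ZMod p)⁻¹ = (n : ZMod p)⁻¹ * ((n : ZMod p) * b) := by rw [h, mul_one]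
      _ = b := by rw [← mul_assoc, h2, one_mul]
  rw [h1, ZMod.val_cast_of_lt hb]

theorem parity {p n : ℕ} (hp : 1 < p) (hodd : Odd p) (hn : 0 < n) (hco : Nat.Coprime n p)
    {l : List ℕ} (hl : IsExpansion p n l) : (-1 : ℤ) ^ (l.length + 1) = sg p (inv p n) := by
  obtain ⟨n', m, h1, h2, -, h3⟩ := reversal l p n hn hco hl
  have h2' : 2 * n' < p := by
    rcases Nat.lt_or_ge (2 * n') p with h | h
    · exact h
    · exfalso
      have : p = 2 * n' := by omega
      rw [this] at hodd
      exact (Nat.not_odd_iff_even.2 ⟨n', by ring⟩) hodd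
  have h4 : (n : ZMod p) * n' = (((-1) ^ (l.length + 1) : ℤ) : ZMod p) := by
    have := congrArg (fun z : ℤ => (z : ZMod p)) h3
    simp only [Int.cast_mul, Int.cast_natCast, Int.cast_add, CharP.cast_eq_zero, zero_mul,
      zero_add] at this
    exact this
  rcases neg_one_pow_eq_or ℤ (l.length + 1) with h | h
  · rw [h] at h4 ⊢
    rw [inv_eq (b := n') hp (by omega) (by rw [h4]; simp), sg, if_pos h2']
  · rw [h] at h4 ⊢
    have h5 : inv p n = p - n' := by
      apply inv_eq hp (by omega)
      rw [Nat.cast_sub (by omega), ZMod.natCast_self, zero_sub, mul_neg, h4]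
      simp
    rw [h5, sg, if_neg (by omega)]

/-! ### The counts -/

/-- the units -/
def U (p : ℕ) : Finset ℕ := (range p).filter (fun n => Nat.Coprime n p)

theorem card_U (p : ℕ) : (U p).card = Nat.totient p := by
  rw [U, Nat.totient]
  congr 1
  apply filter_congr
  intro n _
  exact Nat.coprime_comm

theorem mem_U {p n : ℕ} : n ∈ U p ↔ n < p ∧ Nat.Coprime n p := by
  rw [U, mem_filter, mem_range]

theorem U_pos {p n : ℕ} (hp : 1 < p) (h : n ∈ U p) : 0 < n := by
  rw [mem_U] at h
  rcases Nat.eq_zero_or_pos n with rfl | h0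
  · have := h.2
    rw [Nat.coprime_zero_left] at this
    omega
  · exact h0

theorem js_sq {p n : ℕ} (h : Nat.Coprime n p) : jacobiSym (n : ℤ) p = 1 ∨ jacobiSym (n : ℤ) p = -1 := by
  apply jacobiSym.eq_one_or_neg_one
  rwa [Int.gcd_natCast_natCast]

theorem M_eq {p : ℕ} (hp : 1 < p) (hodd : Odd p) :
    M p = ((U p).filter (fun n => jacobiSym (n : ℤ) p * sg p (inv p n) = -1) : Finset ℕ) := by
  ext n
  simp only [M, Set.mem_ofPred_eq, coe_filter]
  constructor
  · rintro ⟨h0, h1, l, hl, hj⟩
    have hco : Nat.Coprime n p := by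
      by_contra hc
      have : jacobiSym (n : ℤ) p = 0 := by
        have : NeZero p := ⟨by omega⟩
        rw [jacobiSym.eq_zero_iff_not_coprime, Int.gcd_natCast_natCast]
        exact hc
      rw [this] at hj
      rcases neg_one_pow_eq_or ℤ l.length with h | h <;> rw [h] at hj <;> norm_num at hj
    refine ⟨mem_U.2 ⟨h1, hco⟩, ?_⟩
    rw [← parity hp hodd h0 hco hl, hj, ← pow_add]
    apply Odd.neg_one_pow
    exact ⟨l.length, by ring⟩
  · rintro ⟨h1, h2⟩
    have h0 := U_pos hp h1
    rw [mem_U] at h1
    obtain ⟨l, hl⟩ := exists_expansion n p h0 h1.1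
    refine ⟨h0, h1.1, l, hl, ?_⟩
    rw [← parity hp hodd h0 h1.2 hl, pow_succ] at h2
    rcases neg_one_pow_eq_or ℤ l.length with h | h <;> rw [h] at h2 ⊢ <;> linarith

theorem Mbar_eq {p : ℕ} (hp : 1 < p) (hodd : Odd p) :
    Mbar p = ((U p).filter (fun n => jacobiSym (n : ℤ) p * sg p (inv p n) = 1) : Finset ℕ) := by
  ext n
  simp only [Mbar, Set.mem_ofPred_eq, coe_filter]
  constructor
  · rintro ⟨h0, h1, l, hl, hj⟩
    have hco : Nat.Coprime n p := by
      by_contra hc
      have : jacobiSym (n : ℤ) p = 0 := by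
        have : NeZero p := ⟨by omega⟩
        rw [jacobiSym.eq_zero_iff_not_coprime, Int.gcd_natCast_natCast]
        exact hc
      rw [this] at hj
      rcases neg_one_pow_eq_or ℤ (l.length + 1) with h | h <;> rw [h] at hj <;> norm_num at hj
    refine ⟨mem_U.2 ⟨h1, hco⟩, ?_⟩
    rw [← parity hp hodd h0 hco hl, hj, ← pow_add]
    apply Even.neg_one_pow
    exact ⟨l.length + 1, by ring⟩
  · rintro ⟨h1, h2⟩
    have h0 := U_pos hp h1
    rw [mem_U] at h1
    obtain ⟨l, hl⟩ := exists_expansion n p h0 h1.1
    refine ⟨h0, h1.1, l, hl, ?_⟩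
    rw [← parity hp hodd h0 h1.2 hl] at h2
    rcases neg_one_pow_eq_or ℤ (l.length + 1) with h | h <;> rw [h] at h2 ⊢ <;> linarith

theorem sg_sq (p b : ℕ) : sg p b = 1 ∨ sg p b = -1 := by
  unfold sg
  split_ifs
  · exact Or.inl rfl
  · exact Or.inr rfl

theorem prod_sq {p n : ℕ} (h : Nat.Coprime n p) :
    jacobiSym (n : ℤ) p * sg p (inv p n) = 1 ∨ jacobiSym (n : ℤ) p * sg p (inv p n) = -1 := by
  rcases js_sq h with h1 | h1 <;> rcases sg_sq p (inv p n) with h2 | h2 <;> rw [h1, h2] <;> norm_num

theorem N_add_Nbar {p : ℕ} (hp : 1 < p) (hodd : Odd p) : N p + Nbar p = Nat.totient p := by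
  rw [N, Nbar, M_eq hp hodd, Mbar_eq hp hodd, Set.ncard_coe_finset, Set.ncard_coe_finset, ← card_U,
    ← card_union_of_disjoint]
  · congr 1
    ext n
    rw [mem_union, mem_filter, mem_filter]
    constructor
    · rintro (h | h) <;> exact h.1
    · intro h
      rcases prod_sq (mem_U.1 h).2 with h1 | h1
      · exact Or.inr ⟨h, h1⟩
      · exact Or.inl ⟨h, h1⟩
  · rw [disjoint_left]
    intro n h1 h2
    rw [mem_filter] at h1 h2
    rw [h1.2] at h2
    norm_num at h2

theorem Nbar_sub_N {p : ℕ} (hp : 1 < p) (hodd : Odd p) :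
    (Nbar p : ℤ) - N p = ∑ n ∈ U p, jacobiSym (n : ℤ) p * sg p (inv p n) := by
  rw [N, Nbar, M_eq hp hodd, Mbar_eq hp hodd, Set.ncard_coe_finset, Set.ncard_coe_finset,
    card_filter, card_filter]
  push_cast
  rw [← sum_sub_distrib]
  apply sum_congr rfl
  intro n hn
  rcases prod_sq (mem_U.1 hn).2 with h1 | h1 <;> rw [h1] <;> norm_num

theorem inv_mem {p n : ℕ} (hp : 1 < p) (h : n ∈ U p) : inv p n ∈ U p := by
  have : NeZero p := ⟨by omega⟩
  rw [mem_U] at h ⊢
  refine ⟨ZMod.val_lt _, ?_⟩
  have h1 : IsUnit ((n : ZMod p)⁻¹) := by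
    have hu : IsUnit (n : ZMod p) := (ZMod.isUnit_iff_coprime n p).2 h.2
    exact IsUnit.of_mul_eq_one (n : ZMod p) (by rw [mul_comm]; exact ZMod.mul_inv_of_unit _ hu)
  rw [← ZMod.isUnit_iff_coprime]
  unfold inv
  rwa [ZMod.natCast_zmod_val]

theorem mul_inv {p n : ℕ} (hp : 1 < p) (h : n ∈ U p) : (n : ZMod p) * (inv p n : ℕ) = 1 := by
  have : NeZero p := ⟨by omega⟩
  rw [mem_U] at h
  unfold inv
  rw [ZMod.natCast_zmod_val]
  exact ZMod.mul_inv_of_unit _ ((ZMod.isUnit_iff_coprime n p).2 h.2)

theorem inv_inv {p n : ℕ} (hp : 1 < p) (h : n ∈ U p) : inv p (inv p n) = n := by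
  apply inv_eq hp (mem_U.1 h).1
  rw [mul_comm]; exact mul_inv hp h

theorem js_inv {p n : ℕ} (hp : 1 < p) (h : n ∈ U p) :
    jacobiSym (inv p n : ℕ) p = jacobiSym (n : ℤ) p := by
  have h1 := mul_inv hp h
  have h2 : jacobiSym ((n : ℤ) * (inv p n : ℕ)) p = 1 := by
    have h3 : ((n * inv p n : ℕ) : ZMod p) = ((1 : ℕ) : ZMod p) := by push_cast; rw [h1]
    rw [ZMod.natCast_eq_natCast_iff'] at h3
    rw [jacobiSym.mod_left]
    have h4 : ((n : ℤ) * (inv p n : ℕ)) % (p : ℤ) = 1 % (p : ℤ) := by exact_mod_cast h3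
    rw [h4, ← jacobiSym.mod_left, jacobiSym.one_left]
  rw [jacobiSym.mul_left] at h2
  rcases js_sq (mem_U.1 h).2 with h3 | h3 <;> rw [h3] at h2 ⊢ <;> linarith

theorem sum_inv {p : ℕ} (hp : 1 < p) :
    ∑ n ∈ U p, jacobiSym (n : ℤ) p * sg p (inv p n) = ∑ b ∈ U p, jacobiSym (b : ℤ) p * sg p b := by
  refine sum_bij' (fun n _ => inv p n) (fun n _ => inv p n) ?_ ?_ ?_ ?_ ?_
  · intro n hn; exact inv_mem hp hn
  · intro n hn; exact inv_mem hp hn
  · intro n hn; exact inv_inv hp hn
  · intro n hn; exact inv_inv hp hn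
  · intro n hn
    rw [js_inv hp hn]

/-- the sum of the Jacobi symbols over `0 < b < p / 2` -/
def S (p : ℕ) : ℤ := ∑ b ∈ Icc 1 ((p - 1) / 2), jacobiSym (b : ℤ) p

theorem js_neg {p b : ℕ} (hb : b ≤ p) (_hodd : Odd p) :
    jacobiSym ((p - b : ℕ) : ℤ) p = jacobiSym (-1) p * jacobiSym (b : ℤ) p := by
  rw [← jacobiSym.mul_left, jacobiSym.mod_left ((p - b : ℕ) : ℤ), jacobiSym.mod_left (-1 * (b : ℤ))]
  congr 1
  rw [Nat.cast_sub hb]
  have : (p : ℤ) - b = -1 * b + p * 1 := by ring
  rw [this, Int.add_mul_emod_self_left]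

theorem sum_sg {p : ℕ} (hp : 1 < p) (hodd : Odd p) :
    ∑ b ∈ U p, jacobiSym (b : ℤ) p * sg p b = (1 - jacobiSym (-1) p) * S p := by
  have : NeZero p := ⟨by omega⟩
  have h1 : ∑ b ∈ U p, jacobiSym (b : ℤ) p * sg p b =
      ∑ b ∈ range p, jacobiSym (b : ℤ) p * sg p b := by
    rw [U, sum_filter]
    apply sum_congr rfl
    intro b _
    split_ifs with h
    · rfl
    · have : jacobiSym (b : ℤ) p = 0 := by
        rw [jacobiSym.eq_zero_iff_not_coprime, Int.gcd_natCast_natCast]
        exact h
      rw [this, zero_mul]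
  rw [h1]
  obtain ⟨k, hk⟩ := hodd
  have hk2 : (p - 1) / 2 = k := by omega
  have hodd' : Odd p := ⟨k, hk⟩
  have h2 : range p = {0} ∪ (Icc 1 k ∪ Icc (k + 1) (2 * k)) := by
    ext b
    simp only [mem_range, mem_union, mem_singleton, mem_Icc]
    omega
  have h00 : jacobiSym ((0 : ℕ) : ℤ) p = 0 := by
    rw [jacobiSym.eq_zero_iff_not_coprime, Int.gcd_natCast_natCast]
    simp only [Nat.gcd_zero_left]
    omega
  rw [h2, sum_union, sum_union, sum_singleton, h00, zero_mul, zero_add]
  · have h3 : ∑ b ∈ Icc 1 k, jacobiSym (b : ℤ) p * sg p b = S p := by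
      rw [S, hk2]
      apply sum_congr rfl
      intro b hb
      rw [mem_Icc] at hb
      rw [sg, if_pos (by omega), mul_one]
    have h4 : ∑ b ∈ Icc (k + 1) (2 * k), jacobiSym (b : ℤ) p * sg p b =
        -(jacobiSym (-1) p * S p) := by
      rw [S, hk2, mul_sum, ← sum_neg_distrib]
      refine sum_bij' (fun b _ => p - b) (fun b _ => p - b) ?_ ?_ ?_ ?_ ?_
      · intro b hb; rw [mem_Icc] at hb ⊢; omega
      · intro b hb; rw [mem_Icc] at hb ⊢; omega
      · intro b hb; rw [mem_Icc] at hb; omega
      · intro b hb; rw [mem_Icc] at hb; omega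
      · intro b hb
        rw [mem_Icc] at hb
        have h5 : jacobiSym (b : ℤ) p = jacobiSym (-1) p * jacobiSym ((p - b : ℕ) : ℤ) p := by
          have h6 := js_neg (p := p) (b := p - b) (by omega) hodd'
          have h7 : p - (p - b) = b := by omega
          rw [h7] at h6
          exact h6
        rw [sg, if_neg (by omega), h5]
        ring
    rw [h3, h4]
    ring
  · rw [disjoint_left]
    intro b hb hb'
    rw [mem_Icc] at hb hb'
    omega
  · rw [disjoint_left]
    intro b hb hb'
    rw [mem_singleton] at hb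
    rw [mem_union, mem_Icc, mem_Icc] at hb'
    omega

/-- **the difference of the two counts** -/
theorem diff {p : ℕ} (hp : 1 < p) (hodd : Odd p) :
    (Nbar p : ℤ) - N p = (1 - jacobiSym (-1) p) * S p := by
  rw [Nbar_sub_N hp hodd, sum_inv hp, sum_sg hp hodd]

theorem js_neg_one_of_one {p : ℕ} (h : p % 4 = 1) : jacobiSym (-1) p = 1 := by
  rw [jacobiSym.at_neg_one (by rw [Nat.odd_iff]; omega), ZMod.χ₄_nat_one_mod_four h]

theorem js_neg_one_of_three {p : ℕ} (h : p % 4 = 3) : jacobiSym (-1) p = -1 := by
  rw [jacobiSym.at_neg_one (by rw [Nat.odd_iff]; omega), ZMod.χ₄_nat_three_mod_four h]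

theorem diff_one {p : ℕ} (hp : 1 < p) (h : p % 4 = 1) : Nbar p = N p := by
  have := diff hp (by rw [Nat.odd_iff]; omega)
  rw [js_neg_one_of_one h] at this
  have h2 : (Nbar p : ℤ) = N p := by linarith
  exact_mod_cast h2

theorem diff_three {p : ℕ} (hp : 1 < p) (h : p % 4 = 3) : (Nbar p : ℤ) - N p = 2 * S p := by
  rw [diff hp (by rw [Nat.odd_iff]; omega), js_neg_one_of_three h]
  ring

end Q261.Rot
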