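import Pool.Agent.Q261.RotCore
import Pool.Agent.H568.SP.Moment

/-!
# The ratio of the counts tends to one
-/

set_option autoImplicit false

namespace Q261.Rot

open Finset Filter Topology

lemma prod_one_sub_ge (S : Finset ℕ) : (∀ x ∈ S, 2 ≤ x) →
    1 / ((S.card : ℝ) + 1) ≤ ∏ x ∈ S, (1 - 1 / (x : ℝ)) := by
  induction S using Finset.induction_on_max with
  | empty => intro _; simp
  | insert a s has ih =>
    intro h
    have h1 := ih (fun x hx => h x (mem_insert_of_mem hx))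
    have ha : a ∉ s := fun hmem => lt_irrefl a (has a hmem)
    rw [prod_insert ha, card_insert_of_notMem ha]
    have h2 : s ⊆ Ico 2 a := fun x hx => by
      rw [mem_Ico]
      exact ⟨h x (mem_insert_of_mem hx), has x hx⟩
    have h3 := card_le_card h2
    rw [Nat.card_Ico] at h3
    have h4 : 2 ≤ a := h a (mem_insert_self _ _)
    have h5 : s.card + 2 ≤ a := by omega
    have h6 : ((s.card : ℝ) + 2) ≤ a := by exact_mod_cast h5
    have h7 : ((s.card : ℝ) + 1) / ((s.card : ℝ) + 2) ≤ 1 - 1 / (a : ℝ) := by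
      have h8 : (1 : ℝ) / a ≤ 1 / ((s.card : ℝ) + 2) := one_div_le_one_div_of_le (by positivity) h6
      have h9 : ((s.card : ℝ) + 1) / ((s.card : ℝ) + 2) = 1 - 1 / ((s.card : ℝ) + 2) := by
        field_simp
        ring
      rw [h9]
      linarith
    push_cast
    calc 1 / ((s.card : ℝ) + 1 + 1) =
        ((s.card : ℝ) + 1) / ((s.card : ℝ) + 2) * (1 / ((s.card : ℝ) + 1)) := by
          field_simp
          ring
      _ ≤ _ := mul_le_mul h7 h1 (by positivity) (le_trans (by positivity) h7)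

/-- lower bound for the totient -/
lemma phi_low (n : ℕ) (hn : 1 ≤ n) : (n : ℝ) ≤ Nat.totient n * (1 + 2 * Real.log n) := by
  have hn0 : (0 : ℝ) < n := by exact_mod_cast hn
  have h1 := prod_one_sub_ge n.primeFactors (fun x hx => (Nat.prime_of_mem_primeFactors hx).two_le)
  have h2 : (Nat.totient n : ℝ) = n * ∏ p ∈ n.primeFactors, (1 - 1 / (p : ℝ)) := by
    have h := Nat.totient_eq_mul_prod_factors n
    have h' : ((Nat.totient n : ℚ) : ℝ) = ((n * ∏ p ∈ n.primeFactors, (1 - (p : ℚ)⁻¹) : ℚ) : ℝ) := by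
      rw [h]
    push_cast at h'
    rw [h']
    congr 1
    refine prod_congr rfl fun p _ => ?_
    rw [one_div]
  have h3 : (n.primeFactors.card : ℝ) ≤ 2 * Real.log n := by
    have h4 : 2 ^ n.primeFactors.card ≤ n := by
      calc 2 ^ n.primeFactors.card = ∏ p ∈ n.primeFactors, 2 := by rw [prod_const]
        _ ≤ ∏ p ∈ n.primeFactors, p :=
            prod_le_prod' fun p hp => (Nat.prime_of_mem_primeFactors hp).two_le
        _ ≤ n := Nat.le_of_dvd hn (Nat.prod_primeFactors_dvd n)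
    have h5 : (n.primeFactors.card : ℝ) * Real.log 2 ≤ Real.log n := by
      rw [← Real.log_pow]
      exact Real.log_le_log (by positivity) (by exact_mod_cast h4)
    have h6 := Real.log_two_gt_d9
    have h7 : (0 : ℝ) ≤ n.primeFactors.card := Nat.cast_nonneg _
    nlinarith
  have h4 : (1 : ℝ) ≤ (∏ p ∈ n.primeFactors, (1 - 1 / (p : ℝ))) *
      ((n.primeFactors.card : ℝ) + 1) := by
    rw [div_le_iff₀ (by positivity)] at h1
    exact h1
  have h5 : 0 ≤ ∏ p ∈ n.primeFactors, (1 - 1 / (p : ℝ)) := le_trans (by positivity) h1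
  rw [h2]
  calc (n : ℝ) = n * 1 := (mul_one _).symm
    _ ≤ n * ((∏ p ∈ n.primeFactors, (1 - 1 / (p : ℝ))) * ((n.primeFactors.card : ℝ) + 1)) :=
        mul_le_mul_of_nonneg_left h4 hn0.le
    _ ≤ n * ((∏ p ∈ n.primeFactors, (1 - 1 / (p : ℝ))) * (1 + 2 * Real.log n)) := by
        refine mul_le_mul_of_nonneg_left (mul_le_mul_of_nonneg_left ?_ h5) hn0.le
        linarith
    _ = _ := by ring

/-- the bound for the difference -/
theorem diff_le {p : ℕ} (hp : 1 < p) (hodd : Odd p) :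
    |(Nbar p : ℝ) - N p| ≤ 8 * Real.sqrt p * (1 + Real.log p) := by
  have hp1 : (1 : ℝ) ≤ p := by exact_mod_cast hp.le
  have hlog := Real.log_nonneg hp1
  rcases Nat.odd_mod_four_iff.1 (Nat.odd_iff.1 hodd) with h | h
  · rw [diff_one hp h, sub_self, abs_zero]
    positivity
  · have h1 := diff_three hp h
    have h2 : (Nbar p : ℝ) - N p = 2 * (S p : ℝ) := by exact_mod_cast h1
    have h3 := Pool.Agent.H568.SP.jac_sum_le p (by omega) ⟨p - 1, by
      have h4 := js_neg (p := p) (b := 1) (by omega) hodd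
      rw [h4, js_neg_one_of_three h]
      simp⟩ ((p - 1) / 2)
    have h5 : (S p : ℝ) = ∑ n ∈ Icc 1 ((p - 1) / 2), ((jacobiSym (n : ℤ) p : ℤ) : ℝ) := by
      rw [S]; push_cast; rfl
    rw [h2, h5, abs_mul, abs_two]
    linarith

theorem key {p : ℕ} (hp : 1 < p) (hodd : Odd p) :
    |(Nbar p : ℝ) - N p| ≤ 1224 * (p : ℝ) ^ (-(1 / 4) : ℝ) * (N p + Nbar p) := by
  have hp1 : (1 : ℝ) ≤ p := by exact_mod_cast hp.le
  have hp0 : (0 : ℝ) < p := by linarith
  have h1 := diff_le hp hodd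
  have h2 := phi_low p hp.le
  have h3 : ((N p : ℝ) + Nbar p) = Nat.totient p := by exact_mod_cast N_add_Nbar hp hodd
  have hlog := Real.log_nonneg hp1
  have h4 : Real.log p ≤ 8 * (p : ℝ) ^ (1 / 8 : ℝ) := by
    have := Real.log_le_rpow_div hp0.le (show (0 : ℝ) < 1 / 8 by norm_num)
    linarith
  have h5 : (1 : ℝ) ≤ (p : ℝ) ^ (1 / 8 : ℝ) := Real.one_le_rpow hp1 (by norm_num)
  set x := (p : ℝ) ^ (1 / 8 : ℝ) with hx
  have h6 : Real.sqrt p = x ^ 4 := by
    rw [Real.sqrt_eq_rpow, hx, ← Real.rpow_natCast, ← Real.rpow_mul hp0.le]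
    norm_num
  have h7 : (p : ℝ) = x ^ 8 := by
    rw [hx, ← Real.rpow_natCast, ← Real.rpow_mul hp0.le]
    norm_num
  have h8 : (p : ℝ) ^ (-(1 / 4) : ℝ) = (x ^ 2)⁻¹ := by
    rw [Real.rpow_neg hp0.le, hx, ← Real.rpow_natCast, ← Real.rpow_mul hp0.le]
    norm_num
  rw [h3, h8]
  have hx0 : 0 < x := by linarith
  have h9 : |(Nbar p : ℝ) - N p| ≤ 72 * x ^ 5 := by
    refine h1.trans ?_
    rw [h6]
    have : 1 + Real.log p ≤ 9 * x := by linarith
    calc 8 * x ^ 4 * (1 + Real.log p) ≤ 8 * x ^ 4 * (9 * x) :=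
          mul_le_mul_of_nonneg_left this (by positivity)
      _ = 72 * x ^ 5 := by ring
  have h10 : x ^ 8 ≤ Nat.totient p * (17 * x) := by
    rw [← h7]
    refine h2.trans (mul_le_mul_of_nonneg_left (by linarith) (Nat.cast_nonneg _))
  have h11 : x ^ 7 ≤ 17 * Nat.totient p := by
    have : x ^ 7 * x ≤ 17 * Nat.totient p * x := by
      calc x ^ 7 * x = x ^ 8 := by ring
        _ ≤ _ := h10
        _ = _ := by ring
    exact le_of_mul_le_mul_right this hx0
  refine h9.trans ?_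
  rw [mul_assoc, inv_mul_eq_div, ← mul_div_assoc, le_div_iff₀ (by positivity)]
  calc 72 * x ^ 5 * x ^ 2 = 72 * x ^ 7 := by ring
    _ ≤ 72 * (17 * (Nat.totient p : ℝ)) := mul_le_mul_of_nonneg_left h11 (by norm_num)
    _ = 1224 * (Nat.totient p : ℝ) := by ring

/-- **the limit** -/
theorem tendsto_ratio :
    Tendsto (fun p : ℕ => (N p : ℝ) / (Nbar p : ℝ)) (atTop ⊓ 𝓟 {p : ℕ | Odd p}) (𝓝 1) := by
  have hε : Tendsto (fun p : ℕ => 1224 * (p : ℝ) ^ (-(1 / 4) : ℝ)) atTop (𝓝 0) := by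
    have h1 : Tendsto (fun p : ℕ => (p : ℝ) ^ (-(1 / 4) : ℝ)) atTop (𝓝 0) :=
      (tendsto_rpow_neg_atTop (by norm_num : (0 : ℝ) < 1 / 4)).comp tendsto_natCast_atTop_atTop
    simpa using h1.const_mul 1224
  have hε' : Tendsto (fun p : ℕ => 4 * (1224 * (p : ℝ) ^ (-(1 / 4) : ℝ)))
      (atTop ⊓ 𝓟 {p : ℕ | Odd p}) (𝓝 0) := by
    have := (hε.const_mul 4).mono_left (inf_le_left (a := atTop) (b := 𝓟 {p : ℕ | Odd p}))
    simpa using this
  rw [tendsto_iff_norm_sub_tendsto_zero]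
  refine squeeze_zero' (Eventually.of_forall fun _ => norm_nonneg _) ?_ hε'
  have hev : ∀ᶠ p : ℕ in atTop, 1 < p ∧ 1224 * (p : ℝ) ^ (-(1 / 4) : ℝ) < 1 / 2 :=
    (eventually_gt_atTop 1).and (hε.eventually_lt_const (by norm_num))
  rw [eventually_inf_principal]
  filter_upwards [hev] with p hp hodd
  obtain ⟨hp1, hp2⟩ := hp
  have hodd' : Odd p := hodd
  have h1 := key hp1 hodd'
  set e := 1224 * (p : ℝ) ^ (-(1 / 4) : ℝ) with he
  have he0 : 0 ≤ e := by positivity
  have hN : (0 : ℝ) ≤ N p := Nat.cast_nonneg _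
  have hNb : (0 : ℝ) ≤ Nbar p := Nat.cast_nonneg _
  have hφ : (0 : ℝ) < N p + Nbar p := by
    have h3 : N p + Nbar p = Nat.totient p := N_add_Nbar hp1 hodd'
    have h4 : 0 < Nat.totient p := Nat.totient_pos.2 (by omega)
    have h5 : 0 < N p + Nbar p := by omega
    exact_mod_cast h5
  have h2 := abs_le.1 h1
  have h6 : (1 / 4 : ℝ) * (N p + Nbar p) ≤ Nbar p := by
    have : e * (N p + Nbar p) ≤ 1 / 2 * (N p + Nbar p) := mul_le_mul_of_nonneg_right hp2.le hφ.le
    linarith [h2.1]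
  have hNb0 : (0 : ℝ) < Nbar p := lt_of_lt_of_le (by positivity) h6
  rw [Real.norm_eq_abs]
  have h7 : (N p : ℝ) / Nbar p - 1 = -(((Nbar p : ℝ) - N p) / Nbar p) := by
    field_simp; ring
  rw [h7, abs_neg, abs_div, abs_of_pos hNb0, div_le_iff₀ hNb0]
  calc |(Nbar p : ℝ) - N p| ≤ e * (N p + Nbar p) := h1
    _ ≤ e * (4 * Nbar p) := mul_le_mul_of_nonneg_left (by linarith) he0
    _ = 4 * e * Nbar p := by ring

end Q261.Rot
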