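import Pool.Agent.Q261.SQRed

namespace Q261.SQ

/-- labels of `m K_{2,3}`, `m = r + 2`, `r ≥ 3` -/
def gA (r i a : ℕ) : ℕ :=
  if i < r then 2 * i + 3 * a else if i = r then 2 * r + 5 + 6 * a else 2 * r + 6 * a

def gB (r i b : ℕ) : ℕ :=
  if i < r then 2 * r + 8 + 4 * i + b else
  if i = r then (if b = 0 then 6 * r + 3 else 6 * r + 6 + b) else 6 * r + 9 + b

theorem core_23 {r : ℕ} (hr : 3 ≤ r) : Core (r + 2) 2 3 := by
  refine ⟨gA r, gB r, 2 * r + 8, by omega, ?_, ?_, ?_, ?_, ?_, ?_⟩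
  · intro i hi a ha
    unfold gA; split_ifs <;> omega
  · intro i hi b hb
    unfold gB; split_ifs <;> omega
  · intro i hi a ha j hj b hb h
    unfold gA at h; split_ifs at h <;> omega
  · intro i hi a ha j hj b hb h
    unfold gB at h; split_ifs at h <;> omega
  · intro i hi a ha j hj b hb h
    unfold gA gB at h; split_ifs at h <;> omega
  · intro z hz1 hz2
    rcases Nat.lt_or_ge z (8 * r + 8) with h | h
    · obtain ⟨q, rfl⟩ : ∃ q, z = 2 * r + 8 + q := ⟨z - (2 * r + 8), by omega⟩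
      refine ⟨q / 6, by omega, q % 6 / 3, by omega, q % 3, by omega, ?_⟩
      have : q / 6 < r := by omega
      simp only [gA, gB, this, if_true]
      omega
    · obtain ⟨q, rfl⟩ : ∃ q, z = 8 * r + 8 + q := ⟨z - (8 * r + 8), by omega⟩
      have hq : q < 12 := by omega
      have hr0 : ¬ (r + 1 < r) := by omega
      have hr1 : ¬ (r + 1 = r) := by omega
      interval_cases q
      · exact ⟨r, by omega, 0, by omega, 0, by omega, by simp [gA, gB]; omega⟩
      · exact ⟨r + 1, by omega, 0, by omega, 0, by omega, by simp [gA, gB]; omega⟩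
      · exact ⟨r + 1, by omega, 0, by omega, 1, by omega, by simp [gA, gB]; omega⟩
      · exact ⟨r + 1, by omega, 0, by omega, 2, by omega, by simp [gA, gB]; omega⟩
      · exact ⟨r, by omega, 0, by omega, 1, by omega, by simp [gA, gB]; omega⟩
      · exact ⟨r, by omega, 0, by omega, 2, by omega, by simp [gA, gB]; omega⟩
      · exact ⟨r, by omega, 1, by omega, 0, by omega, by simp [gA, gB]; omega⟩
      · exact ⟨r + 1, by omega, 1, by omega, 0, by omega, by simp [gA, gB]; omega⟩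
      · exact ⟨r + 1, by omega, 1, by omega, 1, by omega, by simp [gA, gB]; omega⟩
      · exact ⟨r + 1, by omega, 1, by omega, 2, by omega, by simp [gA, gB]; omega⟩
      · exact ⟨r, by omega, 1, by omega, 1, by omega, by simp [gA, gB]; omega⟩
      · exact ⟨r, by omega, 1, by omega, 2, by omega, by simp [gA, gB]; omega⟩

/-- a finite check from explicit lists -/
def arr (L : List (List ℕ)) (i a : ℕ) : ℕ := (L.getD i []).getD a 0

theorem core_of_lists {m s t : ℕ} (L R : List (List ℕ)) (c : ℕ) (hc : 0 < c)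
    (h1 : ∀ (i : Fin m) (a : Fin s), arr L i a < m * s * t)
    (h2 : ∀ (i : Fin m) (a : Fin t), arr R i a < m * s * t)
    (h3 : ∀ (i : Fin m) (a : Fin s) (j : Fin m) (b : Fin s), arr L i a = arr L j b → i = j ∧ a = b)
    (h4 : ∀ (i : Fin m) (a : Fin t) (j : Fin m) (b : Fin t), arr R i a = arr R j b → i = j ∧ a = b)
    (h5 : ∀ (i : Fin m) (a : Fin s) (j : Fin m) (b : Fin t), arr L i a ≠ arr R j b)
    (h6 : ∀ q : Fin (m * s * t), ∃ (i : Fin m) (a : Fin s) (b : Fin t),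
      arr L i a + arr R i b = c + q) : Core m s t := by
  refine ⟨arr L, arr R, c, hc, ?_, ?_, ?_, ?_, ?_, ?_⟩
  · exact fun i hi a ha => h1 ⟨i, hi⟩ ⟨a, ha⟩
  · exact fun i hi a ha => h2 ⟨i, hi⟩ ⟨a, ha⟩
  · intro i hi a ha j hj b hb h
    simpa using h3 ⟨i, hi⟩ ⟨a, ha⟩ ⟨j, hj⟩ ⟨b, hb⟩ h
  · intro i hi a ha j hj b hb h
    simpa using h4 ⟨i, hi⟩ ⟨a, ha⟩ ⟨j, hj⟩ ⟨b, hb⟩ h
  · exact fun i hi a ha j hj b hb => h5 ⟨i, hi⟩ ⟨a, ha⟩ ⟨j, hj⟩ ⟨b, hb⟩
  · intro z hz1 hz2
    obtain ⟨i, a, b, h⟩ := h6 ⟨z - c, by omega⟩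
    refine ⟨i, i.2, a, a.2, b, b.2, ?_⟩
    rw [h]
    simp only
    omega

theorem core_323 : Core 3 2 3 :=
  core_of_lists [[0, 1], [2, 3], [5, 6]] [[8, 10, 12], [4, 14, 16], [9, 15, 17]] 6
    (by norm_num) (by decide) (by decide) (by decide) (by decide) (by decide) (by decide)

theorem core_423 : Core 4 2 3 :=
  core_of_lists [[0, 1], [2, 3], [5, 6], [9, 10]]
    [[11, 13, 15], [7, 21, 23], [12, 14, 16], [18, 20, 22]] 9
    (by norm_num) (by decide) (by decide) (by decide) (by decide) (by decide) (by decide)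

end Q261.SQ
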