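import Pool.Agent.Q261.SQTwo

namespace Q261.SQ

theorem not_core_223 : ¬ Core 2 2 3 :=
  not_core_of_refute (by norm_num) (by norm_num) (by decide +kernel)

theorem not_core_233 : ¬ Core 2 3 3 :=
  not_core_of_refute (by norm_num) (by norm_num) (by decide +kernel)

end Q261.SQ
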