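import Mathlib

/-!
Sequential labelings of `m K_{s,t}` : definitions and reduction to arrays of labels.
-/

namespace Q261.SQ

/-- `f` is a sequential labeling of the graph `G` with `q` edges: `f` is injective with values in
`{0, …, q-1}` (in `{0, …, q}` when `G` is a tree), and the edge labels `f u + f v` are exactly the
`q` consecutive integers `c, c+1, …, c+q-1` for some positive integer `c`. -/
def IsSequentialLabeling {V : Type*} (G : SimpleGraph V) (f : V → ℕ) : Prop :=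
  Function.Injective f ∧
  ((∀ v, f v < G.edgeSet.ncard) ∨ (G.IsTree ∧ ∀ v, f v ≤ G.edgeSet.ncard)) ∧
  ∃ c : ℕ, 0 < c ∧
    {z : ℕ | ∃ u v, G.Adj u v ∧ f u + f v = z} = Set.Ico c (c + G.edgeSet.ncard)

/-- A graph is sequential if it has a sequential labeling. -/
def Sequential {V : Type*} (G : SimpleGraph V) : Prop := ∃ f : V → ℕ, IsSequentialLabeling G f

/-- The disjoint union `m K_{s,t}` of `m` copies of the complete bipartite graph `K_{s,t}`. -/
def mK (m s t : ℕ) : SimpleGraph (Fin m × (Fin s ⊕ Fin t)) where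
  Adj x y := x.1 = y.1 ∧ (completeBipartiteGraph (Fin s) (Fin t)).Adj x.2 y.2
  symm := ⟨fun _ _ h => ⟨h.1.symm, h.2.symm⟩⟩
  loopless := ⟨fun _ h => (completeBipartiteGraph (Fin s) (Fin t)).loopless.irrefl _ h.2⟩

/-- Labels of `m K_{s,t}` as two arrays. -/
def Core (m s t : ℕ) : Prop :=
  ∃ (A B : ℕ → ℕ → ℕ) (c : ℕ), 0 < c ∧
    (∀ i < m, ∀ a < s, A i a < m * s * t) ∧
    (∀ i < m, ∀ b < t, B i b < m * s * t) ∧
    (∀ i < m, ∀ a < s, ∀ j < m, ∀ b < s, A i a = A j b → i = j ∧ a = b) ∧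
    (∀ i < m, ∀ a < t, ∀ j < m, ∀ b < t, B i a = B j b → i = j ∧ a = b) ∧
    (∀ i < m, ∀ a < s, ∀ j < m, ∀ b < t, A i a ≠ B j b) ∧
    (∀ z, c ≤ z → z < c + m * s * t → ∃ i < m, ∃ a < s, ∃ b < t, A i a + B i b = z)

/-- the edge with given ends -/
def edge (m s t : ℕ) (x : Fin m × Fin s × Fin t) : Sym2 (Fin m × (Fin s ⊕ Fin t)) :=
  s((x.1, Sum.inl x.2.1), (x.1, Sum.inr x.2.2))

lemma edge_inj (m s t : ℕ) : Function.Injective (edge m s t) := by
  rintro ⟨i, a, b⟩ ⟨j, a', b'⟩ h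
  simp only [edge, Sym2.eq_iff, Prod.mk.injEq, Sum.inl.injEq, Sum.inr.injEq, reduceCtorEq,
    and_false, or_false] at h
  obtain ⟨⟨h1, h2⟩, -, h3⟩ := h
  simp [h1, h2, h3]

lemma adj_iff (m s t : ℕ) (x y : Fin m × (Fin s ⊕ Fin t)) :
    (mK m s t).Adj x y ↔ ∃ i a b, (x = (i, Sum.inl a) ∧ y = (i, Sum.inr b)) ∨
      (x = (i, Sum.inr b) ∧ y = (i, Sum.inl a)) := by
  obtain ⟨i, x⟩ := x
  obtain ⟨j, y⟩ := y
  constructor
  · rintro ⟨h1, h2⟩
    simp only at h1 h2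
    subst h1
    rcases x with a | b <;> rcases y with a' | b'
    · simp at h2
    · exact ⟨i, a, b', Or.inl ⟨rfl, rfl⟩⟩
    · exact ⟨i, a', b, Or.inr ⟨rfl, rfl⟩⟩
    · simp at h2
  · rintro ⟨k, a, b, ⟨h1, h2⟩ | ⟨h1, h2⟩⟩
    · simp only [Prod.mk.injEq] at h1 h2
      obtain ⟨rfl, rfl⟩ := h1
      obtain ⟨rfl, rfl⟩ := h2
      exact ⟨rfl, by simp⟩
    · simp only [Prod.mk.injEq] at h1 h2
      obtain ⟨rfl, rfl⟩ := h1
      obtain ⟨rfl, rfl⟩ := h2
      exact ⟨rfl, by simp⟩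

lemma edgeSet_eq (m s t : ℕ) : (mK m s t).edgeSet = Set.range (edge m s t) := by
  ext e
  induction e with
  | _ x y =>
    rw [SimpleGraph.mem_edgeSet, adj_iff]
    simp only [Set.mem_range, edge, Prod.exists, Sym2.eq_iff]
    constructor
    · rintro ⟨i, a, b, ⟨h1, h2⟩ | ⟨h1, h2⟩⟩
      · exact ⟨i, a, b, Or.inl ⟨h1.symm, h2.symm⟩⟩
      · exact ⟨i, a, b, Or.inr ⟨h2.symm, h1.symm⟩⟩
    · rintro ⟨i, a, b, ⟨h1, h2⟩ | ⟨h1, h2⟩⟩
      · exact ⟨i, a, b, Or.inl ⟨h1.symm, h2.symm⟩⟩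
      · exact ⟨i, a, b, Or.inr ⟨h2.symm, h1.symm⟩⟩

lemma ncard_edgeSet (m s t : ℕ) : (mK m s t).edgeSet.ncard = m * s * t := by
  rw [edgeSet_eq, ← Set.image_univ, Set.ncard_image_of_injective _ (edge_inj m s t),
    Set.ncard_univ, Nat.card_eq_fintype_card]
  simp [mul_assoc]

lemma tree_imp {m s t : ℕ} (h : (mK m s t).IsTree) : m = 1 ∧ (s = 1 ∨ t = 1) := by
  have h1 := (SimpleGraph.isTree_iff_connected_and_card.1 h).2
  have h2 : Nat.card (mK m s t).edgeSet = m * s * t := by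
    have := ncard_edgeSet m s t
    rwa [← Nat.card_coe_set_eq] at this
  rw [h2, Nat.card_eq_fintype_card] at h1
  simp only [Fintype.card_prod, Fintype.card_fin, Fintype.card_sum] at h1
  have hm : m ∣ 1 := by
    have h3 : m ∣ m * s * t + 1 := by rw [h1]; exact Dvd.intro _ rfl
    have h4 : m ∣ m * s * t := by rw [mul_assoc]; exact Dvd.intro _ rfl
    exact (Nat.dvd_add_right h4).1 h3
  have hm1 : m = 1 := Nat.dvd_one.1 hm
  refine ⟨hm1, ?_⟩
  subst hm1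
  simp only [one_mul] at h1
  by_contra hc
  push Not at hc
  rcases Nat.lt_or_ge s 2 with hs | hs
  · interval_cases s
    · simp at h1; exact hc.2 h1.symm
    · exact hc.1 rfl
  rcases Nat.lt_or_ge t 2 with ht | ht
  · interval_cases t
    · simp at h1; exact hc.1 h1.symm
    · exact hc.2 rfl
  nlinarith

end Q261.SQ
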