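import Pool.Agent.Q261.SQRed

namespace Q261.SQ

/-- first side of the labels, `m = n + 3` -/
def fA (s : ℕ) : ℕ → ℕ → ℕ
  | 0, a => a
  | 1, a => s + a
  | i + 2, a => i * (s + 1) + 2 * s + 1 + a

/-- second side of the labels, `M = n (s+1) + 3 s` -/
def fB (n s v : ℕ) : ℕ → ℕ → ℕ
  | 0, b => n * (s + 1) + 3 * s + (s + s * b)
  | 1, b => if b = 0 then n * (s + 1) + 2 * s else n * (s + 1) + 3 * s + (v + 1 + s + s * b)
  | i + 2, b => if i = 0 ∧ b = 0 then n * (s + 1) + 3 * s + v
      else n * (s + 1) + 3 * s + ((i + 2) * v + 1 + s * b)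

theorem core_fam {n s t v : ℕ} (hs : 2 ≤ s) (ht : 3 ≤ t) (hv : s + 2 ≤ v)
    (hw : s * t = v + 1 + s) : Core (n + 3) s t := by
  have hmod : ∀ x y, s * x = v + s * y → False := by
    intro x y h
    have h1 : s ∣ v := by
      have : s ∣ v + s * y := by rw [← h]; exact Dvd.intro _ rfl
      exact (Nat.dvd_add_left (Dvd.intro _ rfl)).1 this
    have h2 : s ∣ v + s + 1 := by
      have : v + s + 1 = s * t := by omega
      rw [this]; exact Dvd.intro _ rfl
    have h3 : s ∣ 1 := by
      have h4 : s ∣ v + s := Nat.dvd_add h1 (dvd_refl s)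
      exact (Nat.dvd_add_right h4).1 h2
    have := Nat.le_of_dvd one_pos h3
    omega
  have hsb : ∀ b, b < t → s * b ≤ v + 1 := by
    intro b hb
    have h1 : s * (b + 1) ≤ s * t := Nat.mul_le_mul_left _ hb
    rw [mul_add] at h1
    omega
  have hcan : ∀ x y, s * x = s * y → x = y := fun x y h => Nat.eq_of_mul_eq_mul_left (by omega) h
  have hN : (n + 3) * s * t = n * (s + 1) + n * v + 3 * (v + 1 + s) := by
    rw [mul_assoc, hw]; ring
  -- monotonicity facts
  have hAle : ∀ i a, i ≤ n → a < s → i * (s + 1) + 2 * s + 1 + a ≤ n * (s + 1) + 3 * s := by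
    intro i a hi ha
    have : i * (s + 1) ≤ n * (s + 1) := Nat.mul_le_mul_right _ hi
    omega
  have hAne : ∀ i a, i ≤ n → a < s → i * (s + 1) + 2 * s + 1 + a ≠ n * (s + 1) + 2 * s := by
    intro i a hi ha h
    obtain ⟨e, rfl⟩ : ∃ e, n = i + e := ⟨n - i, by omega⟩
    rw [add_mul] at h
    rcases Nat.eq_zero_or_pos e with rfl | he
    · omega
    · have : 1 * (s + 1) ≤ e * (s + 1) := Nat.mul_le_mul_right _ he
      omega
  have hlin : ∀ i j a b, i < j → a < t → i * v + s * a = j * v + s * b → False := by
    intro i j a b hij ha h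
    obtain ⟨e, rfl⟩ : ∃ e, j = i + 1 + e := ⟨j - i - 1, by omega⟩
    have h1 := hsb a ha
    have h2 : (i + 1 + e) * v = i * v + v + e * v := by ring
    rw [h2] at h
    rcases Nat.eq_zero_or_pos e with rfl | he
    · exact hmod a b (by omega)
    · have : 1 * v ≤ e * v := Nat.mul_le_mul_right _ he
      omega
  have hv2 : ∀ i, 0 < i → 3 * v ≤ (i + 2) * v := fun i hi => Nat.mul_le_mul_right _ (by omega)
  have hs1 : ∀ b, 0 < b → s ≤ s * b := fun b hb => Nat.le_mul_of_pos_right _ hb
  refine ⟨fA s, fB n s v, n * (s + 1) + 3 * s, by omega, ?_, ?_, ?_, ?_, ?_, ?_⟩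
  · rintro (_ | _ | i) hi a ha
    · simp only [fA]; rw [hN]; omega
    · simp only [fA]; rw [hN]; omega
    · simp only [fA]; rw [hN]
      have := hAle i a (by omega) ha
      omega
  · rintro (_ | _ | i) hi b hb
    · simp only [fB]; rw [hN]
      have := hsb b hb
      omega
    · simp only [fB]; rw [hN]
      have := hsb b hb
      split_ifs <;> omega
    · simp only [fB]; rw [hN]
      have := hsb b hb
      have h1 : (i + 2) * v ≤ (n + 2) * v := Nat.mul_le_mul_right _ (by omega)
      have h2 : (n + 2) * v = n * v + 2 * v := by ring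
      split_ifs <;> omega
  · rintro (_ | _ | i) hi a ha (_ | _ | j) hj b hb h <;> simp only [fA] at h
    · exact ⟨rfl, h⟩
    · omega
    · omega
    · omega
    · exact ⟨rfl, by omega⟩
    · omega
    · omega
    · omega
    · rcases lt_trichotomy i j with hij | hij | hij
      · have : (i + 1) * (s + 1) ≤ j * (s + 1) := Nat.mul_le_mul_right _ hij
        rw [add_mul] at this; omega
      · subst hij; exact ⟨rfl, by omega⟩
      · have : (j + 1) * (s + 1) ≤ i * (s + 1) := Nat.mul_le_mul_right _ hij
        rw [add_mul] at this; omega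
  · rintro (_ | _ | i) hi a ha (_ | _ | j) hj b hb h <;> simp only [fB] at h
    · exact ⟨rfl, hcan a b (by omega)⟩
    · have := hsb a ha
      split_ifs at h with h1
      · omega
      · have := hs1 b (by omega); omega
    · have h0 := hsb a ha
      split_ifs at h with h1
      · exact (hmod (a + 1) 0 (by rw [mul_add]; omega)).elim
      · rcases Nat.eq_zero_or_pos j with rfl | hj'
        · have := hs1 b (by omega); omega
        · have := hv2 j hj'; omega
    · have := hsb b hb
      split_ifs at h with h1
      · omega
      · have := hs1 a (by omega); omega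
    · split_ifs at h with h1 h2 h2
      · exact ⟨rfl, by omega⟩
      · omega
      · omega
      · exact ⟨rfl, hcan a b (by omega)⟩
    · have h0 := hsb a ha
      split_ifs at h with h1 h2 h3
      · omega
      · omega
      · have := hs1 a (by omega); omega
      · rcases Nat.eq_zero_or_pos j with rfl | hj'
        · exact (hmod (a + 1) b (by rw [mul_add]; omega)).elim
        · have := hv2 j hj'; omega
    · have h0 := hsb b hb
      split_ifs at h with h1
      · exact (hmod (b + 1) 0 (by rw [mul_add]; omega)).elim
      · rcases Nat.eq_zero_or_pos i with rfl | hj'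
        · have := hs1 a (by omega); omega
        · have := hv2 i hj'; omega
    · have h0 := hsb b hb
      split_ifs at h with h1 h2 h3
      · omega
      · have := hs1 b (by omega); omega
      · omega
      · rcases Nat.eq_zero_or_pos i with rfl | hj'
        · exact (hmod (b + 1) a (by rw [mul_add]; omega)).elim
        · have := hv2 i hj'; omega
    · split_ifs at h with h1 h2 h3
      · exact ⟨by omega, by omega⟩
      · rcases Nat.eq_zero_or_pos j with rfl | hj'
        · omega
        · have := hv2 j hj'; omega
      · rcases Nat.eq_zero_or_pos i with rfl | hj'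
        · omega
        · have := hv2 i hj'; omega
      · rcases lt_trichotomy i j with hij | hij | hij
        · exact (hlin (i + 2) (j + 2) a b (by omega) ha (by omega)).elim
        · subst hij
          exact ⟨rfl, hcan a b (by omega)⟩
        · exact (hlin (j + 2) (i + 2) b a (by omega) hb (by omega)).elim
  · rintro (_ | _ | i) hi a ha (_ | _ | j) hj b hb h <;> simp only [fA, fB] at h
    · omega
    · split_ifs at h <;> omega
    · split_ifs at h <;> omega
    · omega
    · split_ifs at h <;> omega
    · split_ifs at h <;> omega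
    · have := hAle i a (by omega) ha; omega
    · have h1 := hAle i a (by omega) ha
      have h2 := hAne i a (by omega) ha
      split_ifs at h
      · exact h2 h
      · omega
    · have h1 := hAle i a (by omega) ha
      split_ifs at h <;> omega
  · -- covering
    intro z hz1 hz2
    obtain ⟨q, rfl⟩ : ∃ q, z = n * (s + 1) + 3 * s + q := ⟨z - (n * (s + 1) + 3 * s), by omega⟩
    have hs0 : 0 < s := by omega
    have ht0 : 0 < t := by omega
    have hq : q < (n + 3) * s * t := by omega
    have hr : q / s < (n + 3) * t := by
      apply Nat.div_lt_of_lt_mul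
      calc q < (n + 3) * s * t := hq
        _ = s * ((n + 3) * t) := by ring
    have ha : q % s < s := Nat.mod_lt _ hs0
    have e1 := Nat.div_add_mod q s
    generalize q / s = r at hr e1
    generalize q % s = a at ha e1
    subst e1
    have key : ∀ x y, x = y → s * x = s * y := fun x y h => by rw [h]
    rcases Nat.eq_zero_or_pos r with rfl | h0
    · refine ⟨1, by omega, a, ha, 0, ht0, ?_⟩
      simp only [fA, fB, if_true]
      omega
    rcases Nat.lt_or_ge t r with h1 | h1
    swap
    · refine ⟨0, by omega, a, ha, r - 1, by omega, ?_⟩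
      simp only [fA, fB]
      have := key (r - 1 + 1) r (by omega)
      rw [mul_add] at this
      omega
    rcases Nat.lt_or_ge (t + 1) r with h2 | h2
    swap
    · obtain rfl : r = t + 1 := by omega
      refine ⟨2, by omega, a, ha, 0, ht0, ?_⟩
      simp only [fA, fB, and_self, if_true]
      have h3 : s * (t + 1) = s * t + s := by ring
      omega
    rcases Nat.lt_or_ge (2 * t) r with h3 | h3
    swap
    · refine ⟨1, by omega, a, ha, r - t - 1, by omega, ?_⟩
      have h4 : r - t - 1 ≠ 0 := by omega
      simp only [fA, fB, h4, if_false]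
      have := key (t + (r - t - 1) + 1) r (by omega)
      rw [mul_add, mul_add] at this
      omega
    · have h5 : 2 ≤ r / t := by
        rw [Nat.le_div_iff_mul_le ht0]; omega
      have h6 : r / t < n + 3 := Nat.div_lt_of_lt_mul (by rwa [mul_comm])
      have h7 := Nat.div_add_mod r t
      have h8 : r % t < t := Nat.mod_lt _ ht0
      generalize r / t = i at h5 h6 h7
      generalize r % t = b at h7 h8
      obtain ⟨i', rfl⟩ : ∃ i', i = i' + 2 := ⟨i - 2, by omega⟩
      refine ⟨i' + 2, h6, a, ha, b, h8, ?_⟩
      have h9 : ¬ (i' = 0 ∧ b = 0) := by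
        rintro ⟨rfl, rfl⟩
        omega
      simp only [fA, fB, h9, if_false]
      rw [← h7]
      have h10 : s * (t * (i' + 2) + b) = (i' + 2) * (v + 1 + s) + s * b := by
        rw [← hw]; ring
      rw [h10]
      ring

end Q261.SQ
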