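import Pool.Agent.Q261.SQStar
import Pool.Agent.Q261.SQFam
import Pool.Agent.Q261.SQ23
import Pool.Agent.Q261.SQDec

namespace Q261.SQ

/-! ### One copy, the tree case -/

lemma connected_one {s t : ℕ} (hs : 0 < s) (ht : 0 < t) : (mK 1 s t).Connected := by
  have hadj : ∀ (i : Fin 1) (a : Fin s) (b : Fin t), (mK 1 s t).Adj (i, Sum.inl a) (i, Sum.inr b) :=
    fun i a b => (adj_iff 1 s t _ _).2 ⟨i, a, b, Or.inl ⟨rfl, rfl⟩⟩
  have hreach : ∀ x, (mK 1 s t).Reachable (0, Sum.inl ⟨0, hs⟩) x := by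
    rintro ⟨i, a | b⟩
    · obtain rfl : i = 0 := Subsingleton.elim _ _
      exact (hadj 0 ⟨0, hs⟩ ⟨0, ht⟩).reachable.trans (hadj 0 a ⟨0, ht⟩).symm.reachable
    · obtain rfl : i = 0 := Subsingleton.elim _ _
      exact (hadj 0 ⟨0, hs⟩ b).reachable
  have : Nonempty (Fin 1 × (Fin s ⊕ Fin t)) := ⟨(0, Sum.inl ⟨0, hs⟩)⟩
  exact SimpleGraph.Connected.mk fun x y => (hreach x).symm.trans (hreach y)

lemma tree_one {s t : ℕ} (hs : 0 < s) (ht : 0 < t) (h : s = 1 ∨ t = 1) : (mK 1 s t).IsTree := by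
  rw [SimpleGraph.isTree_iff_connected_and_card]
  refine ⟨connected_one hs ht, ?_⟩
  have h2 : Nat.card (mK 1 s t).edgeSet = 1 * s * t := by
    have := ncard_edgeSet 1 s t
    rwa [← Nat.card_coe_set_eq] at this
  rw [h2, Nat.card_eq_fintype_card]
  simp only [Fintype.card_prod, Fintype.card_fin, Fintype.card_sum]
  rcases h with rfl | rfl
  · omega
  · omega

lemma star_seq {s t : ℕ} (hs : 0 < s) (ht : 0 < t) (h : s = 1 ∨ t = 1) :
    Sequential (mK 1 s t) := by
  have htree := tree_one hs ht h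
  rcases h with rfl | rfl
  · let f : Fin 1 × (Fin 1 ⊕ Fin t) → ℕ := fun x =>
      match x.2 with
      | Sum.inl _ => 0
      | Sum.inr b => b + 1
    refine ⟨f, ?_, Or.inr ⟨htree, ?_⟩, 1, one_pos, ?_⟩
    · rintro ⟨i, a | b⟩ ⟨j, a' | b'⟩ h
      · obtain rfl : i = j := Subsingleton.elim _ _
        obtain rfl : a = a' := Subsingleton.elim _ _
        rfl
      · simp [f] at h
      · simp [f] at h
      · obtain rfl : i = j := Subsingleton.elim _ _
        simp only [f, Nat.add_right_cancel_iff] at h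
        rw [Fin.ext h]
    · rw [ncard_edgeSet]
      rintro ⟨i, a | b⟩
      · simp [f]
      · have := b.2
        simp only [f]
        omega
    · rw [ncard_edgeSet, sums_eq]
      ext z
      simp only [Set.mem_range, Prod.exists, Set.mem_Ico, f]
      constructor
      · rintro ⟨i, a, b, rfl⟩
        have := b.2
        omega
      · rintro ⟨h1, h2⟩
        refine ⟨0, 0, ⟨z - 1, by omega⟩, ?_⟩
        simp only
        omega
  · let f : Fin 1 × (Fin s ⊕ Fin 1) → ℕ := fun x =>
      match x.2 with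
      | Sum.inl b => b + 1
      | Sum.inr _ => 0
    refine ⟨f, ?_, Or.inr ⟨htree, ?_⟩, 1, one_pos, ?_⟩
    · rintro ⟨i, a | b⟩ ⟨j, a' | b'⟩ h
      · obtain rfl : i = j := Subsingleton.elim _ _
        simp only [f, Nat.add_right_cancel_iff] at h
        rw [Fin.ext h]
      · simp [f] at h
      · simp [f] at h
      · obtain rfl : i = j := Subsingleton.elim _ _
        obtain rfl : b = b' := Subsingleton.elim _ _
        rfl
    · rw [ncard_edgeSet]
      rintro ⟨i, a | b⟩
      · have := a.2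
        simp only [f]
        omega
      · simp [f]
    · rw [ncard_edgeSet, sums_eq]
      ext z
      simp only [Set.mem_range, Prod.exists, Set.mem_Ico, f]
      constructor
      · rintro ⟨i, a, b, rfl⟩
        have := a.2
        omega
      · rintro ⟨h1, h2⟩
        refine ⟨0, ⟨z - 1, by omega⟩, 0, ?_⟩
        simp only
        omega

/-! ### The main case, `2 ≤ s ≤ t` -/

lemma core_pos {m s t : ℕ} (hm : 2 ≤ m) (hs : 2 ≤ s) (hst : s ≤ t)
    (h22 : ¬ (s = 2 ∧ t = 2)) (h23 : ¬ (m = 2 ∧ s = 2 ∧ t = 3))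
    (h33 : ¬ (m = 2 ∧ s = 3 ∧ t = 3)) (hex : ¬ (m = 2 ∧ s = t ∧ s.Prime ∧ 5 ≤ s)) :
    Core m s t := by
  rcases Nat.lt_or_ge t 4 with ht | ht
  · -- t = 3
    obtain rfl : t = 3 := by omega
    rcases (by omega : s = 2 ∨ s = 3) with rfl | rfl
    · rcases (by omega : m = 3 ∨ m = 4 ∨ 5 ≤ m) with rfl | rfl | h5
      · exact core_323
      · exact core_423
      · obtain ⟨r, rfl⟩ : ∃ r, m = r + 2 := ⟨m - 2, by omega⟩
        exact core_23 (by omega)
    · obtain ⟨n, rfl⟩ : ∃ n, m = n + 3 := ⟨m - 3, by omega⟩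
      exact core_fam (v := 5) (by omega) le_rfl (by omega) (by norm_num)
  · obtain ⟨k, rfl⟩ : ∃ k, m = k + 1 := ⟨m - 1, by omega⟩
    rcases Nat.lt_or_ge s t with h | h
    · exact core_star (by omega) hs h ht
    · obtain rfl : s = t := le_antisymm hst h
      by_cases hp : s.Prime
      · -- `m ≥ 3`
        have hs5 : 5 ≤ s := by
          rcases Nat.lt_or_ge s 5 with h5 | h5
          · obtain rfl : s = 4 := by omega
            exact absurd hp (by norm_num)
          · exact h5
        obtain ⟨n, hn⟩ : ∃ n, k + 1 = n + 3 := by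
          have : k + 1 ≠ 2 := fun h => hex ⟨h, rfl, hp, hs5⟩
          exact ⟨k - 2, by omega⟩
        rw [hn]
        have h1 : s * s = (s * s - s - 1) + 1 + s := by
          have : s * 5 ≤ s * s := Nat.mul_le_mul_left _ hs5
          omega
        refine core_fam (v := s * s - s - 1) hs (by omega) ?_ h1
        have : s * 5 ≤ s * s := Nat.mul_le_mul_left _ hs5
        omega
      · obtain ⟨d, e, hd, he, hde⟩ : ∃ d e, 2 ≤ d ∧ 2 ≤ e ∧ s = d * e := by
          obtain ⟨d, hd1, hd2, hd3⟩ := Nat.exists_dvd_of_not_prime2 hs hp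
          obtain ⟨e, rfl⟩ := hd1
          refine ⟨d, e, hd2, ?_, rfl⟩
          rcases Nat.lt_or_ge e 2 with h2 | h2
          · interval_cases e
            · omega
            · omega
          · exact h2
        have hds : d < s := by rw [hde]; nlinarith
        have h1 : Core (k + 1) d s := core_star (by omega) hd hds ht
        have h2 := core_blow (e := e) (by omega) h1
        rwa [← hde] at h2

/-- **Main theorem.** -/
theorem main (m s t : ℕ) (hm : 0 < m) (hs : 0 < s) (ht : 0 < t)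
    (hex : ¬ (m = 2 ∧ s = t ∧ s.Prime ∧ 5 ≤ s)) :
    Sequential (mK m s t) ↔
      (m = 1 ∧ (s = 1 ∨ t = 1)) ∨
      (2 ≤ m ∧ 2 ≤ s ∧ 2 ≤ t ∧ ¬ (s = 2 ∧ t = 2) ∧
        ¬ (m = 2 ∧ s ≤ 3 ∧ t ≤ 3)) := by
  by_cases htree : m = 1 ∧ (s = 1 ∨ t = 1)
  · obtain ⟨rfl, h⟩ := htree
    exact ⟨fun _ => Or.inl ⟨rfl, h⟩, fun _ => star_seq hs ht h⟩
  constructor
  · intro hseq
    have hc := core_of_sequential htree hseq
    right
    rcases (by omega : m = 1 ∨ 2 ≤ m) with rfl | hm2
    · exact absurd hc (not_core_single hs ht)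
    rcases (by omega : s = 1 ∨ 2 ≤ s) with rfl | hs2
    · exact absurd hc (not_core_one_left hm)
    rcases (by omega : t = 1 ∨ 2 ≤ t) with rfl | ht2
    · exact absurd hc (not_core_one_right hm)
    refine ⟨hm2, hs2, ht2, ?_, ?_⟩
    · rintro ⟨rfl, rfl⟩
      exact not_core_two hm hc
    · rintro ⟨rfl, h1, h2⟩
      rcases (by omega : s = 2 ∨ s = 3) with rfl | rfl <;>
        rcases (by omega : t = 2 ∨ t = 3) with rfl | rfl
      · exact not_core_two hm hc
      · exact not_core_223 hc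
      · exact not_core_223 (core_symm hc)
      · exact not_core_233 hc
  · rintro (h | ⟨hm2, hs2, ht2, h22, h3⟩)
    · exact absurd h htree
    apply sequential_of_core
    rcases le_total s t with hst | hst
    · exact core_pos hm2 hs2 hst h22 (fun h => h3 ⟨h.1, by omega, by omega⟩)
        (fun h => h3 ⟨h.1, by omega, by omega⟩) hex
    · apply core_symm
      refine core_pos hm2 ht2 hst (fun h => h22 ⟨h.2, h.1⟩) (fun h => h3 ⟨h.1, by omega, by omega⟩)
        (fun h => h3 ⟨h.1, by omega, by omega⟩) ?_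
      rintro ⟨h1, h2, h4, h5⟩
      exact hex ⟨h1, h2.symm, h2 ▸ h4, h2 ▸ h5⟩

end Q261.SQ
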