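import Pool.Agent.Q261.SQRed

namespace Q261.SQ

/-- The same data with `Fin` indices; the sums are exactly the interval, each once. -/
def Core' (m s t : ℕ) : Prop :=
  ∃ (A : Fin m × Fin s → ℕ) (B : Fin m × Fin t → ℕ) (c : ℕ), 0 < c ∧
    (∀ x, A x < m * s * t) ∧ (∀ x, B x < m * s * t) ∧
    Function.Injective A ∧ Function.Injective B ∧ (∀ x y, A x ≠ B y) ∧
    Function.Injective (fun x : Fin m × Fin s × Fin t => A (x.1, x.2.1) + B (x.1, x.2.2)) ∧
    (∀ x : Fin m × Fin s × Fin t, c ≤ A (x.1, x.2.1) + B (x.1, x.2.2) ∧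
      A (x.1, x.2.1) + B (x.1, x.2.2) < c + m * s * t) ∧
    (∀ z, c ≤ z → z < c + m * s * t → ∃ x : Fin m × Fin s × Fin t,
      A (x.1, x.2.1) + B (x.1, x.2.2) = z)

theorem core'_of_core {m s t : ℕ} (h : Core m s t) : Core' m s t := by
  obtain ⟨A, B, c, hc, hA, hB, hAA, hBB, hAB, hcov⟩ := h
  let g : Fin m × Fin s × Fin t → ℕ := fun x => A x.1 x.2.1 + B x.1 x.2.2
  have h1 : Finset.Ico c (c + m * s * t) ⊆ (Finset.univ : Finset (Fin m × Fin s × Fin t)).image g := by
    intro z hz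
    rw [Finset.mem_Ico] at hz
    obtain ⟨i, hi, a, ha, b, hb, hz'⟩ := hcov z hz.1 hz.2
    rw [Finset.mem_image]
    exact ⟨(⟨i, hi⟩, ⟨a, ha⟩, ⟨b, hb⟩), Finset.mem_univ _, hz'⟩
  have hcard : (Finset.univ : Finset (Fin m × Fin s × Fin t)).card
      = (Finset.Ico c (c + m * s * t)).card := by simp [mul_assoc]
  have h2 := Finset.eq_of_subset_of_card_le h1 (by
    refine le_trans Finset.card_image_le ?_
    rw [hcard])
  have hinj : Function.Injective g := by
    have h3 : ((Finset.univ : Finset (Fin m × Fin s × Fin t)).image g).card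
        = (Finset.univ : Finset (Fin m × Fin s × Fin t)).card := by rw [← h2, hcard]
    have h4 := Finset.injOn_of_card_image_eq h3
    intro x y hxy
    exact h4 (by simp) (by simp) hxy
  refine ⟨fun x => A x.1 x.2, fun x => B x.1 x.2, c, hc, fun x => hA _ x.1.2 _ x.2.2,
    fun x => hB _ x.1.2 _ x.2.2, ?_, ?_, fun x y => hAB _ x.1.2 _ x.2.2 _ y.1.2 _ y.2.2,
    hinj, ?_, ?_⟩
  · rintro ⟨i, a⟩ ⟨j, b⟩ h
    obtain ⟨h1, h2⟩ := hAA i i.2 a a.2 j j.2 b b.2 h
    rw [Fin.ext h1, Fin.ext h2]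
  · rintro ⟨i, a⟩ ⟨j, b⟩ h
    obtain ⟨h1, h2⟩ := hBB i i.2 a a.2 j j.2 b b.2 h
    rw [Fin.ext h1, Fin.ext h2]
  · intro x
    have : g x ∈ Finset.Ico c (c + m * s * t) := by
      rw [h2]; exact Finset.mem_image_of_mem _ (Finset.mem_univ _)
    exact Finset.mem_Ico.1 this
  · intro z hz1 hz2
    obtain ⟨i, hi, a, ha, b, hb, hz'⟩ := hcov z hz1 hz2
    exact ⟨(⟨i, hi⟩, ⟨a, ha⟩, ⟨b, hb⟩), hz'⟩

/-- number of vertices -/
theorem core_card {m s t : ℕ} (h : Core m s t) : m * (s + t) ≤ m * s * t := by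
  obtain ⟨A, B, c, hc, hA, hB, hAA, hBB, hAB, -⟩ := core'_of_core h
  let f : (Fin m × Fin s) ⊕ (Fin m × Fin t) → Fin (m * s * t) :=
    Sum.elim (fun x => ⟨A x, hA x⟩) (fun x => ⟨B x, hB x⟩)
  have hf : Function.Injective f := by
    rintro (x | x) (y | y) h
    · simp only [f, Sum.elim_inl, Fin.mk.injEq] at h
      rw [hAA h]
    · simp only [f, Sum.elim_inl, Sum.elim_inr, Fin.mk.injEq] at h
      exact absurd h (hAB _ _)
    · simp only [f, Sum.elim_inl, Sum.elim_inr, Fin.mk.injEq] at h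
      exact absurd h.symm (hAB _ _)
    · simp only [f, Sum.elim_inr, Fin.mk.injEq] at h
      rw [hBB h]
  have := Fintype.card_le_of_injective f hf
  simp only [Fintype.card_sum, Fintype.card_prod, Fintype.card_fin] at this
  rw [mul_add]; exact this

theorem not_core_one_left {m t : ℕ} (hm : 0 < m) : ¬ Core m 1 t := by
  intro h
  have := core_card h
  rw [mul_add, mul_one] at this
  omega

theorem not_core_one_right {m s : ℕ} (hm : 0 < m) : ¬ Core m s 1 :=
  fun h => not_core_one_left hm (core_symm h)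

/-- one copy -/
theorem not_core_single {s t : ℕ} (hs : 0 < s) (ht : 0 < t) : ¬ Core 1 s t := by
  intro h
  obtain ⟨A, B, c, hc, hA, hB, hAA, hBB, hAB, hinj, hran, -⟩ := core'_of_core h
  rw [one_mul] at *
  have hn : 0 < s * t := Nat.mul_pos hs ht
  have : NeZero (s * t) := ⟨hn.ne'⟩
  let f : Fin s × Fin t → ZMod (s * t) := fun x => (A (0, x.1) : ZMod (s * t)) - (B (0, x.2) : ZMod (s * t))
  have hf : Function.Injective f := by
    rintro ⟨a, b⟩ ⟨a', b'⟩ h
    simp only [f] at h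
    have h1 : ((A (0, a) + B (0, b') : ℕ) : ZMod (s * t)) = ((A (0, a') + B (0, b) : ℕ) : ZMod (s * t)) := by
      push_cast
      linear_combination h
    have h2 := hran (0, a, b')
    have h3 := hran (0, a', b)
    simp only at h2 h3
    have h4 : A (0, a) + B (0, b') = A (0, a') + B (0, b) := by
      rw [ZMod.natCast_eq_natCast_iff] at h1
      obtain ⟨u, hu⟩ : ∃ u, A (0, a) + B (0, b') = c + u := ⟨_, (Nat.add_sub_cancel' h2.1).symm⟩
      obtain ⟨v, hv⟩ : ∃ v, A (0, a') + B (0, b) = c + v := ⟨_, (Nat.add_sub_cancel' h3.1).symm⟩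
      rw [hu, hv] at h1
      have h5 := Nat.ModEq.add_left_cancel' c h1
      have h6 : u = v := Nat.ModEq.eq_of_lt_of_lt h5 (by omega) (by omega)
      rw [hu, hv, h6]
    have h5 : ((0, a, b') : Fin 1 × Fin s × Fin t) = (0, a', b) := hinj h4
    simp only [Prod.mk.injEq, true_and] at h5
    rw [h5.1, h5.2]
  have hb : Function.Bijective f := by
    rw [Fintype.bijective_iff_injective_and_card]
    refine ⟨hf, ?_⟩
    simp [ZMod.card]
  obtain ⟨⟨a, b⟩, hab⟩ := hb.2 0
  simp only [f, sub_eq_zero] at hab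
  rw [ZMod.natCast_eq_natCast_iff] at hab
  exact hAB _ _ (Nat.ModEq.eq_of_lt_of_lt hab (hA _) (hB _))

/-- `m C_4` -/
theorem not_core_two {m : ℕ} (hm : 0 < m) : ¬ Core m 2 2 := by
  intro h
  obtain ⟨A, B, c, hc, hA, hB, hAA, hBB, hAB, hinj, hran, hsur⟩ := core'_of_core h
  let N := m * 2 * 2
  -- labels fill `[0, N)`
  let f : (Fin m × Fin 2) ⊕ (Fin m × Fin 2) → Fin N :=
    Sum.elim (fun x => ⟨A x, hA x⟩) (fun x => ⟨B x, hB x⟩)
  have hf : Function.Injective f := by
    rintro (x | x) (y | y) h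
    · simp only [f, Sum.elim_inl, Fin.mk.injEq] at h
      rw [hAA h]
    · simp only [f, Sum.elim_inl, Sum.elim_inr, Fin.mk.injEq] at h
      exact absurd h (hAB _ _)
    · simp only [f, Sum.elim_inl, Sum.elim_inr, Fin.mk.injEq] at h
      exact absurd h.symm (hAB _ _)
    · simp only [f, Sum.elim_inr, Fin.mk.injEq] at h
      rw [hBB h]
  have hfb : Function.Bijective f := by
    rw [Fintype.bijective_iff_injective_and_card]
    refine ⟨hf, ?_⟩
    simp only [Fintype.card_sum, Fintype.card_prod, Fintype.card_fin, N]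
    ring
  let g : Fin m × Fin 2 × Fin 2 → Fin N := fun x => ⟨A (x.1, x.2.1) + B (x.1, x.2.2) - c, by
    have := hran x; simp only [N]; omega⟩
  have hg : Function.Injective g := by
    intro x y hxy
    simp only [g, Fin.mk.injEq] at hxy
    have h1 := hran x
    have h2 := hran y
    exact hinj (by simp only; omega)
  have hgb : Function.Bijective g := by
    rw [Fintype.bijective_iff_injective_and_card]
    refine ⟨hg, ?_⟩
    simp only [Fintype.card_prod, Fintype.card_fin, N]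
    ring
  have e1 : ∑ x, ((f x : Fin N) : ℕ) = ∑ k : Fin N, (k : ℕ) := hfb.sum_comp (fun k : Fin N => (k : ℕ))
  have e2 : ∑ x, ((g x : Fin N) : ℕ) = ∑ k : Fin N, (k : ℕ) := hgb.sum_comp (fun k : Fin N => (k : ℕ))
  have e3 : ∑ x : Fin m × Fin 2 × Fin 2, (((g x : Fin N) : ℕ) + c)
      = ∑ x : Fin m × Fin 2 × Fin 2, (A (x.1, x.2.1) + B (x.1, x.2.2)) := by
    apply Finset.sum_congr rfl
    intro x _
    have := (hran x).1
    simp only [g]; omega
  have e4 : ∑ x : Fin m × Fin 2 × Fin 2, (A (x.1, x.2.1) + B (x.1, x.2.2))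
      = 2 * ∑ x, ((f x : Fin N) : ℕ) := by
    simp only [Fintype.sum_sum_type, f, Sum.elim_inl, Sum.elim_inr, Fintype.sum_prod_type,
      Fin.sum_univ_two]
    rw [← Finset.sum_add_distrib, Finset.mul_sum]
    apply Finset.sum_congr rfl
    intro x _
    ring
  have e5 : ∑ k : Fin N, (k : ℕ) = N * (N - 1) / 2 := by
    rw [Fin.sum_univ_eq_sum_range (fun k => k) N, Finset.sum_range_id]
  have e6 : ∑ x : Fin m × Fin 2 × Fin 2, (((g x : Fin N) : ℕ) + c)
      = ∑ k : Fin N, (k : ℕ) + N * c := by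
    rw [Finset.sum_add_distrib, e2]
    simp only [Finset.sum_const, Finset.card_univ, Fintype.card_prod, Fintype.card_fin, smul_eq_mul,
      N]
    ring
  rw [e3, e4, e1] at e6
  have e7 : N * (N - 1) / 2 = N * c := by omega
  have e8 : N * (N - 1) = 2 * (m * (2 * (N - 1))) := by simp only [N]; ring
  rw [e8, Nat.mul_div_cancel_left _ (by norm_num)] at e7
  have e9 : m * (2 * (N - 1)) = m * (4 * c) := by rw [e7]; simp only [N]; ring
  have e10 := Nat.eq_of_mul_eq_mul_left hm e9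
  have e11 : N = 4 * m := by simp only [N]; ring
  omega

end Q261.SQ
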