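import Pool.Agent.Q261.SQDefs

namespace Q261.SQ

lemma sums_eq (m s t : ℕ) (f : Fin m × (Fin s ⊕ Fin t) → ℕ) :
    {z : ℕ | ∃ u v, (mK m s t).Adj u v ∧ f u + f v = z} =
      Set.range (fun x : Fin m × Fin s × Fin t =>
        f (x.1, Sum.inl x.2.1) + f (x.1, Sum.inr x.2.2)) := by
  ext z
  simp only [Set.mem_ofPred_eq, Set.mem_range, Prod.exists]
  constructor
  · rintro ⟨i, x, j, y, hadj, hz⟩
    obtain ⟨k, a, b, ⟨h1, h2⟩ | ⟨h1, h2⟩⟩ := (adj_iff m s t _ _).1 hadj
    · exact ⟨k, a, b, by rw [← h1, ← h2]; exact hz⟩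
    · exact ⟨k, a, b, by rw [← h1, ← h2, add_comm]; exact hz⟩
  · rintro ⟨k, a, b, hz⟩
    exact ⟨k, Sum.inl a, k, Sum.inr b, (adj_iff m s t _ _).2 ⟨k, a, b, Or.inl ⟨rfl, rfl⟩⟩, hz⟩

/-- arrays give a sequential labeling -/
theorem sequential_of_core {m s t : ℕ} (h : Core m s t) : Sequential (mK m s t) := by
  obtain ⟨A, B, c, hc, hA, hB, hAA, hBB, hAB, hcov⟩ := h
  let f : Fin m × (Fin s ⊕ Fin t) → ℕ := fun x =>
    match x.2 with
    | Sum.inl a => A x.1 a
    | Sum.inr b => B x.1 b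
  refine ⟨f, ?_, Or.inl ?_, c, hc, ?_⟩
  · rintro ⟨i, a | b⟩ ⟨j, a' | b'⟩ h
    · obtain ⟨h1, h2⟩ := hAA i i.2 a a.2 j j.2 a' a'.2 h
      rw [Fin.ext h1, Fin.ext h2]
    · exact absurd h (hAB i i.2 a a.2 j j.2 b' b'.2)
    · exact absurd h.symm (hAB j j.2 a' a'.2 i i.2 b b.2)
    · obtain ⟨h1, h2⟩ := hBB i i.2 b b.2 j j.2 b' b'.2 h
      rw [Fin.ext h1, Fin.ext h2]
  · rw [ncard_edgeSet]
    rintro ⟨i, a | b⟩
    · exact hA i i.2 a a.2
    · exact hB i i.2 b b.2
  · rw [ncard_edgeSet, sums_eq]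
    have h1 : Finset.Ico c (c + m * s * t) ⊆ (Finset.univ : Finset (Fin m × Fin s × Fin t)).image
        (fun x => f (x.1, Sum.inl x.2.1) + f (x.1, Sum.inr x.2.2)) := by
      intro z hz
      rw [Finset.mem_Ico] at hz
      obtain ⟨i, hi, a, ha, b, hb, hz'⟩ := hcov z hz.1 hz.2
      rw [Finset.mem_image]
      exact ⟨(⟨i, hi⟩, ⟨a, ha⟩, ⟨b, hb⟩), Finset.mem_univ _, hz'⟩
    have h2 := Finset.eq_of_subset_of_card_le h1 (by
      refine le_trans Finset.card_image_le ?_
      simp [mul_assoc])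
    have h3 : (Finset.Ico c (c + m * s * t) : Set ℕ) = Set.Ico c (c + m * s * t) := by simp
    rw [← h3, h2]
    simp

/-- outside the tree case a sequential labeling gives arrays -/
theorem core_of_sequential {m s t : ℕ} (hnt : ¬ (m = 1 ∧ (s = 1 ∨ t = 1)))
    (h : Sequential (mK m s t)) : Core m s t := by
  obtain ⟨f, hinj, hr, c, hc, hs⟩ := h
  have hr' : ∀ v, f v < m * s * t := by
    rcases hr with h | ⟨h, -⟩
    · intro v; have := h v; rwa [ncard_edgeSet] at this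
    · exact absurd (tree_imp h) hnt
  rw [ncard_edgeSet, sums_eq] at hs
  refine ⟨fun i a => if h : i < m ∧ a < s then f (⟨i, h.1⟩, Sum.inl ⟨a, h.2⟩) else 0,
    fun i a => if h : i < m ∧ a < t then f (⟨i, h.1⟩, Sum.inr ⟨a, h.2⟩) else 0, c, hc,
    ?_, ?_, ?_, ?_, ?_, ?_⟩
  · intro i hi a ha
    simp only [hi, ha, and_self, dite_true]
    exact hr' _
  · intro i hi a ha
    simp only [hi, ha, and_self, dite_true]
    exact hr' _
  · intro i hi a ha j hj b hb h
    simp only [hi, ha, hj, hb, and_self, dite_true] at h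
    simpa using hinj h
  · intro i hi a ha j hj b hb h
    simp only [hi, ha, hj, hb, and_self, dite_true] at h
    simpa using hinj h
  · intro i hi a ha j hj b hb h
    simp only [hi, ha, hj, hb, and_self, dite_true] at h
    simpa using hinj h
  · intro z hz1 hz2
    have : z ∈ Set.range (fun x : Fin m × Fin s × Fin t =>
        f (x.1, Sum.inl x.2.1) + f (x.1, Sum.inr x.2.2)) := by
      rw [hs]; exact ⟨hz1, hz2⟩
    obtain ⟨⟨i, a, b⟩, hx⟩ := this
    refine ⟨i, i.2, a, a.2, b, b.2, ?_⟩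
    simp only [i.2, a.2, b.2, and_self, dite_true]
    exact hx

/-- `m K_{s,t}` and `m K_{t,s}` -/
theorem core_symm {m s t : ℕ} (h : Core m s t) : Core m t s := by
  obtain ⟨A, B, c, hc, hA, hB, hAA, hBB, hAB, hcov⟩ := h
  have e : m * t * s = m * s * t := by ring
  refine ⟨B, A, c, hc, ?_, ?_, hBB, hAA, ?_, ?_⟩
  · rw [e]; exact hB
  · rw [e]; exact hA
  · intro i hi a ha j hj b hb h
    exact hAB j hj b hb i hi a ha h.symm
  · intro z h1 h2
    rw [e] at h2
    obtain ⟨i, hi, a, ha, b, hb, hz⟩ := hcov z h1 h2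
    exact ⟨i, hi, b, hb, a, ha, by rw [add_comm]; exact hz⟩

/-- blow-up of one side by a factor `e` -/
theorem core_blow {m d t e : ℕ} (he : 0 < e) (h : Core m d t) : Core m (d * e) t := by
  obtain ⟨A, B, c, hc, hA, hB, hAA, hBB, hAB, hcov⟩ := h
  have key : ∀ x y r : ℕ, r < e → x < y → e * x + r < e * y := by
    intro x y r hr hxy
    calc e * x + r < e * x + e := by omega
      _ = e * (x + 1) := by ring
      _ ≤ e * y := Nat.mul_le_mul_left _ hxy
  have dm : ∀ x r : ℕ, r < e → (e * x + r) / e = x ∧ (e * x + r) % e = r := by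
    intro x r hr
    constructor
    · rw [Nat.mul_add_div he, Nat.div_eq_of_lt hr, add_zero]
    · rw [Nat.mul_add_mod, Nat.mod_eq_of_lt hr]
  have eq : m * (d * e) * t = e * (m * d * t) := by ring
  have hlt : ∀ a, a < d * e → a / e < d := fun a ha => Nat.div_lt_of_lt_mul (by rwa [mul_comm e d])
  refine ⟨fun i a => e * A i (a / e) + a % e, fun i b => e * B i b, e * c, Nat.mul_pos he hc,
    ?_, ?_, ?_, ?_, ?_, ?_⟩
  · intro i hi a ha
    rw [eq]
    exact key _ _ _ (Nat.mod_lt _ he) (hA i hi _ (hlt a ha))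
  · intro i hi b hb
    rw [eq]
    exact Nat.mul_lt_mul_of_pos_left (hB i hi b hb) he
  · intro i hi a ha j hj b hb h
    simp only at h
    have h1 := dm (A i (a / e)) (a % e) (Nat.mod_lt _ he)
    have h2 := dm (A j (b / e)) (b % e) (Nat.mod_lt _ he)
    rw [h] at h1
    obtain ⟨h3, h4⟩ := hAA i hi _ (hlt a ha) j hj _ (hlt b hb) (h1.1.symm.trans h2.1)
    refine ⟨h3, ?_⟩
    have h5 : a % e = b % e := h1.2.symm.trans h2.2
    rw [← Nat.div_add_mod a e, ← Nat.div_add_mod b e, h4, h5]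
  · intro i hi a ha j hj b hb h
    exact hBB i hi a ha j hj b hb (Nat.eq_of_mul_eq_mul_left he h)
  · intro i hi a ha j hj b hb h
    simp only at h
    have h1 := dm (A i (a / e)) (a % e) (Nat.mod_lt _ he)
    have h2 := dm (B j b) 0 he
    rw [add_zero] at h2
    rw [h] at h1
    exact hAB i hi _ (hlt a ha) j hj b hb (h1.1.symm.trans h2.1)
  · intro z hz1 hz2
    rw [eq] at hz2
    have h1 : c ≤ z / e := by
      rw [Nat.le_div_iff_mul_le he, mul_comm]; exact hz1
    have h2 : z / e < c + m * d * t := by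
      apply Nat.div_lt_of_lt_mul
      rw [mul_add]; exact hz2
    obtain ⟨i, hi, a, ha, b, hb, hz⟩ := hcov _ h1 h2
    refine ⟨i, hi, e * a + z % e, ?_, b, hb, ?_⟩
    · rw [mul_comm d e]; exact key _ _ _ (Nat.mod_lt _ he) ha
    · simp only
      rw [(dm a (z % e) (Nat.mod_lt _ he)).1, (dm a (z % e) (Nat.mod_lt _ he)).2]
      calc e * A i a + z % e + e * B i b = e * (A i a + B i b) + z % e := by ring
        _ = z := by rw [hz]; exact Nat.div_add_mod z e

end Q261.SQ
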