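import Pool.Agent.Q261.SQNeg

/-!
A verified exhaustive search: `2 K_{s,t}` has no sequential labeling (used for `(s,t) = (2,3)` and
`(3,3)`).
-/

namespace Q261.SQ

/-- is `x` a sum of the two partial rectangles? -/
def cov (y : ℕ) (a0 b0 a1 b1 : List ℕ) (x : ℕ) : Bool :=
  (a0.any fun a => b0.any fun b => a + b == x) || (a1.any fun a => b1.any fun b => y + a + b == x)

/-- no placement of the four sets -/
def noPlace (n y : ℕ) (a0 b0 a1 b1 : List ℕ) : Bool :=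
  (List.range n).all fun c => (List.range (c + 1)).all fun p =>
    (a0.any fun a => decide (n ≤ a + p)) || (b0.any fun b => decide (n ≤ b + (c - p))) ||
    (a0.any fun a => b0.any fun b => a + p == b + (c - p)) ||
    (List.range (c + y + 1)).all fun r =>
      (a1.any fun a => decide (n ≤ a + r)) || (b1.any fun b => decide (n ≤ b + (c + y - r))) ||
      (a1.any fun a => b1.any fun b => a + r == b + (c + y - r)) ||
      (a0.any fun a => a1.any fun a' => a + p == a' + r) ||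
      (a0.any fun a => b1.any fun b' => a + p == b' + (c + y - r)) ||
      (b0.any fun b => a1.any fun a' => b + (c - p) == a' + r) ||
      (b0.any fun b => b1.any fun b' => b + (c - p) == b' + (c + y - r))

/-- the search; `true` means that no completion exists -/
def refute (n s t y : ℕ) : ℕ → ℕ → List ℕ → List ℕ → List ℕ → List ℕ → Bool
  | 0, _, a0, b0, a1, b1 => noPlace n y a0 b0 a1 b1
  | k + 1, x, a0, b0, a1, b1 =>
    if x = y then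
      (cov y a0 b0 a1 b1 x || refute n s t y k (x + 1) a0 b0 [0] [0])
    else if cov y a0 b0 a1 b1 x then refute n s t y k (x + 1) a0 b0 a1 b1
    else
      (!(decide (a0.length < s) && b0.all fun b => decide (x + b < n) && !(cov y a0 b0 a1 b1 (x + b)))
        || refute n s t y k (x + 1) (x :: a0) b0 a1 b1) &&
      (!(decide (b0.length < t) && a0.all fun a => decide (x + a < n) && !(cov y a0 b0 a1 b1 (x + a)))
        || refute n s t y k (x + 1) a0 (x :: b0) a1 b1) &&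
      (!(decide (y < x) && decide (a1.length < s) &&
          b1.all fun b => decide (x + b < n) && !(cov y a0 b0 a1 b1 (x + b)))
        || refute n s t y k (x + 1) a0 b0 ((x - y) :: a1) b1) &&
      (!(decide (y < x) && decide (b1.length < t) &&
          a1.all fun a => decide (x + a < n) && !(cov y a0 b0 a1 b1 (x + a)))
        || refute n s t y k (x + 1) a0 b0 a1 ((x - y) :: b1))

/-- the whole search -/
def refuteAll (s t : ℕ) : Bool :=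
  (List.range (2 * s * t)).all fun y => y == 0 || refute (2 * s * t) s t y (2 * s * t - 1) 1 [0] [0] [] []

/-- a labeled tiling -/
structure Til (n s t y : ℕ) (P Q R S : Finset ℕ) : Prop where
  hP : P.card = s
  hQ : Q.card = t
  hR : R.card = s
  hS : S.card = t
  P0 : 0 ∈ P
  Q0 : 0 ∈ Q
  R0 : 0 ∈ R
  S0 : 0 ∈ S
  y0 : 0 < y
  yn : y < n
  lt0 : ∀ a ∈ P, ∀ b ∈ Q, a + b < n
  lt1 : ∀ a ∈ R, ∀ b ∈ S, y + a + b < n
  u0 : ∀ a ∈ P, ∀ b ∈ Q, ∀ a' ∈ P, ∀ b' ∈ Q, a + b = a' + b' → a = a' ∧ b = b'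
  u1 : ∀ a ∈ R, ∀ b ∈ S, ∀ a' ∈ R, ∀ b' ∈ S, a + b = a' + b' → a = a' ∧ b = b'
  x01 : ∀ a ∈ P, ∀ b ∈ Q, ∀ a' ∈ R, ∀ b' ∈ S, a + b ≠ y + a' + b'
  cover : ∀ x < n, (∃ a ∈ P, ∃ b ∈ Q, a + b = x) ∨ (∃ a ∈ R, ∃ b ∈ S, y + a + b = x)
  place : ∃ c < n, ∃ p ≤ c, ∃ r ≤ c + y,
    (∀ a ∈ P, a + p < n) ∧ (∀ b ∈ Q, b + (c - p) < n) ∧
    (∀ a ∈ P, ∀ b ∈ Q, a + p ≠ b + (c - p)) ∧
    (∀ a ∈ R, a + r < n) ∧ (∀ b ∈ S, b + (c + y - r) < n) ∧
    (∀ a ∈ R, ∀ b ∈ S, a + r ≠ b + (c + y - r)) ∧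
    (∀ a ∈ P, ∀ a' ∈ R, a + p ≠ a' + r) ∧
    (∀ a ∈ P, ∀ b ∈ S, a + p ≠ b + (c + y - r)) ∧
    (∀ b ∈ Q, ∀ a ∈ R, b + (c - p) ≠ a + r) ∧
    (∀ b ∈ Q, ∀ b' ∈ S, b + (c - p) ≠ b' + (c + y - r))

/-- invariant of the search -/
structure Inv (x y : ℕ) (P Q R S : Finset ℕ) (a0 b0 a1 b1 : List ℕ) : Prop where
  iP : ∀ z, z ∈ a0 ↔ z ∈ P ∧ z < x
  iQ : ∀ z, z ∈ b0 ↔ z ∈ Q ∧ z < x
  iR : ∀ z, z ∈ a1 ↔ z ∈ R ∧ y + z < x
  iS : ∀ z, z ∈ b1 ↔ z ∈ S ∧ y + z < x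
  nP : a0.Nodup
  nQ : b0.Nodup
  nR : a1.Nodup
  nS : b1.Nodup

lemma cov_iff (y : ℕ) (a0 b0 a1 b1 : List ℕ) (x : ℕ) :
    cov y a0 b0 a1 b1 x = true ↔
      (∃ a ∈ a0, ∃ b ∈ b0, a + b = x) ∨ (∃ a ∈ a1, ∃ b ∈ b1, y + a + b = x) := by
  simp [cov]

lemma noPlace_false {n s t y : ℕ} {P Q R S : Finset ℕ} (T : Til n s t y P Q R S)
    {a0 b0 a1 b1 : List ℕ} (h0 : ∀ z, z ∈ a0 ↔ z ∈ P) (h1 : ∀ z, z ∈ b0 ↔ z ∈ Q)
    (h2 : ∀ z, z ∈ a1 ↔ z ∈ R) (h3 : ∀ z, z ∈ b1 ↔ z ∈ S) : noPlace n y a0 b0 a1 b1 = false := by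
  obtain ⟨c, hc, p, hp, r, hr, k1, k2, k3, k4, k5, k6, k7, k8, k9, k10⟩ := T.place
  rw [Bool.eq_false_iff]
  intro h
  simp only [noPlace, List.all_eq_true, List.mem_range, Bool.or_eq_true, List.any_eq_true,
    decide_eq_true_eq, beq_iff_eq] at h
  rcases h c hc p (by omega) with ((⟨a, ha, e⟩ | ⟨b, hb, e⟩) | ⟨a, ha, b, hb, e⟩) | h
  · have := k1 a ((h0 a).1 ha); omega
  · have := k2 b ((h1 b).1 hb); omega
  · exact k3 a ((h0 a).1 ha) b ((h1 b).1 hb) e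
  · rcases h r (by omega) with
      (((((⟨a, ha, e⟩ | ⟨b, hb, e⟩) | ⟨a, ha, b, hb, e⟩) | ⟨a, ha, b, hb, e⟩) |
        ⟨a, ha, b, hb, e⟩) | ⟨a, ha, b, hb, e⟩) | ⟨a, ha, b, hb, e⟩
    · have := k4 a ((h2 a).1 ha); omega
    · have := k5 b ((h3 b).1 hb); omega
    · exact k6 a ((h2 a).1 ha) b ((h3 b).1 hb) e
    · exact k7 a ((h0 a).1 ha) b ((h2 b).1 hb) e
    · exact k8 a ((h0 a).1 ha) b ((h3 b).1 hb) e
    · exact k9 a ((h1 a).1 ha) b ((h2 b).1 hb) e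
    · exact k10 a ((h1 a).1 ha) b ((h3 b).1 hb) e

end Q261.SQ
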