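import Pool.Agent.Q261.SQSearch

namespace Q261.SQ

lemma len_lt {X : Finset ℕ} {l : List ℕ} {x k : ℕ} (hX : X.card = k) (hn : l.Nodup)
    (hsub : ∀ z ∈ l, z ∈ X) (hx : x ∈ X) (hxl : x ∉ l) : l.length < k := by
  have h1 : (x :: l).toFinset ⊆ X := by
    intro z hz
    simp only [List.mem_toFinset, List.mem_cons] at hz
    rcases hz with rfl | hz
    · exact hx
    · exact hsub z hz
  have h2 : (x :: l).toFinset.card = (x :: l).length :=
    List.toFinset_card_of_nodup (List.nodup_cons.2 ⟨hxl, hn⟩)
  have h3 := Finset.card_le_card h1
  rw [h2, hX, List.length_cons] at h3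
  omega

theorem refute_false {n s t y : ℕ} {P Q R S : Finset ℕ} (T : Til n s t y P Q R S) :
    ∀ (k x : ℕ) (a0 b0 a1 b1 : List ℕ), 1 ≤ x → x + k = n → Inv x y P Q R S a0 b0 a1 b1 →
      refute n s t y k x a0 b0 a1 b1 = false := by
  intro k
  induction k with
  | zero =>
    intro x a0 b0 a1 b1 hx hxn I
    unfold refute
    refine noPlace_false T ?_ ?_ ?_ ?_
    · intro z
      rw [I.iP]
      refine ⟨fun h => h.1, fun h => ⟨h, ?_⟩⟩
      have := T.lt0 z h 0 T.Q0; omega
    · intro z
      rw [I.iQ]
      refine ⟨fun h => h.1, fun h => ⟨h, ?_⟩⟩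
      have := T.lt0 0 T.P0 z h; omega
    · intro z
      rw [I.iR]
      refine ⟨fun h => h.1, fun h => ⟨h, ?_⟩⟩
      have := T.lt1 z h 0 T.S0; omega
    · intro z
      rw [I.iS]
      refine ⟨fun h => h.1, fun h => ⟨h, ?_⟩⟩
      have := T.lt1 0 T.R0 z h; omega
  | succ k ih =>
    intro x a0 b0 a1 b1 hx hxn I
    have hxn' : x < n := by omega
    unfold refute
    -- facts on partial lists
    have fP : ∀ z ∈ a0, z ∈ P ∧ z < x := fun z hz => (I.iP z).1 hz
    have fQ : ∀ z ∈ b0, z ∈ Q ∧ z < x := fun z hz => (I.iQ z).1 hz
    have fR : ∀ z ∈ a1, z ∈ R ∧ y + z < x := fun z hz => (I.iR z).1 hz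
    have fS : ∀ z ∈ b1, z ∈ S ∧ y + z < x := fun z hz => (I.iS z).1 hz
    split_ifs with hxy hcv0
    · -- x = y
      subst hxy
      rw [Bool.or_eq_false_iff]
      constructor
      · rw [Bool.eq_false_iff, Ne, cov_iff]
        rintro (⟨a, ha, b, hb, e⟩ | ⟨a, ha, b, hb, e⟩)
        · exact T.x01 a (fP a ha).1 b (fQ b hb).1 0 T.R0 0 T.S0 (by omega)
        · have := (fR a ha).2; omega
      · refine ih _ _ _ _ _ (by omega) (by omega) ?_
        have hP : x ∉ P := fun h => T.x01 x h 0 T.Q0 0 T.R0 0 T.S0 (by omega)
        have hQ : x ∉ Q := fun h => T.x01 0 T.P0 x h 0 T.R0 0 T.S0 (by omega)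
        refine ⟨?_, ?_, ?_, ?_, I.nP, I.nQ, by simp, by simp⟩
        · intro z
          rw [I.iP]
          constructor
          · rintro ⟨h1, h2⟩; exact ⟨h1, by omega⟩
          · rintro ⟨h1, h2⟩
            refine ⟨h1, ?_⟩
            rcases Nat.lt_or_ge z x with h3 | h3
            · exact h3
            · obtain rfl : z = x := by omega
              exact absurd h1 hP
        · intro z
          rw [I.iQ]
          constructor
          · rintro ⟨h1, h2⟩; exact ⟨h1, by omega⟩
          · rintro ⟨h1, h2⟩
            refine ⟨h1, ?_⟩
            rcases Nat.lt_or_ge z x with h3 | h3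
            · exact h3
            · obtain rfl : z = x := by omega
              exact absurd h1 hQ
        · intro z
          simp only [List.mem_singleton]
          constructor
          · rintro rfl; exact ⟨T.R0, by omega⟩
          · rintro ⟨h1, h2⟩; omega
        · intro z
          simp only [List.mem_singleton]
          constructor
          · rintro rfl; exact ⟨T.S0, by omega⟩
          · rintro ⟨h1, h2⟩; omega
    · -- covered
      rw [cov_iff] at hcv0
      refine ih _ _ _ _ _ (by omega) (by omega) ?_
      have hP : x ∉ P := by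
        intro h
        rcases hcv0 with ⟨a, ha, b, hb, e⟩ | ⟨a, ha, b, hb, e⟩
        · have := T.u0 a (fP a ha).1 b (fQ b hb).1 x h 0 T.Q0 (by omega)
          have := (fP a ha).2; omega
        · exact T.x01 x h 0 T.Q0 a (fR a ha).1 b (fS b hb).1 (by omega)
      have hQ : x ∉ Q := by
        intro h
        rcases hcv0 with ⟨a, ha, b, hb, e⟩ | ⟨a, ha, b, hb, e⟩
        · have := T.u0 a (fP a ha).1 b (fQ b hb).1 0 T.P0 x h (by omega)
          have := (fQ b hb).2; omega
        · exact T.x01 0 T.P0 x h a (fR a ha).1 b (fS b hb).1 (by omega)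
      have hR : ∀ z ∈ R, y + z ≠ x := by
        intro z h e'
        rcases hcv0 with ⟨a, ha, b, hb, e⟩ | ⟨a, ha, b, hb, e⟩
        · exact T.x01 a (fP a ha).1 b (fQ b hb).1 z h 0 T.S0 (by omega)
        · have := T.u1 a (fR a ha).1 b (fS b hb).1 z h 0 T.S0 (by omega)
          have := (fR a ha).2; omega
      have hS : ∀ z ∈ S, y + z ≠ x := by
        intro z h e'
        rcases hcv0 with ⟨a, ha, b, hb, e⟩ | ⟨a, ha, b, hb, e⟩
        · exact T.x01 a (fP a ha).1 b (fQ b hb).1 0 T.R0 z h (by omega)
        · have := T.u1 a (fR a ha).1 b (fS b hb).1 0 T.R0 z h (by omega)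
          have := (fS b hb).2; omega
      refine ⟨?_, ?_, ?_, ?_, I.nP, I.nQ, I.nR, I.nS⟩
      · intro z
        rw [I.iP]
        constructor
        · rintro ⟨h1, h2⟩; exact ⟨h1, by omega⟩
        · rintro ⟨h1, h2⟩
          refine ⟨h1, ?_⟩
          rcases Nat.lt_or_ge z x with h3 | h3
          · exact h3
          · obtain rfl : z = x := by omega
            exact absurd h1 hP
      · intro z
        rw [I.iQ]
        constructor
        · rintro ⟨h1, h2⟩; exact ⟨h1, by omega⟩
        · rintro ⟨h1, h2⟩
          refine ⟨h1, ?_⟩
          rcases Nat.lt_or_ge z x with h3 | h3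
          · exact h3
          · obtain rfl : z = x := by omega
            exact absurd h1 hQ
      · intro z
        rw [I.iR]
        constructor
        · rintro ⟨h1, h2⟩; exact ⟨h1, by omega⟩
        · rintro ⟨h1, h2⟩
          exact ⟨h1, by have := hR z h1; omega⟩
      · intro z
        rw [I.iS]
        constructor
        · rintro ⟨h1, h2⟩; exact ⟨h1, by omega⟩
        · rintro ⟨h1, h2⟩
          exact ⟨h1, by have := hS z h1; omega⟩
    · -- not covered: a new element
      have hnc : ∀ z, cov y a0 b0 a1 b1 z = true →
          (∃ a ∈ P, ∃ b ∈ Q, a < x ∧ b < x ∧ a + b = z) ∨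
          (∃ a ∈ R, ∃ b ∈ S, y + a < x ∧ y + b < x ∧ y + a + b = z) := by
        intro z hz
        rw [cov_iff] at hz
        rcases hz with ⟨a, ha, b, hb, e⟩ | ⟨a, ha, b, hb, e⟩
        · exact Or.inl ⟨a, (fP a ha).1, b, (fQ b hb).1, (fP a ha).2, (fQ b hb).2, e⟩
        · exact Or.inr ⟨a, (fR a ha).1, b, (fS b hb).1, (fR a ha).2, (fS b hb).2, e⟩
      have hlow : (x ∈ P ∨ x ∈ Q) ∨ (y < x ∧ (x - y ∈ R ∨ x - y ∈ S)) := by
        rcases T.cover x hxn' with ⟨a, ha, b, hb, e⟩ | ⟨a, ha, b, hb, e⟩
        · left
          rcases Nat.eq_zero_or_pos b with rfl | hb0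
          · left; rwa [← e, add_zero]
          rcases Nat.eq_zero_or_pos a with rfl | ha0
          · right; rwa [← e, zero_add]
          exfalso
          apply hcv0
          rw [cov_iff]
          exact Or.inl ⟨a, (I.iP a).2 ⟨ha, by omega⟩, b, (I.iQ b).2 ⟨hb, by omega⟩, e⟩
        · right
          refine ⟨by omega, ?_⟩
          rcases Nat.eq_zero_or_pos b with rfl | hb0
          · left
            have : x - y = a := by omega
            rwa [this]
          rcases Nat.eq_zero_or_pos a with rfl | ha0
          · right
            have : x - y = b := by omega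
            rwa [this]
          exfalso
          apply hcv0
          rw [cov_iff]
          exact Or.inr ⟨a, (I.iR a).2 ⟨ha, by omega⟩, b, (I.iS b).2 ⟨hb, by omega⟩, e⟩
      rcases hlow with (hp | hq) | ⟨hyx, hr | hs⟩
      · -- x ∈ P
        have hxa : x ∉ a0 := fun h => by have := (fP x h).2; omega
        have hc1 : a0.length < s := len_lt T.hP I.nP (fun z hz => (fP z hz).1) hp hxa
        have hc2 : (b0.all fun b => decide (x + b < n) && !(cov y a0 b0 a1 b1 (x + b))) = true := by
          rw [List.all_eq_true]
          intro b hb
          rw [Bool.and_eq_true]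
          refine ⟨decide_eq_true (T.lt0 x hp b (fQ b hb).1), ?_⟩
          rw [Bool.not_eq_true', Bool.eq_false_iff]
          intro hcv
          rcases hnc _ hcv with ⟨a, ha, b', hb', l1, l2, e⟩ | ⟨a, ha, b', hb', l1, l2, e⟩
          · have := T.u0 a ha b' hb' x hp b (fQ b hb).1 e
            omega
          · exact T.x01 x hp b (fQ b hb).1 a ha b' hb' e.symm
        have hrec : refute n s t y k (x + 1) (x :: a0) b0 a1 b1 = false := by
          refine ih _ _ _ _ _ (by omega) (by omega) ?_
          refine ⟨?_, ?_, ?_, ?_, List.nodup_cons.2 ⟨hxa, I.nP⟩, I.nQ, I.nR, I.nS⟩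
          · intro z
            rw [List.mem_cons, I.iP]
            constructor
            · rintro (rfl | ⟨h1, h2⟩)
              · exact ⟨hp, by omega⟩
              · exact ⟨h1, by omega⟩
            · rintro ⟨h1, h2⟩
              rcases Nat.lt_or_ge z x with h3 | h3
              · exact Or.inr ⟨h1, h3⟩
              · exact Or.inl (by omega)
          · intro z
            rw [I.iQ]
            constructor
            · rintro ⟨h1, h2⟩; exact ⟨h1, by omega⟩
            · rintro ⟨h1, h2⟩
              refine ⟨h1, ?_⟩
              rcases Nat.lt_or_ge z x with h3 | h3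
              · exact h3
              · obtain rfl : z = x := by omega
                have := T.u0 z hp 0 T.Q0 0 T.P0 z h1 (by omega)
                omega
          · intro z
            rw [I.iR]
            constructor
            · rintro ⟨h1, h2⟩; exact ⟨h1, by omega⟩
            · rintro ⟨h1, h2⟩
              refine ⟨h1, ?_⟩
              by_contra h3
              exact T.x01 x hp 0 T.Q0 z h1 0 T.S0 (by omega)
          · intro z
            rw [I.iS]
            constructor
            · rintro ⟨h1, h2⟩; exact ⟨h1, by omega⟩
            · rintro ⟨h1, h2⟩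
              refine ⟨h1, ?_⟩
              by_contra h3
              exact T.x01 x hp 0 T.Q0 0 T.R0 z h1 (by omega)
        rw [hc2, hrec, decide_eq_true hc1]
        simp
      · -- x ∈ Q
        have hxa : x ∉ b0 := fun h => by have := (fQ x h).2; omega
        have hc1 : b0.length < t := len_lt T.hQ I.nQ (fun z hz => (fQ z hz).1) hq hxa
        have hc2 : (a0.all fun a => decide (x + a < n) && !(cov y a0 b0 a1 b1 (x + a))) = true := by
          rw [List.all_eq_true]
          intro b hb
          rw [Bool.and_eq_true]
          refine ⟨decide_eq_true (by have := T.lt0 b (fP b hb).1 x hq; omega), ?_⟩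
          rw [Bool.not_eq_true', Bool.eq_false_iff]
          intro hcv
          rcases hnc _ hcv with ⟨a, ha, b', hb', l1, l2, e⟩ | ⟨a, ha, b', hb', l1, l2, e⟩
          · have := T.u0 a ha b' hb' b (fP b hb).1 x hq (by omega)
            omega
          · exact T.x01 b (fP b hb).1 x hq a ha b' hb' (by omega)
        have hrec : refute n s t y k (x + 1) a0 (x :: b0) a1 b1 = false := by
          refine ih _ _ _ _ _ (by omega) (by omega) ?_
          refine ⟨?_, ?_, ?_, ?_, I.nP, List.nodup_cons.2 ⟨hxa, I.nQ⟩, I.nR, I.nS⟩
          · intro z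
            rw [I.iP]
            constructor
            · rintro ⟨h1, h2⟩; exact ⟨h1, by omega⟩
            · rintro ⟨h1, h2⟩
              refine ⟨h1, ?_⟩
              rcases Nat.lt_or_ge z x with h3 | h3
              · exact h3
              · obtain rfl : z = x := by omega
                have := T.u0 z h1 0 T.Q0 0 T.P0 z hq (by omega)
                omega
          · intro z
            rw [List.mem_cons, I.iQ]
            constructor
            · rintro (rfl | ⟨h1, h2⟩)
              · exact ⟨hq, by omega⟩
              · exact ⟨h1, by omega⟩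
            · rintro ⟨h1, h2⟩
              rcases Nat.lt_or_ge z x with h3 | h3
              · exact Or.inr ⟨h1, h3⟩
              · exact Or.inl (by omega)
          · intro z
            rw [I.iR]
            constructor
            · rintro ⟨h1, h2⟩; exact ⟨h1, by omega⟩
            · rintro ⟨h1, h2⟩
              refine ⟨h1, ?_⟩
              by_contra h3
              exact T.x01 0 T.P0 x hq z h1 0 T.S0 (by omega)
          · intro z
            rw [I.iS]
            constructor
            · rintro ⟨h1, h2⟩; exact ⟨h1, by omega⟩
            · rintro ⟨h1, h2⟩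
              refine ⟨h1, ?_⟩
              by_contra h3
              exact T.x01 0 T.P0 x hq 0 T.R0 z h1 (by omega)
        rw [hc2, hrec, decide_eq_true hc1]
        simp
      · -- x - y ∈ R
        have hxa : x - y ∉ a1 := fun h => by have := (fR _ h).2; omega
        have hc1 : a1.length < s := len_lt T.hR I.nR (fun z hz => (fR z hz).1) hr hxa
        have hc2 : (b1.all fun b => decide (x + b < n) && !(cov y a0 b0 a1 b1 (x + b))) = true := by
          rw [List.all_eq_true]
          intro b hb
          rw [Bool.and_eq_true]
          refine ⟨decide_eq_true (by have := T.lt1 _ hr b (fS b hb).1; omega), ?_⟩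
          rw [Bool.not_eq_true', Bool.eq_false_iff]
          intro hcv
          rcases hnc _ hcv with ⟨a, ha, b', hb', l1, l2, e⟩ | ⟨a, ha, b', hb', l1, l2, e⟩
          · exact T.x01 a ha b' hb' _ hr b (fS b hb).1 (by omega)
          · have := T.u1 a ha b' hb' _ hr b (fS b hb).1 (by omega)
            omega
        have hrec : refute n s t y k (x + 1) a0 b0 ((x - y) :: a1) b1 = false := by
          refine ih _ _ _ _ _ (by omega) (by omega) ?_
          refine ⟨?_, ?_, ?_, ?_, I.nP, I.nQ, List.nodup_cons.2 ⟨hxa, I.nR⟩, I.nS⟩
          · intro z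
            rw [I.iP]
            constructor
            · rintro ⟨h1, h2⟩; exact ⟨h1, by omega⟩
            · rintro ⟨h1, h2⟩
              refine ⟨h1, ?_⟩
              by_contra h3
              exact T.x01 z h1 0 T.Q0 _ hr 0 T.S0 (by omega)
          · intro z
            rw [I.iQ]
            constructor
            · rintro ⟨h1, h2⟩; exact ⟨h1, by omega⟩
            · rintro ⟨h1, h2⟩
              refine ⟨h1, ?_⟩
              by_contra h3
              exact T.x01 0 T.P0 z h1 _ hr 0 T.S0 (by omega)
          · intro z
            rw [List.mem_cons, I.iR]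
            constructor
            · rintro (rfl | ⟨h1, h2⟩)
              · exact ⟨hr, by omega⟩
              · exact ⟨h1, by omega⟩
            · rintro ⟨h1, h2⟩
              rcases Nat.lt_or_ge (y + z) x with h3 | h3
              · exact Or.inr ⟨h1, h3⟩
              · exact Or.inl (by omega)
          · intro z
            rw [I.iS]
            constructor
            · rintro ⟨h1, h2⟩; exact ⟨h1, by omega⟩
            · rintro ⟨h1, h2⟩
              refine ⟨h1, ?_⟩
              by_contra h3
              have hz : z = x - y := by omega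
              have := T.u1 _ hr 0 T.S0 0 T.R0 z h1 (by omega)
              omega
        rw [hc2, hrec, decide_eq_true hc1, decide_eq_true hyx]
        simp
      · -- x - y ∈ S
        have hxa : x - y ∉ b1 := fun h => by have := (fS _ h).2; omega
        have hc1 : b1.length < t := len_lt T.hS I.nS (fun z hz => (fS z hz).1) hs hxa
        have hc2 : (a1.all fun a => decide (x + a < n) && !(cov y a0 b0 a1 b1 (x + a))) = true := by
          rw [List.all_eq_true]
          intro b hb
          rw [Bool.and_eq_true]
          refine ⟨decide_eq_true (by have := T.lt1 b (fR b hb).1 _ hs; omega), ?_⟩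
          rw [Bool.not_eq_true', Bool.eq_false_iff]
          intro hcv
          rcases hnc _ hcv with ⟨a, ha, b', hb', l1, l2, e⟩ | ⟨a, ha, b', hb', l1, l2, e⟩
          · exact T.x01 a ha b' hb' b (fR b hb).1 _ hs (by omega)
          · have := T.u1 a ha b' hb' b (fR b hb).1 _ hs (by omega)
            omega
        have hrec : refute n s t y k (x + 1) a0 b0 a1 ((x - y) :: b1) = false := by
          refine ih _ _ _ _ _ (by omega) (by omega) ?_
          refine ⟨?_, ?_, ?_, ?_, I.nP, I.nQ, I.nR, List.nodup_cons.2 ⟨hxa, I.nS⟩⟩
          · intro z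
            rw [I.iP]
            constructor
            · rintro ⟨h1, h2⟩; exact ⟨h1, by omega⟩
            · rintro ⟨h1, h2⟩
              refine ⟨h1, ?_⟩
              by_contra h3
              exact T.x01 z h1 0 T.Q0 0 T.R0 _ hs (by omega)
          · intro z
            rw [I.iQ]
            constructor
            · rintro ⟨h1, h2⟩; exact ⟨h1, by omega⟩
            · rintro ⟨h1, h2⟩
              refine ⟨h1, ?_⟩
              by_contra h3
              exact T.x01 0 T.P0 z h1 0 T.R0 _ hs (by omega)
          · intro z
            rw [I.iR]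
            constructor
            · rintro ⟨h1, h2⟩; exact ⟨h1, by omega⟩
            · rintro ⟨h1, h2⟩
              refine ⟨h1, ?_⟩
              by_contra h3
              have hz : z = x - y := by omega
              have := T.u1 z h1 0 T.S0 0 T.R0 _ hs (by omega)
              omega
          · intro z
            rw [List.mem_cons, I.iS]
            constructor
            · rintro (rfl | ⟨h1, h2⟩)
              · exact ⟨hs, by omega⟩
              · exact ⟨h1, by omega⟩
            · rintro ⟨h1, h2⟩
              rcases Nat.lt_or_ge (y + z) x with h3 | h3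
              · exact Or.inr ⟨h1, h3⟩
              · exact Or.inl (by omega)
        rw [hc2, hrec, decide_eq_true hc1, decide_eq_true hyx]
        simp

end Q261.SQ
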