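import Pool.Agent.Q261.SQRed

namespace Q261.SQ

/-- The star template: `2 ≤ s < t`, `4 ≤ t`, `2 ≤ m = k + 1`. -/
theorem core_star {k s t : ℕ} (hk : 1 ≤ k) (hs : 2 ≤ s) (hst : s < t) (ht : 4 ≤ t) :
    Core (k + 1) s t := by
  obtain ⟨w, hw⟩ : ∃ w, s * t = w + s + 1 := by
    refine ⟨s * t - s - 1, ?_⟩
    have : s + 1 ≤ s * t := by nlinarith
    omega
  -- basic facts
  have hw2 : 2 ≤ w := by nlinarith
  have hst2 : s + t + 2 ≤ s * t := by nlinarith
  -- multiples of `s`
  have hmod : ∀ x y, x < t → y < t → s * x = w + s * y → False := by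
    intro x y hx hy h
    have h1 : s ∣ w := by
      have : s ∣ w + s * y := by rw [← h]; exact Dvd.intro _ rfl
      exact (Nat.dvd_add_left (Dvd.intro _ rfl)).1 this
    have h2 : s ∣ w + s + 1 := by rw [← hw]; exact Dvd.intro _ rfl
    have h3 : s ∣ 1 := by
      have h4 : s ∣ w + s := Nat.dvd_add h1 (dvd_refl s)
      exact (Nat.dvd_add_right h4).1 h2
    have := Nat.le_of_dvd one_pos h3
    omega
  have hsb : ∀ b, b < t → s * b ≤ w + 1 := by
    intro b hb
    have h1 : s * (b + 1) ≤ s * t := Nat.mul_le_mul_left _ hb
    rw [mul_add] at h1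
    omega
  have hN : (k + 1) * s * t = k * (w + s + 1) + (w + s + 1) := by
    rw [mul_assoc, hw]; ring
  refine ⟨fun i a => if i < k then i * (s + 1) + a else
      if a = 0 then s else s + t * a + k * (w + s + 1),
    fun i b => if i < k then s + k * (s + 1) + t + i * w + s * b else k * (s + 1) + b,
    s + k * (s + 1), by omega, ?_, ?_, ?_, ?_, ?_, ?_⟩
  · -- range of A
    intro i hi a ha
    rw [hN]
    beta_reduce
    split_ifs with h1 h2
    · have h3 : (i + 1) * (s + 1) ≤ k * (s + 1) := Nat.mul_le_mul_right _ h1
      have h4 : k * (s + 1) ≤ k * (w + s + 1) := Nat.mul_le_mul_left _ (by omega)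
      rw [add_mul] at h3
      omega
    · omega
    · have h3 : t * a ≤ t * (s - 1) := Nat.mul_le_mul_left _ (by omega)
      have h4 : t * (s - 1) + t = s * t := by
        obtain ⟨s', rfl⟩ : ∃ s', s = s' + 1 := ⟨s - 1, by omega⟩
        simp only [Nat.add_sub_cancel]; ring
      omega
  · intro i hi b hb
    rw [hN]
    have h5 := hsb b hb
    beta_reduce
    split_ifs with h1
    · have h3 : (i + 1) * w ≤ k * w := Nat.mul_le_mul_right _ h1
      rw [add_mul] at h3
      have h4 : k * (w + s + 1) = k * w + k * (s + 1) := by ring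
      omega
    · have h4 : k * (w + s + 1) = k * w + k * (s + 1) := by ring
      have h6 : 0 ≤ k * w := zero_le
      omega
  · -- A injective
    intro i hi a ha j hj b hb h
    simp only at h
    have hi' : k * (s + 1) ≤ k * (w + s + 1) := Nat.mul_le_mul_left _ (by omega)
    have hks : s + 1 ≤ k * (s + 1) := by nlinarith
    have hblk : ∀ i a, i < k → a < s → i * (s + 1) + a < k * (s + 1) ∧ i * (s + 1) + a ≠ s := by
      intro i a hi ha
      have h3 : (i + 1) * (s + 1) ≤ k * (s + 1) := Nat.mul_le_mul_right _ hi
      rw [add_mul] at h3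
      refine ⟨by omega, ?_⟩
      rcases Nat.eq_zero_or_pos i with rfl | h4
      · omega
      · have : 1 * (s + 1) ≤ i * (s + 1) := Nat.mul_le_mul_right _ h4
        omega
    have hta : ∀ a, 0 < a → t ≤ t * a := by
      intro a ha
      exact Nat.le_mul_of_pos_right _ ha
    split_ifs at h with h1 h2 h3 h4 h5 h6 h7
    · -- both small
      rcases lt_trichotomy i j with hij | hij | hij
      · have : (i + 1) * (s + 1) ≤ j * (s + 1) := Nat.mul_le_mul_right _ hij
        rw [add_mul] at this; omega
      · subst hij; exact ⟨rfl, by omega⟩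
      · have : (j + 1) * (s + 1) ≤ i * (s + 1) := Nat.mul_le_mul_right _ hij
        rw [add_mul] at this; omega
    · exact absurd h (hblk i a h1 ha).2
    · have := (hblk i a h1 ha).1; omega
    · exact absurd h.symm (hblk j b h5 hb).2
    · exact ⟨by omega, by omega⟩
    · have := hta b (by omega); omega
    · have := (hblk j b ‹_› hb).1; omega
    · have := hta a (by omega); omega
    · refine ⟨by omega, ?_⟩
      have : t * a = t * b := by omega
      exact Nat.eq_of_mul_eq_mul_left (by omega) this
  · -- B injective
    intro i hi a ha j hj b hb h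
    simp only at h
    have hcase : ∀ i j a b, i < j → j < k → a < t → b < t →
        i * w + s * a = j * w + s * b → False := by
      intro i j a b hij hj ha hb h
      obtain ⟨e, rfl⟩ : ∃ e, j = i + 1 + e := ⟨j - i - 1, by omega⟩
      have h1 := hsb a ha
      have h2 : (i + 1 + e) * w = i * w + w + e * w := by ring
      rw [h2] at h
      rcases Nat.eq_zero_or_pos e with rfl | he
      · exact hmod a b ha hb (by omega)
      · have : 1 * w ≤ e * w := Nat.mul_le_mul_right _ he
        omega
    split_ifs at h with h1 h2 h3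
    · rcases lt_trichotomy i j with hij | hij | hij
      · exact (hcase i j a b hij h2 ha hb (by omega)).elim
      · subst hij
        refine ⟨rfl, ?_⟩
        have : s * a = s * b := by omega
        exact Nat.eq_of_mul_eq_mul_left (by omega) this
      · exact (hcase j i b a hij h1 hb ha (by omega)).elim
    · omega
    · omega
    · exact ⟨by omega, by omega⟩
  · -- A vs B
    intro i hi a ha j hj b hb h
    simp only at h
    have hks : s + 1 ≤ k * (s + 1) := by nlinarith
    have hblk : ∀ i a, i < k → a < s → i * (s + 1) + a < k * (s + 1) := by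
      intro i a hi ha
      have h3 : (i + 1) * (s + 1) ≤ k * (s + 1) := Nat.mul_le_mul_right _ hi
      rw [add_mul] at h3
      omega
    have hta : ∀ a, 0 < a → t ≤ t * a := by
      intro a ha
      exact Nat.le_mul_of_pos_right _ ha
    have hexp : k * (w + s + 1) = k * w + k * (s + 1) := by ring
    split_ifs at h with h1 h2 h3 h4 h5
    · have := hblk i a h1 ha; omega
    · have := hblk i a h1 ha; omega
    · omega
    · omega
    · -- s + t a + k (w+s+1) = s + k (s+1) + t + j w + s b
      have h7 := hta a (by omega)
      have h6 : k = j + 1 + (k - j - 1) := by omega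
      obtain ⟨e, he⟩ : ∃ e, k = j + 1 + e := ⟨k - j - 1, h6⟩
      have h8 : k * w = j * w + w + e * w := by rw [he]; ring
      have h9 := hsb b hb
      -- t a + w + e w = t + s b
      have h10 : t * a + w + e * w = t + s * b := by omega
      rcases Nat.lt_or_ge 1 a with ha1 | ha1
      · have : t * 2 ≤ t * a := Nat.mul_le_mul_left _ ha1
        have h0 : 0 ≤ e * w := zero_le
        omega
      · have ha2 : a = 1 := by omega
        subst ha2
        rcases Nat.eq_zero_or_pos e with rfl | he'
        · refine hmod b 0 hb (by omega) ?_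
          omega
        · have : 1 * w ≤ e * w := Nat.mul_le_mul_right _ he'
          omega
    · have h7 := hta a (by omega)
      have h0 : 1 * w ≤ k * w := Nat.mul_le_mul_right _ hk
      omega
  · -- covering
    intro z hz1 hz2
    rw [hN] at hz2
    obtain ⟨q, rfl⟩ : ∃ q, z = s + k * (s + 1) + q := ⟨z - (s + k * (s + 1)), by omega⟩
    rcases Nat.lt_or_ge q t with h1 | h1
    · refine ⟨k, by omega, 0, by omega, q, h1, ?_⟩
      simp only [lt_irrefl, if_false, if_true]
      omega
    rcases Nat.lt_or_ge q (t + k * (w + s + 1)) with h2 | h2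
    · obtain ⟨u, rfl⟩ : ∃ u, q = t + u := ⟨q - t, by omega⟩
      have hu : u < k * (w + s + 1) := by omega
      have hW : 0 < w + s + 1 := by omega
      have hi : u / (w + s + 1) < k := Nat.div_lt_of_lt_mul (by rwa [mul_comm])
      have hr : u % (w + s + 1) < w + s + 1 := Nat.mod_lt _ hW
      have hb : u % (w + s + 1) / s < t := by
        apply Nat.div_lt_of_lt_mul
        rwa [hw]
      have hs0 : 0 < s := by omega
      refine ⟨u / (w + s + 1), by omega, u % (w + s + 1) % s, Nat.mod_lt _ hs0,
        u % (w + s + 1) / s, hb, ?_⟩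
      simp only [hi, if_true]
      have e1 := Nat.div_add_mod u (w + s + 1)
      have e2 := Nat.div_add_mod (u % (w + s + 1)) s
      have e3 : u / (w + s + 1) * (s + 1) + u / (w + s + 1) * w
          = (w + s + 1) * (u / (w + s + 1)) := by ring
      omega
    · obtain ⟨u, rfl⟩ : ∃ u, q = t + k * (w + s + 1) + u := ⟨q - (t + k * (w + s + 1)), by omega⟩
      have ht0 : 0 < t := by omega
      have hu : u < t * (s - 1) := by
        have h4 : t * (s - 1) + t = s * t := by
          obtain ⟨s', rfl⟩ : ∃ s', s = s' + 1 := ⟨s - 1, by omega⟩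
          simp only [Nat.add_sub_cancel]; ring
        omega
      have ha : u / t < s - 1 := Nat.div_lt_of_lt_mul hu
      refine ⟨k, by omega, u / t + 1, by omega, u % t, Nat.mod_lt _ ht0, ?_⟩
      simp only [lt_irrefl, if_false]
      have e1 := Nat.div_add_mod u t
      have e2 : t * (u / t + 1) = t * (u / t) + t := by ring
      have e3 : u / t + 1 ≠ 0 := Nat.succ_ne_zero _
      simp only [e3, if_false]
      omega

end Q261.SQ
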