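import Pool.Agent.Q261.SQSound

namespace Q261.SQ

lemma exists_min {k : ℕ} (hk : 0 < k) (f : Fin k → ℕ) : ∃ i, ∀ j, f i ≤ f j := by
  have : Nonempty (Fin k) := ⟨⟨0, hk⟩⟩
  exact Finite.exists_min f

theorem til_of_core {s t : ℕ} (hs : 0 < s) (ht : 0 < t) (h : Core 2 s t) :
    ∃ y P Q R S, Til (2 * s * t) s t y P Q R S := by
  obtain ⟨A, B, c, hc, hA, hB, hAA, hBB, hAB, hinj, hran, hsur⟩ := core'_of_core h
  have hN : 0 < 2 * s * t := by positivity
  obtain ⟨⟨i, a₀, b₀⟩, hx0⟩ := hsur c le_rfl (by omega)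
  simp only at hx0
  -- the other copy
  obtain ⟨j, hij, hall⟩ : ∃ j : Fin 2, i ≠ j ∧ ∀ k, k = i ∨ k = j := by
    fin_cases i
    · exact ⟨1, by decide, by decide⟩
    · exact ⟨0, by decide, by decide⟩
  obtain ⟨pa, hpa⟩ := exists_min hs (fun a => A (i, a))
  obtain ⟨qb, hqb⟩ := exists_min ht (fun b => B (i, b))
  obtain ⟨ra, hra⟩ := exists_min hs (fun a => A (j, a))
  obtain ⟨sb, hsb⟩ := exists_min ht (fun b => B (j, b))
  -- sums
  have rn : ∀ k a b, c ≤ A (k, a) + B (k, b) ∧ A (k, a) + B (k, b) < c + 2 * s * t :=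
    fun k a b => hran (k, a, b)
  have inj : ∀ k a b k' a' b', A (k, a) + B (k, b) = A (k', a') + B (k', b') →
      k = k' ∧ a = a' ∧ b = b' := by
    intro k a b k' a' b' h
    have := @hinj (k, a, b) (k', a', b') h
    simpa using this
  have hc0 : A (i, pa) + B (i, qb) = c := by
    have h1 := (rn i pa qb).1
    have h2 := hpa a₀
    have h3 := hqb b₀
    omega
  obtain ⟨y, hy⟩ : ∃ y, A (j, ra) + B (j, sb) = c + y :=
    ⟨_, (Nat.add_sub_cancel' (rn j ra sb).1).symm⟩
  have hy0 : 0 < y := by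
    rcases Nat.eq_zero_or_pos y with rfl | h
    · exact absurd (inj i pa qb j ra sb (by omega)).1 hij
    · exact h
  have hyn : y < 2 * s * t := by have := (rn j ra sb).2; omega
  have hpc : A (i, pa) ≤ c := by omega
  have hrc : A (j, ra) ≤ c + y := by omega
  have hcn : c < 2 * s * t := by
    obtain ⟨⟨k, a, b⟩, hx⟩ := hsur (c + (2 * s * t - 1)) (by omega) (by omega)
    simp only at hx
    have h1 := hA (k, a)
    have h2 := hB (k, b)
    omega
  let P := (Finset.univ : Finset (Fin s)).image (fun a => A (i, a) - A (i, pa))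
  let Q := (Finset.univ : Finset (Fin t)).image (fun b => B (i, b) - B (i, qb))
  let R := (Finset.univ : Finset (Fin s)).image (fun a => A (j, a) - A (j, ra))
  let S := (Finset.univ : Finset (Fin t)).image (fun b => B (j, b) - B (j, sb))
  have mP : ∀ z, z ∈ P ↔ ∃ a, A (i, a) = A (i, pa) + z := by
    intro z
    simp only [P, Finset.mem_image, Finset.mem_univ, true_and]
    constructor
    · rintro ⟨a, e⟩; exact ⟨a, by have := hpa a; omega⟩
    · rintro ⟨a, e⟩; exact ⟨a, by omega⟩
  have mQ : ∀ z, z ∈ Q ↔ ∃ b, B (i, b) = B (i, qb) + z := by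
    intro z
    simp only [Q, Finset.mem_image, Finset.mem_univ, true_and]
    constructor
    · rintro ⟨a, e⟩; exact ⟨a, by have := hqb a; omega⟩
    · rintro ⟨a, e⟩; exact ⟨a, by omega⟩
  have mR : ∀ z, z ∈ R ↔ ∃ a, A (j, a) = A (j, ra) + z := by
    intro z
    simp only [R, Finset.mem_image, Finset.mem_univ, true_and]
    constructor
    · rintro ⟨a, e⟩; exact ⟨a, by have := hra a; omega⟩
    · rintro ⟨a, e⟩; exact ⟨a, by omega⟩
  have mS : ∀ z, z ∈ S ↔ ∃ b, B (j, b) = B (j, sb) + z := by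
    intro z
    simp only [S, Finset.mem_image, Finset.mem_univ, true_and]
    constructor
    · rintro ⟨a, e⟩; exact ⟨a, by have := hsb a; omega⟩
    · rintro ⟨a, e⟩; exact ⟨a, by omega⟩
  have cardim : ∀ {k : ℕ} (f : Fin k → ℕ) (m0 : Fin k), Function.Injective f → (∀ a, f m0 ≤ f a) →
      ((Finset.univ : Finset (Fin k)).image (fun a => f a - f m0)).card = k := by
    intro k f m0 hf hmin
    rw [Finset.card_image_of_injective, Finset.card_univ, Fintype.card_fin]
    intro a b hab
    simp only at hab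
    have h1 := hmin a
    have h2 := hmin b
    exact hf (by omega)
  have injA : ∀ k, Function.Injective (fun a => A (k, a)) := by
    intro k a b hab
    have := hAA hab
    simpa using this
  have injB : ∀ k, Function.Injective (fun a => B (k, a)) := by
    intro k a b hab
    have := hBB hab
    simpa using this
  refine ⟨y, P, Q, R, S, ?_⟩
  refine
    { hP := cardim _ pa (injA i) hpa
      hQ := cardim _ qb (injB i) hqb
      hR := cardim _ ra (injA j) hra
      hS := cardim _ sb (injB j) hsb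
      P0 := (mP 0).2 ⟨pa, rfl⟩
      Q0 := (mQ 0).2 ⟨qb, rfl⟩
      R0 := (mR 0).2 ⟨ra, rfl⟩
      S0 := (mS 0).2 ⟨sb, rfl⟩
      y0 := hy0
      yn := hyn
      lt0 := ?_
      lt1 := ?_
      u0 := ?_
      u1 := ?_
      x01 := ?_
      cover := ?_
      place := ?_ }
  · intro a ha b hb
    obtain ⟨a', ea⟩ := (mP a).1 ha
    obtain ⟨b', eb⟩ := (mQ b).1 hb
    have := (rn i a' b').2; omega
  · intro a ha b hb
    obtain ⟨a', ea⟩ := (mR a).1 ha
    obtain ⟨b', eb⟩ := (mS b).1 hb
    have := (rn j a' b').2; omega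
  · intro a ha b hb a' ha' b' hb' e
    obtain ⟨a1, ea⟩ := (mP a).1 ha
    obtain ⟨b1, eb⟩ := (mQ b).1 hb
    obtain ⟨a2, ea2⟩ := (mP a').1 ha'
    obtain ⟨b2, eb2⟩ := (mQ b').1 hb'
    obtain ⟨-, h1, h2⟩ := inj i a1 b1 i a2 b2 (by omega)
    subst h1; subst h2
    omega
  · intro a ha b hb a' ha' b' hb' e
    obtain ⟨a1, ea⟩ := (mR a).1 ha
    obtain ⟨b1, eb⟩ := (mS b).1 hb
    obtain ⟨a2, ea2⟩ := (mR a').1 ha'
    obtain ⟨b2, eb2⟩ := (mS b').1 hb'
    obtain ⟨-, h1, h2⟩ := inj j a1 b1 j a2 b2 (by omega)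
    subst h1; subst h2
    omega
  · intro a ha b hb a' ha' b' hb' e
    obtain ⟨a1, ea⟩ := (mP a).1 ha
    obtain ⟨b1, eb⟩ := (mQ b).1 hb
    obtain ⟨a2, ea2⟩ := (mR a').1 ha'
    obtain ⟨b2, eb2⟩ := (mS b').1 hb'
    exact hij (inj i a1 b1 j a2 b2 (by omega)).1
  · intro x hx
    obtain ⟨⟨k, a, b⟩, e⟩ := hsur (c + x) (by omega) (by omega)
    simp only at e
    rcases hall k with rfl | rfl
    · left
      have h1 := hpa a
      have h2 := hqb b
      refine ⟨A (k, a) - A (k, pa), (mP _).2 ⟨a, by omega⟩, B (k, b) - B (k, qb),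
        (mQ _).2 ⟨b, by omega⟩, by omega⟩
    · right
      have h1 := hra a
      have h2 := hsb b
      refine ⟨A (k, a) - A (k, ra), (mR _).2 ⟨a, by omega⟩, B (k, b) - B (k, sb),
        (mS _).2 ⟨b, by omega⟩, by omega⟩
  · refine ⟨c, hcn, A (i, pa), hpc, A (j, ra), hrc, ?_, ?_, ?_, ?_, ?_, ?_, ?_, ?_, ?_, ?_⟩
    · intro a ha
      obtain ⟨a', ea⟩ := (mP a).1 ha
      have := hA (i, a'); omega
    · intro b hb
      obtain ⟨b', eb⟩ := (mQ b).1 hb
      have := hB (i, b'); omega
    · intro a ha b hb e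
      obtain ⟨a', ea⟩ := (mP a).1 ha
      obtain ⟨b', eb⟩ := (mQ b).1 hb
      exact hAB (i, a') (i, b') (by omega)
    · intro a ha
      obtain ⟨a', ea⟩ := (mR a).1 ha
      have := hA (j, a'); omega
    · intro b hb
      obtain ⟨b', eb⟩ := (mS b).1 hb
      have := hB (j, b'); omega
    · intro a ha b hb e
      obtain ⟨a', ea⟩ := (mR a).1 ha
      obtain ⟨b', eb⟩ := (mS b).1 hb
      exact hAB (j, a') (j, b') (by omega)
    · intro a ha b hb e
      obtain ⟨a', ea⟩ := (mP a).1 ha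
      obtain ⟨b', eb⟩ := (mR b).1 hb
      have := @hAA (i, a') (j, b') (by omega)
      simp only [Prod.mk.injEq] at this
      exact hij this.1
    · intro a ha b hb e
      obtain ⟨a', ea⟩ := (mP a).1 ha
      obtain ⟨b', eb⟩ := (mS b).1 hb
      exact hAB (i, a') (j, b') (by omega)
    · intro b hb a ha e
      obtain ⟨b', eb⟩ := (mQ b).1 hb
      obtain ⟨a', ea⟩ := (mR a).1 ha
      exact hAB (j, a') (i, b') (by omega)
    · intro a ha b hb e
      obtain ⟨a', ea⟩ := (mQ a).1 ha
      obtain ⟨b', eb⟩ := (mS b).1 hb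
      have := @hBB (i, a') (j, b') (by omega)
      simp only [Prod.mk.injEq] at this
      exact hij this.1

theorem not_core_of_refute {s t : ℕ} (hs : 0 < s) (ht : 0 < t) (h : refuteAll s t = true) :
    ¬ Core 2 s t := by
  intro hcore
  obtain ⟨y, P, Q, R, S, T⟩ := til_of_core hs ht hcore
  unfold refuteAll at h
  rw [List.all_eq_true] at h
  have h1 := h y (List.mem_range.2 T.yn)
  rw [Bool.or_eq_true] at h1
  rcases h1 with h1 | h1
  · have := T.y0
    rw [beq_iff_eq] at h1
    omega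
  · have hN : 0 < 2 * s * t := by positivity
    rw [refute_false T (2 * s * t - 1) 1 [0] [0] [] [] le_rfl (by omega) ?_] at h1
    · exact absurd h1 (by simp)
    · refine ⟨?_, ?_, ?_, ?_, by simp, by simp, by simp, by simp⟩
      · intro z
        simp only [List.mem_singleton]
        exact ⟨fun h => by subst h; exact ⟨T.P0, by omega⟩, fun h => by omega⟩
      · intro z
        simp only [List.mem_singleton]
        exact ⟨fun h => by subst h; exact ⟨T.Q0, by omega⟩, fun h => by omega⟩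
      · intro z
        have := T.y0
        simp only [List.not_mem_nil, false_iff]
        rintro ⟨-, h⟩; omega
      · intro z
        have := T.y0
        simp only [List.not_mem_nil, false_iff]
        rintro ⟨-, h⟩; omega

end Q261.SQ
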