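import Pool.Agent.Q261.PartGen

/-!
# The signs of the signed partition counts into parts `1 mod 3` are not eventually periodic
-/

set_option autoImplicit false

namespace Q261.SignPart

open Finset Q261.PartGen Filter Topology

/-! ### Asymptotics at the roots of unity -/

/-- the limit of `t T(ζ exp(-t (1 + i y)))` -/
noncomputable def Λ (ζ : ℂ) (y : ℝ) : ℂ :=
  ∑' k : ℕ, if ζ ^ (3 * k) = 1 then (-ζ) ^ k / (3 * k ^ 2 * (1 + y * Complex.I)) else 0

noncomputable def pt (ζ : ℂ) (y t : ℝ) : ℂ := ζ * Complex.exp (-(t * (1 + y * Complex.I)))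

theorem norm_pt {ζ : ℂ} (hζ : ‖ζ‖ = 1) (y t : ℝ) : ‖pt ζ y t‖ = Real.exp (-t) := by
  rw [pt, norm_mul, hζ, one_mul, Complex.norm_exp]
  congr 1
  simp

theorem tendsto_T {ζ : ℂ} (hζ : ‖ζ‖ = 1) (y : ℝ) :
    Tendsto (fun t : ℝ => (t : ℂ) * T (pt ζ y t)) (𝓝[>] 0) (𝓝 (Λ ζ y)) := by
  have e : ∀ t : ℝ, (t : ℂ) * T (pt ζ y t) =
      ∑' k : ℕ, (t : ℂ) * ((-(pt ζ y t)) ^ k / (k * (1 - (pt ζ y t) ^ (3 * k)))) := by
    intro t
    rw [T, tsum_mul_left]
  simp_rw [e]
  unfold Λ
  apply tendsto_tsum_of_dominated_convergence (bound := fun k : ℕ => 1 / (k : ℝ) ^ 2)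
  · exact Real.summable_one_div_nat_pow.2 (by norm_num)
  · intro k
    rcases Nat.eq_zero_or_pos k with rfl | hk
    · simp
    have hk0 : (k : ℂ) ≠ 0 := by exact_mod_cast hk.ne'
    have hcont : Tendsto (fun t : ℝ => pt ζ y t) (𝓝[>] 0) (𝓝 ζ) := by
      have h1 : Continuous (fun t : ℝ => pt ζ y t) := by
        unfold pt; fun_prop
      have h2 := (h1.tendsto 0).mono_left (nhdsWithin_le_nhds (s := Set.Ioi 0))
      simpa [pt] using h2
    have ht0 : Tendsto (fun t : ℝ => (t : ℂ)) (𝓝[>] 0) (𝓝 0) := by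
      have h1 : Continuous (fun t : ℝ => (t : ℂ)) := Complex.continuous_ofReal
      have h2 := (h1.tendsto 0).mono_left (nhdsWithin_le_nhds (s := Set.Ioi 0))
      simpa using h2
    split_ifs with h
    · -- `ζ ^ (3 k) = 1`
      set c : ℂ := -(3 * k * (1 + y * Complex.I)) with hc
      have hc0 : c ≠ 0 := by
        rw [hc, neg_ne_zero]
        refine mul_ne_zero (mul_ne_zero (by norm_num) hk0) ?_
        intro h0
        have := congrArg Complex.re h0
        simp at this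
      have hpow : ∀ t : ℝ, (pt ζ y t) ^ (3 * k) = Complex.exp (t * c) := by
        intro t
        rw [pt, mul_pow, h, one_mul, ← Complex.exp_nat_mul]
        congr 1
        rw [hc]; push_cast; ring
      have hderiv : HasDerivAt (fun t : ℂ => Complex.exp (t * c)) c 0 := by
        have h1 : HasDerivAt (fun t : ℂ => t * c) c 0 := by
          simpa using (hasDerivAt_id (0 : ℂ)).mul_const c
        have h2 := h1.cexp
        simpa using h2
      have hslope : Tendsto (fun t : ℝ => (Complex.exp (t * c) - 1) / (t : ℂ)) (𝓝[>] 0) (𝓝 c) := by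
        have h1 := hasDerivAt_iff_tendsto_slope.1 hderiv
        have h2 : Tendsto (fun t : ℝ => (t : ℂ)) (𝓝[>] 0) (𝓝[≠] 0) := by
          rw [tendsto_nhdsWithin_iff]
          refine ⟨ht0, ?_⟩
          filter_upwards [self_mem_nhdsWithin] with t ht
          simpa using (ne_of_gt ht)
        have h3 := h1.comp h2
        refine h3.congr ?_
        intro t
        simp [slope, div_eq_inv_mul]
      have hinv := hslope.inv₀ hc0
      have h1 : Tendsto (fun t : ℝ => (-(pt ζ y t)) ^ k / k * (-((Complex.exp (t * c) - 1) / (t : ℂ))⁻¹))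
          (𝓝[>] 0) (𝓝 ((-ζ) ^ k / k * (-(c⁻¹)))) :=
        (((hcont.neg).pow k).div_const _).mul hinv.neg
      refine Tendsto.congr' ?_ (h1.trans ?_)
      · filter_upwards [self_mem_nhdsWithin] with t ht
        rw [hpow t, inv_div, div_mul_eq_mul_div, ← neg_sub (Complex.exp (t * c)) 1]
        rw [div_eq_mul_inv, div_eq_mul_inv, div_eq_mul_inv, mul_inv, inv_neg]
        ring
      · apply le_of_eq
        congr 1
        have h2 : (1 + (y : ℂ) * Complex.I) ≠ 0 := by
          intro h0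
          have := congrArg Complex.re h0
          simp at this
        rw [hc]
        field_simp
    · have hne : (1 - ζ ^ (3 * k)) ≠ 0 := by
        intro h0
        exact h (by linear_combination -h0)
      have h1 : Tendsto (fun t : ℝ => (t : ℂ) * ((-(pt ζ y t)) ^ k / (k * (1 - (pt ζ y t) ^ (3 * k)))))
          (𝓝[>] 0) (𝓝 (0 * ((-ζ) ^ k / (k * (1 - ζ ^ (3 * k)))))) := by
        apply ht0.mul
        apply Tendsto.div ((hcont.neg).pow k)
        · exact (tendsto_const_nhds.sub (hcont.pow _)).const_mul _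
        · exact mul_ne_zero hk0 hne
      rwa [zero_mul] at h1
  · filter_upwards [self_mem_nhdsWithin] with t ht
    intro k
    rcases Nat.eq_zero_or_pos k with rfl | hk
    · simp
    have ht' : 0 < t := ht
    have hk0 : (0 : ℝ) < k := by exact_mod_cast hk
    have hkt : 0 < k * t := mul_pos hk0 ht'
    have h1 : ‖(-(pt ζ y t)) ^ k‖ = Real.exp (-(k * t)) := by
      rw [norm_pow, norm_neg, norm_pt hζ, ← Real.exp_nat_mul]
      congr 1; ring
    have h2 : k * t * Real.exp (-(k * t)) ≤ ‖1 - (pt ζ y t) ^ (3 * k)‖ := by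
      have h3 : ‖(pt ζ y t) ^ (3 * k)‖ = Real.exp (-(3 * (k * t))) := by
        rw [norm_pow, norm_pt hζ, ← Real.exp_nat_mul]
        congr 1; push_cast; ring
      have h4 := norm_sub_norm_le (1 : ℂ) ((pt ζ y t) ^ (3 * k))
      rw [norm_one, h3] at h4
      have h5 : Real.exp (-(3 * (k * t))) ≤ Real.exp (-(k * t)) := Real.exp_le_exp.2 (by linarith)
      have h6 : k * t * Real.exp (-(k * t)) ≤ 1 - Real.exp (-(k * t)) := by
        have h7 := Real.add_one_le_exp (k * t)
        have h8 := Real.exp_pos (-(k * t))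
        have h9 : Real.exp (k * t) * Real.exp (-(k * t)) = 1 := by
          rw [← Real.exp_add]; simp
        nlinarith
      linarith
    rw [norm_mul, norm_div, norm_mul, h1, Complex.norm_natCast, Complex.norm_real,
      Real.norm_of_nonneg ht'.le]
    have hE := Real.exp_pos (-(k * t))
    have hpos : 0 < k * t * Real.exp (-(k * t)) := mul_pos hkt hE
    calc t * (Real.exp (-(k * t)) / (k * ‖1 - (pt ζ y t) ^ (3 * k)‖))
        ≤ t * (Real.exp (-(k * t)) / (k * (k * t * Real.exp (-(k * t))))) := by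
          apply mul_le_mul_of_nonneg_left _ ht'.le
          apply div_le_div_of_nonneg_left hE.le (mul_pos hk0 hpos)
          exact mul_le_mul_of_nonneg_left h2 hk0.le
      _ = 1 / (k : ℝ) ^ 2 := by
          field_simp

/-! ### Numerical estimates -/

theorem tail {g : ℕ → ℝ} {C : ℝ} (hg : ∀ k, |g k| ≤ C * (1 / (k : ℝ) ^ 2)) :
    |∑' k, g k - ∑ k ∈ range 7, g k| ≤ C * 0.154 := by
  have hs : Summable (fun k : ℕ => 1 / (k : ℝ) ^ 2) := Real.summable_one_div_nat_pow.2 (by norm_num)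
  have hsg : Summable g := Summable.of_norm_bounded (hs.mul_left C) hg
  have hC : 0 ≤ C := by
    have := hg 1
    have h2 := abs_nonneg (g 1)
    norm_num at this
    linarith
  have h1 := hsg.sum_add_tsum_nat_add 7
  have h2 : ∑' k, g k - ∑ k ∈ range 7, g k = ∑' k, g (k + 7) := by linarith
  rw [h2]
  have h3 := hs.sum_add_tsum_nat_add 7
  have h4 : ∑' k : ℕ, 1 / (k : ℝ) ^ 2 = Real.pi ^ 2 / 6 := hasSum_zeta_two.tsum_eq
  have h5 : Summable (fun k : ℕ => C * (1 / ((k + 7 : ℕ) : ℝ) ^ 2)) :=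
    ((summable_nat_add_iff 7).2 hs).mul_left C
  have h6 : ‖∑' k, g (k + 7)‖ ≤ ∑' k : ℕ, C * (1 / ((k + 7 : ℕ) : ℝ) ^ 2) := by
    apply tsum_of_norm_bounded h5.hasSum
    intro k
    exact hg (k + 7)
  rw [Real.norm_eq_abs] at h6
  rw [tsum_mul_left] at h6
  refine h6.trans (mul_le_mul_of_nonneg_left ?_ hC)
  have h7 : ∑' k : ℕ, 1 / ((k + 7 : ℕ) : ℝ) ^ 2 = Real.pi ^ 2 / 6 - ∑ k ∈ range 7, 1 / (k : ℝ) ^ 2 := by
    rw [← h4]; linarith
  rw [h7]
  have h8 := Real.pi_lt_d4
  have h9 := Real.pi_pos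
  simp only [sum_range_succ, sum_range_zero]
  norm_num
  nlinarith

theorem Λ_re_le_of_three {ζ : ℂ} (h3 : ζ ^ 3 = 1) : (Λ ζ 0).re * 3 ≤ 0.48 := by
  have hn : ‖ζ‖ = 1 := by
    have h1 : ‖ζ‖ ^ 3 = 1 := by rw [← norm_pow, h3, norm_one]
    exact (pow_eq_one_iff_of_nonneg (norm_nonneg _) (by norm_num)).1 h1
  have hall : ∀ k : ℕ, ζ ^ (3 * k) = 1 := fun k => by rw [pow_mul, h3, one_pow]
  have e : Λ ζ 0 * 3 = ∑' k : ℕ, (-ζ) ^ k / (k : ℂ) ^ 2 := by
    rw [Λ, ← tsum_mul_right]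
    apply tsum_congr
    intro k
    rw [if_pos (hall k)]
    rcases Nat.eq_zero_or_pos k with rfl | hk
    · simp
    have hk0 : (k : ℂ) ≠ 0 := by exact_mod_cast hk.ne'
    simp only [Complex.ofReal_zero, zero_mul, add_zero, mul_one]
    field_simp
  have hs : Summable (fun k : ℕ => (-ζ) ^ k / (k : ℂ) ^ 2) := by
    apply Summable.of_norm_bounded (g := fun k : ℕ => 1 / (k : ℝ) ^ 2)
      (Real.summable_one_div_nat_pow.2 (by norm_num))
    intro k
    rw [norm_div, norm_pow, norm_neg, hn, one_pow, norm_pow, Complex.norm_natCast]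
  have e2 : (Λ ζ 0).re * 3 = ∑' k : ℕ, ((-ζ) ^ k / (k : ℂ) ^ 2).re := by
    rw [← Complex.re_tsum hs, ← e]
    simp
  have hg : ∀ k : ℕ, |((-ζ) ^ k / (k : ℂ) ^ 2).re| ≤ 1 * (1 / (k : ℝ) ^ 2) := by
    intro k
    refine (Complex.abs_re_le_norm _).trans (le_of_eq ?_)
    rw [norm_div, norm_pow, norm_neg, hn, one_pow, norm_pow, Complex.norm_natCast, one_mul]
  have ht := tail hg
  rw [← e2] at ht
  have ht2 := (abs_le.1 ht).2
  -- the real parts of the first powers
  have hre2 : (ζ ^ 2).re = ζ.re := by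
    have h4 : ζ ^ 2 = (starRingEnd ℂ) ζ := by
      have h5 : ζ * (starRingEnd ℂ) ζ = 1 := by
        rw [Complex.mul_conj, Complex.normSq_eq_norm_sq, hn]; simp
      have h6 : ζ ≠ 0 := by
        intro h0; rw [h0] at hn; simp at hn
      apply mul_left_cancel₀ h6
      rw [h5, ← h3]; ring
    rw [h4, Complex.conj_re]
  have hc : ζ.re = 1 ∨ ζ.re = -1 / 2 := by
    have h4 : (ζ - 1) * (ζ ^ 2 + ζ + 1) = 0 := by linear_combination h3
    rcases mul_eq_zero.1 h4 with h | h
    · left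
      have : ζ = 1 := by linear_combination h
      rw [this]; simp
    · right
      have := congrArg Complex.re h
      simp only [Complex.add_re, hre2, Complex.one_re, Complex.zero_re] at this
      linarith
  have p1 : ((-ζ) ^ 1 / ((1 : ℕ) : ℂ) ^ 2).re = -ζ.re := by simp
  have p2 : ((-ζ) ^ 2 / ((2 : ℕ) : ℂ) ^ 2).re = ζ.re / 4 := by
    have : (-ζ) ^ 2 / ((2 : ℕ) : ℂ) ^ 2 = ζ ^ 2 / ((4 : ℝ) : ℂ) := by push_cast; ring
    rw [this, Complex.div_ofReal_re, hre2]
  have p3 : ((-ζ) ^ 3 / ((3 : ℕ) : ℂ) ^ 2).re = -1 / 9 := by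
    have : (-ζ) ^ 3 / ((3 : ℕ) : ℂ) ^ 2 = ((-1 / 9 : ℝ) : ℂ) := by
      push_cast; rw [neg_pow, h3]; ring
    rw [this, Complex.ofReal_re]
  have p4 : ((-ζ) ^ 4 / ((4 : ℕ) : ℂ) ^ 2).re = ζ.re / 16 := by
    have : (-ζ) ^ 4 / ((4 : ℕ) : ℂ) ^ 2 = ζ / ((16 : ℝ) : ℂ) := by
      push_cast
      have : (-ζ) ^ 4 = ζ := by linear_combination ζ * h3
      rw [this]; norm_num
    rw [this, Complex.div_ofReal_re]
  have p5 : ((-ζ) ^ 5 / ((5 : ℕ) : ℂ) ^ 2).re = -ζ.re / 25 := by
    have : (-ζ) ^ 5 / ((5 : ℕ) : ℂ) ^ 2 = (-ζ ^ 2) / ((25 : ℝ) : ℂ) := by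
      push_cast
      have : (-ζ) ^ 5 = -ζ ^ 2 := by linear_combination (-ζ ^ 2) * h3
      rw [this]; norm_num
    rw [this, Complex.div_ofReal_re, Complex.neg_re, hre2]
  have p6 : ((-ζ) ^ 6 / ((6 : ℕ) : ℂ) ^ 2).re = 1 / 36 := by
    have : (-ζ) ^ 6 / ((6 : ℕ) : ℂ) ^ 2 = ((1 / 36 : ℝ) : ℂ) := by
      push_cast
      have : (-ζ) ^ 6 = 1 := by linear_combination (ζ ^ 3 + 1) * h3
      rw [this]; norm_num
    rw [this, Complex.ofReal_re]
  have p0 : ((-ζ) ^ 0 / ((0 : ℕ) : ℂ) ^ 2).re = 0 := by simp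
  simp only [sum_range_succ, sum_range_zero, p0, p1, p2, p3, p4, p5, p6] at ht2
  rcases hc with hc | hc <;> rw [hc] at ht2 <;> norm_num at ht2 ⊢ <;> linarith

theorem Λ_re_le_of_ne {ζ : ℂ} (h3 : ζ ^ 3 ≠ 1) {P : ℕ} (hP : 1 ≤ P) (hζ : ζ ^ P = 1) :
    (Λ ζ 0).re * 3 ≤ 0.48 := by
  have hn : ‖ζ‖ = 1 := by
    have h1 : ‖ζ‖ ^ P = 1 := by rw [← norm_pow, hζ, norm_one]
    exact (pow_eq_one_iff_of_nonneg (norm_nonneg _) (by omega)).1 h1
  set d := orderOf (ζ ^ 3) with hd
  have hd0 : 0 < d := by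
    rw [hd, orderOf_pos_iff, isOfFinOrder_iff_pow_eq_one]
    exact ⟨P, hP, by rw [← pow_mul, mul_comm, pow_mul, hζ, one_pow]⟩
  have hd2 : 2 ≤ d := by
    by_contra h
    have h1 : d = 1 := by omega
    rw [hd, orderOf_eq_one_iff] at h1
    exact h3 h1
  have hiff : ∀ k : ℕ, ζ ^ (3 * k) = 1 ↔ d ∣ k := by
    intro k
    rw [pow_mul, ← orderOf_dvd_iff_pow_eq_one]
  have hs : Summable (fun k : ℕ => 1 / (k : ℝ) ^ 2) := Real.summable_one_div_nat_pow.2 (by norm_num)
  have hs2 : Summable (fun k : ℕ => if d ∣ k then 1 / (k : ℝ) ^ 2 / 3 else 0) := by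
    apply Summable.of_nonneg_of_le _ _ hs
    · intro k; split_ifs <;> positivity
    · intro k
      split_ifs
      · have : 0 ≤ 1 / (k : ℝ) ^ 2 := by positivity
        linarith
      · positivity
  have h1 : ‖Λ ζ 0‖ ≤ ∑' k : ℕ, if d ∣ k then 1 / (k : ℝ) ^ 2 / 3 else 0 := by
    apply tsum_of_norm_bounded hs2.hasSum
    intro k
    by_cases hk : d ∣ k
    · rw [if_pos ((hiff k).2 hk), if_pos hk, norm_div, norm_pow, norm_neg, hn, one_pow]
      simp only [Complex.ofReal_zero, zero_mul, add_zero, mul_one]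
      rw [norm_mul, norm_pow, Complex.norm_natCast]
      norm_num
      apply le_of_eq
      ring
    · rw [if_neg (fun h => hk ((hiff k).1 h)), if_neg hk, norm_zero]
  have h2 : ∑' k : ℕ, (if d ∣ k then 1 / (k : ℝ) ^ 2 / 3 else 0) =
      1 / (3 * (d : ℝ) ^ 2) * (Real.pi ^ 2 / 6) := by
    rw [← hasSum_zeta_two.tsum_eq, ← tsum_mul_left]
    have hinj : Function.Injective (fun l : ℕ => d * l) :=
      fun a b h => Nat.eq_of_mul_eq_mul_left hd0 h
    rw [← hinj.tsum_eq]
    · apply tsum_congr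
      intro l
      rw [if_pos (dvd_mul_right d l)]
      rcases Nat.eq_zero_or_pos l with rfl | hl
      · simp
      have hl0 : (l : ℝ) ≠ 0 := by exact_mod_cast hl.ne'
      have hd0' : (d : ℝ) ≠ 0 := by exact_mod_cast hd0.ne'
      push_cast
      field_simp
    · intro k hk
      rw [Function.mem_support] at hk
      have : d ∣ k := by
        by_contra h
        exact hk (if_neg h)
      obtain ⟨l, rfl⟩ := this
      exact ⟨l, rfl⟩
  have h4 := (Complex.re_le_norm (Λ ζ 0)).trans h1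
  rw [h2] at h4
  have hd2' : (2 : ℝ) ≤ d := by exact_mod_cast hd2
  have h5 : 1 / (3 * (d : ℝ) ^ 2) ≤ 1 / 12 := by
    apply one_div_le_one_div_of_le (by norm_num)
    nlinarith
  have h8 := Real.pi_lt_d4
  have h9 := Real.pi_pos
  have h10 : Real.pi ^ 2 ≤ 9.87 := by nlinarith
  have h11 : 1 / (3 * (d : ℝ) ^ 2) * (Real.pi ^ 2 / 6) ≤ 1 / 12 * (9.87 / 6) := by
    apply mul_le_mul h5 (by linarith) (by positivity) (by norm_num)
  have h12 := h4.trans h11
  norm_num at h12 ⊢
  linarith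

/-- the primitive cube root of unity `-exp(-π i / 3)` -/
noncomputable def ω : ℂ := ⟨-1 / 2, Real.sqrt 3 / 2⟩

theorem ω_cube : ω ^ 3 = 1 := by
  have h3 : Real.sqrt 3 ^ 2 = 3 := Real.sq_sqrt (by norm_num)
  have h33 : Real.sqrt 3 ^ 3 = 3 * Real.sqrt 3 := by rw [pow_succ, h3]
  apply Complex.ext
  · rw [pow_succ, pow_two]
    simp only [ω, Complex.mul_re, Complex.mul_im, Complex.one_re]
    nlinarith
  · rw [pow_succ, pow_two]
    simp only [ω, Complex.mul_re, Complex.mul_im, Complex.one_im]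
    nlinarith

theorem ω_sq : ω ^ 2 = ⟨-1 / 2, -(Real.sqrt 3 / 2)⟩ := by
  have h3 : Real.sqrt 3 ^ 2 = 3 := Real.sq_sqrt (by norm_num)
  apply Complex.ext
  · rw [pow_two]
    simp only [ω, Complex.mul_re]
    nlinarith
  · rw [pow_two]
    simp only [ω, Complex.mul_im]
    nlinarith

theorem ω_norm : ‖ω‖ = 1 := by
  have h1 : ‖ω‖ ^ 3 = 1 := by rw [← norm_pow, ω_cube, norm_one]
  exact (pow_eq_one_iff_of_nonneg (norm_nonneg _) (by norm_num)).1 h1

theorem Λ_ω_re_ge : 0.5 ≤ (Λ ω (-1)).re * 3 := by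
  have hn := ω_norm
  have h3 := ω_cube
  have hall : ∀ k : ℕ, ω ^ (3 * k) = 1 := fun k => by rw [pow_mul, h3, one_pow]
  have hI : (1 + ((-1 : ℝ) : ℂ) * Complex.I) ≠ 0 := by
    intro h0
    have := congrArg Complex.re h0
    simp at this
  have e : Λ ω (-1) * 3 = ∑' k : ℕ, (-ω) ^ k * (1 + Complex.I) / 2 / (k : ℂ) ^ 2 := by
    rw [Λ, ← tsum_mul_right]
    apply tsum_congr
    intro k
    rw [if_pos (hall k)]
    rcases Nat.eq_zero_or_pos k with rfl | hk
    · simp
    have hk0 : (k : ℂ) ≠ 0 := by exact_mod_cast hk.ne'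
    rw [div_mul_eq_mul_div, div_div, div_eq_div_iff
      (mul_ne_zero (mul_ne_zero (by norm_num) (pow_ne_zero _ hk0)) hI)
      (mul_ne_zero (by norm_num) (pow_ne_zero _ hk0))]
    push_cast
    linear_combination (3 * (-ω) ^ k * (k : ℂ) ^ 2) * Complex.I_sq
  have hnorm : ‖(1 + Complex.I) / 2‖ ≤ 0.7072 := by
    rw [Complex.norm_def]
    apply Real.sqrt_le_iff.2
    refine ⟨by norm_num, ?_⟩
    simp [Complex.normSq_apply]
    norm_num
  have hb : ∀ k : ℕ, ‖(-ω) ^ k * (1 + Complex.I) / 2 / (k : ℂ) ^ 2‖ ≤ 0.7072 * (1 / (k : ℝ) ^ 2) := by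
    intro k
    rw [norm_div, mul_div_assoc, norm_mul, norm_pow, norm_neg, hn, one_pow, one_mul, norm_pow,
      Complex.norm_natCast, div_eq_mul_one_div]
    exact mul_le_mul_of_nonneg_right hnorm (by positivity)
  have hs : Summable (fun k : ℕ => (-ω) ^ k * (1 + Complex.I) / 2 / (k : ℂ) ^ 2) :=
    Summable.of_norm_bounded ((Real.summable_one_div_nat_pow.2 (by norm_num)).mul_left _) hb
  have e2 : (Λ ω (-1)).re * 3 = ∑' k : ℕ, ((-ω) ^ k * (1 + Complex.I) / 2 / (k : ℂ) ^ 2).re := by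
    rw [← Complex.re_tsum hs, ← e]
    simp
  have hg : ∀ k : ℕ, |((-ω) ^ k * (1 + Complex.I) / 2 / (k : ℂ) ^ 2).re| ≤
      0.7072 * (1 / (k : ℝ) ^ 2) := fun k => (Complex.abs_re_le_norm _).trans (hb k)
  have ht := tail hg
  rw [← e2] at ht
  have ht2 := (abs_le.1 ht).1
  have gen : ∀ (w : ℂ) (a b : ℝ) (k : ℕ), w = ⟨a, b⟩ →
      (w * (1 + Complex.I) / 2 / (k : ℂ) ^ 2).re = (a - b) / 2 / (k : ℝ) ^ 2 := by
    intro w a b k hw
    have e3 : w * (1 + Complex.I) / 2 / (k : ℂ) ^ 2 =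
        (w * (1 + Complex.I)) / ((2 * (k : ℝ) ^ 2 : ℝ) : ℂ) := by push_cast; rw [div_div]
    rw [e3, Complex.div_ofReal_re, hw]
    simp only [Complex.mul_re, Complex.add_re, Complex.one_re, Complex.I_re, Complex.add_im,
      Complex.one_im, Complex.I_im]
    rw [div_div]
    ring
  have w1 : (-ω) ^ 1 = ⟨1 / 2, -(Real.sqrt 3 / 2)⟩ := by
    rw [pow_one]; apply Complex.ext <;> simp [ω]; norm_num
  have w2 : (-ω) ^ 2 = ⟨-1 / 2, -(Real.sqrt 3 / 2)⟩ := by
    rw [← ω_sq]; ring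
  have w3 : (-ω) ^ 3 = ⟨-1, 0⟩ := by
    have : (-ω) ^ 3 = -1 := by linear_combination -h3
    rw [this]; apply Complex.ext <;> simp
  have w4 : (-ω) ^ 4 = ⟨-1 / 2, Real.sqrt 3 / 2⟩ := by
    have : (-ω) ^ 4 = ω := by linear_combination ω * h3
    rw [this, ω]
  have w5 : (-ω) ^ 5 = ⟨1 / 2, Real.sqrt 3 / 2⟩ := by
    have : (-ω) ^ 5 = -ω ^ 2 := by linear_combination (-ω ^ 2) * h3
    rw [this, ω_sq]; apply Complex.ext <;> simp; norm_num
  have w6 : (-ω) ^ 6 = ⟨1, 0⟩ := by
    have : (-ω) ^ 6 = 1 := by linear_combination (ω ^ 3 + 1) * h3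
    rw [this]; apply Complex.ext <;> simp
  have p0 : ((-ω) ^ 0 * (1 + Complex.I) / 2 / ((0 : ℕ) : ℂ) ^ 2).re = 0 := by simp
  simp only [sum_range_succ, sum_range_zero, p0, gen _ _ _ 1 w1, gen _ _ _ 2 w2, gen _ _ _ 3 w3,
    gen _ _ _ 4 w4, gen _ _ _ 5 w5, gen _ _ _ 6 w6] at ht2
  have hs3 : (1.732 : ℝ) ≤ Real.sqrt 3 := Real.le_sqrt_of_sq_le (by norm_num)
  norm_num at ht2 ⊢
  linarith

theorem upper {ζ : ℂ} {P : ℕ} (hP : 1 ≤ P) (hζ : ζ ^ P = 1) :
    ∀ᶠ t in 𝓝[>] (0 : ℝ), ‖Complex.exp (T (pt ζ 0 t))‖ ≤ Real.exp (0.162 / t) := by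
  have hn : ‖ζ‖ = 1 := by
    have h1 : ‖ζ‖ ^ P = 1 := by rw [← norm_pow, hζ, norm_one]
    exact (pow_eq_one_iff_of_nonneg (norm_nonneg _) (by omega)).1 h1
  have h1 := (Complex.continuous_re.tendsto _).comp (tendsto_T hn 0)
  have h2 : (Λ ζ 0).re < 0.162 := by
    by_cases h3 : ζ ^ 3 = 1
    · have := Λ_re_le_of_three h3
      norm_num at this ⊢; linarith
    · have := Λ_re_le_of_ne h3 hP hζ
      norm_num at this ⊢; linarith
  filter_upwards [h1.eventually_lt_const h2, self_mem_nhdsWithin] with t ht ht0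
  have ht0' : 0 < t := ht0
  rw [Complex.norm_exp]
  apply Real.exp_le_exp.2
  simp only [Function.comp_apply, Complex.re_ofReal_mul] at ht
  rw [le_div_iff₀ ht0']
  linarith

theorem lower : ∀ᶠ t in 𝓝[>] (0 : ℝ), Real.exp (0.166 / t) ≤ ‖Complex.exp (T (pt ω (-1) t))‖ := by
  have h1 := (Complex.continuous_re.tendsto _).comp (tendsto_T ω_norm (-1))
  have h2 : 0.166 < (Λ ω (-1)).re := by
    have := Λ_ω_re_ge
    norm_num at this ⊢; linarith
  filter_upwards [h1.eventually_const_lt h2, self_mem_nhdsWithin] with t ht ht0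
  have ht0' : 0 < t := ht0
  rw [Complex.norm_exp]
  apply Real.exp_le_exp.2
  simp only [Function.comp_apply, Complex.re_ofReal_mul] at ht
  rw [div_le_iff₀ ht0']
  linarith

/-! ### The main argument -/

theorem main (a : ℕ → ℤ) (ha : ∀ n, (a n : ℂ) = W A (-1 : ℂ) n) (P N : ℕ) (hP : 1 ≤ P)
    (hper : ∀ n, N ≤ n → SignType.sign (a (n + P)) = SignType.sign (a n)) : False := by
  -- iterate the periodicity
  have hiter : ∀ n, N ≤ n → ∀ m : ℕ, SignType.sign (a (n + P * m)) = SignType.sign (a n) := by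
    intro n hn m
    induction m with
    | zero => rw [mul_zero, add_zero]
    | succ m ih =>
      have e : n + P * (m + 1) = (n + P * m) + P := by ring
      rw [e, hper _ (by omega), ih]
  set ε : ℕ → ℝ := fun n => ((SignType.sign (a (n + P * N)) : ℤ) : ℝ) with hε
  have hNP : N ≤ P * N := Nat.le_mul_of_pos_left N hP
  have hεper : ∀ n m, ε (n + P * m) = ε n := by
    intro n m
    simp only [hε]
    have e : n + P * m + P * N = (n + P * N) + P * m := by ring
    rw [e, hiter _ (by omega)]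
  have hεabs : ∀ n, |ε n| ≤ 1 := by
    intro n
    simp only [hε]
    rcases SignType.sign (a (n + P * N)) with _ | _ | _ <;> simp
  have hεa : ∀ n, N ≤ n → |(a n : ℝ)| = ε n * a n := by
    intro n hn
    simp only [hε]
    rw [hiter n hn]
    have h2 : ((SignType.sign (a n) : ℤ) : ℤ) * a n = |a n| := sign_mul_self (a n)
    rw [← Int.cast_abs, ← h2]
    push_cast
    ring
  -- the root of unity
  set ζ : ℂ := Complex.exp (2 * Real.pi * Complex.I / P) with hζ
  have hprim : IsPrimitiveRoot ζ P := Complex.isPrimitiveRoot_exp P (by omega)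
  have hζP : ζ ^ P = 1 := hprim.pow_eq_one
  have hPC : (P : ℂ) ≠ 0 := by exact_mod_cast (by omega : P ≠ 0)
  have hζn : ‖ζ‖ = 1 := by
    have h1 : ‖ζ‖ ^ P = 1 := by rw [← norm_pow, hζP, norm_one]
    exact (pow_eq_one_iff_of_nonneg (norm_nonneg _) (by omega)).1 h1
  -- the Fourier coefficients
  set c : ℕ → ℂ := fun j => (1 / P : ℂ) * ∑ m ∈ range P, (ε m : ℂ) * (ζ ^ (P - m)) ^ j with hc
  have hcn : ∀ j, ‖c j‖ ≤ 1 := by
    intro j
    simp only [hc]
    rw [norm_mul, norm_div, norm_one, Complex.norm_natCast]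
    have h1 : ‖∑ m ∈ range P, (ε m : ℂ) * (ζ ^ (P - m)) ^ j‖ ≤ P := by
      refine (norm_sum_le _ _).trans ?_
      have : ∀ m ∈ range P, ‖(ε m : ℂ) * (ζ ^ (P - m)) ^ j‖ ≤ 1 := by
        intro m _
        rw [norm_mul, norm_pow, norm_pow, hζn, one_pow, one_pow, mul_one, Complex.norm_real]
        exact hεabs m
      refine (sum_le_sum this).trans ?_
      simp
    have hP0 : (0 : ℝ) < P := by exact_mod_cast hP
    rw [one_div, inv_mul_le_iff₀ hP0, mul_one]
    exact h1
  have hfour : ∀ n, (ε n : ℂ) = ∑ j ∈ range P, c j * (ζ ^ j) ^ n := by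
    intro n
    have h1 : ∑ j ∈ range P, c j * (ζ ^ j) ^ n =
        ∑ m ∈ range P, (ε m : ℂ) * ((1 / P : ℂ) * ∑ j ∈ range P, (ζ ^ (P - m + n)) ^ j) := by
      simp only [hc, mul_sum, sum_mul]
      rw [sum_comm]
      apply sum_congr rfl
      intro m _
      apply sum_congr rfl
      intro j _
      rw [pow_add, mul_pow]
      ring_nf
    rw [h1]
    have h2 : ∀ m ∈ range P, (1 / P : ℂ) * ∑ j ∈ range P, (ζ ^ (P - m + n)) ^ j =
        if m = n % P then 1 else 0 := by
      intro m hm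
      rw [mem_range] at hm
      have hiff : ζ ^ (P - m + n) = 1 ↔ m = n % P := by
        rw [hprim.pow_eq_one_iff_dvd]
        constructor
        · intro hd
          have h3 : (n + (P - m)) % P = 0 := by
            rw [add_comm]; exact Nat.mod_eq_zero_of_dvd hd
          have h4 : m ≡ n [MOD P] := by
            have h5 : m + (P - m + n) ≡ m + 0 [MOD P] :=
              Nat.ModEq.add_left m ((Nat.modEq_zero_iff_dvd).2 hd)
            have h6 : m + (P - m + n) = n + P := by omega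
            rw [h6, add_zero] at h5
            have h7 : n + P ≡ n [MOD P] := by simp [Nat.ModEq]
            exact (h5.symm.trans h7)
          have h8 : m % P = n % P := h4
          rwa [Nat.mod_eq_of_lt hm] at h8
        · intro h
          have h9 := Nat.div_add_mod n P
          refine ⟨n / P + 1, ?_⟩
          have : P * (n / P + 1) = P * (n / P) + P := by ring
          rw [this]
          omega
      split_ifs with h
      · rw [hiff.2 h]
        simp only [one_pow, sum_const, card_range, nsmul_eq_mul, mul_one]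
        field_simp
      · have hne : ζ ^ (P - m + n) ≠ 1 := fun h' => h (hiff.1 h')
        rw [geom_sum_eq hne, ← pow_mul, mul_comm (P - m + n) P, pow_mul, hζP, one_pow, sub_self,
          zero_div, mul_zero]
    rw [sum_congr rfl (fun m hm => by rw [h2 m hm])]
    rw [sum_eq_single (n % P)]
    · rw [if_pos rfl, mul_one]
      have h3 := hεper (n % P) (n / P)
      rw [Nat.mod_add_div] at h3
      rw [h3]
    · intro m _ hm
      rw [if_neg hm, mul_zero]
    · intro h
      exact absurd (mem_range.2 (Nat.mod_lt _ (by omega))) h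
  -- the bound
  set C : ℝ := 2 * ∑ n ∈ range N, |(a n : ℝ)| with hC
  have hC0 : 0 ≤ C := by
    rw [hC]
    have : 0 ≤ ∑ n ∈ range N, |(a n : ℝ)| := sum_nonneg fun n _ => abs_nonneg _
    linarith
  have hmain : ∀ t : ℝ, 0 < t → ‖Complex.exp (T (pt ω (-1) t))‖ ≤
      ∑ j ∈ range P, ‖Complex.exp (T (pt (ζ ^ j) 0 t))‖ + C := by
    intro t ht
    have hr1 : Real.exp (-t) < 1 := by rw [Real.exp_lt_one_iff]; linarith
    have hr0 : 0 < Real.exp (-t) := Real.exp_pos _
    set r := Real.exp (-t) with hr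
    have hzω : ‖pt ω (-1) t‖ = r := norm_pt ω_norm _ _
    have hzj : ∀ j, ‖pt (ζ ^ j) 0 t‖ = r := fun j => norm_pt (by rw [norm_pow, hζn, one_pow]) _ _
    have hptj : ∀ j, pt (ζ ^ j) 0 t = ζ ^ j * (r : ℂ) := by
      intro j
      rw [pt, hr, Complex.ofReal_exp]
      congr 2
      simp
    obtain ⟨g1, g2⟩ := gen (z := pt ω (-1) t) (by rw [hzω]; exact hr1)
    have habs : ∀ (z : ℂ), ‖z‖ = r → ∀ n, ‖W A (-1 : ℂ) n * z ^ n‖ = |(a n : ℝ)| * r ^ n := by
      intro z hz n
      rw [← ha, norm_mul, norm_pow, hz]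
      congr 1
      rw [Complex.norm_intCast]
    have hsum : Summable (fun n => |(a n : ℝ)| * r ^ n) := by
      have := g1
      simp_rw [habs _ hzω] at this
      exact this
    have h1 : ‖Complex.exp (T (pt ω (-1) t))‖ ≤ ∑' n, |(a n : ℝ)| * r ^ n := by
      rw [← g2]
      refine (norm_tsum_le_tsum_norm g1).trans (le_of_eq ?_)
      exact tsum_congr (habs _ hzω)
    have hsε : Summable (fun n => ε n * a n * r ^ n) := by
      apply Summable.of_norm_bounded hsum
      intro n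
      rw [norm_mul, norm_mul, Real.norm_eq_abs, Real.norm_eq_abs, norm_pow, Real.norm_of_nonneg hr0.le]
      apply mul_le_mul_of_nonneg_right _ (pow_nonneg hr0.le _)
      calc |ε n| * |(a n : ℝ)| ≤ 1 * |(a n : ℝ)| :=
            mul_le_mul_of_nonneg_right (hεabs n) (abs_nonneg _)
        _ = |(a n : ℝ)| := one_mul _
    have hsI : Summable (fun n => if n < N then 2 * |(a n : ℝ)| else 0) := by
      apply summable_of_hasFiniteSupport
      apply (Set.finite_lt_nat N).subset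
      intro n hn
      rw [Function.mem_support] at hn
      by_contra h
      exact hn (if_neg h)
    have hI : ∑' n, (if n < N then 2 * |(a n : ℝ)| else 0) = C := by
      rw [tsum_eq_sum (s := range N)]
      · rw [hC, mul_sum]
        apply sum_congr rfl
        intro n hn
        rw [if_pos (mem_range.1 hn)]
      · intro n hn
        rw [if_neg]
        intro h
        exact hn (mem_range.2 h)
    have h2 : ∑' n, |(a n : ℝ)| * r ^ n ≤ ∑' n, ε n * a n * r ^ n + C := by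
      rw [← hI, ← hsε.tsum_add hsI]
      apply hsum.tsum_le_tsum _ (hsε.add hsI)
      intro n
      split_ifs with hn
      · have hrn : r ^ n ≤ 1 := pow_le_one₀ hr0.le hr1.le
        have hrn0 : 0 ≤ r ^ n := pow_nonneg hr0.le _
        have h3 : -|(a n : ℝ)| ≤ ε n * a n := by
          have h4 : |ε n * a n| ≤ |(a n : ℝ)| := by
            rw [abs_mul]
            calc |ε n| * |(a n : ℝ)| ≤ 1 * |(a n : ℝ)| :=
                  mul_le_mul_of_nonneg_right (hεabs n) (abs_nonneg _)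
              _ = |(a n : ℝ)| := one_mul _
          exact (neg_le_neg h4).trans (neg_abs_le _)
        have h5 : 0 ≤ |(a n : ℝ)| := abs_nonneg _
        nlinarith
      · rw [hεa n (by omega)]
        simp
    have h3 : |∑' n, ε n * a n * r ^ n| ≤ ∑ j ∈ range P, ‖Complex.exp (T (pt (ζ ^ j) 0 t))‖ := by
      have h4 : ((∑' n, ε n * a n * r ^ n : ℝ) : ℂ) =
          ∑ j ∈ range P, c j * Complex.exp (T (pt (ζ ^ j) 0 t)) := by
        rw [Complex.ofReal_tsum]
        have h5 : ∀ j ∈ range P, c j * Complex.exp (T (pt (ζ ^ j) 0 t)) =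
            ∑' n, c j * (W A (-1 : ℂ) n * (pt (ζ ^ j) 0 t) ^ n) := by
          intro j _
          rw [tsum_mul_left, (gen (z := pt (ζ ^ j) 0 t) (by rw [hzj]; exact hr1)).2]
        rw [sum_congr rfl h5, ← Summable.tsum_finsetSum]
        · apply tsum_congr
          intro n
          push_cast
          rw [hfour n, sum_mul, sum_mul]
          apply sum_congr rfl
          intro j _
          rw [hptj, mul_pow, ← ha]
          ring
        · intro j _
          exact ((gen (z := pt (ζ ^ j) 0 t) (by rw [hzj]; exact hr1)).1.of_norm).mul_left _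
      have h6 : |∑' n, ε n * a n * r ^ n| = ‖((∑' n, ε n * a n * r ^ n : ℝ) : ℂ)‖ := by
        rw [Complex.norm_real, Real.norm_eq_abs]
      rw [h6, h4]
      refine (norm_sum_le _ _).trans (sum_le_sum ?_)
      intro j _
      rw [norm_mul]
      calc ‖c j‖ * ‖Complex.exp (T (pt (ζ ^ j) 0 t))‖ ≤ 1 * ‖Complex.exp (T (pt (ζ ^ j) 0 t))‖ :=
            mul_le_mul_of_nonneg_right (hcn j) (norm_nonneg _)
        _ = _ := one_mul _
    linarith [le_abs_self (∑' n, ε n * a n * r ^ n)]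
  -- compare the growth rates
  have hup : ∀ᶠ t in 𝓝[>] (0 : ℝ), ∀ j ∈ range P,
      ‖Complex.exp (T (pt (ζ ^ j) 0 t))‖ ≤ Real.exp (0.162 / t) := by
    rw [eventually_all_finset]
    intro j _
    apply upper hP
    rw [← pow_mul, mul_comm, pow_mul, hζP, one_pow]
  have hgrow : Tendsto (fun t : ℝ => Real.exp (0.004 / t)) (𝓝[>] 0) atTop := by
    have h0 : Tendsto (fun t : ℝ => 0.004 * t⁻¹) (𝓝[>] 0) atTop :=
      (tendsto_inv_nhdsGT_zero (𝕜 := ℝ)).const_mul_atTop (by norm_num)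
    exact (Real.tendsto_exp_atTop.comp h0).congr (fun t => by simp [div_eq_mul_inv])
  obtain ⟨t, h1, h2, h3, h4⟩ :=
    (hup.and (lower.and ((hgrow.eventually_gt_atTop (P + C)).and self_mem_nhdsWithin))).exists
  have ht : 0 < t := h4
  have h5 := hmain t ht
  have h6 : ∑ j ∈ range P, ‖Complex.exp (T (pt (ζ ^ j) 0 t))‖ ≤ P * Real.exp (0.162 / t) := by
    refine (sum_le_sum h1).trans ?_
    simp
  have h7 : Real.exp (0.166 / t) = Real.exp (0.162 / t) * Real.exp (0.004 / t) := by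
    rw [← Real.exp_add]; congr 1; ring
  have h8 : 1 ≤ Real.exp (0.162 / t) := Real.one_le_exp (by positivity)
  rw [h7] at h2
  have h9 : Real.exp (0.162 / t) * (P + C) < Real.exp (0.162 / t) * Real.exp (0.004 / t) :=
    mul_lt_mul_of_pos_left h3 (by linarith)
  nlinarith

end Q261.SignPart
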