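import Mathlib

/-!
Rational numbers with odd denominator and power series with such coefficients.
-/

namespace Pool.Agent.Q261.TwoInt

open PowerSeries

/-- The subring of `ℚ` of rational numbers with odd denominator. -/
def Z2 : Subring ℚ where
  carrier := {q | Odd q.den}
  mul_mem' := by
    intro a b ha hb
    exact Odd.of_dvd_nat (ha.mul hb) (Rat.mul_den_dvd a b)
  one_mem' := by simp
  add_mem' := by
    intro a b ha hb
    exact Odd.of_dvd_nat (ha.mul hb) (Rat.add_den_dvd a b)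
  zero_mem' := by simp
  neg_mem' := by
    intro a ha
    simpa using ha

lemma mem_Z2 {q : ℚ} : q ∈ Z2 ↔ Odd q.den := Iff.rfl

lemma int_div_odd (a : ℤ) {m : ℤ} (hm : Odd m) : (a : ℚ) / m ∈ Z2 := by
  have h : ((Rat.divInt a m).den : ℤ) ∣ m := Rat.den_dvd a m
  rw [mem_Z2]
  have h2 : (a : ℚ) / m = Rat.divInt a m := by
    rw [Rat.divInt_eq_div]
  rw [h2]
  have : Odd ((Rat.divInt a m).den : ℤ) := by
    rw [← Int.not_even_iff_odd]
    intro he
    rw [← Int.not_even_iff_odd] at hm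
    exact hm (he.trans_dvd h)
  exact_mod_cast this

lemma nat_div_odd (a : ℕ) {m : ℕ} (hm : Odd m) : (a : ℚ) / m ∈ Z2 := by
  have := int_div_odd (a : ℤ) (m := (m : ℤ)) (by exact_mod_cast hm)
  simpa using this

lemma inv_odd {m : ℕ} (hm : Odd m) : ((m : ℚ))⁻¹ ∈ Z2 := by
  have := nat_div_odd 1 hm
  simpa using this

lemma nat_mem (a : ℕ) : (a : ℚ) ∈ Z2 := by
  simpa using nat_div_odd a odd_one

lemma two_pow_div {a n : ℕ} (hn : n ≠ 0) (h : ∀ e, 2 ^ e ∣ n → e ≤ a) :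
    (2 : ℚ) ^ a / n ∈ Z2 := by
  obtain ⟨e, m, hm, hnm⟩ := Nat.exists_eq_two_pow_mul_odd hn
  have he : e ≤ a := h e ⟨m, hnm⟩
  have hm0 : (m : ℚ) ≠ 0 := by
    rintro h0
    have : m = 0 := by exact_mod_cast h0
    subst this
    simp at hm
  have : (2 : ℚ) ^ a / n = ((2 ^ (a - e) : ℕ) : ℚ) / m := by
    rw [hnm]
    push_cast
    rw [div_eq_div_iff (by positivity) hm0]
    have : (2 : ℚ) ^ a = 2 ^ (a - e) * 2 ^ e := by
      rw [← pow_add]; congr 1; omega
    rw [this]; ring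
  rw [this]
  exact nat_div_odd _ hm

lemma two_pow_div_succ (n : ℕ) : (2 : ℚ) ^ n / ((n : ℚ) + 1) ∈ Z2 := by
  have := two_pow_div (a := n) (n := n + 1) (by omega) (by
    intro e he
    have h1 := Nat.le_of_dvd (by omega) he
    have h2 : e < 2 ^ e := Nat.lt_two_pow_self
    omega)
  push_cast at this
  exact this

lemma two_pow_div_factorial (n : ℕ) : (2 : ℚ) ^ n / (n.factorial : ℚ) ∈ Z2 := by
  refine two_pow_div (a := n) (n := n.factorial) (Nat.factorial_ne_zero n) ?_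
  intro e he
  rcases Nat.eq_zero_or_pos n with h0 | h0
  · subst h0
    have h1 := Nat.le_of_dvd (by simp) he
    have h2 : e < 2 ^ e := Nat.lt_two_pow_self
    simp at h1
    omega
  · have := Nat.emultiplicity_two_factorial_lt (n := n) (by omega)
    have h3 : (e : ℕ∞) ≤ emultiplicity 2 n.factorial := le_emultiplicity_of_pow_dvd he
    have h4 : (e : ℕ∞) < n := lt_of_le_of_lt h3 this
    exact_mod_cast h4.le

lemma two_pow_div_factorial' (n : ℕ) (hn : n ≠ 0) :
    ∃ z ∈ Z2, (2 : ℚ) ^ n / (n.factorial : ℚ) = 2 * z := by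
  obtain ⟨m, rfl⟩ : ∃ m, n = m + 1 := ⟨n - 1, by omega⟩
  refine ⟨(2 : ℚ) ^ m / ((m + 1).factorial : ℚ), ?_, by rw [pow_succ]; ring⟩
  refine two_pow_div (Nat.factorial_ne_zero _) ?_
  intro e he
  have := Nat.emultiplicity_two_factorial_lt (n := m + 1) (by omega)
  have h3 : (e : ℕ∞) ≤ emultiplicity 2 (m + 1).factorial := le_emultiplicity_of_pow_dvd he
  have h4 : (e : ℕ∞) < ((m + 1 : ℕ) : ℕ∞) := lt_of_le_of_lt h3 this
  have h5 : e < m + 1 := by exact_mod_cast h4
  omega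

/-- The subring of power series with all coefficients of odd denominator. -/
def I2 : Subring ℚ⟦X⟧ where
  carrier := {f | ∀ n, coeff n f ∈ Z2}
  mul_mem' := by
    intro a b ha hb n
    rw [coeff_mul]
    exact Z2.sum_mem fun p _ => Z2.mul_mem (ha _) (hb _)
  one_mem' := by
    intro n
    rw [coeff_one]
    split_ifs
    · exact Z2.one_mem
    · exact Z2.zero_mem
  add_mem' := by
    intro a b ha hb n
    rw [map_add]
    exact Z2.add_mem (ha n) (hb n)
  zero_mem' := by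
    intro n
    rw [map_zero]
    exact Z2.zero_mem
  neg_mem' := by
    intro a ha n
    rw [map_neg]
    exact Z2.neg_mem (ha n)

lemma mem_I2 {f : ℚ⟦X⟧} : f ∈ I2 ↔ ∀ n, coeff n f ∈ Z2 := Iff.rfl

lemma C_mem {q : ℚ} (hq : q ∈ Z2) : (C q : ℚ⟦X⟧) ∈ I2 := by
  intro n
  rw [coeff_C]
  split_ifs
  · exact hq
  · exact Z2.zero_mem

lemma X_mem : (X : ℚ⟦X⟧) ∈ I2 := by
  intro n
  rw [coeff_X]
  split_ifs
  · exact Z2.one_mem
  · exact Z2.zero_mem

lemma deriv_mem {f : ℚ⟦X⟧} (hf : f ∈ I2) : d⁄dX ℚ f ∈ I2 := by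
  intro n
  rw [coeff_derivative]
  have : ((n : ℚ) + 1) ∈ Z2 := by exact_mod_cast nat_mem (n + 1)
  exact Z2.mul_mem (hf _) this

lemma inv_mem {f : ℚ⟦X⟧} (hf : f ∈ I2) (h1 : constantCoeff f = 1) : f⁻¹ ∈ I2 := by
  intro n
  induction n using Nat.strong_induction_on with
  | _ n ih =>
    rw [coeff_inv]
    split_ifs with h0
    · rw [h1]; simpa using Z2.one_mem
    · rw [h1]
      refine Z2.mul_mem ?_ (Z2.sum_mem ?_)
      · simpa using Z2.neg_mem Z2.one_mem
      · intro p _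
        split_ifs with h2
        · exact Z2.mul_mem (hf _) (ih _ h2)
        · exact Z2.zero_mem

lemma subst_mem {f g : ℚ⟦X⟧} (hf : f ∈ I2) (hg : g ∈ I2) (h0 : constantCoeff g = 0) :
    f.subst g ∈ I2 := by
  intro n
  rw [coeff_subst' (HasSubst.of_constantCoeff_zero' h0)]
  refine finsum_induction (fun x => x ∈ Z2) Z2.zero_mem (fun x y hx hy => Z2.add_mem hx hy) ?_
  intro d
  rw [smul_eq_mul]
  exact Z2.mul_mem (hf d) (I2.pow_mem hg d n)

lemma rescale_mem {f : ℚ⟦X⟧} (hf : f ∈ I2) {a : ℚ} (ha : a ∈ Z2) : rescale a f ∈ I2 := by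
  intro n
  rw [coeff_rescale]
  exact Z2.mul_mem (Z2.pow_mem ha n) (hf n)

lemma exp_two_mem : rescale (2 : ℚ) (exp ℚ) ∈ I2 := by
  intro n
  rw [coeff_rescale, coeff_exp]
  have := two_pow_div_factorial n
  simpa [div_eq_mul_inv] using this

lemma deriv_rescale (a : ℚ) (f : ℚ⟦X⟧) :
    d⁄dX ℚ (rescale a f) = C a * rescale a (d⁄dX ℚ f) := by
  ext n
  rw [coeff_derivative, coeff_rescale, coeff_C_mul, coeff_rescale, coeff_derivative, pow_succ]
  ring

/-- If `Y(0) = 1` and `Y' = 2 G' Y` with `G` integral then `Y` is integral. -/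
lemma ode_mem {Y G : ℚ⟦X⟧} (hG : G ∈ I2) (hG0 : constantCoeff G = 0)
    (hY : d⁄dX ℚ Y = 2 * d⁄dX ℚ G * Y) (hY0 : constantCoeff Y = 1) : Y ∈ I2 := by
  set E : ℚ⟦X⟧ := (rescale (2 : ℚ) (exp ℚ)).subst G with hE
  have hs : HasSubst G := HasSubst.of_constantCoeff_zero' hG0
  have hE0 : constantCoeff E = 1 := by
    rw [hE, ← coeff_zero_eq_constantCoeff_apply, coeff_subst' hs, finsum_eq_single _ 0]
    · simp
    · intro n hn
      simp [hG0, hn]
  have hEd : d⁄dX ℚ E = 2 * d⁄dX ℚ G * E := by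
    rw [hE, derivative_subst hs, deriv_rescale, derivative_exp, subst_mul hs]
    have : (C (2 : ℚ)).subst G = (2 : ℚ⟦X⟧) := by
      rw [subst_C]; rfl
    rw [this]; ring
  have hEm : E ∈ I2 := subst_mem exp_two_mem hG hG0
  have hinv : E * E⁻¹ = 1 := PowerSeries.mul_inv_cancel _ (by rw [hE0]; exact one_ne_zero)
  have hq : Y * E⁻¹ = 1 := by
    apply derivative.ext
    · rw [Derivation.leibniz, derivative_inv', hY, hEd, smul_eq_mul, smul_eq_mul]
      rw [derivative_one]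
      linear_combination (-2 * Y * d⁄dX ℚ G * E⁻¹) * hinv
    · simp [hY0, hE0]
  have : Y = E := by
    linear_combination E * hq - Y * hinv
  rw [this]; exact hEm

/-- the integral series -/
lemma antideriv_mem {Z : ℚ⟦X⟧} (hZ : Z ∈ I2) :
    ∃ G ∈ I2, constantCoeff G = 0 ∧ d⁄dX ℚ G = rescale (2 : ℚ) Z := by
  refine ⟨PowerSeries.mk (fun n => if n = 0 then 0 else 2 ^ (n - 1) * coeff (n - 1) Z / n), ?_, ?_, ?_⟩
  · intro n
    rw [coeff_mk]
    split_ifs with h
    · exact Z2.zero_mem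
    · obtain ⟨m, rfl⟩ : ∃ m, n = m + 1 := ⟨n - 1, by omega⟩
      have h1 := Z2.mul_mem (two_pow_div_succ m) (hZ m)
      have h2 : (2 : ℚ) ^ (m + 1 - 1) * coeff (m + 1 - 1) Z / ((m + 1 : ℕ) : ℚ)
          = (2 : ℚ) ^ m / ((m : ℚ) + 1) * coeff m Z := by
        push_cast
        ring
      rw [h2]; exact h1
  · rw [← coeff_zero_eq_constantCoeff_apply, coeff_mk, if_pos rfl]
  · ext n
    rw [coeff_derivative, coeff_mk, coeff_rescale]
    have : ((n : ℚ) + 1) ≠ 0 := by positivity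
    simp only [Nat.succ_ne_zero, if_false, Nat.add_sub_cancel]
    push_cast
    field_simp

end Pool.Agent.Q261.TwoInt
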